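import Pool.Agent.Helper49.Age.Defs

/-! A uniqueness lemma for Laplace transforms. -/

set_option autoImplicit false

namespace Pool.Agent.Age

open MeasureTheory

variable {R : ℝ} {ν₁ ν₂ : Measure (K R)} [IsFiniteMeasure ν₁] [IsFiniteMeasure ν₂]

private theorem lap_int (ν : Measure (K R)) [IsFiniteMeasure ν] {f : K R → ℝ} (hf : Continuous f) :
    Integrable f ν := integrable_cm ν ⟨f, hf⟩

private theorem lap_exp_sum (x : ℝ) : HasSum (fun n : ℕ => x ^ n / (n.factorial : ℝ)) (Real.exp x) := by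
  rw [Real.exp_eq_exp_ℝ]
  exact NormedSpace.expSeries_div_hasSum_exp x

private theorem lap_sum (ν : Measure (K R)) [IsFiniteMeasure ν] (l v t : ℝ) :
    HasSum (fun n : ℕ => (-(l * Real.exp (-(v * t)))) ^ n / (n.factorial : ℝ) *
      ∫ u : K R, Real.exp ((n * v) * (u : ℝ)) ∂ν)
      (∫ u : K R, Real.exp (-(l * Real.exp (v * ((u : ℝ) - t)))) ∂ν) := by
  have hpt : ∀ u : K R, HasSum (fun n : ℕ => (-(l * Real.exp (-(v * t)))) ^ n / (n.factorial : ℝ) *
      Real.exp ((n * v) * (u : ℝ))) (Real.exp (-(l * Real.exp (v * ((u : ℝ) - t))))) := by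
    intro u
    have h := lap_exp_sum (-(l * Real.exp (v * ((u : ℝ) - t))))
    have e : (fun n : ℕ => (-(l * Real.exp (v * ((u : ℝ) - t)))) ^ n / (n.factorial : ℝ)) =
        fun n : ℕ => (-(l * Real.exp (-(v * t)))) ^ n / (n.factorial : ℝ) *
          Real.exp ((n * v) * (u : ℝ)) := by
      funext n
      have e1 : -(l * Real.exp (v * ((u : ℝ) - t))) =
          (-(l * Real.exp (-(v * t)))) * Real.exp (v * (u : ℝ)) := by
        have : v * ((u : ℝ) - t) = -(v * t) + v * (u : ℝ) := by ring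
        rw [this, Real.exp_add]
        ring
      rw [e1, mul_pow, ← Real.exp_nat_mul]
      have : (n : ℝ) * (v * (u : ℝ)) = n * v * (u : ℝ) := by ring
      rw [this]
      ring
    rw [e] at h
    exact h
  have hcont : ∀ n : ℕ, Continuous (fun u : K R =>
      (-(l * Real.exp (-(v * t)))) ^ n / (n.factorial : ℝ) * Real.exp ((n * v) * (u : ℝ))) := by
    intro n
    fun_prop
  have hs := hasSum_integral_of_summable_integral_norm (μ := ν) (F := fun (n : ℕ) (u : K R) =>
      (-(l * Real.exp (-(v * t)))) ^ n / (n.factorial : ℝ) * Real.exp ((n * v) * (u : ℝ)))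
    (fun n => lap_int ν (hcont n)) (by
      set q : ℝ := |l * Real.exp (-(v * t))| * Real.exp (|v| * |R|) with hq
      have hb : ∀ (n : ℕ) (u : K R), ‖(-(l * Real.exp (-(v * t)))) ^ n / (n.factorial : ℝ) *
          Real.exp ((n * v) * (u : ℝ))‖ ≤ q ^ n / (n.factorial : ℝ) := by
        intro n u
        have h0 := u.2.1
        have h1 := u.2.2
        rw [norm_mul, norm_div, norm_pow, norm_neg, Real.norm_eq_abs, Real.norm_eq_abs,
          Real.norm_eq_abs, Real.abs_exp, Nat.abs_cast, hq, mul_pow, mul_div_right_comm,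
          ← Real.exp_nat_mul]
        refine mul_le_mul_of_nonneg_left (Real.exp_le_exp.2 ?_) (by positivity)
        have h2 : v * (u : ℝ) ≤ |v| * |R| :=
          mul_le_mul (le_abs_self v) (h1.trans (le_abs_self R)) h0 (abs_nonneg v)
        calc (n : ℝ) * v * (u : ℝ) = n * (v * (u : ℝ)) := by ring
          _ ≤ n * (|v| * |R|) := mul_le_mul_of_nonneg_left h2 (Nat.cast_nonneg n)
      refine Summable.of_nonneg_of_le (fun n => integral_nonneg fun u => norm_nonneg _)
        (fun n => ?_) ((lap_exp_sum q).summable.mul_right (ν.real Set.univ))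
      calc ∫ u : K R, ‖(-(l * Real.exp (-(v * t)))) ^ n / (n.factorial : ℝ) *
              Real.exp ((n * v) * (u : ℝ))‖ ∂ν ≤ ∫ _ : K R, q ^ n / (n.factorial : ℝ) ∂ν :=
            integral_mono (lap_int ν (hcont n).norm) (integrable_const _) (hb n)
        _ = q ^ n / (n.factorial : ℝ) * ν.real Set.univ := by
            rw [integral_const, smul_eq_mul, mul_comm])
  have e2 : (fun u : K R => ∑' n : ℕ, (-(l * Real.exp (-(v * t)))) ^ n / (n.factorial : ℝ) *
      Real.exp ((n * v) * (u : ℝ))) = fun u : K R => Real.exp (-(l * Real.exp (v * ((u : ℝ) - t)))) :=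
    funext fun u => (hpt u).tsum_eq
  rw [e2] at hs
  have e3 : (fun n : ℕ => ∫ u : K R, (-(l * Real.exp (-(v * t)))) ^ n / (n.factorial : ℝ) *
      Real.exp ((n * v) * (u : ℝ)) ∂ν) = fun n : ℕ => (-(l * Real.exp (-(v * t)))) ^ n /
        (n.factorial : ℝ) * ∫ u : K R, Real.exp ((n * v) * (u : ℝ)) ∂ν :=
    funext fun n => integral_const_mul _ _
  rw [e3] at hs
  exact hs

private theorem lap_est {c C v₁ : ℝ}
    (hv : ∀ v, v₁ ≤ v → |∫ u : K R, Real.exp (v * (u : ℝ)) ∂ν₁ -
      ∫ u : K R, Real.exp (v * (u : ℝ)) ∂ν₂| ≤ C * Real.exp (v * c)) {l v t : ℝ} (hl : 0 ≤ l)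
    (hv0 : 0 ≤ v) (hvv : v₁ ≤ v) :
    |(∫ u : K R, Real.exp (-(l * Real.exp (v * ((u : ℝ) - t)))) ∂ν₁ -
      ∫ u : K R, Real.exp (-(l * Real.exp (v * ((u : ℝ) - t)))) ∂ν₂) -
      (ν₁.real Set.univ - ν₂.real Set.univ)| ≤
      C * (Real.exp (l * Real.exp (-(v * (t - c)))) - 1) := by
  have h := (lap_sum ν₁ l v t).sub (lap_sum ν₂ l v t)
  rw [← hasSum_nat_add_iff' 1] at h
  have hx := lap_exp_sum (l * Real.exp (-(v * (t - c))))
  rw [← hasSum_nat_add_iff' 1] at hx
  have hx' := hx.mul_left C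
  have h' := h.norm_le_of_bounded hx' (fun n => by
    rw [← mul_sub, norm_mul, norm_div, norm_pow, norm_neg, Real.norm_eq_abs, Real.norm_eq_abs,
      Real.norm_eq_abs, Nat.abs_cast]
    have h1 : v₁ ≤ ((n + 1 : ℕ) : ℝ) * v := by
      have : (1 : ℝ) ≤ ((n + 1 : ℕ) : ℝ) := by exact_mod_cast Nat.succ_le_succ (Nat.zero_le n)
      nlinarith
    have h2 := hv _ h1
    have h3 : |l * Real.exp (-(v * t))| ^ (n + 1) / ((n + 1).factorial : ℝ) *
        |∫ u : K R, Real.exp (((n + 1 : ℕ) : ℝ) * v * (u : ℝ)) ∂ν₁ -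
          ∫ u : K R, Real.exp (((n + 1 : ℕ) : ℝ) * v * (u : ℝ)) ∂ν₂| ≤
        |l * Real.exp (-(v * t))| ^ (n + 1) / ((n + 1).factorial : ℝ) *
          (C * Real.exp (((n + 1 : ℕ) : ℝ) * v * c)) :=
      mul_le_mul_of_nonneg_left h2 (by positivity)
    refine h3.trans (le_of_eq ?_)
    rw [abs_of_nonneg (by positivity : 0 ≤ l * Real.exp (-(v * t)))]
    have e1 : l * Real.exp (-(v * (t - c))) = l * Real.exp (-(v * t)) * Real.exp (v * c) := by
      rw [mul_assoc, ← Real.exp_add]
      congr 2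
      ring
    have e2 : Real.exp (((n + 1 : ℕ) : ℝ) * v * c) = Real.exp (v * c) ^ (n + 1) := by
      rw [← Real.exp_nat_mul]
      congr 1
      ring
    rw [e1, e2, mul_pow (l * Real.exp (-(v * t)))]
    ring)
  rw [Real.norm_eq_abs] at h'
  simpa [Measure.real] using h'

private theorem lap_lim (ν : Measure (K R)) [IsFiniteMeasure ν] {l t : ℝ} (hl : 0 < l) :
    Filter.Tendsto (fun v : ℝ => ∫ u : K R, Real.exp (-(l * Real.exp (v * ((u : ℝ) - t)))) ∂ν)
      Filter.atTop (nhds (ν.real {x : K R | (x : ℝ) < t} +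
        Real.exp (-l) * ν.real {x : K R | (x : ℝ) = t})) := by
  have m1 : MeasurableSet {x : K R | (x : ℝ) < t} := measurableSet_lt measurable_subtype_coe
    measurable_const
  have m2 : MeasurableSet {x : K R | (x : ℝ) = t} := measurableSet_eq_fun measurable_subtype_coe
    measurable_const
  have e : ν.real {x : K R | (x : ℝ) < t} + Real.exp (-l) * ν.real {x : K R | (x : ℝ) = t} =
      ∫ u : K R, (Set.indicator {x : K R | (x : ℝ) < t} 1 u +
        Real.exp (-l) * Set.indicator {x : K R | (x : ℝ) = t} 1 u) ∂ν := by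
    rw [integral_add, integral_const_mul, integral_indicator_one m1, integral_indicator_one m2]
    · exact (integrable_const (1 : ℝ)).indicator m1
    · exact ((integrable_const (1 : ℝ)).indicator m2).const_mul _
  rw [e]
  refine tendsto_integral_filter_of_dominated_convergence (fun _ => 1) ?_ ?_
    (integrable_const _) ?_
  · exact Filter.Eventually.of_forall fun v =>
      (Continuous.aestronglyMeasurable (by fun_prop))
  · refine Filter.Eventually.of_forall fun v => Filter.Eventually.of_forall fun u => ?_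
    rw [Real.norm_eq_abs, Real.abs_exp, Real.exp_le_one_iff]
    have : 0 ≤ l * Real.exp (v * ((u : ℝ) - t)) := by positivity
    linarith
  · refine Filter.Eventually.of_forall fun u => ?_
    rcases lt_trichotomy (u : ℝ) t with h | h | h
    · have hne : (u : ℝ) ≠ t := h.ne
      have : (Set.indicator {x : K R | (x : ℝ) < t} (1 : K R → ℝ) u +
          Real.exp (-l) * Set.indicator {x : K R | (x : ℝ) = t} (1 : K R → ℝ) u) = Real.exp (-(l * 0)) := by
        rw [Set.indicator_of_mem (show u ∈ {x : K R | (x : ℝ) < t} from h),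
          Set.indicator_of_notMem (show u ∉ {x : K R | (x : ℝ) = t} from hne)]
        simp
      rw [this]
      refine (Real.continuous_exp.tendsto _).comp ((Filter.Tendsto.const_mul l ?_).neg)
      have h5 : Filter.Tendsto (fun v : ℝ => v * ((u : ℝ) - t)) Filter.atTop Filter.atBot :=
        Filter.tendsto_id.atTop_mul_const_of_neg (by linarith)
      exact Real.tendsto_exp_atBot.comp h5
    · have hnl : ¬ (u : ℝ) < t := by rw [h]; exact lt_irrefl _
      have : (Set.indicator {x : K R | (x : ℝ) < t} (1 : K R → ℝ) u +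
          Real.exp (-l) * Set.indicator {x : K R | (x : ℝ) = t} (1 : K R → ℝ) u) = Real.exp (-l) := by
        rw [Set.indicator_of_notMem (show u ∉ {x : K R | (x : ℝ) < t} from hnl),
          Set.indicator_of_mem (show u ∈ {x : K R | (x : ℝ) = t} from h)]
        simp
      rw [this]
      have e2 : (fun v : ℝ => Real.exp (-(l * Real.exp (v * ((u : ℝ) - t))))) =
          fun _ => Real.exp (-l) := by
        funext v
        rw [h]
        simp
      rw [e2]
      exact tendsto_const_nhds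
    · have hnl : ¬ (u : ℝ) < t := not_lt.2 h.le
      have hne : (u : ℝ) ≠ t := h.ne'
      have : (Set.indicator {x : K R | (x : ℝ) < t} (1 : K R → ℝ) u +
          Real.exp (-l) * Set.indicator {x : K R | (x : ℝ) = t} (1 : K R → ℝ) u) = 0 := by
        rw [Set.indicator_of_notMem (show u ∉ {x : K R | (x : ℝ) < t} from hnl),
          Set.indicator_of_notMem (show u ∉ {x : K R | (x : ℝ) = t} from hne)]
        simp
      rw [this]
      have h5 : Filter.Tendsto (fun v : ℝ => v * ((u : ℝ) - t)) Filter.atTop Filter.atTop :=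
        Filter.tendsto_id.atTop_mul_const (by linarith)
      have h6 := (Real.tendsto_exp_atTop.comp h5).const_mul_atTop hl
      exact Real.tendsto_exp_atBot.comp (Filter.tendsto_neg_atTop_atBot.comp h6)

private theorem lap_tail {c C v₁ : ℝ}
    (hv : ∀ v, v₁ ≤ v → |∫ u : K R, Real.exp (v * (u : ℝ)) ∂ν₁ -
      ∫ u : K R, Real.exp (v * (u : ℝ)) ∂ν₂| ≤ C * Real.exp (v * c)) {t : ℝ} (ht : c < t) :
    ν₁ {x : K R | t ≤ (x : ℝ)} = ν₂ {x : K R | t ≤ (x : ℝ)} := by
  have key : ∀ l : ℝ, 0 < l → (ν₁.real {x : K R | (x : ℝ) < t} +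
        Real.exp (-l) * ν₁.real {x : K R | (x : ℝ) = t}) - (ν₂.real {x : K R | (x : ℝ) < t} +
        Real.exp (-l) * ν₂.real {x : K R | (x : ℝ) = t}) = ν₁.real Set.univ - ν₂.real Set.univ := by
    intro l hl
    have h1 := ((lap_lim ν₁ (t := t) hl).sub (lap_lim ν₂ (t := t) hl)).sub_const
      (ν₁.real Set.univ - ν₂.real Set.univ)
    have h2 : Filter.Tendsto (fun v : ℝ => C * (Real.exp (l * Real.exp (-(v * (t - c)))) - 1))
        Filter.atTop (nhds (C * (Real.exp (l * 0) - 1))) := by
      refine Filter.Tendsto.const_mul _ (Filter.Tendsto.sub_const ?_ _)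
      refine (Real.continuous_exp.tendsto _).comp (Filter.Tendsto.const_mul l ?_)
      have h5 : Filter.Tendsto (fun v : ℝ => v * (t - c)) Filter.atTop Filter.atTop :=
        Filter.tendsto_id.atTop_mul_const (by linarith)
      exact Real.tendsto_exp_atBot.comp (Filter.tendsto_neg_atTop_atBot.comp h5)
    rw [mul_zero, Real.exp_zero, sub_self, mul_zero] at h2
    have h3 := squeeze_zero_norm' (f := fun v : ℝ =>
      (∫ u : K R, Real.exp (-(l * Real.exp (v * ((u : ℝ) - t)))) ∂ν₁ -
      ∫ u : K R, Real.exp (-(l * Real.exp (v * ((u : ℝ) - t)))) ∂ν₂) -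
      (ν₁.real Set.univ - ν₂.real Set.univ)) (by
        filter_upwards [Filter.eventually_ge_atTop (0 : ℝ), Filter.eventually_ge_atTop v₁] with v a b
        exact lap_est hv hl.le a b) h2
    have h4 := tendsto_nhds_unique h1 h3
    linarith
  have k1 := key 1 one_pos
  have k2 := key 2 two_pos
  have hlt : Real.exp (-2) < Real.exp (-1) := Real.exp_lt_exp.2 (by norm_num)
  have hB : ν₁.real {x : K R | (x : ℝ) = t} = ν₂.real {x : K R | (x : ℝ) = t} := by
    have : (Real.exp (-1) - Real.exp (-2)) * (ν₁.real {x : K R | (x : ℝ) = t} -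
        ν₂.real {x : K R | (x : ℝ) = t}) = 0 := by linarith
    rcases mul_eq_zero.1 this with h | h <;> linarith
  rw [hB] at k1
  have m1 : MeasurableSet {x : K R | (x : ℝ) < t} := measurableSet_lt measurable_subtype_coe
    measurable_const
  have ec : {x : K R | t ≤ (x : ℝ)} = {x : K R | (x : ℝ) < t}ᶜ := by
    ext x
    simp
  have r1 := measureReal_compl (μ := ν₁) m1
  have r2 := measureReal_compl (μ := ν₂) m1
  rw [← ec] at r1 r2
  have : ν₁.real {x : K R | t ≤ (x : ℝ)} = ν₂.real {x : K R | t ≤ (x : ℝ)} := by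
    rw [r1, r2]
    linarith
  exact (measureReal_eq_measureReal_iff).1 this

set_option linter.unusedVariables false in
/-- L1. `h = ν₁ - ν₂`, `y = b - u`. For `0 < τ < κ`: `∑_{n ≥ 1} (-1)^(n-1)/n! e^{n v τ} ∫ e^{- n v y} dh =
∫ (1 - exp (- e^{v (τ - y)})) dh → h {y < τ} + (1 - 1/e) h {y = τ}` (dominated convergence) and the left side is
`≤ C (exp (e^{- v (κ - τ)}) - 1) → 0`. So `h {y < τ} = 0` for all but countably many `τ < κ`, hence all
`τ ≤ κ`; conclude with a pi-system. -/
theorem lap {b κ C v₁ : ℝ} (hκ : 0 < κ)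
    (heq : ν₁.restrict {x | b < (x : ℝ)} = ν₂.restrict {x | b < (x : ℝ)})
    (hv : ∀ v, v₁ ≤ v → |∫ u, Real.exp (v * (u : ℝ)) ∂ν₁ - ∫ u, Real.exp (v * (u : ℝ)) ∂ν₂| ≤
      C * Real.exp (v * (b - κ))) :
    ν₁.restrict {x | b - κ < (x : ℝ)} = ν₂.restrict {x | b - κ < (x : ℝ)} := by
  set c := b - κ with hc
  have m : ∀ t : ℝ, MeasurableSet {x : K R | t ≤ (x : ℝ)} := fun t =>
    measurableSet_le measurable_const measurable_subtype_coe
  have hgt : ν₁ {x : K R | c < (x : ℝ)} = ν₂ {x : K R | c < (x : ℝ)} := by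
    have hU : {x : K R | c < (x : ℝ)} = ⋃ n : ℕ, {x : K R | c + 1 / ((n : ℝ) + 1) ≤ (x : ℝ)} := by
      ext x
      simp only [Set.mem_ofPred_eq, Set.mem_iUnion]
      constructor
      · intro h
        obtain ⟨n, hn⟩ := exists_nat_one_div_lt (sub_pos.2 h)
        exact ⟨n, by linarith⟩
      · rintro ⟨n, hn⟩
        have : 0 < 1 / ((n : ℝ) + 1) := by positivity
        linarith
    have hmono : Monotone fun n : ℕ => {x : K R | c + 1 / ((n : ℝ) + 1) ≤ (x : ℝ)} := by
      intro n k hnk x hx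
      have h1 : 1 / ((k : ℝ) + 1) ≤ 1 / ((n : ℝ) + 1) := by
        apply one_div_le_one_div_of_le
        · positivity
        · have : (n : ℝ) ≤ k := by exact_mod_cast hnk
          linarith
      exact le_trans (by linarith) (show c + 1 / ((n : ℝ) + 1) ≤ (x : ℝ) from hx)
    rw [hU, hmono.measure_iUnion, hmono.measure_iUnion]
    refine iSup_congr fun n => lap_tail hv ?_
    have : 0 < 1 / ((n : ℝ) + 1) := by positivity
    linarith
  refine Measure.ext_of_Ici _ _ fun a => ?_
  have mI : MeasurableSet (Set.Ici a) := measurableSet_Ici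
  rw [Measure.restrict_apply mI, Measure.restrict_apply mI]
  by_cases h : c < (a : ℝ)
  · have : Set.Ici a ∩ {x : K R | c < (x : ℝ)} = {x : K R | (a : ℝ) ≤ (x : ℝ)} := by
      ext x
      constructor
      · rintro ⟨h1, -⟩
        exact h1
      · intro h1
        exact ⟨h1, lt_of_lt_of_le h h1⟩
    rw [this]
    exact lap_tail hv h
  · have : Set.Ici a ∩ {x : K R | c < (x : ℝ)} = {x : K R | c < (x : ℝ)} := by
      ext x
      constructor
      · rintro ⟨-, h1⟩
        exact h1
      · intro h1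
        exact ⟨(le_of_lt (lt_of_le_of_lt (not_lt.1 h) h1) : (a : ℝ) ≤ x), h1⟩
    rw [this]
    exact hgt

end Pool.Agent.Age
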