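import Pool.Agent.Helper49.Age.Defs

/-! The operators with kernels `(x-u)⁺`, `(u-x)⁺`, `min x u`. -/

set_option autoImplicit false

namespace Pool.Agent.Age

open MeasureTheory

private theorem volK_pow (n : ℕ) {x u : ℝ} (hu : 0 ≤ u) (hux : u ≤ x) :
    ((n : ℝ) + 1) * ((x - u) * u ^ n) ≤ x ^ (n + 1) - u ^ (n + 1) := by
  induction n with
  | zero => simp
  | succ n ih =>
    have h1 : u ^ (n + 1) ≤ x ^ (n + 1) := pow_le_pow_left₀ hu hux _
    have h2 := mul_le_mul_of_nonneg_right ih hu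
    have h3 : 0 ≤ (x ^ (n + 1) - u ^ (n + 1)) * (x - u) :=
      mul_nonneg (by linarith) (by linarith)
    push_cast
    calc ((n : ℝ) + 1 + 1) * ((x - u) * u ^ (n + 1))
        = ((n : ℝ) + 1) * ((x - u) * u ^ n) * u + (x - u) * u ^ (n + 1) := by ring
      _ ≤ (x ^ (n + 1) - u ^ (n + 1)) * u + (x - u) * u ^ (n + 1) := by linarith
      _ ≤ x ^ (n + 1 + 1) - u ^ (n + 1 + 1) := by
        have e : x ^ (n + 1 + 1) - u ^ (n + 1 + 1) - ((x ^ (n + 1) - u ^ (n + 1)) * u +
          (x - u) * u ^ (n + 1)) = (x ^ (n + 1) - u ^ (n + 1)) * (x - u) := by ring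
        linarith

private theorem volK_max (n : ℕ) {x u : ℝ} (hu : 0 ≤ u) (hx : 0 ≤ x) :
    max (x - u) 0 * u ^ n ≤ x ^ (n + 1) / ((n : ℝ) + 1) := by
  rcases le_total u x with h | h
  · rw [max_eq_left (by linarith), le_div_iff₀ (by positivity)]
    have h1 := volK_pow n hu h
    have h2 : 0 ≤ u ^ (n + 1) := by positivity
    nlinarith
  · rw [max_eq_right (by linarith), zero_mul]
    positivity

variable {R : ℝ} (ν : Measure (K R)) [IsFiniteMeasure ν]

private theorem volK_gen (k : C(K R × K R, ℝ)) (φ : K R → ℝ) (hφ0 : ∀ x, 0 ≤ φ x)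
    (hφR : ∀ x, φ x ≤ R) (hk : ∀ x u, k (x, u) = max (φ x - φ u) 0) : Volt (op k ν) := by
  have hpos : ∀ f : C(K R, ℝ), 0 ≤ f → 0 ≤ op k ν f := by
    intro f hf x
    change 0 ≤ ∫ u, k (x, u) * f u ∂ν
    refine integral_nonneg fun u => ?_
    rw [Pi.zero_apply, hk]
    exact mul_nonneg (le_max_right _ _) (hf u)
  refine ⟨hpos, fun L => ?_⟩
  obtain ⟨C, hC⟩ : ∃ C, C = ν.real Set.univ := ⟨_, rfl⟩
  have hC0 : 0 ≤ C := by rw [hC]; exact measureReal_nonneg
  have key : ∀ n : ℕ, ∀ x : K R, 0 ≤ ((op k ν) ^ n) 1 x ∧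
      ((op k ν) ^ n) 1 x ≤ C ^ n * φ x ^ n / (n.factorial : ℝ) := by
    intro n
    induction n with
    | zero =>
      intro x
      simp
    | succ n ih =>
      intro x
      rw [pow_succ', ContinuousLinearMap.mul_apply]
      constructor
      · exact hpos _ (fun y => (ih y).1) x
      · rw [op_apply]
        have h1 : ∀ u : K R, k (x, u) * ((op k ν ^ n) 1) u ≤
            C ^ n * φ x ^ (n + 1) / ((n + 1).factorial : ℝ) := by
          intro u
          rw [hk]
          have h2 := volK_max n (hφ0 u) (hφ0 x)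
          calc max (φ x - φ u) 0 * ((op k ν ^ n) 1) u
              ≤ max (φ x - φ u) 0 * (C ^ n * φ u ^ n / (n.factorial : ℝ)) :=
                mul_le_mul_of_nonneg_left (ih u).2 (le_max_right _ _)
            _ = C ^ n / (n.factorial : ℝ) * (max (φ x - φ u) 0 * φ u ^ n) := by ring
            _ ≤ C ^ n / (n.factorial : ℝ) * (φ x ^ (n + 1) / ((n : ℝ) + 1)) :=
                mul_le_mul_of_nonneg_left h2 (by positivity)
            _ = C ^ n * φ x ^ (n + 1) / ((n + 1).factorial : ℝ) := by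
                rw [Nat.factorial_succ]
                push_cast
                field_simp
        have h3 : ∫ u, k (x, u) * ((op k ν ^ n) 1) u ∂ν ≤
            ∫ u, C ^ n * φ x ^ (n + 1) / ((n + 1).factorial : ℝ) ∂ν := by
          apply integral_mono
          · exact integrable_cm ν ((ContinuousMap.curry k x) * ((op k ν ^ n) 1))
          · exact integrable_const _
          · exact h1
        refine h3.trans (le_of_eq ?_)
        rw [integral_const, smul_eq_mul, ← hC]
        ring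
  have hb : ∀ n : ℕ, ‖L ^ n * ‖((op k ν) ^ n) 1‖‖ ≤ (|L| * (C * |R|)) ^ n / (n.factorial : ℝ) := by
    intro n
    have h1 : ‖((op k ν) ^ n) 1‖ ≤ (C * |R|) ^ n / (n.factorial : ℝ) := by
      refine (ContinuousMap.norm_le _ (by positivity)).mpr fun x => ?_
      rw [Real.norm_eq_abs, abs_of_nonneg (key n x).1]
      refine (key n x).2.trans ?_
      rw [mul_pow]
      have h2 : φ x ^ n ≤ |R| ^ n :=
        pow_le_pow_left₀ (hφ0 x) ((hφR x).trans (le_abs_self R)) n
      gcongr
    rw [norm_mul, norm_pow, norm_norm, Real.norm_eq_abs, mul_pow, mul_div_assoc]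
    exact mul_le_mul_of_nonneg_left h1 (by positivity)
  exact squeeze_zero_norm hb (FloorSemiring.tendsto_pow_div_factorial_atTop _)

/-- K1: `(T ^ n) 1 (x) ≤ ν(K)^n x^n / n!`, because `(x - u) u^j ≤ x^(j+1)/(j+1)`. -/
theorem volt_F : Volt (op kF ν) := by
  apply volK_gen ν kF (fun x => (x : ℝ)) (fun x => x.2.1) (fun x => x.2.2)
  intro x u
  exact kF_apply x u

/-- K2: `(T ^ n) 1 (x) ≤ ν(K)^n (R - x)^n / n!`. -/
theorem volt_B : Volt (op kB ν) := by
  apply volK_gen ν kB (fun x => R - (x : ℝ)) (fun x => sub_nonneg.2 x.2.2)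
    (fun x => by have := x.2.1; linarith)
  intro x u
  rw [kB_apply]
  congr 1
  ring

/-- K3 -/
theorem op_kM_eq_F (f : C(K R, ℝ)) : op kM ν f = (la ν f) • idc - op kF ν f := by
  ext x
  change ∫ u, kM (x, u) * f u ∂ν = (∫ u, f u ∂ν) * (x : ℝ) - ∫ u, kF (x, u) * f u ∂ν
  rw [mul_comm, ← integral_const_mul, ← integral_sub]
  · congr 1
    funext u
    rw [kM_apply, kF_apply]
    rcases le_total (x : ℝ) u with h | h
    · rw [min_eq_left h, max_eq_right (by linarith)]
      ring
    · rw [min_eq_right h, max_eq_left (by linarith)]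
      ring
  · exact (integrable_cm ν f).const_mul _
  · exact integrable_cm ν ((ContinuousMap.curry kF x) * f)

/-- K4 -/
theorem op_kM_eq_B (f : C(K R, ℝ)) : op kM ν f = cst (la ν (idc * f)) - op kB ν f := by
  ext x
  change ∫ u, kM (x, u) * f u ∂ν = (∫ u, (u : ℝ) * f u ∂ν) - ∫ u, kB (x, u) * f u ∂ν
  rw [← integral_sub]
  · congr 1
    funext u
    rw [kM_apply, kB_apply]
    rcases le_total (x : ℝ) u with h | h
    · rw [min_eq_left h, max_eq_left (by linarith)]
      ring
    · rw [min_eq_right h, max_eq_right (by linarith)]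
      ring
  · exact integrable_cm ν (idc * f)
  · exact integrable_cm ν ((ContinuousMap.curry kB x) * f)

/-- K5 -/
theorem op_symm (f g : C(K R, ℝ)) : la ν (f * op kM ν g) = la ν (g * op kM ν f) := by
  change ∫ x, f x * ∫ u, kM (x, u) * g u ∂ν ∂ν = ∫ u, g u * ∫ x, kM (u, x) * f x ∂ν ∂ν
  simp_rw [← integral_const_mul]
  rw [integral_integral_swap]
  · congr 1
    funext u
    congr 1
    funext x
    rw [kM_apply, kM_apply, min_comm]
    ring
  · have hc : Continuous (fun p : K R × K R => f p.1 * (kM (p.1, p.2) * g p.2)) := by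
      fun_prop
    have hb : ∀ p : K R × K R, ‖f p.1 * (kM (p.1, p.2) * g p.2)‖ ≤
        ‖f‖ * (‖(kM : C(K R × K R, ℝ))‖ * ‖g‖) := by
      intro p
      rw [norm_mul, norm_mul]
      exact mul_le_mul (f.norm_coe_le_norm _) (mul_le_mul (kM.norm_coe_le_norm _)
        (g.norm_coe_le_norm _) (norm_nonneg _) (norm_nonneg _)) (by positivity) (norm_nonneg _)
    exact Integrable.of_bound hc.aestronglyMeasurable _ (Filter.Eventually.of_forall hb)

end Pool.Agent.Age
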