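import Pool.Agent.Helper49.Age.Defs
import Pool.Agent.Helper49.Age.VolK

/-! Elementary bounds on the curve. -/

set_option autoImplicit false

namespace Pool.Agent.Age

open MeasureTheory

variable {R : ℝ} {ν₁ ν₂ : Measure (K R)} [IsFiniteMeasure ν₁] [IsFiniteMeasure ν₂]
  {a V : ℝ → ℝ} {w₁ w₂ : ℝ → C(K R, ℝ)}

private theorem int_ex_nonneg (ν : Measure (K R)) (w : C(K R, ℝ)) :
    0 ≤ ∫ u, Real.exp (w u) ∂ν :=
  integral_nonneg fun _ => (Real.exp_pos _).le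

theorem cur_V_nonneg (h : Cur ν₁ ν₂ a V w₁ w₂) (M : ℝ) : 0 ≤ V M := by
  rw [← h.V₁ M, la_apply]
  exact int_ex_nonneg ν₁ (w₁ M)

private theorem ge_aux (ν : Measure (K R)) [IsFiniteMeasure ν] (b : ℝ) (w : C(K R, ℝ))
    (hw : w = cst b + op kM ν (ex w)) (x : K R) : b ≤ w x := by
  have h1 : w x = b + ∫ u, min (x : ℝ) u * Real.exp (w u) ∂ν := by
    have := DFunLike.congr_fun hw x
    rw [this]
    rfl
  rw [h1]
  have h2 : 0 ≤ ∫ u, min (x : ℝ) u * Real.exp (w u) ∂ν :=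
    integral_nonneg fun u => mul_nonneg (le_min x.2.1 u.2.1) (Real.exp_pos _).le
  linarith

theorem cur_ge₁ (h : Cur ν₁ ν₂ a V w₁ w₂) (M : ℝ) (x : K R) : a M ≤ w₁ M x :=
  ge_aux ν₁ _ _ (h.eq₁ M) x

theorem cur_ge₂ (h : Cur ν₁ ν₂ a V w₁ w₂) (M : ℝ) (x : K R) : a M ≤ w₂ M x :=
  ge_aux ν₂ _ _ (h.eq₂ M) x

private theorem fw_aux (ν : Measure (K R)) [IsFiniteMeasure ν] (b W : ℝ) (w : C(K R, ℝ))
    (hw : w = cst b + op kM ν (ex w)) (hW : la ν (ex w) = W) (x : K R) :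
    w x = b + W * x - ∫ u, max ((x : ℝ) - u) 0 * Real.exp (w u) ∂ν := by
  have h1 : w x = b + ∫ u, min (x : ℝ) u * Real.exp (w u) ∂ν := by
    have := DFunLike.congr_fun hw x
    rw [this]
    rfl
  have h2 : ∫ u, min (x : ℝ) u * Real.exp (w u) ∂ν =
      ∫ u, ((x : ℝ) * Real.exp (w u) - max ((x : ℝ) - u) 0 * Real.exp (w u)) ∂ν := by
    congr 1
    funext u
    have : min (x : ℝ) u = x - max ((x : ℝ) - u) 0 := by
      rcases le_total (x : ℝ) u with hu | hu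
      · rw [min_eq_left hu, max_eq_right (by linarith)]; ring
      · rw [min_eq_right hu, max_eq_left (by linarith)]; ring
    rw [this]
    ring
  have i1 : Integrable (fun u : K R => (x : ℝ) * Real.exp (w u)) ν :=
    (integrable_cm ν (ex w)).const_mul _
  have i2 : Integrable (fun u : K R => max ((x : ℝ) - u) 0 * Real.exp (w u)) ν :=
    integrable_cm ν ((ContinuousMap.curry kF x) * ex w)
  rw [h1, h2, integral_sub i1 i2, integral_const_mul]
  rw [la_apply] at hW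
  simp only [ex_apply] at hW
  rw [hW]
  ring

/-- forward form -/
theorem cur_fw₁ (h : Cur ν₁ ν₂ a V w₁ w₂) (M : ℝ) (x : K R) :
    w₁ M x = a M + V M * x - ∫ u, max ((x : ℝ) - u) 0 * Real.exp (w₁ M u) ∂ν₁ :=
  fw_aux ν₁ _ _ _ (h.eq₁ M) (h.V₁ M) x

/-- forward form -/
theorem cur_fw₂ (h : Cur ν₁ ν₂ a V w₁ w₂) (M : ℝ) (x : K R) :
    w₂ M x = a M + V M * x - ∫ u, max ((x : ℝ) - u) 0 * Real.exp (w₂ M u) ∂ν₂ :=
  fw_aux ν₂ _ _ _ (h.eq₂ M) (h.V₂ M) x

private theorem max_int_nonneg (ν : Measure (K R)) (w : C(K R, ℝ)) (x : K R) :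
    0 ≤ ∫ u, max ((x : ℝ) - u) 0 * Real.exp (w u) ∂ν :=
  integral_nonneg fun _ => mul_nonneg (le_max_right _ _) (Real.exp_pos _).le

theorem cur_le₁ (h : Cur ν₁ ν₂ a V w₁ w₂) (M : ℝ) (x : K R) : w₁ M x ≤ a M + V M * x := by
  rw [cur_fw₁ h M x]
  linarith [max_int_nonneg ν₁ (w₁ M) x]

theorem cur_le₂ (h : Cur ν₁ ν₂ a V w₁ w₂) (M : ℝ) (x : K R) : w₂ M x ≤ a M + V M * x := by
  rw [cur_fw₂ h M x]
  linarith [max_int_nonneg ν₂ (w₂ M) x]

private theorem top_apply (h : Cur ν₁ ν₂ a V w₁ w₂) (M : ℝ) (x : K R) :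
    w₁ M x = M - ∫ u, max ((u : ℝ) - x) 0 * Real.exp (w₁ M u) ∂ν₁ := by
  have := DFunLike.congr_fun (h.top M) x
  rw [this]
  rfl

private theorem ae_le_S {S ε c : ℝ} {ν : Measure (K R)} (hi : Iso ν S ε c) :
    ∀ᵐ u : K R ∂ν, (u : ℝ) ≤ S := by
  rw [ae_iff]
  simpa only [not_le] using hi.top

private theorem ae_split {S ε c : ℝ} {ν : Measure (K R)} (hi : Iso ν S ε c) :
    ∀ᵐ u : K R ∂ν, (u : ℝ) = S ∨ (u : ℝ) ≤ S - ε := by
  have h1 := ae_le_S hi
  have h2 : ∀ᵐ u : K R ∂ν, ¬ (S - ε < (u : ℝ) ∧ (u : ℝ) < S) := by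
    rw [ae_iff]
    simpa only [not_not] using hi.gap
  filter_upwards [h1, h2] with u hu1 hu2
  rcases hu1.lt_or_eq with h | h
  · right
    by_contra hc
    exact hu2 ⟨not_le.mp hc, h⟩
  · exact Or.inl h

/-- from `Cur.top` -/
theorem asy_top {S ε c : ℝ} (h : Cur ν₁ ν₂ a V w₁ w₂) (hi : Iso ν₁ S ε c) (M : ℝ) (x : K R)
    (hx : S ≤ x) : w₁ M x = M := by
  rw [top_apply h M x]
  have : ∫ u, max ((u : ℝ) - x) 0 * Real.exp (w₁ M u) ∂ν₁ = 0 := by
    apply integral_eq_zero_of_ae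
    filter_upwards [ae_le_S hi] with u hu
    rw [max_eq_right (by linarith)]
    simp
  rw [this]
  ring

private theorem meas_S (S : ℝ) : MeasurableSet {u : K R | (u : ℝ) = S} :=
  measurable_subtype_coe (measurableSet_singleton S)

private theorem meas_le (S : ℝ) : MeasurableSet {u : K R | (u : ℝ) ≤ S} :=
  measurable_subtype_coe measurableSet_Iic

private theorem int_atom {S ε c : ℝ} (h : Cur ν₁ ν₂ a V w₁ w₂) (hi : Iso ν₁ S ε c) (M : ℝ)
    (f : ℝ → ℝ) : ∫ u in {u : K R | (u : ℝ) = S}, f u * Real.exp (w₁ M u) ∂ν₁ =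
      c * (f S * Real.exp M) := by
  have h1 : ∫ u in {u : K R | (u : ℝ) = S}, f u * Real.exp (w₁ M u) ∂ν₁ =
      ∫ u in {u : K R | (u : ℝ) = S}, f S * Real.exp M ∂ν₁ := by
    apply setIntegral_congr_fun (meas_S S)
    intro u hu
    have hu' : (u : ℝ) = S := hu
    simp only []
    rw [asy_top h hi M u hu'.ge, hu']
  rw [h1, setIntegral_const, hi.atom, smul_eq_mul]

/-- from `Cur.top`, the atom at `S` alone -/
theorem asy_le {S ε c : ℝ} (h : Cur ν₁ ν₂ a V w₁ w₂) (hi : Iso ν₁ S ε c) (M : ℝ) (x : K R)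
    (hx : (x : ℝ) ≤ S) : w₁ M x ≤ M - c * Real.exp M * (S - x) := by
  rw [top_apply h M x]
  have i2 : Integrable (fun u : K R => max ((u : ℝ) - x) 0 * Real.exp (w₁ M u)) ν₁ :=
    integrable_cm ν₁ ((ContinuousMap.curry kB x) * ex (w₁ M))
  have h2 : ∫ u in {u : K R | (u : ℝ) = S}, max ((u : ℝ) - x) 0 * Real.exp (w₁ M u) ∂ν₁ ≤
      ∫ u, max ((u : ℝ) - x) 0 * Real.exp (w₁ M u) ∂ν₁ :=
    setIntegral_le_integral i2 (Filter.Eventually.of_forall fun u =>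
      mul_nonneg (le_max_right _ _) (Real.exp_pos _).le)
  have h3 := int_atom h hi M (fun t => max (t - x) 0)
  rw [h3, max_eq_left (by linarith)] at h2
  nlinarith [h2]

/-- `δ` is the integral of `exp (w₁ M)` over `[0, S - ε]`. -/
theorem asy {S ε c : ℝ} (h : Cur ν₁ ν₂ a V w₁ w₂) (hi : Iso ν₁ S ε c) (h1 : ν₁ Set.univ ≤ 1)
    (M : ℝ) : ∃ δ : ℝ, δ = ∫ u in {u : K R | (u : ℝ) ≤ S - ε}, Real.exp (w₁ M u) ∂ν₁ ∧ 0 ≤ δ ∧
      δ ≤ Real.exp (M - c * Real.exp M * ε) ∧ V M = c * Real.exp M + δ ∧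
      M ≤ a M + S * V M ∧ a M + S * V M ≤ M + S * δ := by
  have i0 : Integrable (fun u : K R => Real.exp (w₁ M u)) ν₁ := integrable_cm ν₁ (ex (w₁ M))
  have hε := hi.hε
  have hc := hi.hc
  have hdis : Disjoint {u : K R | (u : ℝ) = S} {u : K R | (u : ℝ) ≤ S - ε} := by
    rw [Set.disjoint_left]
    intro u hu hu'
    have e1 : (u : ℝ) = S := hu
    have e2 : (u : ℝ) ≤ S - ε := hu'
    linarith
  have hun : ∀ᵐ u : K R ∂ν₁, u ∈ {u : K R | (u : ℝ) = S} ∪ {u : K R | (u : ℝ) ≤ S - ε} := by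
    filter_upwards [ae_split hi] with u hu
    exact hu
  -- splitting of integrals
  have hsplit : ∀ g : K R → ℝ, Integrable g ν₁ → ∫ u, g u ∂ν₁ =
      ∫ u in {u : K R | (u : ℝ) = S}, g u ∂ν₁ +
      ∫ u in {u : K R | (u : ℝ) ≤ S - ε}, g u ∂ν₁ := by
    intro g hg
    rw [← setIntegral_union hdis (meas_le _) hg.integrableOn hg.integrableOn]
    rw [Measure.restrict_eq_self_of_ae_mem hun]
  refine ⟨_, rfl, ?_, ?_, ?_, ?_, ?_⟩
  · exact integral_nonneg fun _ => (Real.exp_pos _).le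
  · -- bound
    have hb : ∫ u in {u : K R | (u : ℝ) ≤ S - ε}, Real.exp (w₁ M u) ∂ν₁ ≤
        ∫ u in {u : K R | (u : ℝ) ≤ S - ε}, Real.exp (M - c * Real.exp M * ε) ∂ν₁ := by
      apply setIntegral_mono_on i0.integrableOn (integrable_const _).integrableOn (meas_le _)
      intro u hu
      have e2 : (u : ℝ) ≤ S - ε := hu
      apply Real.exp_le_exp.mpr
      have := asy_le h hi M u (by linarith)
      have e3 : c * Real.exp M * ε ≤ c * Real.exp M * (S - u) :=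
        mul_le_mul_of_nonneg_left (by linarith) (mul_nonneg hc.le (Real.exp_pos _).le)
      linarith
    refine hb.trans ?_
    rw [setIntegral_const, smul_eq_mul]
    have hm : ν₁.real {u : K R | (u : ℝ) ≤ S - ε} ≤ 1 := by
      have : ν₁ {u : K R | (u : ℝ) ≤ S - ε} ≤ 1 := (measure_mono (Set.subset_univ _)).trans h1
      exact ENNReal.toReal_le_of_le_ofReal zero_le_one (by simpa using this)
    exact mul_le_of_le_one_left (Real.exp_pos _).le hm
  · -- V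
    rw [← h.V₁ M, la_apply]
    have : ∫ u, (ex (w₁ M)) u ∂ν₁ = ∫ u, Real.exp (w₁ M u) ∂ν₁ := rfl
    rw [this, hsplit _ i0]
    have h3 := int_atom h hi M (fun _ => 1)
    simp only [one_mul] at h3
    rw [h3]
  · -- M ≤ a + S V
    have hS : w₁ M ⟨S, hi.hS0, hi.hSR⟩ = M := asy_top h hi M _ le_rfl
    have := cur_le₁ h M ⟨S, hi.hS0, hi.hSR⟩
    rw [hS] at this
    simpa [mul_comm] using this
  · -- a + S V ≤ M + S δ
    have hS : w₁ M ⟨S, hi.hS0, hi.hSR⟩ = M := asy_top h hi M _ le_rfl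
    have hf := cur_fw₁ h M ⟨S, hi.hS0, hi.hSR⟩
    rw [hS] at hf
    simp only [] at hf
    have i2 : Integrable (fun u : K R => max (S - (u : ℝ)) 0 * Real.exp (w₁ M u)) ν₁ :=
      integrable_cm ν₁ ((ContinuousMap.curry kF ⟨S, hi.hS0, hi.hSR⟩) * ex (w₁ M))
    have h4 := hsplit _ i2
    have h5 := int_atom h hi M (fun t => max (S - t) 0)
    simp only [sub_self, max_self, zero_mul, mul_zero] at h5
    rw [h5, zero_add] at h4
    have h6 : ∫ u in {u : K R | (u : ℝ) ≤ S - ε}, max (S - (u : ℝ)) 0 * Real.exp (w₁ M u) ∂ν₁ ≤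
        ∫ u in {u : K R | (u : ℝ) ≤ S - ε}, S * Real.exp (w₁ M u) ∂ν₁ := by
      apply setIntegral_mono_on i2.integrableOn (i0.const_mul _).integrableOn (meas_le _)
      intro u hu
      apply mul_le_mul_of_nonneg_right _ (Real.exp_pos _).le
      exact max_le (by linarith [u.2.1]) hi.hS0
    rw [integral_const_mul] at h6
    have h7 : M = a M + V M * S - ∫ u, max (S - (u : ℝ)) 0 * Real.exp (w₁ M u) ∂ν₁ := hf
    rw [h4] at h7
    linarith [mul_comm (V M) S]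

end Pool.Agent.Age
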