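import Pool.Agent.Helper49.Age.Defs

/-! The exponential of `C(X,ℝ)`. -/

set_option autoImplicit false

namespace Pool.Agent.Age

open MeasureTheory

variable {X : Type} [TopologicalSpace X] [CompactSpace X]

private theorem ex_eq : (ex : C(X, ℝ) → C(X, ℝ)) = NormedSpace.exp := by
  funext w
  ext x
  rw [ex_apply]
  have h := NormedSpace.map_exp (ContinuousMap.evalAlgHom ℝ ℝ x) (by
    change Continuous fun f : C(X, ℝ) => f x
    fun_prop) w
  have h2 : (NormedSpace.exp w : C(X, ℝ)) x = NormedSpace.exp (w x) := h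
  rw [h2, ← Real.exp_eq_exp_ℝ]

/-- E1 (hint: `ex w = NormedSpace.exp w` in the Banach algebra `C(X,ℝ)`) -/
theorem analyticAt_ex (w : C(X, ℝ)) : AnalyticAt ℝ (ex : C(X, ℝ) → C(X, ℝ)) w := by
  rw [ex_eq]
  exact NormedSpace.exp_analytic w

/-- E2 -/
theorem hasFDerivAt_ex (w : C(X, ℝ)) :
    HasFDerivAt (ex : C(X, ℝ) → C(X, ℝ)) (ContinuousLinearMap.mul ℝ C(X, ℝ) (ex w)) w := by
  rw [ex_eq]
  have h := hasFDerivAt_exp (𝕂 := ℝ) (x := w)
  refine h.congr_fderiv ?_
  ext f x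
  simp

end Pool.Agent.Age
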