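import Pool.Agent.Helper49.Age.Defs
import Pool.Agent.Helper49.Age.Exp
import Pool.Agent.Helper49.Age.VolK

/-! The energy identity. -/

set_option autoImplicit false

namespace Pool.Agent.Age

open MeasureTheory

section deriv

variable {R : ℝ} {ν : Measure (K R)} [IsFiniteMeasure ν] {a V : ℝ → ℝ} {w : ℝ → C(K R, ℝ)}

private theorem cst_eq_smul (t : ℝ) : (cst t : C(K R, ℝ)) = t • (1 : C(K R, ℝ)) := by
  ext x
  simp [cst_apply]

private theorem bid_deriv (da : Differentiable ℝ a) (dw : Differentiable ℝ w)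
    (eq : ∀ M, w M = cst (a M) + op kM ν (ex (w M)))
    (hV : ∀ M, la ν (ex (w M)) = V M) (M : ℝ) :
    HasDerivAt (fun M => la ν (w M * ex (w M))) ((2 + a M) * deriv V M - deriv a M * V M) M := by
  have hw : HasDerivAt w (deriv w M) M := (dw M).hasDerivAt
  have ha : HasDerivAt a (deriv a M) M := (da M).hasDerivAt
  have he : HasDerivAt (fun M => ex (w M)) (ex (w M) * deriv w M) M := by
    exact (hasFDerivAt_ex (w M)).comp_hasDerivAt M hw
  have hVd : HasDerivAt V (la ν (ex (w M) * deriv w M)) M := by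
    have h1 := (la ν).hasFDerivAt.comp_hasDerivAt M he
    have h2 : (la ν ∘ fun M => ex (w M)) = V := by
      funext M
      exact hV M
    rwa [h2] at h1
  have hV' : deriv V M = la ν (ex (w M) * deriv w M) := hVd.deriv
  have hw' : deriv w M = cst (deriv a M) + op kM ν (ex (w M) * deriv w M) := by
    have h1 : HasDerivAt (fun M => a M • (1 : C(K R, ℝ))) (deriv a M • (1 : C(K R, ℝ))) M := by
      exact ha.smul_const (1 : C(K R, ℝ))
    have h2 : HasDerivAt (fun M => op kM ν (ex (w M))) (op kM ν (ex (w M) * deriv w M)) M :=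
      (op kM ν).hasFDerivAt.comp_hasDerivAt M he
    have h3 := h1.add h2
    have h4 : (fun M => a M • (1 : C(K R, ℝ))) + (fun M => op kM ν (ex (w M))) = w := by
      funext M
      rw [Pi.add_apply, ← cst_eq_smul]
      exact (eq M).symm
    rw [h4] at h3
    rw [cst_eq_smul]
    exact h3.deriv
  have hF : HasDerivAt (fun M => la ν (w M * ex (w M)))
      (la ν (deriv w M * ex (w M) + w M * (ex (w M) * deriv w M))) M := by
    have h1 := hw.mul he
    exact (la ν).hasFDerivAt.comp_hasDerivAt M h1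
  have hval : la ν (deriv w M * ex (w M) + w M * (ex (w M) * deriv w M)) =
      (2 + a M) * deriv V M - deriv a M * V M := by
    have e1 : la ν (w M * (ex (w M) * deriv w M)) =
        a M * la ν (ex (w M) * deriv w M) + la ν ((ex (w M) * deriv w M) * op kM ν (ex (w M))) := by
      have : w M * (ex (w M) * deriv w M) = a M • (ex (w M) * deriv w M) +
          (ex (w M) * deriv w M) * op kM ν (ex (w M)) := by
        have h1 : w M * (ex (w M) * deriv w M) =
            (cst (a M) + op kM ν (ex (w M))) * (ex (w M) * deriv w M) := by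
          rw [← eq M]
        rw [h1, cst_eq_smul, add_mul, smul_mul_assoc, one_mul, mul_comm (op kM ν (ex (w M)))]
      rw [this, map_add, map_smul, smul_eq_mul]
    have e2 : la ν ((ex (w M) * deriv w M) * op kM ν (ex (w M))) =
        la ν (ex (w M) * op kM ν (ex (w M) * deriv w M)) := op_symm ν _ _
    have e3 : op kM ν (ex (w M) * deriv w M) = deriv w M - deriv a M • (1 : C(K R, ℝ)) := by
      rw [← cst_eq_smul]
      exact eq_sub_of_add_eq' hw'.symm
    have e4 : la ν (ex (w M) * op kM ν (ex (w M) * deriv w M)) =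
        la ν (ex (w M) * deriv w M) - deriv a M * V M := by
      rw [e3, mul_sub, map_sub, mul_smul_comm, mul_one, map_smul, smul_eq_mul, hV M]
    rw [map_add, e1, e2, e4, mul_comm (deriv w M) (ex (w M)), hV']
    ring
  rw [hval] at hF
  exact hF

private theorem mul_exp_bound {t b : ℝ} (hb : b ≤ -1) (ht : t ≤ b) :
    ‖t * Real.exp t‖ ≤ -b * Real.exp b := by
  have h0 : t ≤ 0 := by linarith
  rw [norm_mul, Real.norm_eq_abs, Real.norm_eq_abs, abs_of_nonpos h0, abs_of_pos (Real.exp_pos t)]
  have h1 : (1 + (b - t)) * Real.exp (-(b - t)) ≤ 1 := by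
    have h2 := Real.add_one_le_exp (b - t)
    rw [Real.exp_neg, ← div_eq_mul_inv, div_le_one (Real.exp_pos _)]
    linarith
  have h3 : Real.exp t = Real.exp b * Real.exp (-(b - t)) := by
    rw [← Real.exp_add]
    congr 1
    ring
  have h4 : -t ≤ -b * (1 + (b - t)) := by nlinarith
  calc -t * Real.exp t ≤ (-b * (1 + (b - t))) * Real.exp t :=
        mul_le_mul_of_nonneg_right h4 (Real.exp_pos t).le
    _ = (-b * Real.exp b) * ((1 + (b - t)) * Real.exp (-(b - t))) := by
        rw [h3]
        ring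
    _ ≤ (-b * Real.exp b) * 1 := by
        refine mul_le_mul_of_nonneg_left h1 ?_
        have := Real.exp_pos b
        nlinarith
    _ = -b * Real.exp b := mul_one _

private theorem la_bound (f : C(K R, ℝ)) {b : ℝ} (hb : b ≤ -1) (hf : ∀ x, f x ≤ b) :
    ‖la ν (f * ex f)‖ ≤ (-b * Real.exp b) * ν.real Set.univ := by
  rw [la_apply]
  refine norm_integral_le_of_norm_le_const (Filter.Eventually.of_forall fun x => ?_)
  exact mul_exp_bound hb (hf x)

private theorem op_nonneg (k : C(K R × K R, ℝ)) (hk : ∀ p, 0 ≤ k p) (f : C(K R, ℝ)) (x : K R) :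
    0 ≤ op k ν (ex f) x := by
  rw [op_apply]
  exact integral_nonneg fun u => mul_nonneg (hk _) (Real.exp_pos _).le

end deriv

variable {R : ℝ} {ν₁ ν₂ : Measure (K R)} [IsFiniteMeasure ν₁] [IsFiniteMeasure ν₂]
  {a V : ℝ → ℝ} {w₁ w₂ : ℝ → C(K R, ℝ)}

/-- B1. Both sides have the derivative `(2 + a) V' - a' V` (use op_symm) and tend to `0` as
`M → -∞` (`w₁ M ≤ M`, `w₂ M ≤ a M + R V M`, `a M ≤ M`, `0 ≤ V M ≤ ν₁(K) e^M`). -/
theorem cur_B (hR : 0 ≤ R) (h : Cur ν₁ ν₂ a V w₁ w₂) (M : ℝ) :
    la ν₁ (w₁ M * ex (w₁ M)) = la ν₂ (w₂ M * ex (w₂ M)) := by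
  set F : ℝ → ℝ := fun M => la ν₁ (w₁ M * ex (w₁ M)) - la ν₂ (w₂ M * ex (w₂ M)) with hF
  have hd : ∀ M, HasDerivAt F 0 M := by
    intro M
    have h1 := bid_deriv h.da h.dw₁ h.eq₁ h.V₁ M
    have h2 := bid_deriv h.da h.dw₂ h.eq₂ h.V₂ M
    have h3 := h1.sub h2
    rw [sub_self] at h3
    exact h3
  have hconst : ∀ x y, F x = F y :=
    is_const_of_deriv_eq_zero (fun M => (hd M).differentiableAt) (fun M => (hd M).deriv)
  -- bounds
  have w1le : ∀ M x, w₁ M x ≤ M := by
    intro M x
    have h1 : w₁ M x = M - op kB ν₁ (ex (w₁ M)) x := by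
      conv_lhs => rw [h.top M]
      rfl
    have h2 := op_nonneg (ν := ν₁) (kB : C(K R × K R, ℝ)) (fun p => le_max_right _ _) (w₁ M) x
    linarith
  have hV : ∀ M, V M ≤ ν₁.real Set.univ * Real.exp M := by
    intro M
    rw [← h.V₁ M, la_apply]
    have h1 : ∫ u, ex (w₁ M) u ∂ν₁ ≤ ∫ _u, Real.exp M ∂ν₁ := by
      refine integral_mono (integrable_cm ν₁ _) (integrable_const _) fun u => ?_
      exact Real.exp_le_exp.mpr (w1le M u)
    rwa [integral_const, smul_eq_mul] at h1
  have hV0 : ∀ M, 0 ≤ V M := by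
    intro M
    rw [← h.V₁ M, la_apply]
    exact integral_nonneg fun u => (Real.exp_pos _).le
  have ha : ∀ M, a M ≤ M := by
    intro M
    have h1 : w₁ M ⟨0, le_rfl, hR⟩ = a M + op kM ν₁ (ex (w₁ M)) ⟨0, le_rfl, hR⟩ := by
      conv_lhs => rw [h.eq₁ M]
      rfl
    have h2 := w1le M ⟨0, le_rfl, hR⟩
    have h3 : op kM ν₁ (ex (w₁ M)) ⟨0, le_rfl, hR⟩ = 0 := by
      rw [op_apply]
      have : ∀ u : K R, (kM : C(K R × K R, ℝ)) (⟨0, le_rfl, hR⟩, u) * ex (w₁ M) u = 0 := by
        intro u
        rw [kM_apply]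
        have : min (0 : ℝ) (u : ℝ) = 0 := min_eq_left u.2.1
        simp [this]
      simp [this]
    linarith
  have w2le : ∀ M x, w₂ M x ≤ M + R * (ν₁.real Set.univ * Real.exp M) := by
    intro M x
    have h1 : w₂ M x = a M + op kM ν₂ (ex (w₂ M)) x := by
      conv_lhs => rw [h.eq₂ M]
      rfl
    have h2 : op kM ν₂ (ex (w₂ M)) x ≤ R * V M := by
      rw [op_apply, ← h.V₂ M, la_apply, ← integral_const_mul]
      refine integral_mono ?_ ((integrable_cm ν₂ _).const_mul R) fun u => ?_
      · exact integrable_cm ν₂ ((ContinuousMap.curry (kM : C(K R × K R, ℝ)) x) * ex (w₂ M))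
      · refine mul_le_mul_of_nonneg_right ?_ (Real.exp_pos _).le
        rw [kM_apply]
        exact (min_le_left _ _).trans x.2.2
    have h3 : R * V M ≤ R * (ν₁.real Set.univ * Real.exp M) :=
      mul_le_mul_of_nonneg_left (hV M) hR
    have h4 := ha M
    linarith
  -- limits
  have lim0 : Filter.Tendsto (fun b : ℝ => -b * Real.exp b) Filter.atBot (nhds 0) := by
    have h1 := Real.tendsto_pow_mul_exp_neg_atTop_nhds_zero 1
    have h2 := h1.comp Filter.tendsto_neg_atBot_atTop
    refine h2.congr fun b => ?_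
    simp
  have limE : Filter.Tendsto (fun M : ℝ => R * (ν₁.real Set.univ * Real.exp M)) Filter.atBot
      (nhds 0) := by
    have := (Real.tendsto_exp_atBot.const_mul (ν₁.real Set.univ)).const_mul R
    simpa using this
  have limb : Filter.Tendsto (fun M : ℝ => M + R * (ν₁.real Set.univ * Real.exp M)) Filter.atBot
      Filter.atBot := Filter.tendsto_id.atBot_add limE
  have lim1 : Filter.Tendsto (fun M : ℝ => (-M * Real.exp M) * ν₁.real Set.univ) Filter.atBot
      (nhds 0) := by
    have := lim0.mul_const (ν₁.real Set.univ)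
    simpa using this
  have lim2 : Filter.Tendsto (fun M : ℝ => (-(M + R * (ν₁.real Set.univ * Real.exp M)) *
      Real.exp (M + R * (ν₁.real Set.univ * Real.exp M))) * ν₂.real Set.univ) Filter.atBot
      (nhds 0) := by
    have := (lim0.comp limb).mul_const (ν₂.real Set.univ)
    rw [zero_mul] at this
    exact this
  have hlim : Filter.Tendsto F Filter.atBot (nhds 0) := by
    have hs := lim1.add lim2
    rw [add_zero] at hs
    refine squeeze_zero_norm' ?_ hs
    filter_upwards [Filter.eventually_le_atBot (-1 : ℝ),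
      limb.eventually (Filter.eventually_le_atBot (-1 : ℝ))] with M h1 h2
    refine (norm_sub_le _ _).trans (add_le_add ?_ ?_)
    · exact la_bound (w₁ M) h1 (w1le M)
    · exact la_bound (w₂ M) h2 (w2le M)
  have hz : F M = 0 := by
    have h1 : Filter.Tendsto F Filter.atBot (nhds (F M)) := by
      have : F = fun _ => F M := by
        funext x
        exact hconst x M
      rw [this]
      exact tendsto_const_nhds
    exact tendsto_nhds_unique h1 hlim
  have : F M = la ν₁ (w₁ M * ex (w₁ M)) - la ν₂ (w₂ M * ex (w₂ M)) := rfl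
  linarith

end Pool.Agent.Age
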