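import Pool.Agent.Helper49.Age.Defs2

/-! Positivity of the kernel `min`. -/

set_option autoImplicit false

namespace Pool.Agent.Age

open MeasureTheory

variable {R : ℝ} {ν₁ ν₂ : Measure (K R)} [IsFiniteMeasure ν₁] [IsFiniteMeasure ν₂]

theorem pos_meas_set (t : ℝ) : MeasurableSet {u : K R | t < (u : ℝ)} :=
  measurableSet_lt measurable_const measurable_subtype_coe

theorem tl_anti (f : C(K R, ℝ)) (hf : 0 ≤ f) : Antitone (tl ν₁ f) := by
  intro t t' h
  unfold tl
  refine setIntegral_mono_set (integrable_cm ν₁ f).integrableOn ?_ ?_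
  · exact Filter.Eventually.of_forall fun u => hf u
  · refine Filter.Eventually.of_forall fun u (hu : t' < (u : ℝ)) => ?_
    exact lt_of_le_of_lt h hu

theorem tl_nonneg (f : C(K R, ℝ)) (hf : 0 ≤ f) (t : ℝ) : 0 ≤ tl ν₁ f t :=
  integral_nonneg fun u => hf u

theorem tl_le (f : C(K R, ℝ)) (hf : 0 ≤ f) (t : ℝ) : tl ν₁ f t ≤ la ν₁ f := by
  unfold tl
  rw [la_apply]
  exact setIntegral_le_integral (integrable_cm ν₁ f) (Filter.Eventually.of_forall fun u => hf u)

/-- e.g. as the difference of two antitone functions (`f = f⁺ - f⁻`) -/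
theorem tl_meas (f : C(K R, ℝ)) : Measurable (tl ν₁ f) := by
  have h1 : (0 : C(K R, ℝ)) ≤ f ⊔ 0 := le_sup_right
  have h2 : (0 : C(K R, ℝ)) ≤ (-f) ⊔ 0 := le_sup_right
  have e : tl ν₁ f = fun t => tl ν₁ (f ⊔ 0) t - tl ν₁ ((-f) ⊔ 0) t := by
    funext t
    unfold tl
    rw [← integral_sub (integrable_cm ν₁ _).integrableOn (integrable_cm ν₁ _).integrableOn]
    refine integral_congr_ae (Filter.Eventually.of_forall fun u => ?_)
    simp only [ContinuousMap.sup_apply, ContinuousMap.neg_apply, ContinuousMap.zero_apply]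
    rcases le_total 0 (f u) with h | h
    · rw [sup_eq_left.2 h, sup_eq_right.2 (by linarith)]; ring
    · rw [sup_eq_right.2 h, sup_eq_left.2 (by linarith)]; ring
  rw [e]
  exact (tl_anti _ h1).measurable.sub (tl_anti _ h2).measurable

theorem tl_abs_le (f : C(K R, ℝ)) (t : ℝ) : |tl ν₁ f t| ≤ ‖f‖ * ν₁.real Set.univ := by
  unfold tl
  rw [← Real.norm_eq_abs]
  have h := norm_setIntegral_le_of_norm_le_const (μ := ν₁) (s := {u : K R | t < (u : ℝ)})
    (f := fun u => f u) (C := ‖f‖) (measure_lt_top _ _) (fun x _ => f.norm_coe_le_norm x)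
  refine h.trans ?_
  exact mul_le_mul_of_nonneg_left (measureReal_mono (Set.subset_univ _)) (norm_nonneg _)

/-- Fubini -/
theorem pos_fub {ν : Measure (K R)} [IsFiniteMeasure ν] (f : C(K R, ℝ)) (b : ℝ) (h : ℝ → ℝ)
    (hm : Measurable h) (C : ℝ) (hb : ∀ t, |h t| ≤ C) :
    ∫ u : K R, (∫ t in Set.Ioc 0 b, (Set.Iio (u : ℝ)).indicator h t) * f u ∂ν =
      ∫ t in Set.Ioc 0 b, h t * tl ν f t := by
  have hC : 0 ≤ C := (abs_nonneg _).trans (hb 0)
  have hmS : MeasurableSet {z : K R × ℝ | z.2 < (z.1 : ℝ)} :=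
    measurableSet_lt measurable_snd (measurable_subtype_coe.comp measurable_fst)
  have hmF : Measurable (Function.uncurry fun (u : K R) (t : ℝ) =>
      (Set.Iio (u : ℝ)).indicator h t * f u) := by
    have h1 : (Function.uncurry fun (u : K R) (t : ℝ) => (Set.Iio (u : ℝ)).indicator h t * f u) =
        {z : K R × ℝ | z.2 < (z.1 : ℝ)}.indicator (fun z => h z.2 * f z.1) := by
      funext z
      obtain ⟨u, t⟩ := z
      simp only [Function.uncurry_apply_pair, Set.indicator_apply, Set.mem_Iio, Set.mem_ofPred_eq]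
      split_ifs <;> simp
    rw [h1]
    refine Measurable.indicator ?_ hmS
    exact (hm.comp measurable_snd).mul (f.continuous.measurable.comp measurable_fst)
  have hint : Integrable (Function.uncurry fun (u : K R) (t : ℝ) =>
      (Set.Iio (u : ℝ)).indicator h t * f u) (ν.prod (volume.restrict (Set.Ioc 0 b))) := by
    refine Integrable.of_bound hmF.aestronglyMeasurable (C * ‖f‖) ?_
    refine Filter.Eventually.of_forall fun z => ?_
    obtain ⟨u, t⟩ := z
    simp only [Function.uncurry_apply_pair, norm_mul]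
    refine mul_le_mul ?_ (f.norm_coe_le_norm u) (norm_nonneg _) hC
    rw [Set.indicator_apply]
    split_ifs
    · exact hb t
    · simpa using hC
  have hswap := integral_integral_swap hint
  have e1 : ∀ u : K R, (∫ t in Set.Ioc 0 b, (Set.Iio (u : ℝ)).indicator h t) * f u =
      ∫ t in Set.Ioc 0 b, (Set.Iio (u : ℝ)).indicator h t * f u := fun u =>
    (integral_mul_const _ _).symm
  simp only [e1]
  rw [hswap]
  refine integral_congr_ae (Filter.Eventually.of_forall fun t => ?_)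
  simp only
  unfold tl
  rw [← integral_indicator (pos_meas_set t), ← integral_const_mul]
  refine integral_congr_ae (Filter.Eventually.of_forall fun u => ?_)
  simp only [Set.indicator_apply, Set.mem_Iio, Set.mem_ofPred_eq]
  split_ifs <;> simp

/-- Fubini: `min x u = ∫_0^x 1_{t < u} dt` for `0 ≤ x, u` -/
theorem op_eq (f : C(K R, ℝ)) (x : K R) :
    op kM ν₁ f x = ∫ t in (0 : ℝ)..x, tl ν₁ f t := by
  have hx : (0 : ℝ) ≤ x := x.2.1
  rw [op_apply, intervalIntegral.integral_of_le hx]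
  have h := pos_fub (ν := ν₁) f (x : ℝ) (fun _ => 1) measurable_const 1 (by intro t; simp)
  simp only [one_mul] at h
  rw [← h]
  refine integral_congr_ae (Filter.Eventually.of_forall fun u => ?_)
  simp only
  congr 1
  have hu : (0 : ℝ) ≤ u := u.2.1
  rw [kM_apply, setIntegral_indicator measurableSet_Iio, setIntegral_const, smul_eq_mul, mul_one]
  rcases lt_or_ge (x : ℝ) u with h | h
  · have e : Set.Ioc (0 : ℝ) x ∩ Set.Iio (u : ℝ) = Set.Ioc 0 (x : ℝ) := by
      ext t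
      simp only [Set.mem_inter_iff, Set.mem_Ioc, Set.mem_Iio]
      exact ⟨fun h => h.1, fun h' => ⟨h', by linarith [h'.2]⟩⟩
    rw [e, min_eq_left h.le, Measure.real, Real.volume_Ioc, sub_zero, ENNReal.toReal_ofReal hx]
  · have e : Set.Ioc (0 : ℝ) x ∩ Set.Iio (u : ℝ) = Set.Ioo 0 (u : ℝ) := by
      ext t
      simp only [Set.mem_inter_iff, Set.mem_Ioc, Set.mem_Iio, Set.mem_Ioo]
      exact ⟨fun h => ⟨h.1.1, h.2⟩, fun h' => ⟨⟨h'.1, by linarith [h'.2]⟩, h'.2⟩⟩
    rw [e, min_eq_right h, Measure.real, Real.volume_Ioo, sub_zero, ENNReal.toReal_ofReal hu]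

/-- Fubini again -/
theorem cross_eq (hR : 0 ≤ R) (f g : C(K R, ℝ)) :
    la ν₁ (f * op kM ν₂ g) = ∫ t in (0 : ℝ)..R, tl ν₁ f t * tl ν₂ g t := by
  rw [la_apply, intervalIntegral.integral_of_le hR]
  have h := pos_fub (ν := ν₁) f R (tl ν₂ g) (tl_meas g) _ (tl_abs_le g)
  have e1 : ∫ t in Set.Ioc 0 R, tl ν₁ f t * tl ν₂ g t = ∫ t in Set.Ioc 0 R, tl ν₂ g t * tl ν₁ f t :=
    integral_congr_ae (Filter.Eventually.of_forall fun t => mul_comm _ _)
  rw [e1, ← h]
  refine integral_congr_ae (Filter.Eventually.of_forall fun u => ?_)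
  simp only [ContinuousMap.mul_apply]
  rw [mul_comm]
  congr 1
  have hu : (0 : ℝ) ≤ u := u.2.1
  have hu2 : (u : ℝ) ≤ R := u.2.2
  rw [op_eq, intervalIntegral.integral_of_le hu, setIntegral_indicator measurableSet_Iio,
    integral_Ioc_eq_integral_Ioo]
  congr 2
  ext t
  simp only [Set.mem_inter_iff, Set.mem_Ioc, Set.mem_Iio, Set.mem_Ioo]
  exact ⟨fun h => ⟨⟨h.1, by linarith [h.2]⟩, h.2⟩, fun h => ⟨h.1.1, h.2⟩⟩

/-- bounded measurable functions are interval integrable -/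
theorem pos_ii (h : ℝ → ℝ) (hm : Measurable h) (C : ℝ) (hb : ∀ t, |h t| ≤ C) (a b : ℝ) :
    IntervalIntegrable h volume a b := by
  rw [intervalIntegrable_iff]
  have : IsFiniteMeasure (volume.restrict (Set.uIoc a b)) := by
    refine ⟨?_⟩
    rw [Measure.restrict_apply_univ]
    exact measure_Ioc_lt_top
  refine Integrable.of_bound hm.aestronglyMeasurable C ?_
  exact Filter.Eventually.of_forall fun t => hb t

theorem pos_prod_le {a b A B : ℝ} (ha : |a| ≤ A) (hb : |b| ≤ B) : |a * b| ≤ A * B := by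
  rw [abs_mul]
  exact mul_le_mul ha hb (abs_nonneg _) ((abs_nonneg _).trans ha)

/-- the energy of a difference -/
theorem pos_energy (hR : 0 ≤ R) (f g : C(K R, ℝ)) :
    ∫ t in (0 : ℝ)..R, (tl ν₁ f t - tl ν₂ g t) ^ 2 =
      la ν₁ (f * op kM ν₁ f) + la ν₂ (g * op kM ν₂ g) - 2 * la ν₁ (f * op kM ν₂ g) := by
  rw [cross_eq hR, cross_eq hR, cross_eq hR]
  have i1 : IntervalIntegrable (fun t => tl ν₁ f t * tl ν₁ f t) volume 0 R :=
    pos_ii _ ((tl_meas f).mul (tl_meas f)) _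
      (fun t => pos_prod_le (tl_abs_le f t) (tl_abs_le f t)) _ _
  have i2 : IntervalIntegrable (fun t => tl ν₂ g t * tl ν₂ g t) volume 0 R :=
    pos_ii _ ((tl_meas g).mul (tl_meas g)) _
      (fun t => pos_prod_le (tl_abs_le g t) (tl_abs_le g t)) _ _
  have i3 : IntervalIntegrable (fun t => tl ν₁ f t * tl ν₂ g t) volume 0 R :=
    pos_ii _ ((tl_meas f).mul (tl_meas g)) _
      (fun t => pos_prod_le (tl_abs_le f t) (tl_abs_le g t)) _ _
  rw [← intervalIntegral.integral_add i1 i2, ← intervalIntegral.integral_const_mul,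
    ← intervalIntegral.integral_sub (i1.add i2) (i3.const_mul 2)]
  refine intervalIntegral.integral_congr fun t _ => ?_
  ring

/-- `0 ≤ ∫ (tl ν₁ f - tl ν₂ g)²` -/
theorem cross_le (hR : 0 ≤ R) (f g : C(K R, ℝ)) :
    2 * la ν₁ (f * op kM ν₂ g) ≤ la ν₁ (f * op kM ν₁ f) + la ν₂ (g * op kM ν₂ g) := by
  have h := pos_energy (ν₁ := ν₁) (ν₂ := ν₂) hR f g
  have h2 : 0 ≤ ∫ t in (0 : ℝ)..R, (tl ν₁ f t - tl ν₂ g t) ^ 2 :=
    intervalIntegral.integral_nonneg hR fun t _ => sq_nonneg _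
  linarith

theorem cross_symm (hR : 0 ≤ R) (f g : C(K R, ℝ)) :
    la ν₁ (f * op kM ν₂ g) = la ν₂ (g * op kM ν₁ f) := by
  rw [cross_eq hR, cross_eq hR]
  exact intervalIntegral.integral_congr fun t _ => mul_comm _ _

/-- Cauchy-Schwarz: the left side is `(∫_0^x (tl ν₁ f - tl ν₂ g))²` -/
theorem cross_sq (hR : 0 ≤ R) (f g : C(K R, ℝ)) (x : K R) :
    (op kM ν₁ f x - op kM ν₂ g x) ^ 2 ≤
      R * (la ν₁ (f * op kM ν₁ f) + la ν₂ (g * op kM ν₂ g) - 2 * la ν₁ (f * op kM ν₂ g)) := by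
  have hx : (0 : ℝ) ≤ x := x.2.1
  have hxR : (x : ℝ) ≤ R := x.2.2
  rw [← pos_energy hR, op_eq, op_eq]
  have i1 : ∀ b, IntervalIntegrable (tl ν₁ f) volume 0 b := fun b =>
    pos_ii _ (tl_meas f) _ (tl_abs_le f) _ _
  have i2 : ∀ b, IntervalIntegrable (tl ν₂ g) volume 0 b := fun b =>
    pos_ii _ (tl_meas g) _ (tl_abs_le g) _ _
  rw [← intervalIntegral.integral_sub (i1 _) (i2 _)]
  set D : ℝ → ℝ := fun t => tl ν₁ f t - tl ν₂ g t with hD
  have hDm : Measurable D := (tl_meas f).sub (tl_meas g)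
  have hDb : ∀ t, |D t| ≤ ‖f‖ * ν₁.real Set.univ + ‖g‖ * ν₂.real Set.univ := fun t =>
    (abs_sub _ _).trans (add_le_add (tl_abs_le f t) (tl_abs_le g t))
  have j1 : ∀ b, IntervalIntegrable D volume 0 b := fun b => pos_ii _ hDm _ hDb _ _
  have j2 : ∀ b, IntervalIntegrable (fun t => D t ^ 2) volume 0 b := fun b =>
    pos_ii _ (hDm.pow_const 2) _ (fun t => by
      rw [sq]; exact pos_prod_le (hDb t) (hDb t)) _ _
  have hmono : ∫ t in (0 : ℝ)..x, D t ^ 2 ≤ ∫ t in (0 : ℝ)..R, D t ^ 2 :=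
    intervalIntegral.integral_mono_interval le_rfl hx hxR
      (Filter.Eventually.of_forall fun t => sq_nonneg _) (j2 R)
  have hnn : 0 ≤ ∫ t in (0 : ℝ)..R, D t ^ 2 :=
    intervalIntegral.integral_nonneg hR fun t _ => sq_nonneg _
  rcases hx.eq_or_lt with h0 | h0
  · rw [← h0, intervalIntegral.integral_same]
    have : (0 : ℝ) ^ 2 = 0 := by norm_num
    rw [this]
    exact mul_nonneg hR hnn
  · set I : ℝ := ∫ t in (0 : ℝ)..x, D t with hI
    set c : ℝ := I / x with hc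
    have h1 : 0 ≤ ∫ t in (0 : ℝ)..x, (D t - c) ^ 2 :=
      intervalIntegral.integral_nonneg hx fun t _ => sq_nonneg _
    have h2 : ∫ t in (0 : ℝ)..x, (D t - c) ^ 2 =
        (∫ t in (0 : ℝ)..x, D t ^ 2) - 2 * c * I + c ^ 2 * x := by
      have e : ∀ t, (D t - c) ^ 2 = (D t ^ 2 - 2 * c * D t) + c ^ 2 := fun t => by ring
      simp only [e]
      rw [intervalIntegral.integral_add ((j2 _).sub ((j1 _).const_mul _)) (by simp),
        intervalIntegral.integral_sub (j2 _) ((j1 _).const_mul _),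
        intervalIntegral.integral_const_mul, intervalIntegral.integral_const]
      simp only [smul_eq_mul, sub_zero]
      ring
    rw [h2] at h1
    have h3 : c * x = I := div_mul_cancel₀ _ h0.ne'
    have h4 : I ^ 2 = c ^ 2 * x * x := by rw [← h3]; ring
    have h5 : 2 * c * I = 2 * (c ^ 2 * x) := by rw [← h3]; ring
    have h6 : c ^ 2 * x ≤ ∫ t in (0 : ℝ)..x, D t ^ 2 := by linarith
    calc I ^ 2 = (c ^ 2 * x) * x := h4
      _ ≤ (∫ t in (0 : ℝ)..x, D t ^ 2) * x := mul_le_mul_of_nonneg_right h6 hx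
      _ ≤ (∫ t in (0 : ℝ)..R, D t ^ 2) * R :=
          mul_le_mul hmono hxR hx hnn
      _ = R * ∫ t in (0 : ℝ)..R, D t ^ 2 := mul_comm _ _

end Pool.Agent.Age
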