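import Pool.Agent.Helper49.Age.Defs2
import Pool.Agent.Helper49.Age.Pos

/-! The descent inequality. -/

set_option autoImplicit false

namespace Pool.Agent.Age

open MeasureTheory

variable {R : ℝ} {ν μ : Measure (K R)} [IsFiniteMeasure ν] [IsFiniteMeasure μ]

theorem trial_la_mono {f g : C(K R, ℝ)} (h : f ≤ g) : la ν f ≤ la ν g :=
  integral_mono (integrable_cm ν f) (integrable_cm ν g) fun x => h x

theorem la_ex_pos (hν : ν ≠ 0) (G : C(K R, ℝ)) : 0 < la ν (ex G) := by
  have h1 : Real.exp (-‖G‖) • (1 : C(K R, ℝ)) ≤ ex G := by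
    intro x
    change Real.exp (-‖G‖) * 1 ≤ Real.exp (G x)
    rw [mul_one]
    refine Real.exp_le_exp.mpr ?_
    have := G.norm_coe_le_norm x
    rw [Real.norm_eq_abs] at this
    exact (abs_le.mp this).1
  have h2 := trial_la_mono (ν := ν) h1
  rw [map_smul, smul_eq_mul] at h2
  have h3 : la ν (1 : C(K R, ℝ)) = ν.real Set.univ := by
    rw [la_apply]
    simp
  rw [h3] at h2
  have h4 : 0 < ν.real Set.univ := by
    rw [measureReal_def, ENNReal.toReal_pos_iff]
    exact ⟨Measure.measure_univ_pos.mpr hν, measure_lt_top _ _⟩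
  exact (mul_pos (Real.exp_pos _) h4).trans_le h2

/-- Jensen: `la ν (ex H) = Z * ∫ e^{H - G} (e^G / Z) dν`, `Z = la ν (ex G)`, and
`log ∫ e^{H - G} dP ≥ ∫ (H - G) dP`. (Or: `e^y ≥ e^c (1 + y - c)` with `c = ∫ (H - G) dP`.) -/
theorem log_ge (hν : ν ≠ 0) {V : ℝ} (hV : 0 ≤ V) (G H : C(K R, ℝ)) :
    V * Real.log (la ν (ex G)) + la ν ((H - G) * ((V / la ν (ex G)) • ex G)) ≤
      V * Real.log (la ν (ex H)) := by
  have hZ := la_ex_pos hν G
  have hZH := la_ex_pos hν H
  set Z : ℝ := la ν (ex G) with hZdef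
  set c : ℝ := la ν ((H - G) * ex G) / Z with hc
  have h1 : (H - G) * ((V / Z) • ex G) = (V / Z) • ((H - G) * ex G) := by
    rw [mul_smul_comm]
  have h2 : la ν ((H - G) * ((V / Z) • ex G)) = V * c := by
    rw [h1, map_smul, smul_eq_mul, hc]
    ring
  have h3 : Real.exp c • (ex G + ((H - G) * ex G - c • ex G)) ≤ ex H := by
    intro x
    change Real.exp c * (Real.exp (G x) + ((H x - G x) * Real.exp (G x) - c * Real.exp (G x))) ≤
      Real.exp (H x)
    have e1 : Real.exp (H x) = Real.exp c * (Real.exp (G x) * Real.exp (H x - G x - c)) := by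
      rw [← Real.exp_add, ← Real.exp_add]
      congr 1
      ring
    rw [e1]
    refine mul_le_mul_of_nonneg_left ?_ (Real.exp_pos _).le
    have e2 := Real.add_one_le_exp (H x - G x - c)
    have e3 := mul_le_mul_of_nonneg_left e2 (Real.exp_pos (G x)).le
    nlinarith
  have h4 := trial_la_mono (ν := ν) h3
  rw [map_smul, map_add, map_sub, map_smul, smul_eq_mul, smul_eq_mul] at h4
  have h5 : la ν ((H - G) * ex G) = c * Z := by
    rw [hc]
    field_simp
  rw [h5, ← hZdef, sub_self, add_zero] at h4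
  have h6 : c + Real.log Z ≤ Real.log (la ν (ex H)) := by
    have := Real.log_le_log (mul_pos (Real.exp_pos c) hZ) h4
    rwa [Real.log_mul (Real.exp_pos c).ne' hZ.ne', Real.log_exp] at this
  rw [h2]
  nlinarith

/-- the charge distribution `V e^G / ∫ e^G dν` -/
noncomputable def th (ν : Measure (K R)) [IsFiniteMeasure ν] (V : ℝ) (G : C(K R, ℝ)) : C(K R, ℝ) :=
  (V / la ν (ex G)) • ex G

theorem th_nonneg (hν : ν ≠ 0) {V : ℝ} (hV : 0 ≤ V) (G : C(K R, ℝ)) : 0 ≤ th ν V G := by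
  intro x
  change 0 ≤ V / la ν (ex G) * Real.exp (G x)
  exact mul_nonneg (div_nonneg hV (la_ex_pos hν G).le) (Real.exp_pos _).le

theorem th_mass (hν : ν ≠ 0) (V : ℝ) (G : C(K R, ℝ)) : la ν (th ν V G) = V := by
  rw [th, map_smul, smul_eq_mul, div_mul_cancel₀ _ (la_ex_pos hν G).ne']

/-- With `G = op kM μ g`, `f = th ν V G`, `H = op kM ν f`: by `log_ge`
`Lam ν V f ≤ (1/2) la ν (f H) - V log la ν (ex G) - la ν (f (H - G))`, and
`la ν (f G) = la ν (f * op kM μ g)`. -/
theorem trial (hR : 0 ≤ R) (hν : ν ≠ 0) {V : ℝ} (hV : 0 < V) (g : C(K R, ℝ)) :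
    Lam ν V (th ν V (op kM μ g)) +
      (la ν (th ν V (op kM μ g) * op kM ν (th ν V (op kM μ g))) + la μ (g * op kM μ g) -
        2 * la ν (th ν V (op kM μ g) * op kM μ g)) / 2 ≤
      la μ (g * op kM μ g) / 2 - V * Real.log (la ν (ex (op kM μ g))) := by
  set G : C(K R, ℝ) := op kM μ g with hG
  set f : C(K R, ℝ) := th ν V G with hf
  set H : C(K R, ℝ) := op kM ν f with hH
  have h1 := log_ge hν hV.le G H
  have h2 : (H - G) * ((V / la ν (ex G)) • ex G) = f * H - f * G := by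
    rw [hf, th]
    ring
  rw [h2, map_sub] at h1
  have h3 : Lam ν V f = la ν (f * H) / 2 - V * Real.log (la ν (ex H)) := rfl
  rw [h3]
  linarith

/-- from `trial` and `cross_le` -/
theorem trial_le (hR : 0 ≤ R) (hν : ν ≠ 0) {V : ℝ} (hV : 0 < V) {f : C(K R, ℝ)} (hf : Min ν V f)
    (g : C(K R, ℝ)) :
    Lam ν V f ≤ la μ (g * op kM μ g) / 2 - V * Real.log (la ν (ex (op kM μ g))) := by
  have h1 := trial (μ := μ) hR hν hV g
  have h2 := cross_le (ν₁ := ν) (ν₂ := μ) hR (th ν V (op kM μ g)) g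
  have h3 := hf.min _ (th_nonneg hν hV.le (op kM μ g)) (th_mass hν V (op kM μ g))
  linarith

end Pool.Agent.Age
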