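import Pool.Agent.Helper49.Age.Defs2
import Pool.Agent.Helper49.Age.Pos
import Pool.Agent.Helper49.Age.Trial

/-! Concentration of the minimisers at the maximum of the support. -/

set_option autoImplicit false

namespace Pool.Agent.Age

open MeasureTheory

variable {R : ℝ} {ν : Measure (K R)} [IsFiniteMeasure ν]

/-- `trial_le` with `μ = Measure.dirac s`, `g = cst V`: `op kM μ g x = V min(x,s)`, and
`∫ e^{V min(x,s)} dν ≥ e^{V s} ν {s ≤ u}`. -/
theorem lam_le (hR : 0 ≤ R) (hν : ν ≠ 0) {V : ℝ} (hV : 0 < V) {f : C(K R, ℝ)} (hf : Min ν V f)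
    (s : K R) (hs : 0 < ν.real {u : K R | (s : ℝ) ≤ u}) :
    Lam ν V f ≤ -(V ^ 2 * s) / 2 - V * Real.log (ν.real {u : K R | (s : ℝ) ≤ u}) := by
  set A : Set (K R) := {u : K R | (s : ℝ) ≤ u} with hA
  have hAm : MeasurableSet A := measurableSet_le measurable_const measurable_subtype_coe
  have h1 := trial_le (μ := Measure.dirac s) hR hν hV hf (cst V)
  have h2 : ∀ x : K R, op kM (Measure.dirac s) (cst V) x = min (x : ℝ) s * V := by
    intro x
    rw [op_apply, integral_dirac, kM_apply, cst_apply]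
  have h3 : la (Measure.dirac s) (cst V * op kM (Measure.dirac s) (cst V)) = V ^ 2 * s := by
    rw [la_apply, integral_dirac, ContinuousMap.mul_apply, h2, cst_apply, min_self]
    ring
  have h4 : Real.exp (V * s) * ν.real A ≤ la ν (ex (op kM (Measure.dirac s) (cst V))) := by
    rw [la_apply]
    have e1 : ∫ u in A, Real.exp (V * s) ∂ν = Real.exp (V * s) * ν.real A := by
      rw [setIntegral_const, smul_eq_mul, mul_comm]
    rw [← e1]
    calc ∫ u in A, Real.exp (V * s) ∂ν
        ≤ ∫ u in A, ex (op kM (Measure.dirac s) (cst V)) u ∂ν := by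
          refine setIntegral_mono_on (integrable_const _).integrableOn
            (integrable_cm ν _).integrableOn hAm fun u hu => ?_
          rw [ex_apply, h2]
          refine Real.exp_le_exp.mpr ?_
          have e2 : (s : ℝ) ≤ u := hu
          rw [min_eq_right e2, mul_comm]
      _ ≤ ∫ u, ex (op kM (Measure.dirac s) (cst V)) u ∂ν := by
          refine setIntegral_le_integral (integrable_cm ν _) ?_
          exact Filter.Eventually.of_forall fun u => (Real.exp_pos _).le
  have h5 : V * s + Real.log (ν.real A) ≤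
      Real.log (la ν (ex (op kM (Measure.dirac s) (cst V)))) := by
    have := Real.log_le_log (mul_pos (Real.exp_pos _) hs) h4
    rwa [Real.log_mul (Real.exp_pos _).ne' hs.ne', Real.log_exp] at this
  rw [h3] at h1
  have h6 := mul_le_mul_of_nonneg_left h5 hV.le
  nlinarith

/-- With `m = tl ν f` (antitone, `0 ≤ m ≤ V`, `m t = 0` for `t ≥ S`): `la ν (f * op kM ν f) = ∫_0^R m²`
(cross_eq), `op kM ν f x ≤ ∫_0^R m` (op_eq), so `Lam ν V f ≥ (1/2) ∫_0^S (m² - 2 V m) - V log ν(K)
= (1/2) ∫_0^S ((V - m)² - V²) - V log ν(K)`, and `(V - m)² ≥ (V - m x)²` on `[x, S]`. -/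
theorem lam_ge (hR : 0 ≤ R) (hν : ν ≠ 0) {V : ℝ} (hV : 0 < V) {f : C(K R, ℝ)} (h0 : 0 ≤ f)
    (hm : la ν f = V) {S : ℝ} (hS0 : 0 ≤ S) (hSR : S ≤ R) (hS : tn ν S = 0) {x : ℝ} (hx0 : 0 ≤ x)
    (hxS : x ≤ S) :
    -(V ^ 2 * S) / 2 + (S - x) * (V - tl ν f x) ^ 2 / 2 - V * Real.log (ν.real Set.univ) ≤
      Lam ν V f := by
  have hmeas := tl_meas (ν₁ := ν) f
  have hm0 : ∀ t, 0 ≤ tl ν f t := tl_nonneg f h0
  have hmV : ∀ t, tl ν f t ≤ V := fun t => (tl_le f h0 t).trans hm.le
  have hanti := tl_anti (ν₁ := ν) f h0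
  have hmS : ∀ t, S ≤ t → tl ν f t = 0 := by
    intro t ht
    have e1 : ν {u : K R | t < (u : ℝ)} = 0 := by
      have e2 : ν.real {u : K R | S < (u : ℝ)} = 0 := hS
      rw [measureReal_eq_zero_iff] at e2
      refine measure_mono_null ?_ e2
      intro u hu
      exact ht.trans_lt (show t < (u : ℝ) from hu)
    unfold tl
    rw [Measure.restrict_eq_zero.mpr e1]
    simp
  have hb : ∀ g : ℝ → ℝ, Measurable g → (∃ C, ∀ t, |g t| ≤ C) → ∀ a b : ℝ,
      IntervalIntegrable g volume a b := by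
    rintro g hg ⟨C, hC⟩ a b
    rw [intervalIntegrable_iff]
    refine Measure.integrableOn_of_bounded (M := C) ?_ hg.aestronglyMeasurable ?_
    · rw [Set.uIoc, Real.volume_Ioc]; exact ENNReal.ofReal_ne_top
    · exact Filter.Eventually.of_forall fun t => by rw [Real.norm_eq_abs]; exact hC t
  have habs : ∀ t, |tl ν f t| ≤ V := fun t => by rw [abs_of_nonneg (hm0 t)]; exact hmV t
  have hi1 : ∀ a b : ℝ, IntervalIntegrable (tl ν f) volume a b := hb _ hmeas ⟨V, habs⟩
  have hi2 : ∀ a b : ℝ, IntervalIntegrable (fun t => tl ν f t * tl ν f t) volume a b :=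
    hb _ (hmeas.mul hmeas) ⟨V * V, fun t => by
      rw [abs_mul]
      exact mul_le_mul (habs t) (habs t) (abs_nonneg _) hV.le⟩
  -- energy
  have hE : la ν (f * op kM ν f) = ∫ t in (0 : ℝ)..S, tl ν f t * tl ν f t := by
    rw [cross_eq hR f f, ← intervalIntegral.integral_add_adjacent_intervals (hi2 0 S) (hi2 S R)]
    have e1 : ∫ t in S..R, tl ν f t * tl ν f t = 0 := by
      rw [intervalIntegral.integral_of_le hSR]
      refine setIntegral_eq_zero_of_forall_eq_zero fun t ht => ?_
      rw [hmS t ht.1.le, mul_zero]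
    rw [e1, add_zero]
  set A : ℝ := ∫ t in (0 : ℝ)..S, tl ν f t with hA
  have hG : ∀ y : K R, op kM ν f y ≤ A := by
    intro y
    rw [op_eq, hA]
    rcases le_total (y : ℝ) S with h3 | h3
    · rw [← intervalIntegral.integral_add_adjacent_intervals (hi1 0 y) (hi1 y S)]
      have : 0 ≤ ∫ t in (y : ℝ)..S, tl ν f t := intervalIntegral.integral_nonneg h3 fun t _ => hm0 t
      linarith
    · rw [← intervalIntegral.integral_add_adjacent_intervals (hi1 0 S) (hi1 S y)]
      have e1 : ∫ t in S..(y : ℝ), tl ν f t = 0 := by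
        rw [intervalIntegral.integral_of_le h3]
        exact setIntegral_eq_zero_of_forall_eq_zero fun t ht => hmS t ht.1.le
      rw [e1, add_zero]
  have hu : 0 < ν.real Set.univ := by
    rw [measureReal_def, ENNReal.toReal_pos_iff]
    exact ⟨Measure.measure_univ_pos.mpr hν, measure_lt_top _ _⟩
  have hlog : Real.log (la ν (ex (op kM ν f))) ≤ A + Real.log (ν.real Set.univ) := by
    have e1 : ex (op kM ν f) ≤ Real.exp A • (1 : C(K R, ℝ)) := by
      intro y
      change Real.exp (op kM ν f y) ≤ Real.exp A * 1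
      rw [mul_one]
      exact Real.exp_le_exp.mpr (hG y)
    have e2 := trial_la_mono (ν := ν) e1
    rw [map_smul, smul_eq_mul] at e2
    have e3 : la ν (1 : C(K R, ℝ)) = ν.real Set.univ := by rw [la_apply]; simp
    rw [e3] at e2
    have e4 := Real.log_le_log (la_ex_pos hν _) e2
    rwa [Real.log_mul (Real.exp_pos _).ne' hu.ne', Real.log_exp] at e4
  -- the integral estimate
  have hint : -(V ^ 2 * S) / 2 + (S - x) * (V - tl ν f x) ^ 2 / 2 ≤
      (∫ t in (0 : ℝ)..S, tl ν f t * tl ν f t) / 2 - V * A := by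
    have e1 : (∫ t in (0 : ℝ)..S, tl ν f t * tl ν f t) / 2 - V * A =
        ∫ t in (0 : ℝ)..S, ((V - tl ν f t) ^ 2 / 2 - V ^ 2 / 2) := by
      rw [hA, ← intervalIntegral.integral_div, ← intervalIntegral.integral_const_mul,
        ← intervalIntegral.integral_sub ((hi2 0 S).div_const 2) ((hi1 0 S).const_mul V)]
      refine intervalIntegral.integral_congr fun t _ => ?_
      change tl ν f t * tl ν f t / 2 - V * tl ν f t = (V - tl ν f t) ^ 2 / 2 - V ^ 2 / 2
      ring
    have hsq : ∀ a b : ℝ, IntervalIntegrable (fun t => (V - tl ν f t) ^ 2 / 2) volume a b :=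
      hb _ (((measurable_const.sub hmeas).pow_const 2).div_const 2) ⟨V ^ 2, fun t => by
        have e2 := hm0 t
        have e3 := hmV t
        rw [abs_of_nonneg (by positivity)]
        nlinarith⟩
    have hc : ∀ a b : ℝ, IntervalIntegrable (fun _ : ℝ => V ^ 2 / 2) volume a b := fun a b =>
      intervalIntegrable_const
    rw [e1, intervalIntegral.integral_sub (hsq 0 S) (hc 0 S), intervalIntegral.integral_const,
      smul_eq_mul, ← intervalIntegral.integral_add_adjacent_intervals (hsq 0 x) (hsq x S)]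
    have e2 : 0 ≤ ∫ t in (0 : ℝ)..x, (V - tl ν f t) ^ 2 / 2 :=
      intervalIntegral.integral_nonneg hx0 fun t _ => by positivity
    have e3 : ∫ t in x..S, (V - tl ν f x) ^ 2 / 2 ≤ ∫ t in x..S, (V - tl ν f t) ^ 2 / 2 := by
      refine intervalIntegral.integral_mono_on hxS intervalIntegrable_const (hsq x S) fun t ht => ?_
      have e4 := hanti ht.1
      have e5 := hmV x
      have e6 : V - tl ν f x ≤ V - tl ν f t := by linarith
      have e7 : 0 ≤ V - tl ν f x := by linarith
      have e8 := mul_self_le_mul_self e7 e6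
      nlinarith
    rw [intervalIntegral.integral_const, smul_eq_mul] at e3
    nlinarith
  have h9 := mul_le_mul_of_nonneg_left hlog hV.le
  unfold Lam
  rw [hE]
  nlinarith

/-- Combine `lam_ge` and `lam_le` for a suitable `s < S`: if `tl ν f x < V / 2` then
`(S - x) V² / 8 ≤ (S - s) V² / 2 + C_s V`. -/
theorem conc (hR : 0 ≤ R) (hν : ν ≠ 0) {S : ℝ} (hS0 : 0 ≤ S) (hSR : S ≤ R) (hS : tn ν S = 0)
    (hpos : ∀ s, s < S → 0 < tn ν s) {x : ℝ} (hx0 : 0 ≤ x) (hxS : x < S) :
    ∃ V₀ : ℝ, 0 < V₀ ∧ ∀ V, V₀ ≤ V → ∀ f, Min ν V f → V / 2 ≤ tl ν f x := by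
  set s : ℝ := S - (S - x) / 8 with hs
  have hsS : s < S := by rw [hs]; linarith
  have hs0 : 0 ≤ s := by rw [hs]; linarith
  set s' : K R := ⟨s, hs0, hsS.le.trans hSR⟩ with hs'
  have hq : 0 < ν.real {u : K R | (s' : ℝ) ≤ u} := by
    refine (hpos s hsS).trans_le (measureReal_mono ?_)
    intro u hu
    change s ≤ (u : ℝ)
    exact le_of_lt (show s < (u : ℝ) from hu)
  set q : ℝ := ν.real {u : K R | (s' : ℝ) ≤ u} with hqdef
  set n : ℝ := ν.real Set.univ with hn
  obtain ⟨V₀, hV1, hV2⟩ : ∃ V : ℝ, 0 < V ∧ Real.log n - Real.log q < V * ((S - x) / 16) := by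
    have h3 : Filter.Tendsto (fun V : ℝ => V * ((S - x) / 16)) Filter.atTop Filter.atTop :=
      Filter.tendsto_id.atTop_mul_const (by linarith)
    exact ((Filter.eventually_gt_atTop 0).and (h3.eventually_gt_atTop _)).exists
  refine ⟨V₀, hV1, fun V hV f hf => ?_⟩
  have hVpos : 0 < V := hV1.trans_le hV
  by_contra hlt
  push Not at hlt
  have e1 := lam_ge hR hν hVpos hf.nonneg hf.mass hS0 hSR hS hx0 hxS.le
  have e2 := lam_le hR hν hVpos hf s' hq
  have e3 := e1.trans e2
  have e4 : V ^ 2 / 4 ≤ (V - tl ν f x) ^ 2 := by nlinarith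
  have e5 : (S - x) * (V ^ 2 / 4) ≤ (S - x) * (V - tl ν f x) ^ 2 :=
    mul_le_mul_of_nonneg_left e4 (by linarith)
  have e6 : (s' : ℝ) = S - (S - x) / 8 := rfl
  rw [e6] at e3
  have e7 : V * (V * ((S - x) / 16)) ≤ V * (Real.log n - Real.log q) := by nlinarith
  have e8 := le_of_mul_le_mul_left e7 hVpos
  have e9 : V₀ * ((S - x) / 16) ≤ V * ((S - x) / 16) :=
    mul_le_mul_of_nonneg_right hV (by linarith)
  linarith

end Pool.Agent.Age
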