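import Pool.Agent.Helper49.Age.Defs
import Pool.Agent.Helper49.Age.Exp

/-! Nonlinear Volterra equations. -/

set_option autoImplicit false

namespace Pool.Agent.Age

open MeasureTheory

variable {X : Type} [TopologicalSpace X] [CompactSpace X] {T : C(X, ℝ) →L[ℝ] C(X, ℝ)}

private theorem volt_mono (hT : Volt T) {f g : C(X, ℝ)} (h : f ≤ g) : T f ≤ T g := by
  have h1 : 0 ≤ T (g - f) := hT.pos _ (sub_nonneg.mpr h)
  rw [map_sub] at h1
  exact sub_nonneg.mp h1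

private theorem volt_pow_mono (hT : Volt T) (n : ℕ) {f g : C(X, ℝ)} (h : f ≤ g) :
    (T ^ n) f ≤ (T ^ n) g := by
  induction n with
  | zero => simpa using h
  | succ n ih =>
    rw [pow_succ', _root_.ContinuousLinearMap.mul_apply, _root_.ContinuousLinearMap.mul_apply]
    exact volt_mono hT ih

private theorem le_norm_smul_one (f : C(X, ℝ)) : f ≤ ‖f‖ • (1 : C(X, ℝ)) := by
  intro x
  have h := f.norm_coe_le_norm x
  have h2 := le_abs_self (f x)
  rw [Real.norm_eq_abs] at h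
  change f x ≤ ‖f‖ * (1 : ℝ)
  linarith

private theorem abs_le_norm_smul_one (f : C(X, ℝ)) : |f| ≤ ‖f‖ • (1 : C(X, ℝ)) := by
  rw [abs_le']
  refine ⟨le_norm_smul_one f, ?_⟩
  have := le_norm_smul_one (-f)
  rwa [norm_neg] at this

private theorem volt_abs (hT : Volt T) (f : C(X, ℝ)) : |T f| ≤ T |f| := by
  rw [abs_le']
  constructor
  · exact volt_mono hT (le_abs_self f)
  · rw [← map_neg]
    exact volt_mono hT (neg_le_abs f)

/-- V1 (Gronwall): iterate, `D ≤ L ^ n • T ^ n D ≤ L ^ n • ‖D‖ • T ^ n 1`. -/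
theorem volt_zero (hT : Volt T) (L : ℝ) (hL : 0 ≤ L) (D : C(X, ℝ)) (hD : 0 ≤ D)
    (h : D ≤ L • T D) : D = 0 := by
  have h1 : ∀ n : ℕ, D ≤ L ^ n • (T ^ n) D := by
    intro n
    induction n with
    | zero => simp
    | succ n ih =>
      calc D ≤ L • T D := h
        _ ≤ L • T (L ^ n • (T ^ n) D) := smul_le_smul_of_nonneg_left (volt_mono hT ih) hL
        _ = L ^ (n + 1) • (T ^ (n + 1)) D := by
          rw [map_smul, smul_smul, pow_succ' T, _root_.ContinuousLinearMap.mul_apply, pow_succ' L]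
  have h2 : ∀ n : ℕ, D ≤ (L ^ n * ‖D‖) • (T ^ n) 1 := by
    intro n
    calc D ≤ L ^ n • (T ^ n) D := h1 n
      _ ≤ L ^ n • (T ^ n) (‖D‖ • (1 : C(X, ℝ))) :=
        smul_le_smul_of_nonneg_left (volt_pow_mono hT n (le_norm_smul_one D)) (pow_nonneg hL n)
      _ = (L ^ n * ‖D‖) • (T ^ n) 1 := by rw [map_smul, smul_smul]
  ext x
  have h3 : ∀ n : ℕ, D x ≤ ‖D‖ * (L ^ n * ‖(T ^ n) 1‖) := by
    intro n
    have h4 := h2 n x
    simp only [ContinuousMap.smul_apply, smul_eq_mul] at h4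
    have h5 := ((T ^ n) (1 : C(X, ℝ))).norm_coe_le_norm x
    have h6 := le_abs_self (((T ^ n) (1 : C(X, ℝ))) x)
    rw [Real.norm_eq_abs] at h5
    have h7 : 0 ≤ L ^ n * ‖D‖ := mul_nonneg (pow_nonneg hL n) (norm_nonneg _)
    have h8 := mul_le_mul_of_nonneg_left (h6.trans h5) h7
    calc D x ≤ _ := h4
      _ ≤ _ := h8
      _ = _ := by ring
  have h4 : Filter.Tendsto (fun n : ℕ => ‖D‖ * (L ^ n * ‖(T ^ n) 1‖)) Filter.atTop (nhds (‖D‖ * 0)) :=
    (hT.nil L).const_mul _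
  rw [mul_zero] at h4
  have h5 : D x ≤ 0 := ge_of_tendsto' h4 h3
  have h6 : 0 ≤ D x := hD x
  simpa using le_antisymm h5 h6

/-- V2 (the linearised equation): `1 + T ∘ (multiplication by f)` is invertible. -/
theorem volt_equiv (hT : Volt T) (f : C(X, ℝ)) : ∃ e : C(X, ℝ) ≃L[ℝ] C(X, ℝ),
    (e : C(X, ℝ) →L[ℝ] C(X, ℝ)) =
      ContinuousLinearMap.id ℝ _ + T.comp (ContinuousLinearMap.mul ℝ C(X, ℝ) f) := by
  set A : C(X, ℝ) →L[ℝ] C(X, ℝ) := -(T.comp (ContinuousLinearMap.mul ℝ C(X, ℝ) f)) with hA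
  have hAapp : ∀ g, A g = -(T (f * g)) := by
    intro g
    simp [hA]
  have habs : ∀ g, |A g| ≤ ‖f‖ • T |g| := by
    intro g
    rw [hAapp, abs_neg]
    calc |T (f * g)| ≤ T |f * g| := volt_abs hT _
      _ ≤ T (‖f‖ • |g|) := by
        refine volt_mono hT ?_
        intro x
        have h := f.norm_coe_le_norm x
        rw [Real.norm_eq_abs] at h
        change |f * g| x ≤ ‖f‖ * |g| x
        rw [ContinuousMap.abs_apply, ContinuousMap.abs_apply, ContinuousMap.mul_apply, abs_mul]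
        exact mul_le_mul_of_nonneg_right h (abs_nonneg _)
      _ = ‖f‖ • T |g| := by rw [map_smul]
  have hpow : ∀ n : ℕ, ∀ g, |(A ^ n) g| ≤ ‖f‖ ^ n • (T ^ n) |g| := by
    intro n
    induction n with
    | zero => intro g; simp
    | succ n ih =>
      intro g
      rw [pow_succ' A, _root_.ContinuousLinearMap.mul_apply]
      calc |A ((A ^ n) g)| ≤ ‖f‖ • T |(A ^ n) g| := habs _
        _ ≤ ‖f‖ • T (‖f‖ ^ n • (T ^ n) |g|) :=
          smul_le_smul_of_nonneg_left (volt_mono hT (ih g)) (norm_nonneg _)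
        _ = ‖f‖ ^ (n + 1) • (T ^ (n + 1)) |g| := by
          rw [map_smul, smul_smul, pow_succ' T, _root_.ContinuousLinearMap.mul_apply, pow_succ' ‖f‖]
  have hnorm : ∀ n : ℕ, ‖A ^ n‖ ≤ ‖f‖ ^ n * ‖(T ^ n) 1‖ := by
    intro n
    refine ContinuousLinearMap.opNorm_le_bound _ (by positivity) fun g => ?_
    refine (ContinuousMap.norm_le _ (by positivity)).mpr fun x => ?_
    have h1 : |(A ^ n) g| ≤ ‖f‖ ^ n • (‖g‖ • (T ^ n) 1) := by
      refine (hpow n g).trans (smul_le_smul_of_nonneg_left ?_ (by positivity))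
      rw [← map_smul]
      refine volt_pow_mono hT n ?_
      exact abs_le_norm_smul_one g
    have h2 : |((A ^ n) g) x| ≤ ‖f‖ ^ n * (‖g‖ * ((T ^ n) 1) x) := h1 x
    rw [Real.norm_eq_abs]
    refine h2.trans ?_
    have h5 := ((T ^ n) (1 : C(X, ℝ))).norm_coe_le_norm x
    have h6 := le_abs_self (((T ^ n) (1 : C(X, ℝ))) x)
    rw [Real.norm_eq_abs] at h5
    have h7 : 0 ≤ ‖f‖ ^ n * ‖g‖ := by positivity
    have h8 := mul_le_mul_of_nonneg_left (h6.trans h5) h7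
    calc ‖f‖ ^ n * (‖g‖ * ((T ^ n) 1) x) = ‖f‖ ^ n * ‖g‖ * ((T ^ n) 1) x := by ring
      _ ≤ _ := h8
      _ = _ := by ring
  obtain ⟨n, hn⟩ : ∃ n : ℕ, ‖A ^ n‖ < 1 := by
    have h := (hT.nil ‖f‖).eventually (gt_mem_nhds (show (0 : ℝ) < 1 by norm_num))
    obtain ⟨n, hn⟩ := h.exists
    exact ⟨n, (hnorm n).trans_lt hn⟩
  have hu : IsUnit (1 - A ^ n) := (Units.oneSub (A ^ n) hn).isUnit
  have hu2 : IsUnit (1 - A) := by
    have hc : Commute (1 - A) (∑ i ∈ Finset.range n, A ^ i) := by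
      have h1 := mul_neg_geom_sum A n
      have h2 := geom_sum_mul_neg A n
      exact h1.trans h2.symm
    rw [← mul_neg_geom_sum A n] at hu
    exact (hc.isUnit_mul_iff.mp hu).1
  refine ⟨ContinuousLinearEquiv.unitsEquiv ℝ C(X, ℝ) hu2.unit, ?_⟩
  ext g : 1
  change ((hu2.unit : C(X, ℝ) →L[ℝ] C(X, ℝ))) g = _
  rw [IsUnit.unit_spec]
  simp [hA]

end Pool.Agent.Age
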