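import Pool.Agent.Helper49.Age.Defs
import Pool.Agent.Helper49.Age.Exp
import Pool.Agent.Helper49.Age.Vol

/-! The solution map. -/

set_option autoImplicit false

namespace Pool.Agent.Age

open MeasureTheory

variable {X : Type} [TopologicalSpace X] [CompactSpace X] {T : C(X, ℝ) →L[ℝ] C(X, ℝ)}

theorem sol_mono (hT : Volt T) {f g : C(X, ℝ)} (h : f ≤ g) : T f ≤ T g := by
  have h1 : 0 ≤ T (g - f) := hT.pos _ (sub_nonneg.2 h)
  rw [map_sub] at h1
  exact sub_nonneg.1 h1

theorem sol_mono_pow (hT : Volt T) (n : ℕ) {f g : C(X, ℝ)} (h : f ≤ g) :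
    (T ^ n) f ≤ (T ^ n) g := by
  induction n with
  | zero => simpa using h
  | succ n ih =>
    rw [pow_succ', mul_apply_eq_comp, mul_apply_eq_comp]
    exact sol_mono hT ih

theorem sol_abs (hT : Volt T) (f : C(X, ℝ)) : |T f| ≤ T |f| := by
  refine sup_le (sol_mono hT (le_abs_self f)) ?_
  rw [← map_neg]
  exact sol_mono hT (neg_le_abs f)

theorem sol_pow_apply_le (hT : Volt T) (n : ℕ) (E : C(X, ℝ)) (x : X) :
    (T ^ n) E x ≤ ‖(T ^ n) 1‖ * ‖E‖ := by
  have h1 : E ≤ ‖E‖ • (1 : C(X, ℝ)) := by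
    refine ContinuousMap.le_def.2 fun y => ?_
    simp only [ContinuousMap.smul_apply, ContinuousMap.one_apply, smul_eq_mul, mul_one]
    exact (le_abs_self _).trans (E.norm_coe_le_norm y)
  have h2 := ContinuousMap.le_def.1 (sol_mono_pow hT n h1) x
  rw [map_smul] at h2
  simp only [ContinuousMap.smul_apply, smul_eq_mul] at h2
  refine h2.trans ?_
  rw [mul_comm]
  exact mul_le_mul_of_nonneg_right ((le_abs_self _).trans (((T ^ n) 1).norm_coe_le_norm x))
    (norm_nonneg _)

theorem sol_iter (hT : Volt T) {L : ℝ} (hL : 0 ≤ L) {D E : C(X, ℝ)} (h : D ≤ E + L • T D)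
    (N : ℕ) : D ≤ ∑ j ∈ Finset.range N, L ^ j • (T ^ j) E + L ^ N • (T ^ N) D := by
  induction N with
  | zero => simp
  | succ N ih =>
    refine ih.trans ?_
    rw [Finset.sum_range_succ, add_assoc]
    refine add_le_add le_rfl ?_
    have h1 := sol_mono_pow hT N h
    rw [map_add, map_smul] at h1
    refine ContinuousMap.le_def.2 fun x => ?_
    have h2 := ContinuousMap.le_def.1 h1 x
    simp only [ContinuousMap.add_apply, ContinuousMap.smul_apply, smul_eq_mul] at h2 ⊢
    have h3 : (T ^ (N + 1)) D = (T ^ N) (T D) := by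
      rw [pow_succ, mul_apply_eq_comp]
    rw [h3]
    have h4 := mul_le_mul_of_nonneg_left h2 (pow_nonneg hL N)
    calc L ^ N * (T ^ N) D x ≤ L ^ N * ((T ^ N) E x + L * (T ^ N) (T D) x) := h4
      _ = L ^ N * (T ^ N) E x + L ^ (N + 1) * (T ^ N) (T D) x := by ring

theorem sol_bound (hT : Volt T) {L : ℝ} (hL : 0 ≤ L) : ∃ C : ℝ, 0 ≤ C ∧
    ∀ D E : C(X, ℝ), 0 ≤ D → D ≤ E + L • T D → ‖D‖ ≤ C * ‖E‖ := by
  obtain ⟨N, hN⟩ := ((hT.nil L).eventually (gt_mem_nhds (by norm_num : (0 : ℝ) < 1 / 2))).exists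
  refine ⟨2 * ∑ j ∈ Finset.range N, L ^ j * ‖(T ^ j) 1‖,
    mul_nonneg (by norm_num) (Finset.sum_nonneg fun j _ =>
      mul_nonneg (pow_nonneg hL j) (norm_nonneg _)), fun D E hD h => ?_⟩
  have h1 := sol_iter hT hL h N
  have h2 : ‖D‖ ≤ (∑ j ∈ Finset.range N, L ^ j * ‖(T ^ j) 1‖) * ‖E‖ + 1 / 2 * ‖D‖ := by
    rw [ContinuousMap.norm_le _ (add_nonneg (mul_nonneg (Finset.sum_nonneg fun j _ =>
      mul_nonneg (pow_nonneg hL j) (norm_nonneg _)) (norm_nonneg _))
      (mul_nonneg (by norm_num) (norm_nonneg _)))]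
    intro x
    have h3 := ContinuousMap.le_def.1 h1 x
    have h4 : 0 ≤ D x := ContinuousMap.le_def.1 hD x
    rw [Real.norm_eq_abs, abs_of_nonneg h4]
    simp only [ContinuousMap.add_apply, ContinuousMap.sum_apply, ContinuousMap.smul_apply,
      smul_eq_mul] at h3
    refine h3.trans (add_le_add ?_ ?_)
    · rw [Finset.sum_mul]
      refine Finset.sum_le_sum fun j _ => ?_
      rw [mul_assoc]
      exact mul_le_mul_of_nonneg_left (sol_pow_apply_le hT j E x) (pow_nonneg hL j)
    · calc L ^ N * (T ^ N) D x ≤ L ^ N * (‖(T ^ N) 1‖ * ‖D‖) :=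
            mul_le_mul_of_nonneg_left (sol_pow_apply_le hT N D x) (pow_nonneg hL N)
        _ = (L ^ N * ‖(T ^ N) 1‖) * ‖D‖ := by ring
        _ ≤ 1 / 2 * ‖D‖ := mul_le_mul_of_nonneg_right hN.le (norm_nonneg _)
  linarith

theorem sol_exp_lip {a c b : ℝ} (ha : a ≤ b) (hc : c ≤ b) :
    |Real.exp a - Real.exp c| ≤ Real.exp b * |a - c| := by
  have key : ∀ u v : ℝ, u ≤ b → v ≤ u → |Real.exp u - Real.exp v| ≤ Real.exp b * |u - v| := by
    intro u v hu hvu
    have h1 : Real.exp v ≤ Real.exp u := Real.exp_le_exp.2 hvu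
    rw [abs_of_nonneg (by linarith), abs_of_nonneg (by linarith)]
    have h2 := Real.add_one_le_exp (v - u)
    have h3 : Real.exp v = Real.exp u * Real.exp (v - u) := by
      rw [← Real.exp_add]; congr 1; ring
    have h4 : Real.exp u ≤ Real.exp b := Real.exp_le_exp.2 hu
    rw [h3]
    have h5 : Real.exp u - Real.exp u * Real.exp (v - u) ≤ Real.exp u * (u - v) := by
      have := mul_le_mul_of_nonneg_left h2 (Real.exp_pos u).le
      nlinarith
    exact h5.trans (mul_le_mul_of_nonneg_right h4 (by linarith))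
  rcases le_total c a with h | h
  · exact key a c ha h
  · rw [abs_sub_comm, abs_sub_comm a c]
    exact key c a hc h

/-- the map whose inverse is the solution map -/
noncomputable def solTh (T : C(X, ℝ) →L[ℝ] C(X, ℝ)) (w : C(X, ℝ)) : C(X, ℝ) := w + T (ex w)

theorem sol_le_Th (hT : Volt T) (w : C(X, ℝ)) : w ≤ solTh T w := by
  have h : 0 ≤ T (ex w) := hT.pos _ fun x => (Real.exp_pos _).le
  unfold solTh
  exact le_add_of_nonneg_right h

/-- stability -/
theorem sol_stable (hT : Volt T) (b : ℝ) : ∃ C : ℝ, 0 ≤ C ∧ ∀ w w' : C(X, ℝ),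
    (∀ x, w x ≤ b) → (∀ x, w' x ≤ b) → ‖w - w'‖ ≤ C * ‖solTh T w - solTh T w'‖ := by
  obtain ⟨C, hC, h⟩ := sol_bound hT (Real.exp_pos b).le
  refine ⟨C, hC, fun w w' hw hw' => ?_⟩
  have h1 : |w - w'| ≤ |solTh T w - solTh T w'| + Real.exp b • T |w - w'| := by
    have h2 : w - w' = (solTh T w - solTh T w') - T (ex w - ex w') := by
      unfold solTh
      rw [map_sub]
      abel
    have h3 : |ex w - ex w'| ≤ Real.exp b • |w - w'| := by
      refine ContinuousMap.le_def.2 fun x => ?_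
      simp only [ContinuousMap.abs_apply, ContinuousMap.sub_apply, ContinuousMap.smul_apply,
        smul_eq_mul, ex_apply]
      exact sol_exp_lip (hw x) (hw' x)
    calc |w - w'| = |(solTh T w - solTh T w') - T (ex w - ex w')| := by rw [← h2]
      _ ≤ |solTh T w - solTh T w'| + |T (ex w - ex w')| := by
        refine ContinuousMap.le_def.2 fun x => ?_
        simp only [ContinuousMap.abs_apply, ContinuousMap.sub_apply, ContinuousMap.add_apply]
        exact abs_sub _ _
      _ ≤ |solTh T w - solTh T w'| + Real.exp b • T |w - w'| := by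
        refine add_le_add le_rfl ((sol_abs hT _).trans ?_)
        rw [← map_smul]
        exact sol_mono hT h3
  have h4 := h |w - w'| |solTh T w - solTh T w'| (abs_nonneg _) h1
  have h5 : ∀ f : C(X, ℝ), ‖|f|‖ = ‖f‖ := by
    intro f
    apply le_antisymm
    · rw [ContinuousMap.norm_le _ (norm_nonneg _)]
      intro x
      rw [ContinuousMap.abs_apply, Real.norm_eq_abs, abs_abs]
      exact f.norm_coe_le_norm x
    · rw [ContinuousMap.norm_le _ (norm_nonneg _)]
      intro x
      have := (|f|).norm_coe_le_norm x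
      rwa [ContinuousMap.abs_apply, Real.norm_eq_abs, abs_abs] at this
  rwa [h5, h5] at h4

theorem sol_inj (hT : Volt T) : Function.Injective (solTh T) := by
  intro w w' h
  obtain ⟨C, -, hC⟩ := sol_stable hT (max ‖w‖ ‖w'‖)
  have h1 := hC w w'
    (fun x => ((le_abs_self _).trans (w.norm_coe_le_norm x)).trans (le_max_left _ _))
    (fun x => ((le_abs_self _).trans (w'.norm_coe_le_norm x)).trans (le_max_right _ _))
  rw [h, sub_self, norm_zero, mul_zero] at h1
  exact sub_eq_zero.1 (norm_eq_zero.1 (le_antisymm h1 (norm_nonneg _)))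

theorem sol_analytic (w : C(X, ℝ)) : AnalyticAt ℝ (solTh T) w := by
  unfold solTh
  exact analyticAt_id.add ((T.analyticAt _).comp (analyticAt_ex w))

theorem sol_fderiv (w : C(X, ℝ)) : HasFDerivAt (solTh T)
    (ContinuousLinearMap.id ℝ _ + T.comp (ContinuousLinearMap.mul ℝ C(X, ℝ) (ex w))) w := by
  unfold solTh
  exact (hasFDerivAt_id w).add (T.hasFDerivAt.comp w (hasFDerivAt_ex w))

theorem sol_closed (hT : Volt T) : IsClosed (Set.range (solTh T)) := by
  apply isClosed_of_closure_subset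
  intro g hg
  obtain ⟨u, hu, hlim⟩ := mem_closure_iff_seq_limit.1 hg
  choose w hw using hu
  obtain ⟨b, hb⟩ := hlim.norm.bddAbove_range
  have hwb : ∀ n x, w n x ≤ b := by
    intro n x
    have h1 : w n x ≤ u n x := by
      have := ContinuousMap.le_def.1 (sol_le_Th hT (w n)) x
      rwa [hw n] at this
    have h2 : u n x ≤ ‖u n‖ := (le_abs_self _).trans ((u n).norm_coe_le_norm x)
    exact h1.trans (h2.trans (hb ⟨n, rfl⟩))
  obtain ⟨C, hC0, hC⟩ := sol_stable hT b
  have hcau : CauchySeq w := by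
    rw [Metric.cauchySeq_iff]
    intro ε hε
    obtain ⟨N, hN⟩ := Metric.cauchySeq_iff.1 hlim.cauchySeq (ε / (C + 1)) (by positivity)
    refine ⟨N, fun m hm n hn => ?_⟩
    have h1 := hC (w m) (w n) (hwb m) (hwb n)
    rw [hw m, hw n] at h1
    have h2 := hN m hm n hn
    rw [dist_eq_norm] at h2 ⊢
    calc ‖w m - w n‖ ≤ C * ‖u m - u n‖ := h1
      _ ≤ (C + 1) * ‖u m - u n‖ := by nlinarith [norm_nonneg (u m - u n)]
      _ < (C + 1) * (ε / (C + 1)) := by
        exact mul_lt_mul_of_pos_left h2 (by linarith)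
      _ = ε := by field_simp
  obtain ⟨w0, hw0⟩ := cauchySeq_tendsto_of_complete hcau
  refine ⟨w0, ?_⟩
  have h3 : Filter.Tendsto (fun n => solTh T (w n)) Filter.atTop (nhds (solTh T w0)) :=
    ((sol_analytic w0).continuousAt.tendsto).comp hw0
  simp only [hw] at h3
  exact tendsto_nhds_unique h3 hlim

/-- V3: the map `Θ w = w + T (ex w)` is injective (volt_zero), open (inverse function theorem,
volt_equiv), and has closed range (if `Θ w_n → g` then `w_n ≤ g_n` is bounded above, so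
`|w_n - w_m| ≤ |g_n - g_m| + C T |w_n - w_m|`, iterate), so it is bijective; the inverse is
analytic by `ContDiffAt.to_localInverse` with `n = ω`. -/
theorem exists_sol (hT : Volt T) : ∃ Sol : C(X, ℝ) → C(X, ℝ),
    (∀ g, Sol g + T (ex (Sol g)) = g) ∧ (∀ w, Sol (w + T (ex w)) = w) ∧
      ∀ g, AnalyticAt ℝ Sol g := by
  choose e he using fun w : C(X, ℝ) => volt_equiv hT (ex w)
  have hfd : ∀ w, HasFDerivAt (solTh T) (e w : C(X, ℝ) →L[ℝ] C(X, ℝ)) w := by
    intro w
    rw [he w]
    exact sol_fderiv w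
  have hsd : ∀ w, HasStrictFDerivAt (solTh T) (e w : C(X, ℝ) →L[ℝ] C(X, ℝ)) w := by
    intro w
    have h1 : ContDiffAt ℝ 1 (solTh T) w := (sol_analytic w).contDiffAt
    exact h1.hasStrictFDerivAt' (hfd w) (by norm_num)
  have hopen : IsOpenMap (solTh T) := isOpenMap_of_hasStrictFDerivAt_equiv hsd
  have hrange : Set.range (solTh T) = Set.univ := by
    have h1 : IsClopen (Set.range (solTh T)) := ⟨sol_closed hT, hopen.isOpen_range⟩
    exact h1.eq_univ ⟨_, ⟨0, rfl⟩⟩
  have hsurj : Function.Surjective (solTh T) := Set.range_eq_univ.1 hrange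
  let eq := Equiv.ofBijective (solTh T) ⟨sol_inj hT, hsurj⟩
  have hr : ∀ g, solTh T (eq.symm g) = g := fun g => eq.apply_symm_apply g
  have hl : ∀ w, eq.symm (solTh T w) = w := fun w => eq.symm_apply_apply w
  refine ⟨eq.symm, hr, hl, fun g => ?_⟩
  have hc : ContDiffAt ℝ (⊤ : WithTop ℕ∞) (solTh T) (eq.symm g) := (sol_analytic _).contDiffAt
  have hn : (⊤ : WithTop ℕ∞) ≠ 0 := by simp
  have h1 := hc.to_localInverse (hfd (eq.symm g)) hn
  rw [hr g] at h1
  have h2 : AnalyticAt ℝ (hc.localInverse (hfd (eq.symm g)) hn) g := h1.analyticAt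
  refine h2.congr ?_
  have h3 := (hc.hasStrictFDerivAt' (hfd (eq.symm g)) hn).eventually_right_inverse
  rw [hr g] at h3
  filter_upwards [h3] with y hy
  have h4 := hl (hc.localInverse (hfd (eq.symm g)) hn y)
  rw [← h4]
  exact congrArg eq.symm hy

end Pool.Agent.Age
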