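import Pool.Agent.Helper49.Age.Defs
import Pool.Agent.Helper49.Age.Exp
import Pool.Agent.Helper49.Age.Sol
import Pool.Agent.Helper49.Age.VolK

/-! The common curve. -/

set_option autoImplicit false

namespace Pool.Agent.Age

open MeasureTheory

variable {R : ℝ} {ν₁ ν₂ : Measure (K R)} [IsFiniteMeasure ν₁] [IsFiniteMeasure ν₂]

theorem cur_cst_eq (a : ℝ) : (cst a : C(K R, ℝ)) = a • (1 : C(K R, ℝ)) := by
  ext x
  simp [cst_apply]

theorem cur_cst_add (a b : ℝ) : (cst (a + b) : C(K R, ℝ)) = cst a + cst b := by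
  ext x
  simp [cst_apply]

theorem cur_cst_analytic (a : ℝ) : AnalyticAt ℝ (fun t : ℝ => (cst t : C(K R, ℝ))) a := by
  have : (fun t : ℝ => (cst t : C(K R, ℝ))) = fun t => t • (1 : C(K R, ℝ)) :=
    funext cur_cst_eq
  rw [this]
  exact analyticAt_id.smul analyticAt_const

/-- an uncountable set of zeros of an analytic function on the line has an accumulation point -/
theorem cur_zero {G : ℝ → ℝ} (hG : ∀ M, AnalyticAt ℝ G M) {m : ℝ → ℝ}
    (hinj : Set.InjOn m (Set.Ioo 0 1)) (hz : ∀ z ∈ Set.Ioo (0 : ℝ) 1, G (m z) = 0) :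
    ∀ M, G M = 0 := by
  set Z : Set ℝ := m '' Set.Ioo 0 1 with hZ
  have hunc : ¬ (Set.Ioo (0 : ℝ) 1).Countable := by
    intro hc
    have h1 := hc.dense_compl ℝ
    obtain ⟨y, hy1, hy2⟩ := h1.inter_open_nonempty (Set.Ioo (0 : ℝ) 1) isOpen_Ioo
      ⟨1 / 2, by norm_num, by norm_num⟩
    exact hy2 hy1
  have hZunc : ¬ Z.Countable := fun h => hunc (Set.countable_of_injective_of_countable_image hinj h)
  have hex : ∃ n : ℕ, (Z ∩ Set.Icc (-(n : ℝ)) n).Infinite := by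
    by_contra hcon
    push Not at hcon
    apply hZunc
    have : Z = ⋃ n : ℕ, Z ∩ Set.Icc (-(n : ℝ)) n := by
      ext x
      simp only [Set.mem_iUnion, Set.mem_inter_iff, Set.mem_Icc, exists_and_left]
      refine ⟨fun hx => ⟨hx, ?_⟩, fun hx => hx.1⟩
      obtain ⟨n, hn⟩ := exists_nat_ge |x|
      exact ⟨n, by linarith [neg_abs_le x], by linarith [le_abs_self x]⟩
    rw [this]
    exact Set.countable_iUnion fun n => (hcon n).countable
  obtain ⟨n, hn⟩ := hex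
  obtain ⟨x, -, hx⟩ := hn.exists_accPt_of_subset_isCompact (isCompact_Icc (a := -(n : ℝ)) (b := n))
    Set.inter_subset_right
  have hfr : ∃ᶠ y in nhdsWithin x {x}ᶜ, G y = 0 := by
    have h1 := accPt_iff_frequently_nhdsNE.1 hx
    refine h1.mono fun y hy => ?_
    obtain ⟨z, hz1, rfl⟩ := hy.1
    exact hz z hz1
  have hon : AnalyticOnNhd ℝ G Set.univ := fun M _ => hG M
  have h2 := hon.eqOn_zero_of_preconnected_of_frequently_eq_zero isPreconnected_univ
    (Set.mem_univ x) hfr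
  exact fun M => h2 (Set.mem_univ M)

/-- C1. `w₁ M = Sol_B (cst M)`, `a M = w₁ M 0`, `V M = la ν₁ (ex (w₁ M))`,
`w₂ M = Sol_F (cst (a M) + V M • idc)`. Everything is analytic in `M`. The function
`G M = V M - la ν₂ (ex (w₂ M))` vanishes at `M = log z + la ν₁ (idc * ex w₁)` for the solutions
`w₁`, `w₂` of `GF` (uniqueness: op_kM_eq_B, op_kM_eq_F); at these points `a M = log z`, so they are
infinitely many points of a bounded set (z in [1/4,1/2]) and have an accumulation point; hence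
`G = 0`. -/
theorem exists_cur (hR : 0 ≤ R) (h : GF ν₁ ν₂) : ∃ a V w₁ w₂, Cur ν₁ ν₂ a V w₁ w₂ := by
  obtain ⟨SB, hB1, hB2, hB3⟩ := exists_sol (volt_B ν₁)
  obtain ⟨SF, hF1, hF2, hF3⟩ := exists_sol (volt_F ν₂)
  set w₁ : ℝ → C(K R, ℝ) := fun M => SB (cst M) with hw₁
  set a : ℝ → ℝ := fun M => M - la ν₁ (idc * ex (w₁ M)) with ha
  set V : ℝ → ℝ := fun M => la ν₁ (ex (w₁ M)) with hV
  set w₂ : ℝ → C(K R, ℝ) := fun M => SF (cst (a M) + V M • idc) with hw₂
  have aw₁ : ∀ M, AnalyticAt ℝ w₁ M := fun M =>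
    (hB3 _).comp (cur_cst_analytic M)
  have aex₁ : ∀ M, AnalyticAt ℝ (fun M => ex (w₁ M)) M := fun M =>
    (analyticAt_ex _).comp (aw₁ M)
  have aV : ∀ M, AnalyticAt ℝ V M := fun M => ((la ν₁).analyticAt _).comp (aex₁ M)
  have aa : ∀ M, AnalyticAt ℝ a M := fun M => by
    have h1 : AnalyticAt ℝ (fun M => la ν₁ (ContinuousLinearMap.mul ℝ C(K R, ℝ) idc (ex (w₁ M)))) M :=
      ((la ν₁).analyticAt _).comp (((ContinuousLinearMap.mul ℝ C(K R, ℝ) idc).analyticAt _).comp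
        (aex₁ M))
    exact analyticAt_id.sub h1
  have aw₂ : ∀ M, AnalyticAt ℝ w₂ M := fun M => by
    have h1 : AnalyticAt ℝ (fun M => (cst (a M) : C(K R, ℝ)) + V M • idc) M :=
      ((cur_cst_analytic (a M)).comp (aa M)).add ((aV M).smul analyticAt_const)
    exact (hF3 _).comp h1
  have aG : ∀ M, AnalyticAt ℝ (fun M => V M - la ν₂ (ex (w₂ M))) M := fun M =>
    (aV M).sub (((la ν₂).analyticAt _).comp ((analyticAt_ex _).comp (aw₂ M)))
  have top : ∀ M, w₁ M = cst M - op kB ν₁ (ex (w₁ M)) := fun M => eq_sub_of_add_eq (hB1 (cst M))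
  have eq₁ : ∀ M, w₁ M = cst (a M) + op kM ν₁ (ex (w₁ M)) := by
    intro M
    rw [op_kM_eq_B]
    have h1 : (cst (a M) : C(K R, ℝ)) + cst (la ν₁ (idc * ex (w₁ M))) = cst M := by
      rw [← cur_cst_add]
      congr 1
      simp only [ha]
      ring
    rw [← add_sub_assoc, h1]
    exact top M
  -- the points given by `GF`
  choose! u₁ u₂ hu₁ hu₂ hu using fun z (hz : z ∈ Set.Ioo (0 : ℝ) 1) => h z hz.1 hz.2
  set m : ℝ → ℝ := fun z => Real.log z + la ν₁ (idc * ex (u₁ z)) with hm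
  have hw₁m : ∀ z ∈ Set.Ioo (0 : ℝ) 1, w₁ (m z) = u₁ z := by
    intro z hz
    have h1 := hu₁ z hz
    rw [op_kM_eq_B, ← add_sub_assoc, ← cur_cst_add] at h1
    have h2 : u₁ z + op kB ν₁ (ex (u₁ z)) = cst (m z) := by
      rw [← eq_sub_iff_add_eq]
      exact h1
    have h3 := hB2 (u₁ z)
    rw [h2] at h3
    exact h3
  have ham : ∀ z ∈ Set.Ioo (0 : ℝ) 1, a (m z) = Real.log z := by
    intro z hz
    simp only [ha]
    rw [hw₁m z hz]
    simp only [hm]
    ring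
  have hVm : ∀ z ∈ Set.Ioo (0 : ℝ) 1, V (m z) = la ν₂ (ex (u₂ z)) := by
    intro z hz
    simp only [hV]
    rw [hw₁m z hz]
    exact hu z hz
  have hw₂m : ∀ z ∈ Set.Ioo (0 : ℝ) 1, w₂ (m z) = u₂ z := by
    intro z hz
    have h1 := hu₂ z hz
    rw [op_kM_eq_F, ← add_sub_assoc] at h1
    have h2 : u₂ z + op kF ν₂ (ex (u₂ z)) = cst (a (m z)) + V (m z) • idc := by
      rw [← eq_sub_iff_add_eq, ham z hz, hVm z hz]
      exact h1
    have h3 := hF2 (u₂ z)
    rw [h2] at h3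
    exact h3
  have hinj : Set.InjOn m (Set.Ioo 0 1) := by
    intro z hz z' hz' he
    have h1 := ham z hz
    rw [he, ham z' hz'] at h1
    exact (Real.log_injOn_pos hz.1 hz'.1 h1.symm)
  have hG : ∀ M, V M - la ν₂ (ex (w₂ M)) = 0 := by
    refine cur_zero aG hinj fun z hz => ?_
    rw [hw₂m z hz, hVm z hz, sub_self]
  have V₂ : ∀ M, la ν₂ (ex (w₂ M)) = V M := fun M => (sub_eq_zero.1 (hG M)).symm
  refine ⟨a, V, w₁, w₂, fun M => (aa M).differentiableAt, fun M => (aV M).differentiableAt,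
    fun M => (aw₁ M).differentiableAt, fun M => (aw₂ M).differentiableAt, top, eq₁, ?_,
    fun M => rfl, V₂⟩
  intro M
  rw [op_kM_eq_F, V₂ M, ← add_sub_assoc]
  exact eq_sub_of_add_eq (hF1 _)

end Pool.Agent.Age
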