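import Pool.Agent.Helper49.Age.Defs
import Pool.Agent.Helper49.Age.Asy

/-! Comparison of the two measures below a common top part. -/

set_option autoImplicit false

namespace Pool.Agent.Age

open MeasureTheory

variable {R : ℝ} {ν₁ ν₂ : Measure (K R)} [IsFiniteMeasure ν₁] [IsFiniteMeasure ν₂]
  {a V : ℝ → ℝ} {w₁ w₂ : ℝ → C(K R, ℝ)}

/-- the part `[0, b]` -/
private def sA (R b : ℝ) : Set (K R) := {u : K R | (u : ℝ) ≤ b}

/-- the part `(b, d]` -/
private def sB (R b d : ℝ) : Set (K R) := {u : K R | b < (u : ℝ) ∧ (u : ℝ) ≤ d}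

private theorem meas_A (R b : ℝ) : MeasurableSet (sA R b) :=
  measurableSet_le measurable_subtype_coe measurable_const

private theorem meas_B (R b d : ℝ) : MeasurableSet (sB R b d) :=
  (measurableSet_lt measurable_const measurable_subtype_coe).inter
    (measurableSet_le measurable_subtype_coe measurable_const)

/-- splitting of an integral -/
private theorem split {ν : Measure (K R)} [IsFiniteMeasure ν] {S ε c b : ℝ} (hi : Iso ν S ε c)
    (hb : b ≤ S - ε) (f : K R → ℝ) (hf : Integrable f ν) :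
    ∫ u, f u ∂ν = (∫ u in sA R b, f u ∂ν) + (∫ u in sB R b (S - ε), f u ∂ν) +
      c * f ⟨S, hi.hS0, hi.hSR⟩ := by
  set P : Set (K R) := {u : K R | (u : ℝ) = S} with hP
  have hPs : P = {(⟨S, hi.hS0, hi.hSR⟩ : K R)} := by
    ext u
    simp only [hP, Set.mem_ofPred_eq, Set.mem_singleton_iff]
    constructor
    · intro h
      exact Subtype.ext h
    · intro h
      rw [h]
  have hAB : Disjoint (sA R b) (sB R b (S - ε)) := by
    rw [Set.disjoint_left]
    intro u h1 h2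
    exact absurd h2.1 (not_lt.2 h1)
  have hABP : Disjoint (sA R b ∪ sB R b (S - ε)) P := by
    rw [Set.disjoint_left]
    intro u h1 h2
    have h3 : (u : ℝ) = S := h2
    have hε := hi.hε
    rcases h1 with h1 | h1
    · have h4 : (u : ℝ) ≤ b := h1
      linarith
    · have h4 : (u : ℝ) ≤ S - ε := h1.2
      linarith
  have hPm : MeasurableSet P := by rw [hPs]; exact measurableSet_singleton _
  have hae : (Set.univ : Set (K R)) =ᵐ[ν] ((sA R b ∪ sB R b (S - ε)) ∪ P : Set (K R)) := by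
    rw [Filter.eventuallyEq_set]
    have h1 := measure_eq_zero_iff_ae_notMem.1 hi.top
    have h2 := measure_eq_zero_iff_ae_notMem.1 hi.gap
    filter_upwards [h1, h2] with u hu1 hu2
    simp only [Set.mem_univ, true_iff]
    simp only [not_and, not_lt] at hu1 hu2
    by_cases h3 : (u : ℝ) ≤ b
    · exact Or.inl (Or.inl h3)
    · by_cases h4 : (u : ℝ) ≤ S - ε
      · exact Or.inl (Or.inr ⟨not_le.1 h3, h4⟩)
      · exact Or.inr (le_antisymm hu1 (hu2 (not_le.1 h4)))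
  calc ∫ u, f u ∂ν = ∫ u in Set.univ, f u ∂ν := by rw [setIntegral_univ]
    _ = ∫ u in (sA R b ∪ sB R b (S - ε)) ∪ P, f u ∂ν := setIntegral_congr_set hae
    _ = (∫ u in sA R b, f u ∂ν) + (∫ u in sB R b (S - ε), f u ∂ν) + ∫ u in P, f u ∂ν := by
        rw [setIntegral_union hABP hPm hf.integrableOn hf.integrableOn,
          setIntegral_union hAB (meas_B R b (S - ε)) hf.integrableOn hf.integrableOn]
    _ = _ := by
        congr 1
        have h5 : ν.real {(⟨S, hi.hS0, hi.hSR⟩ : K R)} = c := by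
          rw [← hPs]; exact hi.atom
        rw [hPs, integral_singleton, h5, smul_eq_mul]

/-- bound of an integral over a set -/
private theorem bd {ν : Measure (K R)} [IsFiniteMeasure ν] (h1 : ν Set.univ ≤ 1) (s : Set (K R))
    (f : K R → ℝ) {C : ℝ} (hC : 0 ≤ C) (hf : ∀ u ∈ s, |f u| ≤ C) : |∫ u in s, f u ∂ν| ≤ C := by
  have h2 := norm_setIntegral_le_of_norm_le_const (μ := ν) (s := s) (f := f) (C := C)
    (measure_lt_top ν s) (fun x hx => by rw [Real.norm_eq_abs]; exact hf x hx)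
  have h3 : ν.real s ≤ 1 := by
    have h4 : ν s ≤ 1 := (measure_mono (Set.subset_univ s)).trans h1
    exact ENNReal.toReal_mono ENNReal.one_ne_top h4 |>.trans_eq ENNReal.toReal_one
  rw [Real.norm_eq_abs] at h2
  calc |∫ u in s, f u ∂ν| ≤ C * ν.real s := h2
    _ ≤ C * 1 := mul_le_mul_of_nonneg_left h3 hC
    _ = C := mul_one C

private theorem exp_sub_le {x y t : ℝ} (hx : x ≤ t) (hy : y ≤ t) :
    |Real.exp x - Real.exp y| ≤ Real.exp t * |x - y| := by
  wlog h : y ≤ x generalizing x y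
  · have h1 := this hy hx (le_of_not_ge h)
    rwa [abs_sub_comm, abs_sub_comm x y]
  have h1 : Real.exp y ≤ Real.exp x := Real.exp_le_exp.2 h
  rw [abs_of_nonneg (by linarith), abs_of_nonneg (by linarith)]
  have h2 : 1 - (x - y) ≤ Real.exp (-(x - y)) := by
    have := Real.add_one_le_exp (-(x - y))
    linarith
  have h3 : Real.exp y = Real.exp x * Real.exp (-(x - y)) := by
    rw [← Real.exp_add]; congr 1; ring
  have h4 : Real.exp x - Real.exp y ≤ Real.exp x * (x - y) := by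
    rw [h3]
    have := mul_le_mul_of_nonneg_left h2 (Real.exp_pos x).le
    linarith
  refine h4.trans (mul_le_mul_of_nonneg_right (Real.exp_le_exp.2 hx) (by linarith))

private theorem intc (ν : Measure (K R)) [IsFiniteMeasure ν] (f : K R → ℝ) (hf : Continuous f) :
    Integrable f ν := integrable_cm ν ⟨f, hf⟩

/-- the difference of the two integrals below `S` -/
private noncomputable def LL (ν₁ ν₂ : Measure (K R)) (b d : ℝ) (f g : K R → ℝ) : ℝ :=
  (∫ u in sA R b, f u ∂ν₁) - (∫ u in sA R b, g u ∂ν₂) + ∫ u in sB R b d, (f u - g u) ∂ν₁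

private theorem LL_eq {S ε c b : ℝ} (hi₁ : Iso ν₁ S ε c) (hi₂ : Iso ν₂ S ε c) (hb : b ≤ S - ε)
    (heq : ν₁.restrict {x | b < (x : ℝ)} = ν₂.restrict {x | b < (x : ℝ)}) (f g : K R → ℝ)
    (hf : Continuous f) (hg : Continuous g) :
    (∫ u, f u ∂ν₁) - ∫ u, g u ∂ν₂ = LL ν₁ ν₂ b (S - ε) f g +
      c * (f ⟨S, hi₁.hS0, hi₁.hSR⟩ - g ⟨S, hi₁.hS0, hi₁.hSR⟩) := by
  have hB : ν₂.restrict (sB R b (S - ε)) = ν₁.restrict (sB R b (S - ε)) := by
    have e : sB R b (S - ε) = {u : K R | (u : ℝ) ≤ S - ε} ∩ {x : K R | b < (x : ℝ)} := by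
      ext u
      exact and_comm
    have hm : MeasurableSet {u : K R | (u : ℝ) ≤ S - ε} :=
      measurableSet_le measurable_subtype_coe measurable_const
    rw [e, ← Measure.restrict_restrict hm, ← Measure.restrict_restrict hm, heq]
  rw [split hi₁ hb f (intc ν₁ f hf), split hi₂ hb g (intc ν₂ g hg), LL, hB,
    integral_sub (intc ν₁ f hf).integrableOn (intc ν₁ g hg).integrableOn]
  ring

private theorem LL_bd {S ε b : ℝ} (h1 : ν₁ Set.univ ≤ 1) (h2 : ν₂ Set.univ ≤ 1)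
    (f g : K R → ℝ) {C₁ C₂ C₃ : ℝ} (hC₁ : 0 ≤ C₁) (hC₂ : 0 ≤ C₂) (hC₃ : 0 ≤ C₃)
    (hf : ∀ u : K R, (u : ℝ) ≤ b → |f u| ≤ C₁) (hg : ∀ u : K R, (u : ℝ) ≤ b → |g u| ≤ C₂)
    (hfg : ∀ u : K R, b < (u : ℝ) → (u : ℝ) ≤ S - ε → |f u - g u| ≤ C₃) :
    |LL ν₁ ν₂ b (S - ε) f g| ≤ C₁ + C₂ + C₃ := by
  have b1 := bd h1 (sA R b) f hC₁ (fun u hu => hf u hu)
  have b2 := bd h2 (sA R b) g hC₂ (fun u hu => hg u hu)
  have b3 := bd h1 (sB R b (S - ε)) (fun u => f u - g u) hC₃ (fun u hu => hfg u hu.1 hu.2)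
  rw [LL]
  calc |(∫ u in sA R b, f u ∂ν₁) - (∫ u in sA R b, g u ∂ν₂) + ∫ u in sB R b (S - ε), (f u - g u) ∂ν₁|
      ≤ |∫ u in sA R b, f u ∂ν₁| + |∫ u in sA R b, g u ∂ν₂| +
        |∫ u in sB R b (S - ε), (f u - g u) ∂ν₁| := by
        refine (abs_add_le _ _).trans (add_le_add_left (abs_sub _ _) _)
    _ ≤ _ := by linarith

private theorem LL_lin {S ε c b : ℝ} (hi₁ : Iso ν₁ S ε c) (hi₂ : Iso ν₂ S ε c) (hb : b ≤ S - ε)
    (heq : ν₁.restrict {x | b < (x : ℝ)} = ν₂.restrict {x | b < (x : ℝ)}) (f g f' g' : K R → ℝ)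
    (hf : Continuous f) (hg : Continuous g) (hf' : Continuous f') (hg' : Continuous g')
    (r s : ℝ) :
    LL ν₁ ν₂ b (S - ε) (fun u => r * f u + s * f' u) (fun u => r * g u + s * g' u) =
      r * LL ν₁ ν₂ b (S - ε) f g + s * LL ν₁ ν₂ b (S - ε) f' g' := by
  have e1 := LL_eq hi₁ hi₂ hb heq f g hf hg
  have e2 := LL_eq hi₁ hi₂ hb heq f' g' hf' hg'
  have e3 := LL_eq hi₁ hi₂ hb heq (fun u => r * f u + s * f' u) (fun u => r * g u + s * g' u)
    (by fun_prop) (by fun_prop)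
  rw [integral_add ((intc ν₁ f hf).const_mul r) ((intc ν₁ f' hf').const_mul s),
    integral_add ((intc ν₂ g hg).const_mul r) ((intc ν₂ g' hg').const_mul s),
    integral_const_mul, integral_const_mul, integral_const_mul, integral_const_mul] at e3
  linear_combination r * e1 + s * e2 - e3

private theorem arith {S c ε m v E ρ δ α b M I J L2 L3 : ℝ} (hS : 0 ≤ S) (hc : 0 < c) (hε : 0 < ε)
    (hm1 : 1 ≤ m) (hV0 : 0 ≤ v) (hE0 : 0 < E) (hρ : ρ ≤ Real.exp S * m * Real.exp (-(v * ε)))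
    (hmv : c * m ≤ v) (hδ0 : 0 ≤ δ) (hδ1 : δ ≤ 1) (hV : v = c * m + δ)
    (hδ : δ ≤ Real.exp (M - c * m * ε)) (hm : Real.exp M = m) (hE : E = Real.exp (α + v * b))
    (hIb : |I| ≤ c * m * (16 * S ^ 2 * (E * ρ)))
    (hL2b : |L2| ≤ (c * m * S + 1) * (6 * S * (E * ρ))) (hJI : J = I + L2)
    (hL3b : |L3| ≤ 2 * S * Real.exp (v * b)) :
    |Real.exp (-α) * J + δ * L3| ≤
      ((22 * c * S ^ 2 + 6 * S) * Real.exp S + 2 * S * Real.exp ε) / c ^ 2 * v ^ 2 *
        Real.exp (v * (b - ε)) := by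
  have hm0 : 0 < m := by linarith
  have hJb : |J| ≤ (22 * c * m * S ^ 2 + 6 * S) * (E * ρ) := by
    rw [hJI]
    refine (abs_add_le _ _).trans ((add_le_add hIb hL2b).trans (le_of_eq ?_))
    ring
  have hEv : Real.exp (-α) * E = Real.exp (v * b) := by
    rw [hE, ← Real.exp_add]; congr 1; ring
  have hbe : Real.exp (v * b) * Real.exp (-(v * ε)) = Real.exp (v * (b - ε)) := by
    rw [← Real.exp_add]; congr 1; ring
  have t1 : |Real.exp (-α) * J| ≤
      (22 * c * m * S ^ 2 + 6 * S) * (Real.exp S * m) * Real.exp (v * (b - ε)) := by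
    rw [abs_mul, abs_of_pos (Real.exp_pos _)]
    have h3 : 0 ≤ 22 * c * m * S ^ 2 + 6 * S := by positivity
    calc Real.exp (-α) * |J| ≤ Real.exp (-α) * ((22 * c * m * S ^ 2 + 6 * S) * (E * ρ)) :=
          mul_le_mul_of_nonneg_left hJb (Real.exp_pos _).le
      _ = (22 * c * m * S ^ 2 + 6 * S) * (Real.exp (v * b) * ρ) := by rw [← hEv]; ring
      _ ≤ (22 * c * m * S ^ 2 + 6 * S) *
          (Real.exp (v * b) * (Real.exp S * m * Real.exp (-(v * ε)))) :=
          mul_le_mul_of_nonneg_left (mul_le_mul_of_nonneg_left hρ (Real.exp_pos _).le) h3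
      _ = _ := by rw [← hbe]; ring
  have hδ2 : δ ≤ m * Real.exp ε * Real.exp (-(v * ε)) := by
    refine hδ.trans ?_
    rw [← hm, ← Real.exp_add, ← Real.exp_add]
    apply Real.exp_le_exp.2
    rw [hm]
    have h3 : c * m = v - δ := by rw [hV]; ring
    rw [h3]
    have h4 : δ * ε ≤ 1 * ε := mul_le_mul_of_nonneg_right hδ1 hε.le
    linarith
  have t2 : |δ * L3| ≤ 2 * S * Real.exp ε * m * Real.exp (v * (b - ε)) := by
    rw [abs_mul, abs_of_nonneg hδ0]
    calc δ * |L3| ≤ (m * Real.exp ε * Real.exp (-(v * ε))) * (2 * S * Real.exp (v * b)) :=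
          mul_le_mul hδ2 hL3b (abs_nonneg _) (by positivity)
      _ = _ := by rw [← hbe]; ring
  have hmm : m ≤ m ^ 2 := by nlinarith
  have hmv2 : m ^ 2 ≤ v ^ 2 / c ^ 2 := by
    rw [le_div_iff₀ (by positivity)]
    calc m ^ 2 * c ^ 2 = (c * m) ^ 2 := by ring
      _ ≤ v ^ 2 := pow_le_pow_left₀ (by positivity) hmv 2
  have t3 : (22 * c * m * S ^ 2 + 6 * S) * (Real.exp S * m) + 2 * S * Real.exp ε * m ≤
      ((22 * c * S ^ 2 + 6 * S) * Real.exp S + 2 * S * Real.exp ε) * m ^ 2 := by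
    have h3 : 6 * S * Real.exp S * m ≤ 6 * S * Real.exp S * m ^ 2 :=
      mul_le_mul_of_nonneg_left hmm (by positivity)
    have h4 : 2 * S * Real.exp ε * m ≤ 2 * S * Real.exp ε * m ^ 2 :=
      mul_le_mul_of_nonneg_left hmm (by positivity)
    linarith
  calc |Real.exp (-α) * J + δ * L3| ≤ |Real.exp (-α) * J| + |δ * L3| := abs_add_le _ _
    _ ≤ ((22 * c * m * S ^ 2 + 6 * S) * (Real.exp S * m) + 2 * S * Real.exp ε * m) *
        Real.exp (v * (b - ε)) := by rw [add_mul]; exact add_le_add t1 t2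
    _ ≤ (((22 * c * S ^ 2 + 6 * S) * Real.exp S + 2 * S * Real.exp ε) * (v ^ 2 / c ^ 2)) *
        Real.exp (v * (b - ε)) := by
        refine mul_le_mul_of_nonneg_right (t3.trans ?_) (Real.exp_pos _).le
        exact mul_le_mul_of_nonneg_left hmv2 (by positivity)
    _ = _ := by ring

private theorem estM {S ε c b : ℝ} (h : Cur ν₁ ν₂ a V w₁ w₂) (hi₁ : Iso ν₁ S ε c)
    (hi₂ : Iso ν₂ S ε c) (h1 : ν₁ Set.univ ≤ 1) (h2 : ν₂ Set.univ ≤ 1) (hb0 : 0 ≤ b)
    (hb : b ≤ S - ε)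
    (heq : ν₁.restrict {x | b < (x : ℝ)} = ν₂.restrict {x | b < (x : ℝ)}) (M : ℝ) (hM : 0 ≤ M)
    (hsm : Real.exp (M - c * Real.exp M * ε) ≤ (8 * (S + 1) * Real.exp S)⁻¹) :
    |∫ u, (V M * (S - (u : ℝ)) - 1) * Real.exp (V M * u) ∂ν₁ -
        ∫ u, (V M * (S - (u : ℝ)) - 1) * Real.exp (V M * u) ∂ν₂| ≤
      ((22 * c * S ^ 2 + 6 * S) * Real.exp S + 2 * S * Real.exp ε) / c ^ 2 * V M ^ 2 *
        Real.exp (V M * (b - ε)) := by
  have hS := hi₁.hS0
  have hε := hi₁.hε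
  have hc := hi₁.hc
  obtain ⟨δ, -, hδ0, hδ, hV, hlo, hhi⟩ := asy h hi₁ h1 M
  have hfw1 := cur_fw₁ h M
  have hfw2 := cur_fw₂ h M
  have hle1 := cur_le₁ h M
  have hle2 := cur_le₂ h M
  have hV0 : 0 ≤ V M := cur_V_nonneg h M
  have hV1 : ∫ u, Real.exp (w₁ M u) ∂ν₁ = V M := h.V₁ M
  have hV2 : ∫ u, Real.exp (w₂ M u) ∂ν₂ = V M := h.V₂ M
  set m := Real.exp M with hm
  have hm1 : 1 ≤ m := Real.one_le_exp hM
  have hm0 : 0 < m := by linarith
  have hκ1 : (8 * (S + 1) * Real.exp S)⁻¹ ≤ 1 :=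
    inv_le_one_of_one_le₀ (by nlinarith [Real.one_le_exp hS])
  have hδ1 : δ ≤ 1 := (hδ.trans hsm).trans hκ1
  set v := V M with hv
  set α := a M with hα
  set pS : K R := ⟨S, hi₁.hS0, hi₁.hSR⟩ with hpS
  have hpS' : (pS : ℝ) = S := rfl
  have hw1S : w₁ M pS = M := asy_top h hi₁ M pS le_rfl
  set E := Real.exp (α + v * b) with hE
  set ρ := Real.exp (α + v * (S - ε)) with hρdef
  have hE0 : 0 < E := Real.exp_pos _
  have hρ0 : 0 < ρ := Real.exp_pos _
  have hEρ : E ≤ ρ := by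
    apply Real.exp_le_exp.2
    have := mul_le_mul_of_nonneg_left hb hV0
    linarith
  have hρ : ρ ≤ Real.exp S * m * Real.exp (-(v * ε)) := by
    rw [hm, ← Real.exp_add, ← Real.exp_add]
    apply Real.exp_le_exp.2
    have h3 : S * δ ≤ S * 1 := mul_le_mul_of_nonneg_left hδ1 hS
    nlinarith
  have hmv : c * m ≤ v := by rw [hV]; linarith
  have hρ2 : ρ ≤ (8 * (S + 1))⁻¹ := by
    have h3 : m * Real.exp (-(v * ε)) ≤ Real.exp (M - c * m * ε) := by
      rw [hm, ← Real.exp_add]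
      apply Real.exp_le_exp.2
      rw [← hm]
      have := mul_le_mul_of_nonneg_right hmv hε.le
      linarith
    calc ρ ≤ Real.exp S * (m * Real.exp (-(v * ε))) := by rw [← mul_assoc]; exact hρ
      _ ≤ Real.exp S * (8 * (S + 1) * Real.exp S)⁻¹ :=
          mul_le_mul_of_nonneg_left (h3.trans hsm) (Real.exp_pos _).le
      _ = (8 * (S + 1))⁻¹ := by
          rw [mul_inv, mul_comm, mul_assoc, inv_mul_cancel₀ (Real.exp_pos S).ne', mul_one]
  have hSρ : S * ρ ≤ 1 / 8 := by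
    have h3 : S * ρ ≤ S * (8 * (S + 1))⁻¹ := mul_le_mul_of_nonneg_left hρ2 hS
    have h4 : S * (8 * (S + 1))⁻¹ ≤ 1 / 8 := by
      rw [← div_eq_mul_inv, div_le_iff₀ (by linarith)]
      linarith
    linarith
  -- bounds of the exponentials
  have W1A : ∀ u : K R, (u : ℝ) ≤ b → Real.exp (w₁ M u) ≤ E := fun u hu => by
    apply Real.exp_le_exp.2
    have := mul_le_mul_of_nonneg_left hu hV0
    linarith [hle1 u]
  have W2A : ∀ u : K R, (u : ℝ) ≤ b → Real.exp (w₂ M u) ≤ E := fun u hu => by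
    apply Real.exp_le_exp.2
    have := mul_le_mul_of_nonneg_left hu hV0
    linarith [hle2 u]
  -- the maximum of the difference
  obtain ⟨x₀, hx₀, hmax⟩ : ∃ x₀ ∈ {x : K R | (x : ℝ) ≤ S},
      IsMaxOn (fun x => |w₁ M x - w₂ M x|) {x : K R | (x : ℝ) ≤ S} x₀ :=
    IsCompact.exists_isMaxOn (isClosed_le continuous_subtype_val continuous_const).isCompact
      ⟨pS, le_refl S⟩ (by fun_prop)
  set N := |w₁ M x₀ - w₂ M x₀| with hNdef
  have hN0 : 0 ≤ N := abs_nonneg _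
  have hN : ∀ x : K R, (x : ℝ) ≤ S → |w₁ M x - w₂ M x| ≤ N := fun x hx => hmax hx
  have WBB : ∀ u : K R, (u : ℝ) ≤ S - ε → |Real.exp (w₁ M u) - Real.exp (w₂ M u)| ≤ ρ * N := by
    intro u hu
    have h5 := mul_le_mul_of_nonneg_left hu hV0
    have h3 : w₁ M u ≤ α + v * (S - ε) := by linarith [hle1 u]
    have h4 : w₂ M u ≤ α + v * (S - ε) := by linarith [hle2 u]
    exact (exp_sub_le h3 h4).trans (mul_le_mul_of_nonneg_left (hN u (by linarith)) hρ0.le)
  have hcm : ∀ x : K R, (x : ℝ) ≤ S → ∀ u : K R, 0 ≤ max ((x : ℝ) - u) 0 ∧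
      max ((x : ℝ) - u) 0 ≤ S := fun x hx u =>
    ⟨le_max_right _ _, max_le (by linarith [u.2.1]) hS⟩
  have hD : ∀ x : K R, (x : ℝ) ≤ S → w₁ M x - w₂ M x = -LL ν₁ ν₂ b (S - ε)
      (fun u => max ((x : ℝ) - u) 0 * Real.exp (w₁ M u))
      (fun u => max ((x : ℝ) - u) 0 * Real.exp (w₂ M u)) := by
    intro x hx
    have e := LL_eq hi₁ hi₂ hb heq (fun u => max ((x : ℝ) - u) 0 * Real.exp (w₁ M u))
      (fun u => max ((x : ℝ) - u) 0 * Real.exp (w₂ M u)) (by fun_prop) (by fun_prop)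
    have h0 : max ((x : ℝ) - ((⟨S, hi₁.hS0, hi₁.hSR⟩ : K R) : ℝ)) 0 = 0 :=
      max_eq_right (by
        change (x : ℝ) - S ≤ 0
        linarith)
    rw [h0] at e
    rw [hfw1 x, hfw2 x]
    linarith
  have hN2 : N ≤ S * E + S * E + S * (ρ * N) := by
    have h3 := LL_bd (ν₁ := ν₁) (ν₂ := ν₂) (S := S) (ε := ε) (b := b) h1 h2
      (fun u => max ((x₀ : ℝ) - u) 0 * Real.exp (w₁ M u))
      (fun u => max ((x₀ : ℝ) - u) 0 * Real.exp (w₂ M u)) (C₁ := S * E) (C₂ := S * E)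
      (C₃ := S * (ρ * N)) (by positivity) (by positivity) (by positivity)
      (fun u hu => by
        rw [abs_mul, abs_of_nonneg (hcm x₀ hx₀ u).1, abs_of_pos (Real.exp_pos _)]
        exact mul_le_mul (hcm x₀ hx₀ u).2 (W1A u hu) (Real.exp_pos _).le hS)
      (fun u hu => by
        rw [abs_mul, abs_of_nonneg (hcm x₀ hx₀ u).1, abs_of_pos (Real.exp_pos _)]
        exact mul_le_mul (hcm x₀ hx₀ u).2 (W2A u hu) (Real.exp_pos _).le hS)
      (fun u _ hu => by
        rw [← mul_sub, abs_mul, abs_of_nonneg (hcm x₀ hx₀ u).1]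
        exact mul_le_mul (hcm x₀ hx₀ u).2 (WBB u hu) (abs_nonneg _) hS)
    have h9 : N = |LL ν₁ ν₂ b (S - ε) (fun u => max ((x₀ : ℝ) - u) 0 * Real.exp (w₁ M u))
        (fun u => max ((x₀ : ℝ) - u) 0 * Real.exp (w₂ M u))| := by
      rw [hNdef, hD x₀ hx₀, abs_neg]
    exact h9.le.trans h3
  have hN4 : N ≤ 4 * S * E := by
    have h3 : S * (ρ * N) ≤ 1 / 8 * N := by
      rw [← mul_assoc]; exact mul_le_mul_of_nonneg_right hSρ hN0
    have h4 : 0 ≤ S * E := by positivity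
    linarith
  have hN1 : N ≤ 1 := by
    have h3 : S * E ≤ S * ρ := mul_le_mul_of_nonneg_left hEρ hS
    linarith
  -- the functions
  set φ : K R → ℝ := fun u => c * m * max (S - (u : ℝ)) 0 - 1 with hφ
  have hφc : Continuous φ := by fun_prop
  have hφb : ∀ u : K R, |φ u| ≤ c * m * S + 1 := by
    intro u
    have h3 := hcm pS le_rfl u
    rw [hpS'] at h3
    have h4 : 0 < c * m := mul_pos hc hm0
    have h5 := mul_le_mul_of_nonneg_left h3.2 h4.le
    have h6 := mul_nonneg h4.le h3.1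
    rw [abs_le]
    constructor <;> simp only [hφ] <;> linarith
  set I := LL ν₁ ν₂ b (S - ε) (fun u => φ u * Real.exp (w₁ M u))
    (fun u => φ u * Real.exp (w₂ M u)) with hI
  set D := w₁ M pS - w₂ M pS with hDdef
  have hDN : |D| ≤ N := hN pS le_rfl
  have hIeq : I = -(c * m * (Real.exp (-D) - 1 - -D)) := by
    have e := LL_eq hi₁ hi₂ hb heq (fun u => φ u * Real.exp (w₁ M u))
      (fun u => φ u * Real.exp (w₂ M u)) (by fun_prop) (by fun_prop)
    have hφS : φ pS = -1 := by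
      simp only [hφ, hpS']
      simp
    have i1 : ∫ u, φ u * Real.exp (w₁ M u) ∂ν₁ = c * m * (α + v * S - w₁ M pS) - v := by
      have e1 : (fun u : K R => φ u * Real.exp (w₁ M u)) = fun u : K R =>
          c * m * (max (S - (u : ℝ)) 0 * Real.exp (w₁ M u)) - Real.exp (w₁ M u) := by
        funext u
        simp only [hφ]
        ring
      rw [e1, integral_sub (intc ν₁ _ (by fun_prop)) (intc ν₁ _ (by fun_prop)),
        integral_const_mul, hV1, hfw1 pS, hpS']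
      ring
    have i2 : ∫ u, φ u * Real.exp (w₂ M u) ∂ν₂ = c * m * (α + v * S - w₂ M pS) - v := by
      have e1 : (fun u : K R => φ u * Real.exp (w₂ M u)) = fun u : K R =>
          c * m * (max (S - (u : ℝ)) 0 * Real.exp (w₂ M u)) - Real.exp (w₂ M u) := by
        funext u
        simp only [hφ]
        ring
      rw [e1, integral_sub (intc ν₂ _ (by fun_prop)) (intc ν₂ _ (by fun_prop)),
        integral_const_mul, hV2, hfw2 pS, hpS']
      ring
    rw [i1, i2] at e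
    have e' : (c * m * (α + v * S - w₁ M pS) - v) - (c * m * (α + v * S - w₂ M pS) - v) =
        I + c * (φ pS * Real.exp (w₁ M pS) - φ pS * Real.exp (w₂ M pS)) := e
    have h3 : Real.exp (w₂ M pS) = m * Real.exp (-D) := by
      rw [hm, ← Real.exp_add]
      congr 1
      rw [hDdef, hw1S]
      ring
    rw [hφS, h3, hw1S, ← hm] at e'
    have h4 : w₂ M pS = M - D := by rw [hDdef, hw1S]; ring
    rw [h4] at e'
    linear_combination -e'
  have hIb : |I| ≤ c * m * (16 * S ^ 2 * (E * ρ)) := by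
    have h3 : |(-D)| ≤ 1 := by rw [abs_neg]; exact hDN.trans hN1
    have h4 := Real.abs_exp_sub_one_sub_id_le h3
    have h5 : (-D) ^ 2 ≤ 16 * S ^ 2 * (E * ρ) := by
      have h6 : (-D) ^ 2 = |D| ^ 2 := by rw [neg_sq, sq_abs]
      rw [h6]
      calc |D| ^ 2 ≤ (4 * S * E) ^ 2 := pow_le_pow_left₀ (abs_nonneg _) (hDN.trans hN4) 2
        _ = 16 * S ^ 2 * (E * E) := by ring
        _ ≤ 16 * S ^ 2 * (E * ρ) := by
            apply mul_le_mul_of_nonneg_left _ (by positivity)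
            exact mul_le_mul_of_nonneg_left hEρ hE0.le
    rw [hIeq, abs_neg, abs_mul, abs_of_pos (mul_pos hc hm0)]
    exact mul_le_mul_of_nonneg_left (h4.trans h5) (mul_pos hc hm0).le
  -- comparison with the exponential of the linear function
  have X1 : ∀ u : K R, (u : ℝ) ≤ b →
      |Real.exp (α + v * u) - Real.exp (w₁ M u)| ≤ E * (S * E) := by
    intro u hu
    have h5 := mul_le_mul_of_nonneg_left hu hV0
    have h3 : α + v * u ≤ α + v * b := by linarith
    have h4 : w₁ M u ≤ α + v * b := by linarith [hle1 u]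
    refine (exp_sub_le h3 h4).trans (mul_le_mul_of_nonneg_left ?_ hE0.le)
    have h6 : α + v * u - w₁ M u = ∫ t in Set.univ, max ((u : ℝ) - t) 0 * Real.exp (w₁ M t) ∂ν₁ := by
      rw [setIntegral_univ, hfw1 u]; ring
    rw [h6]
    refine bd h1 Set.univ _ (by positivity) (fun t _ => ?_)
    have h7 := hcm u (by linarith) t
    rw [abs_mul, abs_of_nonneg h7.1, abs_of_pos (Real.exp_pos _)]
    by_cases ht : (t : ℝ) ≤ b
    · exact mul_le_mul h7.2 (W1A t ht) (Real.exp_pos _).le hS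
    · have h8 : max ((u : ℝ) - t) 0 = 0 := max_eq_right (by linarith [not_le.1 ht])
      rw [h8, zero_mul]
      positivity
  have X2 : ∀ u : K R, (u : ℝ) ≤ b →
      |Real.exp (α + v * u) - Real.exp (w₂ M u)| ≤ E * (S * E) := by
    intro u hu
    have h5 := mul_le_mul_of_nonneg_left hu hV0
    have h3 : α + v * u ≤ α + v * b := by linarith
    have h4 : w₂ M u ≤ α + v * b := by linarith [hle2 u]
    refine (exp_sub_le h3 h4).trans (mul_le_mul_of_nonneg_left ?_ hE0.le)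
    have h6 : α + v * u - w₂ M u = ∫ t in Set.univ, max ((u : ℝ) - t) 0 * Real.exp (w₂ M t) ∂ν₂ := by
      rw [setIntegral_univ, hfw2 u]; ring
    rw [h6]
    refine bd h2 Set.univ _ (by positivity) (fun t _ => ?_)
    have h7 := hcm u (by linarith) t
    rw [abs_mul, abs_of_nonneg h7.1, abs_of_pos (Real.exp_pos _)]
    by_cases ht : (t : ℝ) ≤ b
    · exact mul_le_mul h7.2 (W2A t ht) (Real.exp_pos _).le hS
    · have h8 : max ((u : ℝ) - t) 0 = 0 := max_eq_right (by linarith [not_le.1 ht])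
      rw [h8, zero_mul]
      positivity
  set Q := c * m * S + 1 with hQ
  have hQ0 : 0 < Q := by positivity
  set J := LL ν₁ ν₂ b (S - ε) (fun u => φ u * Real.exp (α + v * u))
    (fun u => φ u * Real.exp (α + v * u)) with hJ
  set L2 := LL ν₁ ν₂ b (S - ε) (fun u => φ u * (Real.exp (α + v * u) - Real.exp (w₁ M u)))
    (fun u => φ u * (Real.exp (α + v * u) - Real.exp (w₂ M u))) with hL2
  have hJI : J = I + L2 := by
    have e := LL_lin hi₁ hi₂ hb heq (fun u => φ u * Real.exp (w₁ M u))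
      (fun u => φ u * Real.exp (w₂ M u))
      (fun u => φ u * (Real.exp (α + v * u) - Real.exp (w₁ M u)))
      (fun u => φ u * (Real.exp (α + v * u) - Real.exp (w₂ M u))) (by fun_prop) (by fun_prop)
      (by fun_prop) (by fun_prop) 1 1
    rw [one_mul, one_mul, ← hI, ← hL2] at e
    rw [← e, hJ]
    congr 1 <;> (funext u; ring)
  have hL2b : |L2| ≤ Q * (6 * S * (E * ρ)) := by
    have h3 := LL_bd (ν₁ := ν₁) (ν₂ := ν₂) (S := S) (ε := ε) (b := b) h1 h2
      (fun u => φ u * (Real.exp (α + v * u) - Real.exp (w₁ M u)))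
      (fun u => φ u * (Real.exp (α + v * u) - Real.exp (w₂ M u))) (C₁ := Q * (E * (S * E)))
      (C₂ := Q * (E * (S * E))) (C₃ := Q * (ρ * N)) (by positivity) (by positivity) (by positivity)
      (fun u hu => by
        rw [abs_mul]
        exact mul_le_mul (hφb u) (X1 u hu) (abs_nonneg _) hQ0.le)
      (fun u hu => by
        rw [abs_mul]
        exact mul_le_mul (hφb u) (X2 u hu) (abs_nonneg _) hQ0.le)
      (fun u _ hu => by
        have e : φ u * (Real.exp (α + v * u) - Real.exp (w₁ M u)) -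
            φ u * (Real.exp (α + v * u) - Real.exp (w₂ M u)) =
            -(φ u * (Real.exp (w₁ M u) - Real.exp (w₂ M u))) := by ring
        rw [e, abs_neg, abs_mul]
        exact mul_le_mul (hφb u) (WBB u hu) (abs_nonneg _) hQ0.le)
    have h4 : E * (S * E) ≤ S * (E * ρ) := by
      have : S * (E * E) ≤ S * (E * ρ) :=
        mul_le_mul_of_nonneg_left (mul_le_mul_of_nonneg_left hEρ hE0.le) hS
      linarith
    have h5 : ρ * N ≤ 4 * (S * (E * ρ)) := by
      have : ρ * N ≤ ρ * (4 * S * E) := mul_le_mul_of_nonneg_left hN4 hρ0.le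
      linarith
    have h6 := mul_le_mul_of_nonneg_left h4 hQ0.le
    have h7 := mul_le_mul_of_nonneg_left h5 hQ0.le
    calc |L2| ≤ Q * (E * (S * E)) + Q * (E * (S * E)) + Q * (ρ * N) := h3
      _ ≤ Q * (6 * S * (E * ρ)) := by linarith
  -- the integral of the statement
  set χ : K R → ℝ := fun u => max (S - (u : ℝ)) 0 * Real.exp (v * u) with hχ
  set L3 := LL ν₁ ν₂ b (S - ε) χ χ with hL3
  have hL3b : |L3| ≤ 2 * S * Real.exp (v * b) := by
    have hχb : ∀ u : K R, (u : ℝ) ≤ b → |χ u| ≤ S * Real.exp (v * b) := by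
      intro u hu
      have h3 := hcm pS le_rfl u
      rw [hpS'] at h3
      simp only [hχ]
      rw [abs_mul, abs_of_nonneg h3.1, abs_of_pos (Real.exp_pos _)]
      exact mul_le_mul h3.2 (Real.exp_le_exp.2 (mul_le_mul_of_nonneg_left hu hV0))
        (Real.exp_pos _).le hS
    have h3 := LL_bd (ν₁ := ν₁) (ν₂ := ν₂) (S := S) (ε := ε) (b := b) h1 h2 χ χ
      (C₁ := S * Real.exp (v * b)) (C₂ := S * Real.exp (v * b)) (C₃ := 0) (by positivity)
      (by positivity) le_rfl hχb hχb (fun u _ _ => by rw [sub_self, abs_zero])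
    linarith
  have hG : (∫ u, (v * (S - (u : ℝ)) - 1) * Real.exp (v * u) ∂ν₁) -
        ∫ u, (v * (S - (u : ℝ)) - 1) * Real.exp (v * u) ∂ν₂ = Real.exp (-α) * J + δ * L3 := by
    have e := LL_lin hi₁ hi₂ hb heq (fun u => φ u * Real.exp (α + v * u))
      (fun u => φ u * Real.exp (α + v * u)) χ χ (by fun_prop) (by fun_prop)
      (by fun_prop) (by fun_prop) (Real.exp (-α)) δ
    rw [← hJ, ← hL3] at e
    have e2 := LL_eq hi₁ hi₂ hb heq
      (fun u => Real.exp (-α) * (φ u * Real.exp (α + v * u)) + δ * χ u)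
      (fun u => Real.exp (-α) * (φ u * Real.exp (α + v * u)) + δ * χ u) (by fun_prop)
      (by fun_prop)
    rw [sub_self, mul_zero, add_zero, e] at e2
    have key : ∀ u : K R, ¬ S < (u : ℝ) → (v * (S - (u : ℝ)) - 1) * Real.exp (v * u) =
        Real.exp (-α) * (φ u * Real.exp (α + v * u)) + δ * χ u := by
      intro u hu
      have h3 : max (S - (u : ℝ)) 0 = S - u := max_eq_left (by linarith [not_lt.1 hu])
      have h4 : Real.exp (-α) * Real.exp (α + v * u) = Real.exp (v * u) := by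
        rw [← Real.exp_add]; congr 1; ring
      simp only [hφ, hχ, h3]
      calc (v * (S - (u : ℝ)) - 1) * Real.exp (v * u)
          = (c * m * (S - u) - 1) * Real.exp (v * u) + δ * ((S - u) * Real.exp (v * u)) := by
            rw [hV]; ring
        _ = _ := by rw [← h4]; ring
    rw [← e2]
    congr 1
    · exact integral_congr_ae ((measure_eq_zero_iff_ae_notMem.1 hi₁.top).mono fun u hu => key u hu)
    · exact integral_congr_ae ((measure_eq_zero_iff_ae_notMem.1 hi₂.top).mono fun u hu => key u hu)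
  rw [hG]
  exact arith hS hc hε hm1 hV0 hE0 hρ hmv hδ0 hδ1 hV hδ rfl hE hIb
    (by rw [hQ] at hL2b; exact hL2b) hJI hL3b

private theorem small {c ε κ : ℝ} (hc : 0 < c) (hε : 0 < ε) (hκ : 0 < κ) :
    ∃ M₀ : ℝ, 0 ≤ M₀ ∧ ∀ M, M₀ ≤ M → Real.exp (M - c * Real.exp M * ε) ≤ κ := by
  have h1 := Real.tendsto_pow_mul_exp_neg_atTop_nhds_zero 1
  have h2 : Filter.Tendsto (fun M : ℝ => c * ε * Real.exp M) Filter.atTop Filter.atTop :=
    Filter.Tendsto.const_mul_atTop (mul_pos hc hε) Real.tendsto_exp_atTop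
  have h3 := h1.comp h2
  have h4 : ∀ᶠ M : ℝ in Filter.atTop,
      ((fun x : ℝ => x ^ 1 * Real.exp (-x)) ∘ fun M : ℝ => c * ε * Real.exp M) M < κ * (c * ε) :=
    h3.eventually_lt_const (by positivity)
  obtain ⟨M₁, hM₁⟩ := Filter.eventually_atTop.1 h4
  refine ⟨max M₁ 0, le_max_right _ _, fun M hM => ?_⟩
  have h5 := hM₁ M ((le_max_left _ _).trans hM)
  simp only [Function.comp_apply, pow_one] at h5
  have h6 : Real.exp (M - c * Real.exp M * ε) = Real.exp M * Real.exp (-(c * ε * Real.exp M)) := by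
    rw [← Real.exp_add]; congr 1; ring
  rw [h6]
  have h7 : (Real.exp M * Real.exp (-(c * ε * Real.exp M))) * (c * ε) < κ * (c * ε) := by
    calc _ = c * ε * Real.exp M * Real.exp (-(c * ε * Real.exp M)) := by ring
      _ < _ := h5
  exact (lt_of_mul_lt_mul_right h7 (by positivity)).le

/-- P1. `D = w₁ - w₂`, `h = ν₁ - ν₂` (supported in `[0,b]`), `ρ = e^{a + V (S - ε)}`, `m = e^M`.
On `[0,S]`: `D(x) = -∫ (x-u)⁺ (e^{w₁} dν₁ - e^{w₂} dν₂)`, only `u ≤ S - ε` matter, there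
`e^{w_i(u)} ≤ e^{a + V u} ≤ ρ`, so `‖D‖ ≤ S ρ ‖D‖ + 2 S e^{a+Vb}`, `‖D‖ ≤ 4 S e^{a+Vb}` for large `M`.
With `ξ = e^{w₁} ν₁ - e^{w₂} ν₂` on `[0, S - ε]`: `c m (1 - e^{-D(S)}) = - ∫ dξ` (both `V`s are equal, `w₁(S) = M`),
`D(S) = - ∫ (S-u) dξ`, so `|∫ (c m (S-u) - 1) dξ| ≤ c m D(S)²`. Finally
`ξ = e^{a+Vu} h + O(ρ (‖D‖ + S e^{a+Vb}))`, `ρ ≤ 3 m e^{-ε V}`, `V - c m = δ` small. -/
theorem peelA {S ε c b : ℝ} (h : Cur ν₁ ν₂ a V w₁ w₂) (hi₁ : Iso ν₁ S ε c) (hi₂ : Iso ν₂ S ε c)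
    (h1 : ν₁ Set.univ ≤ 1) (h2 : ν₂ Set.univ ≤ 1) (hb0 : 0 ≤ b) (hb : b ≤ S - ε)
    (heq : ν₁.restrict {x | b < (x : ℝ)} = ν₂.restrict {x | b < (x : ℝ)}) :
    ∃ C M₀ : ℝ, ∀ M, M₀ ≤ M →
      |∫ u, (V M * (S - (u : ℝ)) - 1) * Real.exp (V M * u) ∂ν₁ -
        ∫ u, (V M * (S - (u : ℝ)) - 1) * Real.exp (V M * u) ∂ν₂| ≤
      C * V M ^ 2 * Real.exp (V M * (b - ε)) := by
  have hS := hi₁.hS0
  obtain ⟨M₀, hM₀, hsm⟩ := small hi₁.hc hi₁.hε
    (κ := (8 * (S + 1) * Real.exp S)⁻¹) (by positivity)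
  exact ⟨_, M₀, fun M hM => estM h hi₁ hi₂ h1 h2 hb0 hb heq M (hM₀.trans hM) (hsm M hM)⟩

end Pool.Agent.Age
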