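import Pool.Agent.Helper49.Age.Defs

/-! Integration in `v`. -/

set_option autoImplicit false

namespace Pool.Agent.Age

open MeasureTheory

variable {R : ℝ} {ν₁ ν₂ : Measure (K R)} [IsFiniteMeasure ν₁] [IsFiniteMeasure ν₂]

private theorem peelB_integrable (ν : Measure (K R)) [IsFiniteMeasure ν] (v : ℝ) :
    Integrable (fun u : K R => Real.exp (v * (u : ℝ))) ν :=
  integrable_cm ν ⟨fun u : K R => Real.exp (v * (u : ℝ)), by fun_prop⟩

private theorem peelB_integrable' (ν : Measure (K R)) [IsFiniteMeasure ν] (v : ℝ) :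
    Integrable (fun u : K R => (u : ℝ) * Real.exp (v * (u : ℝ))) ν :=
  integrable_cm ν ⟨fun u : K R => (u : ℝ) * Real.exp (v * (u : ℝ)), by fun_prop⟩

private theorem peelB_deriv (ν : Measure (K R)) [IsFiniteMeasure ν] (v : ℝ) :
    HasDerivAt (fun v : ℝ => ∫ u : K R, Real.exp (v * (u : ℝ)) ∂ν)
      (∫ u : K R, (u : ℝ) * Real.exp (v * (u : ℝ)) ∂ν) v := by
  have h := ProbabilityTheory.hasDerivAt_mgf (X := fun u : K R => (u : ℝ)) (μ := ν) (t := v) (by
    have : ProbabilityTheory.integrableExpSet (fun u : K R => (u : ℝ)) ν = Set.univ := by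
      ext t
      simp only [ProbabilityTheory.integrableExpSet, Set.mem_ofPred_eq, Set.mem_univ, iff_true]
      exact peelB_integrable ν t
    rw [this]
    simp)
  exact h

private theorem peelB_expand (ν : Measure (K R)) [IsFiniteMeasure ν] (S v : ℝ) :
    ∫ u : K R, (v * (S - (u : ℝ)) - 1) * Real.exp (v * (u : ℝ)) ∂ν =
      (v * S - 1) * ∫ u : K R, Real.exp (v * (u : ℝ)) ∂ν -
        v * ∫ u : K R, (u : ℝ) * Real.exp (v * (u : ℝ)) ∂ν := by
  rw [← integral_const_mul, ← integral_const_mul, ← integral_sub]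
  · congr 1
    funext u
    ring
  · exact (peelB_integrable ν v).const_mul _
  · exact (peelB_integrable' ν v).const_mul _

private theorem peelB_bound {b : ℝ}
    (heq : ν₁.restrict {x | b < (x : ℝ)} = ν₂.restrict {x | b < (x : ℝ)}) :
    ∃ m : ℝ, 0 ≤ m ∧ ∀ v, 0 ≤ v →
      |∫ u, Real.exp (v * (u : ℝ)) ∂ν₁ - ∫ u, Real.exp (v * (u : ℝ)) ∂ν₂| ≤
        m * Real.exp (v * b) := by
  refine ⟨ν₁.real {x | b < (x : ℝ)}ᶜ + ν₂.real {x | b < (x : ℝ)}ᶜ, by positivity, ?_⟩
  intro v hv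
  have hs : MeasurableSet {x : K R | b < (x : ℝ)} :=
    measurableSet_lt measurable_const measurable_subtype_coe
  rw [← integral_add_compl hs (peelB_integrable ν₁ v), ← integral_add_compl hs (peelB_integrable ν₂ v),
    heq]
  have h : ∀ (ν : Measure (K R)) [IsFiniteMeasure ν],
      |∫ u in {x : K R | b < (x : ℝ)}ᶜ, Real.exp (v * (u : ℝ)) ∂ν| ≤
        Real.exp (v * b) * ν.real {x : K R | b < (x : ℝ)}ᶜ := by
    intro ν _
    refine norm_setIntegral_le_of_norm_le_const (μ := ν) (s := {x : K R | b < (x : ℝ)}ᶜ)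
      (f := fun u : K R => Real.exp (v * (u : ℝ))) (C := Real.exp (v * b)) (measure_lt_top ν _) ?_
    intro x hx
    rw [Real.norm_eq_abs, abs_of_pos (Real.exp_pos _)]
    refine Real.exp_le_exp.mpr (mul_le_mul_of_nonneg_left ?_ hv)
    simpa using hx
  have h1 := abs_le.mp (h ν₁)
  have h2 := abs_le.mp (h ν₂)
  rw [abs_le]
  constructor <;> nlinarith

/-- P2. `H v = ∫ e^{v u} d(ν₁ - ν₂)`, `F v = v e^{-S v} H v`: `F' = - e^{-S v} ∫ (v (S - u) - 1) e^{v u} d(ν₁ - ν₂)`,
`F → 0` at infinity (`|H v| ≤ C e^{v b}`, `b < S`), so `|F v| ≤ C₁ e^{- v (S - b + ε / 2)}`. -/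
theorem peelB {S ε b C v₀ : ℝ} (hε : 0 < ε) (hb : b ≤ S - ε)
    (heq : ν₁.restrict {x | b < (x : ℝ)} = ν₂.restrict {x | b < (x : ℝ)})
    (hv : ∀ v, v₀ ≤ v → |∫ u, (v * (S - (u : ℝ)) - 1) * Real.exp (v * u) ∂ν₁ -
        ∫ u, (v * (S - (u : ℝ)) - 1) * Real.exp (v * u) ∂ν₂| ≤
      C * v ^ 2 * Real.exp (v * (b - ε))) :
    ∃ C' v₁ : ℝ, ∀ v, v₁ ≤ v → |∫ u, Real.exp (v * (u : ℝ)) ∂ν₁ - ∫ u, Real.exp (v * (u : ℝ)) ∂ν₂| ≤
      C' * Real.exp (v * (b - ε / 2)) := by
  set κ : ℝ := S - b + ε / 2 with hκ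
  have hκ0 : 0 < κ := by linarith
  set A : ℝ := |C| * (8 / ε ^ 2) with hA
  have hA0 : 0 ≤ A := by positivity
  set D : ℝ → ℝ := fun v => ∫ u, Real.exp (v * (u : ℝ)) ∂ν₁ - ∫ u, Real.exp (v * (u : ℝ)) ∂ν₂ with hD
  set D' : ℝ → ℝ := fun v => ∫ u : K R, (u : ℝ) * Real.exp (v * (u : ℝ)) ∂ν₁ -
    ∫ u : K R, (u : ℝ) * Real.exp (v * (u : ℝ)) ∂ν₂ with hD'
  have hDd : ∀ v, HasDerivAt D (D' v) v := fun v => (peelB_deriv ν₁ v).sub (peelB_deriv ν₂ v)
  -- the function `F`
  set F : ℝ → ℝ := fun v => v * Real.exp (-(S * v)) * D v with hF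
  set E : ℝ → ℝ := fun v => (v * S - 1) * D v - v * D' v with hE
  have hEv : ∀ v, v₀ ≤ v → |E v| ≤ C * v ^ 2 * Real.exp (v * (b - ε)) := by
    intro v h
    have h1 := hv v h
    rw [peelB_expand ν₁, peelB_expand ν₂] at h1
    have h2 : E v = (v * S - 1) * ∫ u : K R, Real.exp (v * (u : ℝ)) ∂ν₁ -
        v * ∫ u : K R, (u : ℝ) * Real.exp (v * (u : ℝ)) ∂ν₁ -
        ((v * S - 1) * ∫ u : K R, Real.exp (v * (u : ℝ)) ∂ν₂ -
        v * ∫ u : K R, (u : ℝ) * Real.exp (v * (u : ℝ)) ∂ν₂) := by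
      simp only [hE, hD, hD']
      ring
    rw [h2]
    exact h1
  have hFd : ∀ v, HasDerivAt F (-(Real.exp (-(S * v)) * E v)) v := by
    intro v
    have h1 : HasDerivAt (fun v : ℝ => Real.exp (-(S * v))) (Real.exp (-(S * v)) * (-(S * 1))) v :=
      (((hasDerivAt_id v).const_mul S).neg).exp
    have h2 := ((hasDerivAt_id v).mul h1).mul (hDd v)
    refine (h2.congr_deriv ?_)
    show (1 * Real.exp (-(S * v)) + v * (Real.exp (-(S * v)) * (-(S * 1)))) * D v +
      v * Real.exp (-(S * v)) * D' v = -(Real.exp (-(S * v)) * ((v * S - 1) * D v - v * D' v))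
    ring
  have hFb : ∀ v, v₀ ≤ v → 0 ≤ v → |-(Real.exp (-(S * v)) * E v)| ≤ A * Real.exp (-(κ * v)) := by
    intro v h h0
    rw [abs_neg, abs_mul, abs_of_pos (Real.exp_pos _)]
    have h1 := hEv v h
    have h2 : v ^ 2 ≤ 8 / ε ^ 2 * Real.exp (v * (ε / 2)) := by
      have h3 := Real.quadratic_le_exp_of_nonneg (x := v * (ε / 2)) (by positivity)
      have h4 : (v * (ε / 2)) ^ 2 / 2 ≤ Real.exp (v * (ε / 2)) := by
        have : 0 ≤ v * (ε / 2) := by positivity
        linarith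
      calc v ^ 2 = 8 / ε ^ 2 * ((v * (ε / 2)) ^ 2 / 2) := by
            field_simp
            ring
        _ ≤ 8 / ε ^ 2 * Real.exp (v * (ε / 2)) := by
            exact mul_le_mul_of_nonneg_left h4 (by positivity)
    calc Real.exp (-(S * v)) * |E v| ≤
        Real.exp (-(S * v)) * (|C| * (8 / ε ^ 2 * Real.exp (v * (ε / 2))) *
          Real.exp (v * (b - ε))) := by
          refine mul_le_mul_of_nonneg_left (h1.trans ?_) (Real.exp_pos _).le
          refine mul_le_mul_of_nonneg_right ?_ (Real.exp_pos _).le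
          calc C * v ^ 2 ≤ |C| * v ^ 2 := mul_le_mul_of_nonneg_right (le_abs_self C) (sq_nonneg v)
            _ ≤ |C| * (8 / ε ^ 2 * Real.exp (v * (ε / 2))) :=
              mul_le_mul_of_nonneg_left h2 (abs_nonneg C)
      _ = A * (Real.exp (-(S * v)) * Real.exp (v * (ε / 2)) * Real.exp (v * (b - ε))) := by
          rw [hA]
          ring
      _ = A * Real.exp (-(κ * v)) := by
          rw [← Real.exp_add, ← Real.exp_add]
          congr 2
          rw [hκ]
          ring
  -- `F → 0`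
  obtain ⟨m, hm0, hm⟩ := peelB_bound (ν₁ := ν₁) (ν₂ := ν₂) heq
  have hFlim : Filter.Tendsto F Filter.atTop (nhds 0) := by
    have hpos : 0 < S - b := by linarith
    have h1 : Filter.Tendsto (fun v : ℝ => m * (v ^ 1 * Real.exp (-(S - b) * v))) Filter.atTop
        (nhds (m * 0)) := by
      refine Filter.Tendsto.const_mul m ?_
      have := Real.tendsto_pow_mul_exp_neg_atTop_nhds_zero 1
      have h2 : Filter.Tendsto (fun v : ℝ => (S - b) * v) Filter.atTop Filter.atTop :=
        Filter.tendsto_id.const_mul_atTop hpos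
      have h3 := (this.comp h2).const_mul (1 / (S - b))
      rw [mul_zero] at h3
      refine h3.congr ?_
      intro v
      simp only [Function.comp_apply, pow_one]
      field_simp
    rw [mul_zero] at h1
    refine squeeze_zero_norm' ?_ h1
    filter_upwards [Filter.eventually_ge_atTop (0 : ℝ)] with v hv0
    rw [Real.norm_eq_abs]
    simp only [hF]
    rw [abs_mul, abs_mul, abs_of_nonneg hv0, abs_of_pos (Real.exp_pos _)]
    calc v * Real.exp (-(S * v)) * |D v| ≤ v * Real.exp (-(S * v)) * (m * Real.exp (v * b)) :=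
          mul_le_mul_of_nonneg_left (hm v hv0) (by positivity)
      _ = m * (v ^ 1 * (Real.exp (-(S * v)) * Real.exp (v * b))) := by ring
      _ = m * (v ^ 1 * Real.exp (-(S - b) * v)) := by
          rw [← Real.exp_add]
          congr 3
          ring
  have hglim : Filter.Tendsto (fun v : ℝ => A / κ * Real.exp (-(κ * v))) Filter.atTop (nhds 0) := by
    have h2 : Filter.Tendsto (fun v : ℝ => κ * v) Filter.atTop Filter.atTop :=
      Filter.tendsto_id.const_mul_atTop hκ0
    have h3 := (Real.tendsto_exp_neg_atTop_nhds_zero.comp h2).const_mul (A / κ)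
    rw [mul_zero] at h3
    exact h3
  have hgd : ∀ v, HasDerivAt (fun v : ℝ => A / κ * Real.exp (-(κ * v)))
      (-(A * Real.exp (-(κ * v)))) v := by
    intro v
    have h1 : HasDerivAt (fun v : ℝ => Real.exp (-(κ * v))) (Real.exp (-(κ * v)) * (-(κ * 1))) v :=
      (((hasDerivAt_id v).const_mul κ).neg).exp
    have h2 := h1.const_mul (A / κ)
    have h3 : A / κ * (Real.exp (-(κ * v)) * (-(κ * 1))) = -(A * Real.exp (-(κ * v))) := by
      have : κ ≠ 0 := hκ0.ne'
      field_simp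
    rw [h3] at h2
    exact h2
  set v₂ : ℝ := max (max v₀ 0) 1 with hv₂
  -- monotonicity
  have key : ∀ G g : ℝ → ℝ, (∀ v, HasDerivAt G (g v) v) → (∀ v, v₂ ≤ v → g v ≤ 0) →
      Filter.Tendsto G Filter.atTop (nhds 0) → ∀ v, v₂ ≤ v → 0 ≤ G v := by
    intro G g hG hg hlim v hvv
    have hanti : AntitoneOn G (Set.Ici v₂) := by
      refine antitoneOn_of_deriv_nonpos (convex_Ici v₂) ?_ ?_ ?_
      · exact fun x _ => (hG x).continuousAt.continuousWithinAt
      · exact fun x _ => (hG x).differentiableAt.differentiableWithinAt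
      · intro x hx
        rw [(hG x).deriv]
        rw [interior_Ici] at hx
        exact hg x (le_of_lt hx)
    refine le_of_tendsto hlim ?_
    filter_upwards [Filter.eventually_ge_atTop v] with t ht
    exact hanti hvv (hvv.trans ht) ht
  have hv₂a : ∀ v, v₂ ≤ v → v₀ ≤ v ∧ 0 ≤ v ∧ 1 ≤ v := fun v h =>
    ⟨(le_max_left _ _).trans ((le_max_left _ _).trans h),
      (le_max_right _ _).trans ((le_max_left _ _).trans h), (le_max_right _ _).trans h⟩
  have up : ∀ v, v₂ ≤ v → |F v| ≤ A / κ * Real.exp (-(κ * v)) := by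
    intro v hvv
    have h1 := key (fun v => F v + A / κ * Real.exp (-(κ * v)))
      (fun v => -(Real.exp (-(S * v)) * E v) + -(A * Real.exp (-(κ * v))))
      (fun v => (hFd v).add (hgd v)) (fun v h => by
        obtain ⟨ha, hb, -⟩ := hv₂a v h
        have := (abs_le.mp (hFb v ha hb)).2
        linarith) (by simpa using hFlim.add hglim) v hvv
    have h2 := key (fun v => -F v + A / κ * Real.exp (-(κ * v)))
      (fun v => -(-(Real.exp (-(S * v)) * E v)) + -(A * Real.exp (-(κ * v))))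
      (fun v => (hFd v).neg.add (hgd v)) (fun v h => by
        obtain ⟨ha, hb, -⟩ := hv₂a v h
        have := (abs_le.mp (hFb v ha hb)).1
        linarith) (by simpa using hFlim.neg.add hglim) v hvv
    have h1' : 0 ≤ F v + A / κ * Real.exp (-(κ * v)) := h1
    have h2' : 0 ≤ -F v + A / κ * Real.exp (-(κ * v)) := h2
    rw [abs_le]
    constructor <;> linarith
  refine ⟨A / κ, v₂, ?_⟩
  intro v hvv
  obtain ⟨-, hb0, hb1⟩ := hv₂a v hvv
  have h1 := up v hvv
  simp only [hF] at h1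
  rw [abs_mul, abs_mul, abs_of_nonneg hb0, abs_of_pos (Real.exp_pos _)] at h1
  have h2 : Real.exp (-(S * v)) * |D v| ≤ A / κ * Real.exp (-(κ * v)) := by
    refine le_trans ?_ h1
    have h3 : 0 ≤ Real.exp (-(S * v)) * |D v| := by positivity
    nlinarith
  have h4 : |D v| ≤ A / κ * Real.exp (-(κ * v)) * Real.exp (S * v) := by
    have h5 : |D v| = Real.exp (-(S * v)) * |D v| * Real.exp (S * v) := by
      have : Real.exp (-(S * v)) * Real.exp (S * v) = 1 := by
        rw [← Real.exp_add]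
        simp
      calc |D v| = (Real.exp (-(S * v)) * Real.exp (S * v)) * |D v| := by rw [this, one_mul]
        _ = Real.exp (-(S * v)) * |D v| * Real.exp (S * v) := by ring
    rw [h5]
    exact mul_le_mul_of_nonneg_right h2 (Real.exp_pos _).le
  refine h4.trans (le_of_eq ?_)
  rw [mul_assoc, ← Real.exp_add]
  congr 2
  rw [hκ]
  ring

end Pool.Agent.Age
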