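import Pool.Agent.Helper49.Age.Defs
import Pool.Agent.Helper49.Age.Asy

/-! The second measure has no mass above `S`. -/

set_option autoImplicit false

namespace Pool.Agent.Age

open MeasureTheory

variable {R : ℝ} {ν₁ ν₂ : Measure (K R)} [IsFiniteMeasure ν₁] [IsFiniteMeasure ν₂]
  {a V : ℝ → ℝ} {w₁ w₂ : ℝ → C(K R, ℝ)}

private theorem topA_eq₂ (h : Cur ν₁ ν₂ a V w₁ w₂) (M : ℝ) (x : K R) :
    w₂ M x = a M + ∫ u, min (x : ℝ) u * Real.exp (w₂ M u) ∂ν₂ := by
  have h1 := congrArg (fun f : C(K R, ℝ) => f x) (h.eq₂ M)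
  exact h1

private theorem topA_V₂ (h : Cur ν₁ ν₂ a V w₁ w₂) (M : ℝ) :
    ∫ u, Real.exp (w₂ M u) ∂ν₂ = V M := h.V₂ M

private theorem topA_int (ν : Measure (K R)) [IsFiniteMeasure ν] {f : K R → ℝ}
    (hf : Continuous f) : Integrable f ν :=
  integrable_cm ν ⟨f, hf⟩

private theorem topA_mono (h : Cur ν₁ ν₂ a V w₁ w₂) (M : ℝ) {x y : K R} (hxy : (x : ℝ) ≤ y) :
    w₂ M x ≤ w₂ M y := by
  rw [topA_eq₂ h M x, topA_eq₂ h M y]
  have h1 : ∫ u, min (x : ℝ) u * Real.exp (w₂ M u) ∂ν₂ ≤
      ∫ u, min (y : ℝ) u * Real.exp (w₂ M u) ∂ν₂ := by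
    apply integral_mono (topA_int ν₂ (by fun_prop)) (topA_int ν₂ (by fun_prop))
    intro u
    exact mul_le_mul_of_nonneg_right (min_le_min_right _ hxy) (Real.exp_pos _).le
  linarith

/-- The loss. -/
private theorem topA_loss (h : Cur ν₁ ν₂ a V w₁ w₂) (h2 : ν₂ Set.univ ≤ 1) {S : ℝ} {M : ℝ}
    (hV : 0 < V M) :
    ∫ u, max (S - (u : ℝ)) 0 * Real.exp (w₂ M u) ∂ν₂ ≤ Real.exp (a M + S * V M) / V M := by
  have h1 : ∀ u : K R, max (S - (u : ℝ)) 0 * Real.exp (w₂ M u) ≤
      Real.exp (a M + S * V M) / V M := by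
    intro u
    rcases le_total (S - (u : ℝ)) 0 with hu | hu
    · rw [max_eq_right hu, zero_mul]
      positivity
    · rw [max_eq_left hu]
      have e1 : Real.exp (w₂ M u) ≤ Real.exp (a M + V M * u) :=
        Real.exp_le_exp.mpr (cur_le₂ h M u)
      have e2 : Real.exp (a M + V M * u) =
          Real.exp (a M + S * V M) * Real.exp (-(V M * (S - u))) := by
        rw [← Real.exp_add]
        congr 1
        ring
      have e3 : V M * (S - u) * Real.exp (-(V M * (S - u))) ≤ 1 := by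
        have e4 := Real.add_one_le_exp (V M * (S - (u : ℝ)))
        have e5 : Real.exp (V M * (S - u)) * Real.exp (-(V M * (S - u))) = 1 := by
          rw [← Real.exp_add]
          simp
        have e6 : V M * (S - u) ≤ Real.exp (V M * (S - u)) := by linarith
        calc V M * (S - u) * Real.exp (-(V M * (S - u)))
            ≤ Real.exp (V M * (S - u)) * Real.exp (-(V M * (S - u))) :=
              mul_le_mul_of_nonneg_right e6 (Real.exp_pos _).le
          _ = 1 := e5
      rw [le_div_iff₀ hV]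
      calc (S - u) * Real.exp (w₂ M u) * V M
          ≤ (S - u) * Real.exp (a M + V M * u) * V M := by
            apply mul_le_mul_of_nonneg_right _ hV.le
            exact mul_le_mul_of_nonneg_left e1 hu
        _ = Real.exp (a M + S * V M) * (V M * (S - u) * Real.exp (-(V M * (S - u)))) := by
            rw [e2]
            ring
        _ ≤ Real.exp (a M + S * V M) * 1 :=
            mul_le_mul_of_nonneg_left e3 (Real.exp_pos _).le
        _ = Real.exp (a M + S * V M) := mul_one _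
  have h3 : ν₂.real Set.univ ≤ 1 := by
    unfold Measure.real
    have := ENNReal.toReal_mono ENNReal.one_ne_top h2
    simpa using this
  calc ∫ u, max (S - (u : ℝ)) 0 * Real.exp (w₂ M u) ∂ν₂
      ≤ ∫ _u, Real.exp (a M + S * V M) / V M ∂ν₂ :=
        integral_mono (topA_int ν₂ (by fun_prop)) (integrable_const _) h1
    _ = ν₂.real Set.univ * (Real.exp (a M + S * V M) / V M) := by
        rw [integral_const, smul_eq_mul]
    _ ≤ 1 * (Real.exp (a M + S * V M) / V M) := by
        apply mul_le_mul_of_nonneg_right h3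
        positivity
    _ = _ := one_mul _

/-- The lower bound at `y = S + η`. -/
private theorem topA_low (h : Cur ν₁ ν₂ a V w₁ w₂) {S η : ℝ} (M : ℝ) (y : K R)
    (hy : (y : ℝ) = S + η) (hη : 0 < η) :
    a M + S * V M + η * (∫ u in {u : K R | S + η < (u : ℝ)}, Real.exp (w₂ M u) ∂ν₂) -
      (∫ u, max (S - (u : ℝ)) 0 * Real.exp (w₂ M u) ∂ν₂) ≤ w₂ M y := by
  rw [topA_eq₂ h M y]
  have hm : MeasurableSet {u : K R | S + η < (u : ℝ)} :=
    measurableSet_lt measurable_const (measurable_subtype_coe)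
  rw [← integral_indicator hm, ← topA_V₂ h M, ← integral_const_mul, ← integral_const_mul]
  have i1 : Integrable (fun u : K R => S * Real.exp (w₂ M u)) ν₂ := topA_int ν₂ (by fun_prop)
  have i2 : Integrable (fun u : K R => η * Set.indicator {u : K R | S + η < (u : ℝ)}
      (fun u => Real.exp (w₂ M u)) u) ν₂ :=
    ((topA_int ν₂ (f := fun u : K R => Real.exp (w₂ M u)) (by fun_prop)).indicator hm).const_mul η
  have i3 : Integrable (fun u : K R => max (S - (u : ℝ)) 0 * Real.exp (w₂ M u)) ν₂ :=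
    topA_int ν₂ (by fun_prop)
  have i4 : Integrable (fun u : K R => min (y : ℝ) u * Real.exp (w₂ M u)) ν₂ :=
    topA_int ν₂ (by fun_prop)
  have i12 : Integrable (fun u : K R => S * Real.exp (w₂ M u) +
      η * Set.indicator {u : K R | S + η < (u : ℝ)} (fun u => Real.exp (w₂ M u)) u) ν₂ :=
    i1.add i2
  rw [add_assoc, ← integral_add i1 i2, add_sub_assoc, ← integral_sub i12 i3]
  apply add_le_add_right
  apply integral_mono (i12.sub i3) i4
  intro u
  show S * Real.exp (w₂ M u) +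
      η * Set.indicator {u : K R | S + η < (u : ℝ)} (fun u => Real.exp (w₂ M u)) u -
      max (S - (u : ℝ)) 0 * Real.exp (w₂ M u) ≤ min (y : ℝ) u * Real.exp (w₂ M u)
  by_cases hu : S + η < (u : ℝ)
  · rw [Set.indicator_of_mem (show u ∈ {u : K R | S + η < (u : ℝ)} from hu),
      max_eq_right (by linarith), hy, min_eq_left hu.le]
    linarith
  · rw [Set.indicator_of_notMem (show u ∉ {u : K R | S + η < (u : ℝ)} from hu), hy,
      min_eq_right (not_lt.mp hu)]
    have e1 : S - max (S - (u : ℝ)) 0 ≤ u := by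
      rcases le_total (S - (u : ℝ)) 0 with h1 | h1
      · rw [max_eq_right h1]
        linarith
      · rw [max_eq_left h1]
        linarith
    have e2 := mul_le_mul_of_nonneg_right e1 (Real.exp_pos (w₂ M u)).le
    linarith

/-- D1. Otherwise `q = ν₂ (S + η, R] > 0` for some `η > 0`. With `T` the integral of `exp (w₂ M)` over
`(S + η, R]`: `w₂ (S + η) ≥ a + S V + η T - loss`, `loss = ∫ (S - u)⁺ e^{w₂} ≤ e^{a+SV} / V ≤ 2/c`
(as `t e^{-t} ≤ 1`), `T ≥ q e^{w₂(S+η)} ≥ q e^{M - 2/c + η T}`, `T ≤ V ≤ 2 c e^M`: false for large `M`. -/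
theorem topA {S ε c : ℝ} (h : Cur ν₁ ν₂ a V w₁ w₂) (hi : Iso ν₁ S ε c) (h1 : ν₁ Set.univ ≤ 1)
    (h2 : ν₂ Set.univ ≤ 1) : ν₂ {x | S < (x : ℝ)} = 0 := by
  by_contra hne
  -- a positive mass above `S + η`
  obtain ⟨n, hn⟩ : ∃ n : ℕ, ν₂ {x : K R | S + 1 / ((n : ℝ) + 1) < (x : ℝ)} ≠ 0 := by
    by_contra hall
    push Not at hall
    apply hne
    have e1 : {x : K R | S < (x : ℝ)} = ⋃ n : ℕ, {x : K R | S + 1 / ((n : ℝ) + 1) < (x : ℝ)} := by
      ext x
      simp only [Set.mem_ofPred_eq, Set.mem_iUnion]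
      constructor
      · intro hx
        obtain ⟨n, hn⟩ := exists_nat_one_div_lt (sub_pos.mpr hx)
        exact ⟨n, by linarith⟩
      · rintro ⟨n, hn⟩
        have : (0 : ℝ) < 1 / ((n : ℝ) + 1) := by positivity
        linarith
    rw [e1]
    exact measure_iUnion_null hall
  set η : ℝ := 1 / ((n : ℝ) + 1) with hη
  have hη0 : 0 < η := by positivity
  set q : ℝ := ν₂.real {x : K R | S + η < (x : ℝ)} with hq
  have hq0 : 0 < q := by
    rw [hq]
    unfold Measure.real
    exact ENNReal.toReal_pos hn (measure_ne_top _ _)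
  obtain ⟨x₀, hx₀⟩ : {x : K R | S + η < (x : ℝ)}.Nonempty := by
    by_contra he
    rw [Set.not_nonempty_iff_eq_empty] at he
    rw [he] at hn
    exact hn measure_empty
  have hx₀' : S + η < (x₀ : ℝ) := hx₀
  have hS0 := hi.hS0
  have hc := hi.hc
  have hε := hi.hε
  let y : K R := ⟨S + η, by linarith, by linarith [x₀.2.2]⟩
  have hm : MeasurableSet {u : K R | S + η < (u : ℝ)} :=
    measurableSet_lt measurable_const (measurable_subtype_coe)
  -- the constants
  set κ : ℝ := q * Real.exp (-(Real.exp 1 / c)) with hκ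
  have hκ0 : 0 < κ := mul_pos hq0 (Real.exp_pos _)
  obtain ⟨m, hm1, hm2, hm3, hm4⟩ : ∃ m : ℝ, 1 ≤ m ∧ 2 * S / (c * ε) ^ 2 ≤ m ∧
      2 / ((c * ε) ^ 2 * c) ≤ m ∧ (2 * c + 1) / (η * κ ^ 2) ≤ m := by
    refine ⟨max 1 (max (2 * S / (c * ε) ^ 2) (max (2 / ((c * ε) ^ 2 * c))
      ((2 * c + 1) / (η * κ ^ 2)))), le_max_left _ _, ?_, ?_, ?_⟩
    · exact (le_max_left _ _).trans (le_max_right _ _)
    · exact (le_max_left _ _).trans ((le_max_right _ _).trans (le_max_right _ _))
    · exact (le_max_right _ _).trans ((le_max_right _ _).trans (le_max_right _ _))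
  have hm0 : 0 < m := by linarith
  set M : ℝ := Real.log m with hM
  have hMm : Real.exp M = m := Real.exp_log hm0
  obtain ⟨δ, -, hδ0, hδ1, hδV, hδa, hδb⟩ := asy h hi h1 M
  rw [hMm] at hδ1 hδV
  have hcε : 0 < c * ε := mul_pos hc hε
  have hδ2 : δ * m ≤ 2 / (c * ε) ^ 2 := by
    have e1 : Real.exp (M - c * m * ε) = m * Real.exp (-(c * ε * m)) := by
      rw [← hMm, ← Real.exp_add]
      congr 1
      ring
    have e2 := Real.quadratic_le_exp_of_nonneg (x := c * ε * m) (by positivity)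
    have e3 : (c * ε * m) ^ 2 / 2 * Real.exp (-(c * ε * m)) ≤ 1 := by
      have e4 : (c * ε * m) ^ 2 / 2 ≤ Real.exp (c * ε * m) := by
        have : 0 < c * ε * m := by positivity
        linarith
      calc (c * ε * m) ^ 2 / 2 * Real.exp (-(c * ε * m))
          ≤ Real.exp (c * ε * m) * Real.exp (-(c * ε * m)) :=
            mul_le_mul_of_nonneg_right e4 (Real.exp_pos _).le
        _ = 1 := by rw [← Real.exp_add]; simp
    rw [le_div_iff₀ (by positivity)]
    have e5 : δ ≤ m * Real.exp (-(c * ε * m)) := by rw [← e1]; exact hδ1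
    calc δ * m * (c * ε) ^ 2 ≤ m * Real.exp (-(c * ε * m)) * m * (c * ε) ^ 2 := by gcongr
      _ = 2 * ((c * ε * m) ^ 2 / 2 * Real.exp (-(c * ε * m))) := by ring
      _ ≤ 2 * 1 := by linarith
      _ = 2 := by ring
  have hδS : S * δ ≤ 1 := by
    have e1 : S * (δ * m) ≤ S * (2 / (c * ε) ^ 2) := mul_le_mul_of_nonneg_left hδ2 hS0
    have e2 : S * (2 / (c * ε) ^ 2) = 2 * S / (c * ε) ^ 2 := by ring
    have e3 : S * δ * m ≤ 1 * m := by linarith
    exact le_of_mul_le_mul_right e3 hm0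
  have hδc : δ ≤ c * m := by
    have e1 : 2 / (c * ε) ^ 2 ≤ m * c := by
      rw [div_le_iff₀ (by positivity)] at hm3 ⊢
      linarith
    have e2 : δ * m ≤ c * m * m := by
      calc δ * m ≤ m * c := hδ2.trans e1
        _ = c * m * 1 := by ring
        _ ≤ c * m * m := by gcongr
    exact le_of_mul_le_mul_right e2 hm0
  have hVM : 0 < V M := by
    rw [hδV]
    positivity
  -- the loss
  have hloss : ∫ u, max (S - (u : ℝ)) 0 * Real.exp (w₂ M u) ∂ν₂ ≤ Real.exp 1 / c := by
    refine (topA_loss h h2 hVM).trans ?_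
    rw [div_le_div_iff₀ hVM hc]
    have e1 : Real.exp (a M + S * V M) ≤ m * Real.exp 1 := by
      rw [← hMm, ← Real.exp_add]
      exact Real.exp_le_exp.mpr (by linarith)
    calc Real.exp (a M + S * V M) * c ≤ m * Real.exp 1 * c := by gcongr
      _ = Real.exp 1 * (c * m) := by ring
      _ ≤ Real.exp 1 * V M := by
          rw [hδV]
          gcongr
          linarith
  set T : ℝ := ∫ u in {u : K R | S + η < (u : ℝ)}, Real.exp (w₂ M u) ∂ν₂ with hT
  have hlow := topA_low h (S := S) (η := η) M y rfl hη0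
  have hw : M - Real.exp 1 / c + η * T ≤ w₂ M y := by
    rw [← hT] at hlow
    linarith
  have hi1 : Integrable (fun u : K R => Real.exp (w₂ M u)) ν₂ := topA_int ν₂ (by fun_prop)
  have hT1 : q * Real.exp (w₂ M y) ≤ T := by
    have e1 : ∫ _u in {u : K R | S + η < (u : ℝ)}, Real.exp (w₂ M y) ∂ν₂ ≤ T := by
      rw [hT]
      apply setIntegral_mono_on (integrable_const _).integrableOn hi1.integrableOn hm
      intro u hu
      exact Real.exp_le_exp.mpr (topA_mono h M (le_of_lt hu))
    rw [setIntegral_const, smul_eq_mul] at e1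
    exact e1
  have hT2 : T ≤ 2 * c * m := by
    have e1 : T ≤ V M := by
      rw [← topA_V₂ h M, hT]
      exact setIntegral_le_integral hi1 (Filter.Eventually.of_forall fun u => (Real.exp_pos _).le)
    linarith
  have hT0 : 0 ≤ T := (mul_nonneg hq0.le (Real.exp_pos _).le).trans hT1
  have hT3 : κ * m * Real.exp (η * T) ≤ T := by
    refine le_trans ?_ hT1
    have e1 : κ * m * Real.exp (η * T) = q * Real.exp (M - Real.exp 1 / c + η * T) := by
      rw [hκ, ← hMm, mul_assoc, mul_assoc, ← Real.exp_add, ← Real.exp_add]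
      congr 2
      ring
    rw [e1]
    exact mul_le_mul_of_nonneg_left (Real.exp_le_exp.mpr hw) hq0.le
  have hT4 : κ * m ≤ T := by
    refine le_trans ?_ hT3
    have e1 : 1 ≤ Real.exp (η * T) := Real.one_le_exp (mul_nonneg hη0.le hT0)
    have e2 : 0 < κ * m := by positivity
    nlinarith
  have hT5 : κ * m * (η * (κ * m)) ≤ 2 * c * m := by
    refine le_trans ?_ (hT3.trans hT2)
    have e1 := Real.add_one_le_exp (η * T)
    have e2 : η * (κ * m) ≤ Real.exp (η * T) := by
      have : η * (κ * m) ≤ η * T := mul_le_mul_of_nonneg_left hT4 hη0.le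
      linarith
    exact mul_le_mul_of_nonneg_left e2 (by positivity)
  have hT6 : η * κ ^ 2 * m ≤ 2 * c := by
    have e1 : η * κ ^ 2 * m * m ≤ 2 * c * m := by
      calc η * κ ^ 2 * m * m = κ * m * (η * (κ * m)) := by ring
        _ ≤ 2 * c * m := hT5
    exact le_of_mul_le_mul_right e1 hm0
  have hT7 : 2 * c + 1 ≤ m * (η * κ ^ 2) := by
    rw [div_le_iff₀ (by positivity)] at hm4
    exact hm4
  linarith

end Pool.Agent.Age
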