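import Pool.Agent.Helper49.Age.Defs
import Pool.Agent.Helper49.Age.Asy

/-! The energy estimate. -/

set_option autoImplicit false

namespace Pool.Agent.Age

open MeasureTheory

variable {R : ℝ} {ν₁ ν₂ : Measure (K R)} [IsFiniteMeasure ν₁] [IsFiniteMeasure ν₂]
  {a V : ℝ → ℝ} {w₁ w₂ : ℝ → C(K R, ℝ)}

/-- lower bound for the entropy of the first measure -/
private theorem topB_low {S ε c : ℝ} (h : Cur ν₁ ν₂ a V w₁ w₂) (hi : Iso ν₁ S ε c)
    (M δ : ℝ) (hδ : δ = ∫ u in {u : K R | (u : ℝ) ≤ S - ε}, Real.exp (w₁ M u) ∂ν₁)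
    (hM : M ≤ a M + S * V M) :
    M * V M - S * V M * δ ≤ la ν₁ (w₁ M * ex (w₁ M)) := by
  have hV : V M = ∫ u, Real.exp (w₁ M u) ∂ν₁ := (h.V₁ M).symm
  have hms : MeasurableSet {u : K R | (u : ℝ) ≤ S - ε} :=
    (isClosed_le continuous_subtype_val continuous_const).measurableSet
  have hint : Integrable (fun u => Real.exp (w₁ M u)) ν₁ := integrable_cm ν₁ (ex (w₁ M))
  have hδ' : δ = ∫ u, Set.indicator {u : K R | (u : ℝ) ≤ S - ε}
      (fun u => Real.exp (w₁ M u)) u ∂ν₁ := by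
    rw [hδ, integral_indicator hms]
  have e : M * V M - S * V M * δ = ∫ u, (M * Real.exp (w₁ M u) -
      S * V M * Set.indicator {u : K R | (u : ℝ) ≤ S - ε}
        (fun u => Real.exp (w₁ M u)) u) ∂ν₁ := by
    rw [integral_sub (hint.const_mul _) ((hint.indicator hms).const_mul _),
      integral_const_mul, integral_const_mul, ← hδ', ← hV]
  rw [e, la_apply]
  refine integral_mono_ae ((hint.const_mul _).sub ((hint.indicator hms).const_mul _))
    (integrable_cm ν₁ (w₁ M * ex (w₁ M))) ?_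
  have h1 : ∀ᵐ u : K R ∂ν₁, ¬ S < (u : ℝ) := by
    rw [ae_iff]
    simpa using hi.top
  have h2 : ∀ᵐ u : K R ∂ν₁, ¬ (S - ε < (u : ℝ) ∧ (u : ℝ) < S) := by
    rw [ae_iff]
    simpa using hi.gap
  filter_upwards [h1, h2] with u hu1 hu2
  change M * Real.exp (w₁ M u) - S * V M * Set.indicator {u : K R | (u : ℝ) ≤ S - ε}
        (fun u => Real.exp (w₁ M u)) u ≤ w₁ M u * Real.exp (w₁ M u)
  by_cases hu : (u : ℝ) ≤ S - ε
  · rw [Set.indicator_of_mem (by exact hu)]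
    have h3 := cur_ge₁ h M u
    have h4 : M - S * V M ≤ w₁ M u := by linarith
    have h5 := mul_le_mul_of_nonneg_right h4 (Real.exp_pos (w₁ M u)).le
    linarith
  · rw [Set.indicator_of_notMem (by exact hu)]
    have h3 : S ≤ (u : ℝ) := by
      by_contra h4
      exact hu2 ⟨not_le.mp hu, not_le.mp h4⟩
    rw [asy_top h hi M u h3]
    linarith

/-- D2. `B₂ ≤ ∫ (a + x V) e^{w₂} dν₂ = a V + S V² - V ∫ (S - x) e^{w₂} dν₂` (cur_le₂), so
`V ∫ (S - x) e^{w₂} dν₂ ≤ V (a + S V) - B₁ ≤ V (M + S δ) - M c e^M - ∫_{x ≤ S - ε} w₁ e^{w₁} dν₁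
≤ M δ + 2 S V δ` (as `- w₁ ≤ - a ≤ S V`), and `M ≤ e^M ≤ V / c`. -/
theorem topB {S ε c : ℝ} (h : Cur ν₁ ν₂ a V w₁ w₂) (hi : Iso ν₁ S ε c) (h1 : ν₁ Set.univ ≤ 1)
    (hB : ∀ M, la ν₁ (w₁ M * ex (w₁ M)) = la ν₂ (w₂ M * ex (w₂ M))) (M : ℝ) (hM : 0 ≤ M) :
    ∫ u, (S - (u : ℝ)) * Real.exp (w₂ M u) ∂ν₂ ≤
      (1 / c + 2 * S) * Real.exp (M - c * Real.exp M * ε) := by
  obtain ⟨δ, hδ, hδ0, hδ1, hVδ, hM1, hM2⟩ := asy h hi h1 M
  have hlow := topB_low h hi M δ hδ hM1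
  have hVpos : 0 < V M := by
    rw [hVδ]
    have := mul_pos hi.hc (Real.exp_pos M)
    linarith
  have hV2 : ∫ u, Real.exp (w₂ M u) ∂ν₂ = V M := h.V₂ M
  have hup : la ν₂ (w₂ M * ex (w₂ M)) ≤ a M * V M + S * V M * V M -
      V M * ∫ u, (S - (u : ℝ)) * Real.exp (w₂ M u) ∂ν₂ := by
    have hi1 : Integrable (fun u => Real.exp (w₂ M u)) ν₂ := integrable_cm ν₂ (ex (w₂ M))
    have hi2 : Integrable (fun u : K R => (S - (u : ℝ)) * Real.exp (w₂ M u)) ν₂ :=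
      integrable_cm ν₂ ((cst S - idc) * ex (w₂ M))
    have e : a M * V M + S * V M * V M -
        V M * ∫ u, (S - (u : ℝ)) * Real.exp (w₂ M u) ∂ν₂ =
        ∫ u, ((a M + S * V M) * Real.exp (w₂ M u) -
          V M * ((S - (u : ℝ)) * Real.exp (w₂ M u))) ∂ν₂ := by
      rw [integral_sub (hi1.const_mul _) (hi2.const_mul _), integral_const_mul,
        integral_const_mul, hV2]
      ring
    rw [e, la_apply]
    refine integral_mono (integrable_cm ν₂ (w₂ M * ex (w₂ M)))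
      ((hi1.const_mul _).sub (hi2.const_mul _)) fun u => ?_
    change w₂ M u * Real.exp (w₂ M u) ≤ (a M + S * V M) * Real.exp (w₂ M u) -
          V M * ((S - (u : ℝ)) * Real.exp (w₂ M u))
    have h3 := mul_le_mul_of_nonneg_right (cur_le₂ h M u) (Real.exp_pos (w₂ M u)).le
    linarith
  rw [← hB M] at hup
  have h3 : V M * ∫ u, (S - (u : ℝ)) * Real.exp (w₂ M u) ∂ν₂ ≤ V M * (2 * S * δ) := by
    have h4 := mul_le_mul_of_nonneg_left hM2 hVpos.le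
    linarith
  have h4 := le_of_mul_le_mul_left h3 hVpos
  have h5 : 0 ≤ 1 / c := (one_div_pos.mpr hi.hc).le
  have h6 := hi.hS0
  calc ∫ u, (S - (u : ℝ)) * Real.exp (w₂ M u) ∂ν₂ ≤ 2 * S * δ := h4
    _ ≤ (1 / c + 2 * S) * δ := by nlinarith
    _ ≤ (1 / c + 2 * S) * Real.exp (M - c * Real.exp M * ε) :=
      mul_le_mul_of_nonneg_left hδ1 (by linarith)

end Pool.Agent.Age
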