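import Pool.Agent.Helper49.Age.Defs
import Pool.Agent.Helper49.Age.Asy
import Pool.Agent.Helper49.Age.TopA
import Pool.Agent.Helper49.Age.TopB

/-! The second measure has the same isolated top atom. -/

set_option autoImplicit false

namespace Pool.Agent.Age

open MeasureTheory Filter Topology

/-- the double exponential error -/
theorem topC_tendsto {c ε : ℝ} (hc : 0 < c) (hε : 0 < ε) :
    Tendsto (fun M : ℝ => Real.exp (M - c * Real.exp M * ε)) atTop (𝓝 0) := by
  apply Real.tendsto_exp_atBot.comp
  have h1 : ∀ᶠ M : ℝ in atTop, M ≤ c * ε / 2 * Real.exp M := by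
    have := (Real.isLittleO_pow_exp_atTop (n := 1)).def (show 0 < c * ε / 2 by positivity)
    filter_upwards [this] with M hM
    simp only [pow_one, Real.norm_eq_abs] at hM
    rw [abs_of_pos (Real.exp_pos M)] at hM
    exact (le_abs_self M).trans hM
  have h2 : Tendsto (fun M : ℝ => -(c * ε / 2 * Real.exp M)) atTop atBot := by
    apply tendsto_neg_atTop_atBot.comp
    exact Real.tendsto_exp_atTop.const_mul_atTop (by positivity)
  refine tendsto_atBot_mono' _ ?_ h2
  filter_upwards [h1] with M hM
  nlinarith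

variable {R : ℝ} {ν₁ ν₂ : Measure (K R)} [IsFiniteMeasure ν₁] [IsFiniteMeasure ν₂]
  {a V : ℝ → ℝ} {w₁ w₂ : ℝ → C(K R, ℝ)}

theorem topC_int (ν : Measure (K R)) [IsFiniteMeasure ν] (S : ℝ) (w : C(K R, ℝ)) :
    Integrable (fun u : K R => (S - (u : ℝ)) * Real.exp (w u)) ν :=
  integrable_cm ν ((cst S - idc) * ex w)

theorem topC_int' (ν : Measure (K R)) [IsFiniteMeasure ν] (w : C(K R, ℝ)) :
    Integrable (fun u : K R => Real.exp (w u)) ν :=
  integrable_cm ν (ex w)

theorem topC_int'' (ν : Measure (K R)) [IsFiniteMeasure ν] (x : ℝ) (w : C(K R, ℝ)) :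
    Integrable (fun u : K R => max (x - (u : ℝ)) 0 * Real.exp (w u)) ν :=
  integrable_cm ν ((⟨fun u : K R => max (x - (u : ℝ)) 0, by fun_prop⟩ : C(K R, ℝ)) * ex w)

/-- D3. For `x ≤ S`: `w₂(x) ≥ a + V x - ∫ (S - u) e^{w₂} dν₂ ≥ M - V (S - x) - 1` for large `M`
(topA, topB, cur_fw₂). If `ν₂ [S - ε'', S - δ'] = q > 0` with `0 < δ' < ε'' < ε` then
`∫ (S - u) e^{w₂} dν₂ ≥ δ' q e^{M - V ε'' - 1}`, against topB as `M → ∞`: gap. Atom: `V e^{-M}` tends to `c`
(asy) and to `ν₂ {S}` (as `∫_{x ≤ S - ε} e^{w₂} ≤ (1/ε) ∫ (S - u) e^{w₂} → 0`, `w₂(S) - M → 0`). -/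
theorem topC {S ε c : ℝ} (h : Cur ν₁ ν₂ a V w₁ w₂) (hi : Iso ν₁ S ε c) (h1 : ν₁ Set.univ ≤ 1)
    (h2 : ν₂ Set.univ ≤ 1)
    (hB : ∀ M, la ν₁ (w₁ M * ex (w₁ M)) = la ν₂ (w₂ M * ex (w₂ M))) : Iso ν₂ S ε c := by
  have hA := topA h hi h1 h2
  have hc := hi.hc
  have hε := hi.hε
  have hS0 := hi.hS0
  set D : ℝ → ℝ := fun M => Real.exp (M - c * Real.exp M * ε) with hD
  have hDlim : Tendsto D atTop (𝓝 0) := topC_tendsto hc hε
  have hDpos : ∀ M, 0 < D M := fun M => Real.exp_pos _
  set C0 := 1 / c + 2 * S with hC0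
  have hC0pos : 0 < C0 := by positivity
  set En : ℝ → ℝ := fun M => ∫ u, (S - (u : ℝ)) * Real.exp (w₂ M u) ∂ν₂ with hEn
  have hEnle : ∀ M, 0 ≤ M → En M ≤ C0 * D M := fun M hM => topB h hi h1 hB M hM
  have hae : ∀ᵐ u : K R ∂ν₂, (u : ℝ) ≤ S := by
    rw [ae_iff]
    simpa using hA
  have hnn : ∀ M, 0 ≤ᵐ[ν₂] fun u : K R => (S - (u : ℝ)) * Real.exp (w₂ M u) := by
    intro M
    filter_upwards [hae] with u hu
    exact mul_nonneg (by linarith) (Real.exp_pos _).le
  have hEn0 : ∀ M, 0 ≤ En M := fun M => integral_nonneg_of_ae (hnn M)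
  choose δ hδ1 hδ2 hδ3 hδ4 hδ5 hδ6 using fun M => asy h hi h1 M
  have hV0 : ∀ M, 0 ≤ V M := fun M => cur_V_nonneg h M
  -- lower bound
  have hlow : ∀ M, ∀ x : K R, (x : ℝ) ≤ S → M - V M * (S - x) - En M ≤ w₂ M x := by
    intro M x hx
    have e1 := cur_fw₂ h M x
    have e2 : ∫ u, max ((x : ℝ) - u) 0 * Real.exp (w₂ M u) ∂ν₂ ≤ En M := by
      apply integral_mono_ae (topC_int'' ν₂ x (w₂ M)) (topC_int ν₂ S (w₂ M))
      filter_upwards [hae] with u hu
      apply mul_le_mul_of_nonneg_right _ (Real.exp_pos _).le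
      exact max_le (by linarith) (by linarith)
    have e3 := hδ5 M
    nlinarith
  have hgap0 : ν₂ {x : K R | S - ε < (x : ℝ) ∧ (x : ℝ) < S} = 0 := by
    by_contra hcon
    have hU : {x : K R | S - ε < (x : ℝ) ∧ (x : ℝ) < S} ⊆
        ⋃ n : ℕ, {x : K R | S - ε + 1 / ((n : ℝ) + 1) ≤ (x : ℝ) ∧ (x : ℝ) ≤ S - 1 / ((n : ℝ) + 1)} := by
      rintro x ⟨hx1, hx2⟩
      obtain ⟨n, hn⟩ := exists_nat_one_div_lt (show 0 < min ((x : ℝ) - (S - ε)) (S - x) from
        lt_min (by linarith) (by linarith))
      rw [Set.mem_iUnion]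
      refine ⟨n, ?_, ?_⟩
      · have := hn.trans_le (min_le_left _ _)
        linarith
      · have := hn.trans_le (min_le_right _ _)
        linarith
    have hn : ∃ n : ℕ, ν₂ {x : K R | S - ε + 1 / ((n : ℝ) + 1) ≤ (x : ℝ) ∧
        (x : ℝ) ≤ S - 1 / ((n : ℝ) + 1)} ≠ 0 := by
      by_contra hall
      push Not at hall
      exact hcon (measure_mono_null hU (measure_iUnion_null hall))
    obtain ⟨n, hn⟩ := hn
    set t := 1 / ((n : ℝ) + 1) with ht
    have ht0 : 0 < t := by positivity
    set G : Set (K R) := {x : K R | S - ε + t ≤ (x : ℝ) ∧ (x : ℝ) ≤ S - t} with hG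
    have hGm : MeasurableSet G :=
      (measurableSet_le measurable_const measurable_subtype_coe).inter
        (measurableSet_le measurable_subtype_coe measurable_const)
    have hq : 0 < ν₂.real G := by
      rw [measureReal_def]
      exact ENNReal.toReal_pos hn (measure_ne_top _ _)
    obtain ⟨x0, hx0⟩ : G.Nonempty := by
      by_contra hne
      rw [Set.not_nonempty_iff_eq_empty] at hne
      apply hn
      rw [hne, measure_empty]
    have hεt : t ≤ ε - t := by
      have := hx0.1
      have := hx0.2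
      linarith
    have key : ∀ M, 0 ≤ M → t * ν₂.real G ≤
        C0 * Real.exp (-(c * t * Real.exp M) + (δ M * (ε - t) + C0 * D M)) := by
      intro M hM
      have e1 : t * Real.exp (M - V M * (ε - t) - En M) * ν₂.real G ≤ En M := by
        calc t * Real.exp (M - V M * (ε - t) - En M) * ν₂.real G
            ≤ ∫ u in G, (S - (u : ℝ)) * Real.exp (w₂ M u) ∂ν₂ := by
              apply setIntegral_ge_of_const_le_real hGm (measure_ne_top _ _) _
                (topC_int ν₂ S (w₂ M)).integrableOn
              intro x hx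
              obtain ⟨hx1, hx2⟩ := hx
              have f1 := hlow M x (by linarith)
              have f2 : V M * (S - x) ≤ V M * (ε - t) :=
                mul_le_mul_of_nonneg_left (by linarith) (hV0 M)
              have f3 : Real.exp (M - V M * (ε - t) - En M) ≤ Real.exp (w₂ M x) :=
                Real.exp_le_exp.2 (by linarith)
              exact mul_le_mul (by linarith) f3 (Real.exp_pos _).le (by linarith)
          _ ≤ En M := setIntegral_le_integral (topC_int ν₂ S (w₂ M)) (hnn M)
      have e2 := e1.trans (hEnle M hM)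
      have e3 : t * ν₂.real G ≤ C0 * D M * Real.exp (-(M - V M * (ε - t) - En M)) := by
        have hp : 0 < Real.exp (M - V M * (ε - t) - En M) := Real.exp_pos _
        rw [Real.exp_neg, ← div_eq_mul_inv, le_div_iff₀ hp]
        linarith
      refine e3.trans ?_
      rw [mul_assoc]
      apply mul_le_mul_of_nonneg_left _ hC0pos.le
      rw [hD]
      simp only
      rw [← Real.exp_add]
      apply Real.exp_le_exp.2
      have e4 := hEnle M hM
      rw [hδ4 M]
      simp only [hD] at e4
      nlinarith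
    have hlim : Tendsto (fun M : ℝ => C0 * Real.exp (-(c * t * Real.exp M) +
        (δ M * (ε - t) + C0 * D M))) atTop (𝓝 (C0 * 0)) := by
      apply Tendsto.const_mul
      apply Real.tendsto_exp_atBot.comp
      have g1 : Tendsto (fun M : ℝ => -(c * t * Real.exp M)) atTop atBot := by
        apply tendsto_neg_atTop_atBot.comp
        exact Real.tendsto_exp_atTop.const_mul_atTop (by positivity)
      have g2 : Tendsto δ atTop (𝓝 0) :=
        tendsto_of_tendsto_of_tendsto_of_le_of_le tendsto_const_nhds hDlim hδ2 hδ3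
      have g3 : Tendsto (fun M => δ M * (ε - t) + C0 * D M) atTop (𝓝 (0 * (ε - t) + C0 * 0)) :=
        (g2.mul_const _).add (hDlim.const_mul _)
      exact g1.atBot_add g3
    rw [mul_zero] at hlim
    have hle : t * ν₂.real G ≤ 0 := by
      apply ge_of_tendsto hlim
      filter_upwards [eventually_ge_atTop (0 : ℝ)] with M hM
      exact key M hM
    have : 0 < t * ν₂.real G := mul_pos ht0 hq
    linarith
  refine ⟨hi.hS0, hi.hSR, hi.hε, hi.hc, ?_, hA, hgap0⟩
  · -- the atom
    set x0 : K R := ⟨S, hi.hS0, hi.hSR⟩ with hx0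
    set A : Set (K R) := {x : K R | (x : ℝ) = S} with hAdef
    set A' : Set (K R) := {x : K R | (x : ℝ) ≤ S - ε} with hA'def
    have hAm : MeasurableSet A := measurableSet_eq_fun measurable_subtype_coe measurable_const
    have hA'm : MeasurableSet A' := measurableSet_le measurable_subtype_coe measurable_const
    have hgap : ν₂ {x : K R | S - ε < (x : ℝ) ∧ (x : ℝ) < S} = 0 := hgap0
    have hcompl : (Aᶜ : Set (K R)) =ᵐ[ν₂] A' := by
      have hg : ∀ᵐ u : K R ∂ν₂, ¬ (S - ε < (u : ℝ) ∧ (u : ℝ) < S) := by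
        rw [ae_iff]
        simpa using hgap
      filter_upwards [hae, hg] with u hu hu'
      apply propext
      constructor
      · intro hne
        have hne' : (u : ℝ) ≠ S := hne
        have hlt : (u : ℝ) < S := lt_of_le_of_ne hu hne'
        by_contra hcon
        exact hu' ⟨not_le.1 hcon, hlt⟩
      · intro hle heq
        have h3 : (u : ℝ) ≤ S - ε := hle
        have h4 : (u : ℝ) = S := heq
        linarith
    set r : ℝ → ℝ := fun M => ∫ u in A', Real.exp (w₂ M u) ∂ν₂ with hr
    have hr0 : ∀ M, 0 ≤ r M := fun M => integral_nonneg fun u => (Real.exp_pos _).le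
    have hrle : ∀ M, 0 ≤ M → r M ≤ C0 / ε * D M := by
      intro M hM
      have e1 : ε * r M ≤ En M := by
        calc ε * r M = ∫ u in A', ε * Real.exp (w₂ M u) ∂ν₂ := by rw [integral_const_mul]
          _ ≤ ∫ u in A', (S - (u : ℝ)) * Real.exp (w₂ M u) ∂ν₂ := by
              apply setIntegral_mono_on ((topC_int' ν₂ (w₂ M)).integrableOn.const_mul ε)
                (topC_int ν₂ S (w₂ M)).integrableOn hA'm
              intro u hu
              have hu' : (u : ℝ) ≤ S - ε := hu
              exact mul_le_mul_of_nonneg_right (by linarith) (Real.exp_pos _).le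
          _ ≤ En M := setIntegral_le_integral (topC_int ν₂ S (w₂ M)) (hnn M)
      have e2 := e1.trans (hEnle M hM)
      rw [div_mul_eq_mul_div, le_div_iff₀ hε]
      linarith
    have hVeq : ∀ M, V M = Real.exp (w₂ M x0) * ν₂.real A + r M := by
      intro M
      have e1 : V M = ∫ u, Real.exp (w₂ M u) ∂ν₂ := (h.V₂ M).symm
      rw [e1, ← integral_add_compl hAm (topC_int' ν₂ (w₂ M)), setIntegral_congr_set hcompl]
      congr 1
      have e2 : ∫ u in A, Real.exp (w₂ M u) ∂ν₂ = ∫ u in A, Real.exp (w₂ M x0) ∂ν₂ := by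
        apply setIntegral_congr_fun hAm
        intro u hu
        have : u = x0 := Subtype.ext hu
        simp only [this]
      rw [e2, setIntegral_const, smul_eq_mul, mul_comm]
    have hwlow : ∀ M, 0 ≤ M → - (C0 * D M) ≤ w₂ M x0 - M := by
      intro M hM
      have f1 := hlow M x0 le_rfl
      have f2 := hEnle M hM
      have f3 : (x0 : ℝ) = S := rfl
      rw [f3, sub_self, mul_zero] at f1
      linarith
    have hwup : ∀ M, w₂ M x0 - M ≤ S * D M := by
      intro M
      have f1 := cur_le₂ h M x0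
      have f3 : (x0 : ℝ) = S := rfl
      rw [f3] at f1
      have f4 := hδ6 M
      have f5 : S * δ M ≤ S * D M := mul_le_mul_of_nonneg_left (hδ3 M) hS0
      linarith
    have hwlim : Tendsto (fun M => w₂ M x0 - M) atTop (𝓝 0) := by
      have g1 : Tendsto (fun M => -(C0 * D M)) atTop (𝓝 0) := by
        have := (hDlim.const_mul C0).neg
        simpa using this
      have g2 : Tendsto (fun M => S * D M) atTop (𝓝 0) := by
        have := hDlim.const_mul S
        simpa using this
      refine tendsto_of_tendsto_of_tendsto_of_le_of_le' g1 g2 ?_ ?_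
      · filter_upwards [eventually_ge_atTop (0 : ℝ)] with M hM
        exact hwlow M hM
      · exact Eventually.of_forall hwup
    have hexp : Tendsto (fun M => Real.exp (w₂ M x0 - M)) atTop (𝓝 1) := by
      have := (Real.continuous_exp.tendsto 0).comp hwlim
      rw [Real.exp_zero] at this
      exact this
    have hinv : ∀ M : ℝ, 0 ≤ M → Real.exp (-M) ≤ 1 := fun M hM => by
      rw [← Real.exp_zero]
      exact Real.exp_le_exp.2 (by linarith)
    have hrlim : Tendsto (fun M => r M * Real.exp (-M)) atTop (𝓝 0) := by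
      have g1 : Tendsto (fun M => C0 / ε * D M) atTop (𝓝 0) := by
        have := hDlim.const_mul (C0 / ε)
        simpa using this
      refine tendsto_of_tendsto_of_tendsto_of_le_of_le' tendsto_const_nhds g1 ?_ ?_
      · exact Eventually.of_forall fun M => mul_nonneg (hr0 M) (Real.exp_pos _).le
      · filter_upwards [eventually_ge_atTop (0 : ℝ)] with M hM
        calc r M * Real.exp (-M) ≤ r M * 1 := mul_le_mul_of_nonneg_left (hinv M hM) (hr0 M)
          _ = r M := mul_one _
          _ ≤ _ := hrle M hM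
    have hδlim : Tendsto (fun M => δ M * Real.exp (-M)) atTop (𝓝 0) := by
      refine tendsto_of_tendsto_of_tendsto_of_le_of_le' tendsto_const_nhds hDlim ?_ ?_
      · exact Eventually.of_forall fun M => mul_nonneg (hδ2 M) (Real.exp_pos _).le
      · filter_upwards [eventually_ge_atTop (0 : ℝ)] with M hM
        calc δ M * Real.exp (-M) ≤ δ M * 1 := mul_le_mul_of_nonneg_left (hinv M hM) (hδ2 M)
          _ = δ M := mul_one _
          _ ≤ _ := hδ3 M
    have hL : Tendsto (fun M => V M * Real.exp (-M)) atTop (𝓝 (c + 0)) := by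
      have : (fun M => V M * Real.exp (-M)) = fun M => c + δ M * Real.exp (-M) := by
        funext M
        rw [hδ4 M, add_mul, mul_assoc, ← Real.exp_add, add_neg_cancel, Real.exp_zero, mul_one]
      rw [this]
      exact tendsto_const_nhds.add hδlim
    have hR : Tendsto (fun M => V M * Real.exp (-M)) atTop (𝓝 (1 * ν₂.real A + 0)) := by
      have : (fun M => V M * Real.exp (-M)) =
          fun M => Real.exp (w₂ M x0 - M) * ν₂.real A + r M * Real.exp (-M) := by
        funext M
        rw [hVeq M, sub_eq_add_neg, Real.exp_add]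
        ring
      rw [this]
      exact (hexp.mul_const _).add hrlim
    have := tendsto_nhds_unique hR hL
    linarith

end Pool.Agent.Age
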