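import Pool.Agent.Helper49.Age.Defs
import Pool.Agent.Helper49.Age.Curve
import Pool.Agent.Helper49.Age.Bid
import Pool.Agent.Helper49.Age.TopC
import Pool.Agent.Helper49.Age.PeelA
import Pool.Agent.Helper49.Age.PeelB
import Pool.Agent.Helper49.Age.Lap

/-! The core theorem. -/

set_option autoImplicit false

namespace Pool.Agent.Age

open MeasureTheory

variable {R : ℝ} {ν₁ ν₂ : Measure (K R)} [IsFiniteMeasure ν₁] [IsFiniteMeasure ν₂]

private theorem core_base {ν : Measure (K R)} {S ε c : ℝ} (hi : Iso ν S ε c) :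
    ν.restrict {x | S - ε < (x : ℝ)} = ν.restrict {x | (x : ℝ) = S} := by
  refine Measure.restrict_congr_set ?_
  have h1 : ∀ᵐ x : K R ∂ν, ¬ S < (x : ℝ) := by
    rw [ae_iff]
    simpa using hi.top
  have h2 : ∀ᵐ x : K R ∂ν, ¬ (S - ε < (x : ℝ) ∧ (x : ℝ) < S) := by
    rw [ae_iff]
    simpa using hi.gap
  filter_upwards [h1, h2] with x hx1 hx2
  refine propext ?_
  change S - ε < (x : ℝ) ↔ (x : ℝ) = S
  constructor
  · intro h
    by_contra hne
    rcases lt_or_gt_of_ne hne with hlt | hgt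
    · exact hx2 ⟨h, hlt⟩
    · exact hx1 hgt
  · intro h
    rw [h]
    linarith [hi.hε]

private theorem core_start {S ε c : ℝ} (hi₁ : Iso ν₁ S ε c) (hi₂ : Iso ν₂ S ε c) :
    ν₁.restrict {x | S - ε < (x : ℝ)} = ν₂.restrict {x | S - ε < (x : ℝ)} := by
  rw [core_base hi₁, core_base hi₂]
  have hs : {x : K R | (x : ℝ) = S} = {⟨S, hi₁.hS0, hi₁.hSR⟩} := by
    ext x
    simp only [Set.mem_ofPred_eq, Set.mem_singleton_iff]
    constructor
    · intro h
      exact Subtype.ext h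
    · intro h
      rw [h]
  have h1 := hi₁.atom
  have h2 := hi₂.atom
  rw [hs] at h1 h2 ⊢
  rw [Measure.restrict_singleton, Measure.restrict_singleton]
  congr 1
  have h3 : ν₁.real {⟨S, hi₁.hS0, hi₁.hSR⟩} = ν₂.real {⟨S, hi₁.hS0, hi₁.hSR⟩} := h1.trans h2.symm
  exact (measureReal_eq_measureReal_iff).mp h3

private theorem core_univ {b : ℝ} (hb : b < 0) : {x : K R | b < (x : ℝ)} = Set.univ := by
  ext x
  simp only [Set.mem_ofPred_eq, Set.mem_univ, iff_true]
  exact lt_of_lt_of_le hb x.2.1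

/-- by steps of length `ε / 2` down from `b = S - ε` -/
theorem core {S ε c : ℝ} (hR : 0 ≤ R) (h : GF ν₁ ν₂) (hi : Iso ν₁ S ε c)
    (h1 : ν₁ Set.univ ≤ 1) (h2 : ν₂ Set.univ ≤ 1) : ν₁ = ν₂ := by
  obtain ⟨a, V, w₁, w₂, hc⟩ := exists_cur hR h
  have hi₂ : Iso ν₂ S ε c := topC hc hi h1 h2 (fun M => cur_B hR hc M)
  have hε := hi.hε
  have hVc : Continuous V := hc.dV.continuous
  have hVge : ∀ M, c * Real.exp M ≤ V M := by
    intro M
    obtain ⟨δ, -, hδ0, -, hV, -, -⟩ := asy hc hi h1 M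
    linarith
  have hstep : ∀ b : ℝ, 0 ≤ b → b ≤ S - ε →
      ν₁.restrict {x | b < (x : ℝ)} = ν₂.restrict {x | b < (x : ℝ)} →
      ν₁.restrict {x | b - ε / 2 < (x : ℝ)} = ν₂.restrict {x | b - ε / 2 < (x : ℝ)} := by
    intro b hb0 hb heq
    obtain ⟨C, M₀, hM⟩ := peelA hc hi hi₂ h1 h2 hb0 hb heq
    have hv : ∀ v, V M₀ ≤ v → |∫ u, (v * (S - (u : ℝ)) - 1) * Real.exp (v * u) ∂ν₁ -
        ∫ u, (v * (S - (u : ℝ)) - 1) * Real.exp (v * u) ∂ν₂| ≤
        C * v ^ 2 * Real.exp (v * (b - ε)) := by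
      intro v hv
      -- a point `M₁ ≥ M₀` with `v ≤ V M₁`
      obtain ⟨M₁, hM₁, hvM₁⟩ : ∃ M₁, M₀ ≤ M₁ ∧ v ≤ V M₁ := by
        refine ⟨max M₀ (v / c), le_max_left _ _, ?_⟩
        have hcc := hi.hc
        have h3 : v / c ≤ Real.exp (max M₀ (v / c)) :=
          (le_max_right _ _).trans ((by linarith [Real.add_one_le_exp (max M₀ (v / c))]))
        have h4 := hVge (max M₀ (v / c))
        have h5 : v = c * (v / c) := by field_simp
        calc v = c * (v / c) := h5
          _ ≤ c * Real.exp (max M₀ (v / c)) := mul_le_mul_of_nonneg_left h3 hcc.le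
          _ ≤ _ := h4
      obtain ⟨M, hMm, hMv⟩ := intermediate_value_Icc hM₁ hVc.continuousOn ⟨hv, hvM₁⟩
      rw [← hMv]
      exact hM M hMm.1
    obtain ⟨C', v₁, hv'⟩ := peelB hε hb heq hv
    exact lap (by linarith) heq hv'
  have hall : ∀ n : ℕ, ν₁.restrict {x | S - ε - n * (ε / 2) < (x : ℝ)} =
      ν₂.restrict {x | S - ε - n * (ε / 2) < (x : ℝ)} := by
    intro n
    induction n with
    | zero =>
      simp only [Nat.cast_zero, zero_mul, sub_zero]
      exact core_start hi hi₂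
    | succ n ih =>
      have e : S - ε - ((n + 1 : ℕ) : ℝ) * (ε / 2) = S - ε - n * (ε / 2) - ε / 2 := by
        push_cast
        ring
      rw [e]
      by_cases hb : 0 ≤ S - ε - n * (ε / 2)
      · refine hstep _ hb ?_ ih
        have : 0 ≤ (n : ℝ) * (ε / 2) := by positivity
        linarith
      · have hb' : S - ε - n * (ε / 2) < 0 := not_le.mp hb
        rw [core_univ hb'] at ih
        rw [Measure.restrict_univ, Measure.restrict_univ] at ih
        rw [ih]
  obtain ⟨n, hn⟩ := exists_nat_gt ((S - ε) / (ε / 2))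
  have hb : S - ε - n * (ε / 2) < 0 := by
    rw [div_lt_iff₀ (by linarith)] at hn
    linarith
  have := hall n
  rw [core_univ hb, Measure.restrict_univ, Measure.restrict_univ] at this
  exact this

end Pool.Agent.Age
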