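import Mathlib

/-!
# Cluster size law of the age-driven branching tree, and operators on `C([0,R])`
-/

set_option autoImplicit false

namespace Pool.Agent.Age

open MeasureTheory

/-- `q π k s` is the probability that the age-driven branching tree of `π` with a root of age `s`
has exactly `k` vertices. The number of children of the root is Poisson with parameter
`λ = ∫ min s u dπ(u)`, the ages of the children are independent with density `min s u / λ` with
respect to `π`, and the `r` subtrees of the children have `k - 1` vertices together: the factors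
`λ ^ r` cancel and the sum over the sizes is the coefficient of `X ^ (k - 1)` in the `r`-th power of
the power series with coefficients `∫ min s u * q π j u dπ(u)` (the coefficients with index
larger than `k - 1` do not matter). -/
noncomputable def q (π : Measure ℝ) : ℕ → ℝ → ℝ
  | 0 => fun _ => 0
  | k + 1 => fun s => Real.exp (-∫ u, min s u ∂π) * ∑ r ∈ Finset.range (k + 1),
      (r.factorial : ℝ)⁻¹ * PowerSeries.coeff k
        ((PowerSeries.mk fun j => if _h : j ≤ k then ∫ u, min s u * q π j u ∂π else 0) ^ r)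
  termination_by k => k
  decreasing_by omega

/-- `v π k` is the probability that the age-driven branching tree of `π` has exactly `k` vertices. -/
noncomputable def v (π : Measure ℝ) (k : ℕ) : ℝ := ∫ s, q π k s ∂π

/-- the interval `[0, R]` -/
abbrev K (R : ℝ) : Type := Set.Icc (0 : ℝ) R

section ops

variable {X : Type} [TopologicalSpace X] [CompactSpace X]

/-- exponential of a continuous function -/
noncomputable def ex (w : C(X, ℝ)) : C(X, ℝ) := ⟨fun x => Real.exp (w x), by fun_prop⟩

theorem ex_apply (w : C(X, ℝ)) (x : X) : ex w x = Real.exp (w x) := rfl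

variable [MeasurableSpace X] [BorelSpace X]

theorem integrable_cm (ν : Measure X) [IsFiniteMeasure ν] (f : C(X, ℝ)) :
    Integrable (fun x => f x) ν := by
  refine Integrable.of_bound f.continuous.aestronglyMeasurable ‖f‖ ?_
  exact Filter.Eventually.of_forall fun x => f.norm_coe_le_norm x

/-- integral as a functional -/
noncomputable def la (ν : Measure X) [IsFiniteMeasure ν] : C(X, ℝ) →L[ℝ] ℝ :=
  LinearMap.mkContinuous
    { toFun := fun f => ∫ u, f u ∂ν
      map_add' := fun f g => by
        simp only [ContinuousMap.add_apply]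
        exact integral_add (integrable_cm ν f) (integrable_cm ν g)
      map_smul' := fun c f => by
        simp only [ContinuousMap.smul_apply, smul_eq_mul, RingHom.id_apply]
        exact integral_const_mul c _ }
    (ν.real Set.univ) (fun f => by
      simp only [LinearMap.coe_mk, AddHom.coe_mk]
      have := norm_integral_le_of_norm_le_const (μ := ν) (f := fun u => f u) (C := ‖f‖)
        (Filter.Eventually.of_forall fun x => f.norm_coe_le_norm x)
      rw [mul_comm]
      exact this)

theorem la_apply (ν : Measure X) [IsFiniteMeasure ν] (f : C(X, ℝ)) : la ν f = ∫ u, f u ∂ν := rfl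

/-- The function `x ↦ ∫ k(x,u) f(u) dν(u)`. -/
noncomputable def opf (k : C(X × X, ℝ)) (ν : Measure X) [IsFiniteMeasure ν] (f : C(X, ℝ)) :
    C(X, ℝ) :=
  ⟨fun x => ∫ u, k (x, u) * f u ∂ν, by
    have h : (fun x : X => ∫ u, k (x, u) * f u ∂ν) =
        fun x => la ν ((ContinuousMap.curry k x) * f) := rfl
    rw [h]
    exact (la ν).continuous.comp
      (((ContinuousMap.curry k).continuous).mul continuous_const)⟩

/-- integral operator with kernel `k` -/
noncomputable def op (k : C(X × X, ℝ)) (ν : Measure X) [IsFiniteMeasure ν] :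
    C(X, ℝ) →L[ℝ] C(X, ℝ) :=
  LinearMap.mkContinuous
    { toFun := fun f => opf k ν f
      map_add' := fun f g => by
        ext x
        change ∫ u, k (x, u) * (f + g) u ∂ν = ∫ u, k (x, u) * f u ∂ν + ∫ u, k (x, u) * g u ∂ν
        rw [← integral_add]
        · simp only [ContinuousMap.add_apply, mul_add]
        · exact integrable_cm ν ((ContinuousMap.curry k x) * f)
        · exact integrable_cm ν ((ContinuousMap.curry k x) * g)
      map_smul' := fun c f => by
        ext x
        change ∫ u, k (x, u) * (c • f) u ∂ν = c * ∫ u, k (x, u) * f u ∂ν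
        rw [← integral_const_mul]
        simp only [ContinuousMap.smul_apply, smul_eq_mul]
        congr 1
        funext u
        ring }
    (‖k‖ * ν.real Set.univ) (fun f => by
      simp only [LinearMap.coe_mk, AddHom.coe_mk]
      refine (ContinuousMap.norm_le _ (by positivity)).mpr fun x => ?_
      have h := norm_integral_le_of_norm_le_const (μ := ν) (f := fun u => k (x, u) * f u)
        (C := ‖k‖ * ‖f‖) (Filter.Eventually.of_forall fun u => by
          rw [norm_mul]
          exact mul_le_mul (k.norm_coe_le_norm _) (f.norm_coe_le_norm _) (norm_nonneg _)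
            (norm_nonneg _))
      calc ‖opf k ν f x‖ ≤ ‖k‖ * ‖f‖ * ν.real Set.univ := h
        _ = ‖k‖ * ν.real Set.univ * ‖f‖ := by ring)

theorem op_apply (k : C(X × X, ℝ)) (ν : Measure X) [IsFiniteMeasure ν] (f : C(X, ℝ)) (x : X) :
    op k ν f x = ∫ u, k (x, u) * f u ∂ν := rfl

end ops

/-- constant function -/
noncomputable def cst {R : ℝ} (a : ℝ) : C(K R, ℝ) := ContinuousMap.const _ a

theorem cst_apply {R : ℝ} (a : ℝ) (x : K R) : (cst a : C(K R, ℝ)) x = a := rfl

/-- the coordinate -/
noncomputable def idc {R : ℝ} : C(K R, ℝ) := ⟨fun x => (x : ℝ), by fun_prop⟩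

theorem idc_apply {R : ℝ} (x : K R) : (idc : C(K R, ℝ)) x = (x : ℝ) := rfl

/-- the kernel `(x - u)⁺` -/
noncomputable def kF {R : ℝ} : C(K R × K R, ℝ) := ⟨fun p => max ((p.1 : ℝ) - p.2) 0, by fun_prop⟩

/-- the kernel `(u - x)⁺` -/
noncomputable def kB {R : ℝ} : C(K R × K R, ℝ) := ⟨fun p => max ((p.2 : ℝ) - p.1) 0, by fun_prop⟩

/-- the kernel `min x u` -/
noncomputable def kM {R : ℝ} : C(K R × K R, ℝ) := ⟨fun p => min (p.1 : ℝ) p.2, by fun_prop⟩

theorem kF_apply {R : ℝ} (x u : K R) : (kF : C(K R × K R, ℝ)) (x, u) = max ((x : ℝ) - u) 0 := rfl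

theorem kB_apply {R : ℝ} (x u : K R) : (kB : C(K R × K R, ℝ)) (x, u) = max ((u : ℝ) - x) 0 := rfl

theorem kM_apply {R : ℝ} (x u : K R) : (kM : C(K R × K R, ℝ)) (x, u) = min (x : ℝ) u := rfl

/-- positive and quasi-nilpotent operator -/
structure Volt {X : Type} [TopologicalSpace X] [CompactSpace X] (T : C(X, ℝ) →L[ℝ] C(X, ℝ)) :
    Prop where
  pos : ∀ f : C(X, ℝ), 0 ≤ f → 0 ≤ T f
  nil : ∀ L : ℝ, Filter.Tendsto (fun n : ℕ => L ^ n * ‖(T ^ n) 1‖) Filter.atTop (nhds 0)

/-- For `z` in `(0,1)` both measures have a solution of `w = log z + ∫ min(x,u) e^w dν`, with the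
same `∫ e^w dν`. -/
def GF {R : ℝ} (ν₁ ν₂ : Measure (K R)) [IsFiniteMeasure ν₁] [IsFiniteMeasure ν₂] : Prop :=
  ∀ z : ℝ, 0 < z → z < 1 → ∃ w₁ w₂ : C(K R, ℝ),
    w₁ = cst (Real.log z) + op kM ν₁ (ex w₁) ∧
    w₂ = cst (Real.log z) + op kM ν₂ (ex w₂) ∧ la ν₁ (ex w₁) = la ν₂ (ex w₂)

/-- The common curve of the two measures; the parameter is `w₁(R)`. -/
structure Cur {R : ℝ} (ν₁ ν₂ : Measure (K R)) [IsFiniteMeasure ν₁] [IsFiniteMeasure ν₂]
    (a V : ℝ → ℝ) (w₁ w₂ : ℝ → C(K R, ℝ)) : Prop where
  da : Differentiable ℝ a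
  dV : Differentiable ℝ V
  dw₁ : Differentiable ℝ w₁
  dw₂ : Differentiable ℝ w₂
  top : ∀ M, w₁ M = cst M - op kB ν₁ (ex (w₁ M))
  eq₁ : ∀ M, w₁ M = cst (a M) + op kM ν₁ (ex (w₁ M))
  eq₂ : ∀ M, w₂ M = cst (a M) + op kM ν₂ (ex (w₂ M))
  V₁ : ∀ M, la ν₁ (ex (w₁ M)) = V M
  V₂ : ∀ M, la ν₂ (ex (w₂ M)) = V M

/-- The maximum of the support is `S`, it is an atom of mass `c`, and there is no mass in
`(S - ε, S)`. -/
structure Iso {R : ℝ} (ν : Measure (K R)) (S ε c : ℝ) : Prop where
  hS0 : 0 ≤ S
  hSR : S ≤ R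
  hε : 0 < ε
  hc : 0 < c
  atom : ν.real {x | (x : ℝ) = S} = c
  top : ν {x | S < (x : ℝ)} = 0
  gap : ν {x | S - ε < (x : ℝ) ∧ (x : ℝ) < S} = 0

/-- the measure `e^{-p} π` on `[0,R]`, `p(s) = ∫ min s u dπ(u)` -/
noncomputable def nuK (R : ℝ) (π : Measure ℝ) : Measure (K R) :=
  (π.withDensity (fun s => ENNReal.ofReal (Real.exp (-∫ u, min s u ∂π)))).comap Subtype.val

end Pool.Agent.Age
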