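import Pool.Agent.Helper49.Age.Defs

/-!
# The variational problem

For a finite measure `ν` on `[0,R]` and `V > 0` we minimise over the charge distributions `f ν`,
`f ≥ 0` continuous, of total charge `V`, the functional
`Lam ν V f = (1/2) ∫∫ min(x,u) f f dν dν - V log ∫ exp (∫ min(x,u) f(u) dν(u)) dν(x)`.
-/

set_option autoImplicit false

namespace Pool.Agent.Age

open MeasureTheory

/-- the charge above `t` -/
noncomputable def tl {R : ℝ} (ν : Measure (K R)) (g : C(K R, ℝ)) (t : ℝ) : ℝ :=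
  ∫ u in {u : K R | t < (u : ℝ)}, g u ∂ν

/-- the mass above `t` -/
noncomputable def tn {R : ℝ} (ν : Measure (K R)) (t : ℝ) : ℝ := ν.real {u : K R | t < (u : ℝ)}

/-- the functional -/
noncomputable def Lam {R : ℝ} (ν : Measure (K R)) [IsFiniteMeasure ν] (V : ℝ) (f : C(K R, ℝ)) : ℝ :=
  la ν (f * op kM ν f) / 2 - V * Real.log (la ν (ex (op kM ν f)))

/-- minimisers -/
structure Min {R : ℝ} (ν : Measure (K R)) [IsFiniteMeasure ν] (V : ℝ) (f : C(K R, ℝ)) : Prop where
  nonneg : 0 ≤ f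
  mass : la ν f = V
  min : ∀ g : C(K R, ℝ), 0 ≤ g → la ν g = V → Lam ν V f ≤ Lam ν V g

/-- the function `t ↦ ∫_{u > t} e^{-p(u)} dπ(u)`, `p(s) = ∫ min s u dπ(u)` -/
noncomputable def N (π : Measure ℝ) (t : ℝ) : ℝ :=
  ∫ u in Set.Ioi t, Real.exp (-∫ y, min u y ∂π) ∂π

/-- At every point `x > 0` the function `F` agrees on some interval `(x - δ, x)` with a function
which is analytic at `x`. -/
def LeftAnalytic (F : ℝ → ℝ) : Prop :=
  ∀ x > 0, ∃ f : ℝ → ℝ, AnalyticAt ℝ f x ∧ ∀ᶠ t in nhdsWithin x (Set.Iio x), F t = f t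

end Pool.Agent.Age
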