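import Pool.Agent.Helper49.Age.Defs

/-! The generating function of the cluster size law. -/

set_option autoImplicit false

namespace Pool.Agent.Age

open MeasureTheory

section genaux

open PowerSeries Finset

private theorem gen_coeff_congr (a b : ℕ → ℝ) (k : ℕ) (h : ∀ j, j ≤ k → a j = b j) :
    ∀ r n : ℕ, n ≤ k → coeff n ((mk a) ^ r) = coeff n ((mk b) ^ r) := by
  intro r
  induction r with
  | zero => intro n _; simp
  | succ r ih =>
    intro n hn
    rw [pow_succ, pow_succ, coeff_mul, coeff_mul]
    refine sum_congr rfl fun p hp => ?_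
    have hp' := mem_antidiagonal.1 hp
    rw [ih p.1 (by omega), coeff_mk, coeff_mk, h p.2 (by omega)]

private theorem gen_coeff_zero (a : ℕ → ℝ) (h0 : a 0 = 0) :
    ∀ r n : ℕ, n < r → coeff n ((mk a) ^ r) = 0 := by
  intro r
  induction r with
  | zero => intro n hn; omega
  | succ r ih =>
    intro n hn
    rw [pow_succ, coeff_mul]
    refine sum_eq_zero fun p hp => ?_
    have hp' := mem_antidiagonal.1 hp
    by_cases h2 : p.2 = 0
    · rw [coeff_mk, h2, h0, mul_zero]
    · rw [ih p.1 (by omega), zero_mul]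

private theorem gen_coeff_nonneg (a : ℕ → ℝ) (h : ∀ j, 0 ≤ a j) :
    ∀ r n : ℕ, 0 ≤ coeff n ((mk a) ^ r) := by
  intro r
  induction r with
  | zero =>
    intro n
    rw [pow_zero, coeff_one]
    split_ifs <;> norm_num
  | succ r ih =>
    intro n
    rw [pow_succ, coeff_mul]
    refine sum_nonneg fun p _ => mul_nonneg (ih p.1) ?_
    rw [coeff_mk]
    exact h p.2

private theorem gen_coeff_meas (a : ℕ → ℝ → ℝ) (h : ∀ j, Measurable (a j)) :
    ∀ r n : ℕ, Measurable fun s => coeff n ((mk fun j => a j s) ^ r) := by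
  intro r
  induction r with
  | zero =>
    intro n
    simp only [pow_zero]
    exact measurable_const
  | succ r ih =>
    intro n
    simp only [pow_succ, coeff_mul, coeff_mk]
    exact Finset.measurable_fun_sum _ fun p _ => (ih p.1).mul (h p.2)

/-- the generating functions of the powers -/
private theorem gen_hasSum_pow (a : ℕ → ℝ) (h : ∀ j, 0 ≤ a j) (z : ℝ) (hz : 0 ≤ z)
    (hs : Summable fun j => a j * z ^ j) :
    ∀ r : ℕ, HasSum (fun k => coeff k ((mk a) ^ r) * z ^ k) ((∑' j, a j * z ^ j) ^ r) := by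
  intro r
  induction r with
  | zero =>
    have h1 : (fun k => coeff k ((mk a) ^ 0) * z ^ k) = fun k => if k = 0 then (1 : ℝ) else 0 := by
      funext k
      rw [pow_zero, coeff_one]
      split_ifs with hk
      · rw [hk]; simp
      · simp
    rw [h1, pow_zero]
    exact hasSum_ite_eq 0 1
  | succ r ih =>
    have hn1 : Summable fun k => ‖coeff k ((mk a) ^ r) * z ^ k‖ := by
      refine ih.summable.congr fun k => ?_
      rw [Real.norm_eq_abs, abs_of_nonneg (mul_nonneg (gen_coeff_nonneg a h r k) (pow_nonneg hz k))]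
    have hn2 : Summable fun k => ‖a k * z ^ k‖ := by
      refine hs.congr fun k => ?_
      rw [Real.norm_eq_abs, abs_of_nonneg (mul_nonneg (h k) (pow_nonneg hz k))]
    have h2 := tsum_mul_tsum_eq_tsum_sum_antidiagonal_of_summable_norm hn1 hn2
    have h3 := (summable_norm_sum_mul_antidiagonal_of_summable_norm hn1 hn2).of_norm
    have h4 : ∀ n, ∑ kl ∈ antidiagonal n, (coeff kl.1 ((mk a) ^ r) * z ^ kl.1) *
        (a kl.2 * z ^ kl.2) = coeff n ((mk a) ^ (r + 1)) * z ^ n := by
      intro n
      rw [pow_succ, coeff_mul, sum_mul]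
      refine sum_congr rfl fun p hp => ?_
      have hp' := mem_antidiagonal.1 hp
      rw [coeff_mk, ← hp', pow_add]
      ring
    have h5 := h3.hasSum
    rw [← h2, ih.tsum_eq] at h5
    rw [funext h4] at h5
    rw [pow_succ (∑' j, a j * z ^ j)]
    exact h5

end genaux

/-- the coefficients of the exponent -/
private noncomputable def gcc (π : Measure ℝ) (j : ℕ) (s : ℝ) : ℝ := ∫ u, min s u * q π j u ∂π

private theorem gen_q_zero (π : Measure ℝ) (s : ℝ) : q π 0 s = 0 := by
  rw [q]

private theorem gen_q_succ (π : Measure ℝ) (k : ℕ) (s : ℝ) :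
    q π (k + 1) s = Real.exp (-∫ u, min s u ∂π) * ∑ r ∈ Finset.range (k + 1),
      (r.factorial : ℝ)⁻¹ * PowerSeries.coeff k ((PowerSeries.mk fun j => gcc π j s) ^ r) := by
  rw [q]
  beta_reduce
  refine congrArg (fun t : ℝ => Real.exp (-∫ u, min s u ∂π) * t) ?_
  refine Finset.sum_congr rfl fun r _ => ?_
  refine congrArg (fun t : ℝ => (r.factorial : ℝ)⁻¹ * t) ?_
  refine gen_coeff_congr _ _ k (fun j hj => ?_) r k le_rfl
  rw [dif_pos hj]
  rfl

private theorem gen_gcc_zero (π : Measure ℝ) (s : ℝ) : gcc π 0 s = 0 := by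
  unfold gcc
  simp [gen_q_zero]

variable (π : Measure ℝ) [IsProbabilityMeasure π]

private theorem gen_gcc_meas (j : ℕ) (h : Measurable (q π j)) : Measurable (gcc π j) := by
  have h1 : Measurable (fun p : ℝ × ℝ => min p.1 p.2 * q π j p.2) :=
    (measurable_fst.min measurable_snd).mul (h.comp measurable_snd)
  exact (h1.stronglyMeasurable.integral_prod_right').measurable

theorem q_measurable (k : ℕ) : Measurable (q π k) := by
  induction k using Nat.strong_induction_on with
  | _ k ih =>
    cases k with
    | zero =>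
      have h : q π 0 = fun _ => 0 := funext fun s => gen_q_zero π s
      rw [h]
      exact measurable_const
    | succ k =>
      have h : q π (k + 1) = fun s => Real.exp (-∫ u, min s u ∂π) * ∑ r ∈ Finset.range (k + 1),
          (r.factorial : ℝ)⁻¹ * PowerSeries.coeff k
            ((PowerSeries.mk fun j => if j ≤ k then gcc π j s else 0) ^ r) := by
        funext s
        rw [gen_q_succ]
        congr 1
        refine Finset.sum_congr rfl fun r _ => ?_
        congr 1
        refine gen_coeff_congr _ _ k (fun j hj => ?_) r k le_rfl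
        rw [if_pos hj]
      rw [h]
      refine Measurable.mul ?_ ?_
      · have h1 : Measurable (fun p : ℝ × ℝ => min p.1 p.2) := measurable_fst.min measurable_snd
        have h2 : Measurable (fun s : ℝ => ∫ u, min s u ∂π) :=
          (h1.stronglyMeasurable.integral_prod_right').measurable
        exact Real.measurable_exp.comp h2.neg
      · refine Finset.measurable_fun_sum _ fun r _ => Measurable.const_mul ?_ _
        refine gen_coeff_meas (fun j s => if j ≤ k then gcc π j s else 0) (fun j => ?_) r k
        by_cases hj : j ≤ k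
        · simp only [if_pos hj]
          exact gen_gcc_meas π j (ih j (by omega))
        · simp only [if_neg hj]
          exact measurable_const

omit [IsProbabilityMeasure π] in
private theorem gen_ae_nonneg (h0 : π (Set.Iio 0) = 0) : ∀ᵐ u ∂π, 0 ≤ u := by
  rw [ae_iff]
  have : {a : ℝ | ¬ 0 ≤ a} = Set.Iio 0 := by
    ext a
    simp
  rw [this]
  exact h0

theorem q_nonneg (h0 : π (Set.Iio 0) = 0) (k : ℕ) (s : ℝ) (hs : 0 ≤ s) : 0 ≤ q π k s := by
  induction k using Nat.strong_induction_on generalizing s with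
  | _ k ih =>
    cases k with
    | zero => rw [gen_q_zero]
    | succ k =>
      rw [gen_q_succ]
      refine mul_nonneg (Real.exp_pos _).le (Finset.sum_nonneg fun r _ =>
        mul_nonneg (by positivity) ?_)
      rw [gen_coeff_congr _ (fun j => if j ≤ k then gcc π j s else 0) k
        (fun j hj => by rw [if_pos hj]) r k le_rfl]
      refine gen_coeff_nonneg _ (fun j => ?_) r k
      by_cases hj : j ≤ k
      · simp only [if_pos hj]
        refine integral_nonneg_of_ae ?_
        filter_upwards [gen_ae_nonneg π h0] with u hu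
        exact mul_nonneg (le_min hs hu) (ih j (by omega) u hu)
      · simp only [if_neg hj]
        exact le_rfl

private theorem gen_gcc_nonneg (h0 : π (Set.Iio 0) = 0) (j : ℕ) (s : ℝ) (hs : 0 ≤ s) :
    0 ≤ gcc π j s := by
  refine integral_nonneg_of_ae ?_
  filter_upwards [gen_ae_nonneg π h0] with u hu
  exact mul_nonneg (le_min hs hu) (q_nonneg π h0 j u hu)

private theorem gen_int_min (h0 : π (Set.Iio 0) = 0) (s : ℝ) (hs : 0 ≤ s) :
    Integrable (fun u => min s u) π := by
  refine Integrable.of_bound (measurable_const.min measurable_id).aestronglyMeasurable s ?_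
  filter_upwards [gen_ae_nonneg π h0] with u hu
  rw [Real.norm_eq_abs, abs_of_nonneg (le_min hs hu)]
  exact min_le_left _ _

private theorem gen_int_of_le (h0 : π (Set.Iio 0) = 0) (s : ℝ) (hs : 0 ≤ s) (g : ℝ → ℝ)
    (hg : Measurable g) (C : ℝ) (hb : ∀ u, 0 ≤ u → |g u| ≤ C) :
    Integrable (fun u => min s u * g u) π := by
  refine Integrable.of_bound
    ((measurable_const.min measurable_id).mul hg).aestronglyMeasurable (s * C) ?_
  filter_upwards [gen_ae_nonneg π h0] with u hu
  rw [norm_mul, Real.norm_eq_abs, abs_of_nonneg (le_min hs hu), Real.norm_eq_abs]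
  exact mul_le_mul (min_le_left _ _) (hb u hu) (abs_nonneg _) hs

/-- induction: `∑_{k ≤ n} q (k+1) ≤ e^{-p} exp (∑_{j ≤ n} ∫ min s u q_j(u) dπ) ≤ 1` -/
theorem q_sum_le (h0 : π (Set.Iio 0) = 0) (n : ℕ) (s : ℝ) (hs : 0 ≤ s) :
    ∑ k ∈ Finset.range n, q π k s ≤ 1 := by
  induction n generalizing s with
  | zero => simp
  | succ n ih =>
    have hq1 : ∀ j ∈ Finset.range n, ∀ u, 0 ≤ u → |q π j u| ≤ 1 := by
      intro j hj u hu
      rw [abs_of_nonneg (q_nonneg π h0 j u hu)]
      exact (Finset.single_le_sum (f := fun k => q π k u)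
        (fun k _ => q_nonneg π h0 k u hu) hj).trans (ih u hu)
    -- the truncated coefficients
    set a : ℕ → ℝ := fun j => if j < n then gcc π j s else 0 with ha
    have ha0 : ∀ j, 0 ≤ a j := fun j => by
      simp only [ha]
      split_ifs
      · exact gen_gcc_nonneg π h0 j s hs
      · exact le_rfl
    have hsum : Summable fun j => a j * (1 : ℝ) ^ j := by
      refine summable_of_ne_finset_zero (s := Finset.range n) fun j hj => ?_
      have : ¬ j < n := fun h => hj (Finset.mem_range.2 h)
      simp only [ha, if_neg this, zero_mul]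
    have htsum : ∑' j, a j * (1 : ℝ) ^ j = ∑ j ∈ Finset.range n, gcc π j s := by
      rw [tsum_eq_sum (s := Finset.range n)]
      · refine Finset.sum_congr rfl fun j hj => ?_
        simp only [ha, if_pos (Finset.mem_range.1 hj), one_pow, mul_one]
      · intro j hj
        have : ¬ j < n := fun h => hj (Finset.mem_range.2 h)
        simp only [ha, if_neg this, zero_mul]
    set A : ℝ := ∑ j ∈ Finset.range n, gcc π j s with hA
    have hA0 : 0 ≤ A := Finset.sum_nonneg fun j _ => gen_gcc_nonneg π h0 j s hs
    -- comparison of the exponent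
    have hAp : A ≤ ∫ u, min s u ∂π := by
      have h1 : A = ∫ u, min s u * ∑ j ∈ Finset.range n, q π j u ∂π := by
        rw [hA]
        simp only [gcc, Finset.mul_sum]
        rw [integral_finsetSum]
        intro j hj
        exact gen_int_of_le π h0 s hs (q π j) (q_measurable π j) 1 (hq1 j hj)
      rw [h1]
      refine integral_mono_ae ?_ (gen_int_min π h0 s hs) ?_
      · refine gen_int_of_le π h0 s hs _ (Finset.measurable_fun_sum _ fun j _ => q_measurable π j)
          1 fun u hu => ?_
        rw [abs_of_nonneg (Finset.sum_nonneg fun k _ => q_nonneg π h0 k u hu)]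
        exact ih u hu
      · filter_upwards [gen_ae_nonneg π h0] with u hu
        calc min s u * ∑ j ∈ Finset.range n, q π j u ≤ min s u * 1 :=
              mul_le_mul_of_nonneg_left (ih u hu) (le_min hs hu)
          _ = min s u := mul_one _
    -- finite sums of the coefficients of the powers
    have hpow : ∀ r, ∑ k ∈ Finset.range n,
        PowerSeries.coeff k ((PowerSeries.mk a) ^ r) ≤ A ^ r := by
      intro r
      have h1 := gen_hasSum_pow a ha0 1 zero_le_one hsum r
      rw [htsum] at h1
      simp only [one_pow, mul_one] at h1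
      exact sum_le_hasSum _ (fun k _ => gen_coeff_nonneg a ha0 r k) h1
    rw [Finset.sum_range_succ', gen_q_zero, add_zero]
    have h2 : ∀ k ∈ Finset.range n, q π (k + 1) s ≤ Real.exp (-∫ u, min s u ∂π) *
        ∑ r ∈ Finset.range n, (r.factorial : ℝ)⁻¹ *
          PowerSeries.coeff k ((PowerSeries.mk a) ^ r) := by
      intro k hk
      have hk' := Finset.mem_range.1 hk
      rw [gen_q_succ]
      refine mul_le_mul_of_nonneg_left ?_ (Real.exp_pos _).le
      calc ∑ r ∈ Finset.range (k + 1), (r.factorial : ℝ)⁻¹ *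
            PowerSeries.coeff k ((PowerSeries.mk fun j => gcc π j s) ^ r) =
          ∑ r ∈ Finset.range (k + 1), (r.factorial : ℝ)⁻¹ *
            PowerSeries.coeff k ((PowerSeries.mk a) ^ r) := by
            refine Finset.sum_congr rfl fun r _ => ?_
            congr 1
            refine gen_coeff_congr _ _ k (fun j hj => ?_) r k le_rfl
            simp only [ha, if_pos (show j < n by omega)]
        _ ≤ _ := by
            refine Finset.sum_le_sum_of_subset_of_nonneg ?_ fun r _ _ =>
              mul_nonneg (by positivity) (gen_coeff_nonneg a ha0 r k)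
            intro r hr
            have := Finset.mem_range.1 hr
            exact Finset.mem_range.2 (by omega)
    calc ∑ k ∈ Finset.range n, q π (k + 1) s ≤ ∑ k ∈ Finset.range n,
          Real.exp (-∫ u, min s u ∂π) * ∑ r ∈ Finset.range n, (r.factorial : ℝ)⁻¹ *
          PowerSeries.coeff k ((PowerSeries.mk a) ^ r) := Finset.sum_le_sum h2
      _ = Real.exp (-∫ u, min s u ∂π) * ∑ r ∈ Finset.range n, (r.factorial : ℝ)⁻¹ *
          ∑ k ∈ Finset.range n, PowerSeries.coeff k ((PowerSeries.mk a) ^ r) := by
          rw [← Finset.mul_sum, Finset.sum_comm]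
          simp only [Finset.mul_sum]
      _ ≤ Real.exp (-∫ u, min s u ∂π) * ∑ r ∈ Finset.range n, (r.factorial : ℝ)⁻¹ * A ^ r := by
          refine mul_le_mul_of_nonneg_left (Finset.sum_le_sum fun r _ =>
            mul_le_mul_of_nonneg_left (hpow r) (by positivity)) (Real.exp_pos _).le
      _ ≤ Real.exp (-∫ u, min s u ∂π) * Real.exp A := by
          refine mul_le_mul_of_nonneg_left ?_ (Real.exp_pos _).le
          have h3 := Real.sum_le_exp_of_nonneg hA0 n
          refine le_trans (le_of_eq (Finset.sum_congr rfl fun r _ => ?_)) h3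
          rw [div_eq_inv_mul]
      _ = Real.exp (A - ∫ u, min s u ∂π) := by
          rw [← Real.exp_add]
          congr 1
          ring
      _ ≤ 1 := by
          rw [Real.exp_le_one_iff]
          linarith

private theorem gen_q_le_one (h0 : π (Set.Iio 0) = 0) (k : ℕ) (s : ℝ) (hs : 0 ≤ s) :
    q π k s ≤ 1 :=
  (Finset.single_le_sum (f := fun k => q π k s)
    (fun k _ => q_nonneg π h0 k s hs) (Finset.self_mem_range_succ k)).trans
    (q_sum_le π h0 (k + 1) s hs)

private theorem gen_summable (h0 : π (Set.Iio 0) = 0) (z : ℝ) (hz0 : 0 < z) (hz1 : z < 1) (s : ℝ)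
    (hs : 0 ≤ s) : Summable fun k => q π k s * z ^ k := by
  refine Summable.of_nonneg_of_le (fun k => mul_nonneg (q_nonneg π h0 k s hs)
    (pow_nonneg hz0.le k)) (fun k => ?_) (summable_geometric_of_lt_one hz0.le hz1)
  calc q π k s * z ^ k ≤ 1 * z ^ k :=
        mul_le_mul_of_nonneg_right (gen_q_le_one π h0 k s hs) (pow_nonneg hz0.le k)
    _ = z ^ k := one_mul _

/-- the sum of the exponent -/
private theorem gen_hasSum_gcc (h0 : π (Set.Iio 0) = 0) (z : ℝ) (hz0 : 0 < z) (hz1 : z < 1)
    (s : ℝ) (hs : 0 ≤ s) : HasSum (fun j => gcc π j s * z ^ j)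
      (∫ u, min s u * ∑' k, q π k u * z ^ k ∂π) := by
  have hb : ∀ j u, 0 ≤ u → |q π j u * z ^ j| ≤ z ^ j := by
    intro j u hu
    rw [abs_of_nonneg (mul_nonneg (q_nonneg π h0 j u hu) (pow_nonneg hz0.le j))]
    calc q π j u * z ^ j ≤ 1 * z ^ j :=
          mul_le_mul_of_nonneg_right (gen_q_le_one π h0 j u hu) (pow_nonneg hz0.le j)
      _ = z ^ j := one_mul _
  have hint : ∀ j, Integrable (fun u => min s u * (q π j u * z ^ j)) π := fun j =>
    gen_int_of_le π h0 s hs _ ((q_measurable π j).mul_const _) (z ^ j) (hb j)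
  have hsum : Summable fun j => ∫ u, ‖min s u * (q π j u * z ^ j)‖ ∂π := by
    refine Summable.of_nonneg_of_le (fun j => integral_nonneg fun u => norm_nonneg _)
      (fun j => ?_) ((summable_geometric_of_lt_one hz0.le hz1).mul_left s)
    calc ∫ u, ‖min s u * (q π j u * z ^ j)‖ ∂π ≤ ∫ _, s * z ^ j ∂π := by
          refine integral_mono_ae (hint j).norm (integrable_const _) ?_
          filter_upwards [gen_ae_nonneg π h0] with u hu
          rw [norm_mul, Real.norm_eq_abs, abs_of_nonneg (le_min hs hu), Real.norm_eq_abs]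
          exact mul_le_mul (min_le_left _ _) (hb j u hu) (abs_nonneg _) hs
      _ = s * z ^ j := by simp
  have h := hasSum_integral_of_summable_integral_norm hint hsum
  have h1 : (fun j => ∫ u, min s u * (q π j u * z ^ j) ∂π) = fun j => gcc π j s * z ^ j := by
    funext j
    unfold gcc
    rw [← integral_mul_const]
    congr 1
    funext u
    ring
  rw [h1] at h
  have h2 : ∫ u, ∑' j, min s u * (q π j u * z ^ j) ∂π =
      ∫ u, min s u * ∑' k, q π k u * z ^ k ∂π := by
    congr 1
    funext u
    exact tsum_mul_left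
  rw [h2] at h
  exact h

/-- the functional equation -/
theorem gen_eq (h0 : π (Set.Iio 0) = 0) (z : ℝ) (hz0 : 0 < z) (hz1 : z < 1) (s : ℝ)
    (hs : 0 ≤ s) :
    ∑' k, q π k s * z ^ k =
      z * Real.exp (-(∫ u, min s u ∂π) + ∫ u, min s u * ∑' k, q π k u * z ^ k ∂π) := by
  have hG := gen_hasSum_gcc π h0 z hz0 hz1 s hs
  set G : ℝ := ∫ u, min s u * ∑' k, q π k u * z ^ k ∂π with hGdef
  have ha0 : ∀ j, 0 ≤ gcc π j s := fun j => gen_gcc_nonneg π h0 j s hs
  have hG0 : 0 ≤ G := hG.nonneg fun j => mul_nonneg (ha0 j) (pow_nonneg hz0.le j)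
  have hpow : ∀ r, HasSum (fun k => PowerSeries.coeff k
      ((PowerSeries.mk fun j => gcc π j s) ^ r) * z ^ k) (G ^ r) := by
    intro r
    have h1 := gen_hasSum_pow (fun j => gcc π j s) ha0 z hz0.le hG.summable r
    rwa [hG.tsum_eq] at h1
  -- the double series
  set f : ℕ → ℕ → ℝ := fun r k => (r.factorial : ℝ)⁻¹ * (PowerSeries.coeff k
      ((PowerSeries.mk fun j => gcc π j s) ^ r) * z ^ k) with hf
  have hf0 : ∀ p : ℕ × ℕ, 0 ≤ f p.1 p.2 := fun p => by
    simp only [hf]
    exact mul_nonneg (by positivity) (mul_nonneg (gen_coeff_nonneg _ ha0 _ _)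
      (pow_nonneg hz0.le _))
  have hrow : ∀ r, HasSum (f r) ((r.factorial : ℝ)⁻¹ * G ^ r) := fun r => (hpow r).mul_left _
  have hexp : HasSum (fun r : ℕ => (r.factorial : ℝ)⁻¹ * G ^ r) (Real.exp G) := by
    have h1 := NormedSpace.expSeries_div_hasSum_exp (𝔸 := ℝ) G
    rw [← Real.exp_eq_exp_ℝ] at h1
    have h2 : (fun r : ℕ => G ^ r / (r.factorial : ℝ)) =
        fun r : ℕ => (r.factorial : ℝ)⁻¹ * G ^ r := funext fun r => div_eq_inv_mul _ _
    rw [h2] at h1
    exact h1
  have hS : Summable (Function.uncurry f) := by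
    refine (summable_prod_of_nonneg hf0).2 ⟨fun r => (hrow r).summable, ?_⟩
    refine hexp.summable.congr fun r => ?_
    exact (hrow r).tsum_eq.symm
  have hcomm : ∑' k, ∑' r, f r k = ∑' r, ∑' k, f r k := by
    exact Summable.tsum_comm hS
  have hrows : ∑' r, ∑' k, f r k = Real.exp G := by
    rw [← hexp.tsum_eq]
    exact tsum_congr fun r => (hrow r).tsum_eq
  -- the columns
  have hcol : ∀ k, ∑' r, f r k = (∑ r ∈ Finset.range (k + 1), (r.factorial : ℝ)⁻¹ *
      PowerSeries.coeff k ((PowerSeries.mk fun j => gcc π j s) ^ r)) * z ^ k := by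
    intro k
    rw [tsum_eq_sum (s := Finset.range (k + 1)), Finset.sum_mul]
    · refine Finset.sum_congr rfl fun r _ => ?_
      simp only [hf]
      ring
    · intro r hr
      have hr' : k < r := by
        by_contra hcon
        exact hr (Finset.mem_range.2 (by omega))
      simp only [hf]
      rw [gen_coeff_zero (fun j => gcc π j s) (gen_gcc_zero π s) r k hr']
      ring
  have hsum := gen_summable π h0 z hz0 hz1 s hs
  rw [hsum.tsum_eq_zero_add, gen_q_zero, zero_mul, zero_add]
  have h3 : ∀ k, q π (k + 1) s * z ^ (k + 1) =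
      (z * Real.exp (-∫ u, min s u ∂π)) * ∑' r, f r k := by
    intro k
    rw [hcol, gen_q_succ, pow_succ]
    ring
  rw [tsum_congr h3, tsum_mul_left, hcomm, hrows, Real.exp_add]
  ring

end Pool.Agent.Age
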