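import Pool.Agent.Helper49.Age.Defs

/-! The measure `e^{-p} π` on `[0,R]`. -/

set_option autoImplicit false

namespace Pool.Agent.Age

open MeasureTheory

variable (R : ℝ) (π : Measure ℝ)

private theorem nuK_apply (t : Set (K R)) : nuK R π t =
    (π.withDensity (fun s => ENNReal.ofReal (Real.exp (-∫ u, min s u ∂π)))) (Subtype.val '' t) :=
  comap_subtype_coe_apply measurableSet_Icc _ t

private theorem nuK_meas [SFinite π] :
    Measurable (fun s : ℝ => Real.exp (-∫ u, min s u ∂π)) := by
  have h : StronglyMeasurable (Function.uncurry fun s u : ℝ => min s u) :=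
    (measurable_fst.min measurable_snd).stronglyMeasurable
  exact Real.measurable_exp.comp (h.integral_prod_right (ν := π)).measurable.neg

private theorem nuK_mono [IsFiniteMeasure π] {s : ℝ} (hs : 0 ≤ s) :
    ∫ u, min 0 u ∂π ≤ ∫ u, min s u ∂π := by
  have hb : Integrable (fun u : ℝ => min s u - min 0 u) π := by
    refine Integrable.of_bound (C := s) ?_ ?_
    · exact ((measurable_const.min measurable_id).sub
        (measurable_const.min measurable_id)).aestronglyMeasurable
    · refine Filter.Eventually.of_forall fun u => ?_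
      rw [Real.norm_eq_abs, abs_le]
      rcases le_total s u with h1 | h1 <;> rcases le_total 0 u with h2 | h2 <;>
        simp only [min_eq_left, min_eq_right, h1, h2] <;> constructor <;> linarith
  by_cases hi : Integrable (fun u : ℝ => min 0 u) π
  · have hi' : Integrable (fun u : ℝ => min s u) π := by
      have := hb.add hi
      refine this.congr (Filter.Eventually.of_forall fun u => ?_)
      simp
    exact integral_mono hi hi' fun u => min_le_min_right u hs
  · have hi' : ¬ Integrable (fun u : ℝ => min s u) π := by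
      intro h
      apply hi
      have := h.sub hb
      refine this.congr (Filter.Eventually.of_forall fun u => ?_)
      simp
    rw [integral_undef hi, integral_undef hi']

instance nuK_finite [IsFiniteMeasure π] : IsFiniteMeasure (nuK R π) := by
  constructor
  rw [nuK_apply, Set.image_univ, Subtype.range_coe_subtype]
  have hm : MeasurableSet {x : ℝ | x ∈ Set.Icc (0 : ℝ) R} := measurableSet_Icc
  rw [withDensity_apply _ hm]
  calc ∫⁻ s in {x : ℝ | x ∈ Set.Icc (0 : ℝ) R}, ENNReal.ofReal (Real.exp (-∫ u, min s u ∂π)) ∂π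
      ≤ ∫⁻ _s in {x : ℝ | x ∈ Set.Icc (0 : ℝ) R},
          ENNReal.ofReal (Real.exp (-∫ u, min 0 u ∂π)) ∂π := by
        refine setLIntegral_mono' hm fun s hs => ?_
        exact ENNReal.ofReal_le_ofReal (Real.exp_le_exp.2 (neg_le_neg (nuK_mono π hs.1)))
    _ = ENNReal.ofReal (Real.exp (-∫ u, min 0 u ∂π)) * π {x : ℝ | x ∈ Set.Icc (0 : ℝ) R} := by
        rw [setLIntegral_const]
    _ < ⊤ := ENNReal.mul_lt_top ENNReal.ofReal_lt_top (measure_lt_top _ _)

private theorem nuK_ae_nonneg (h0 : π (Set.Iio 0) = 0) : ∀ᵐ u ∂π, (0 : ℝ) ≤ u := by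
  rw [ae_iff]
  convert h0 using 2
  ext u
  simp

theorem nuK_le_one [IsProbabilityMeasure π] (h0 : π (Set.Iio 0) = 0) :
    nuK R π Set.univ ≤ 1 := by
  rw [nuK_apply, Set.image_univ, Subtype.range_coe_subtype]
  have hm : MeasurableSet {x : ℝ | x ∈ Set.Icc (0 : ℝ) R} := measurableSet_Icc
  rw [withDensity_apply _ hm]
  calc ∫⁻ s in {x : ℝ | x ∈ Set.Icc (0 : ℝ) R}, ENNReal.ofReal (Real.exp (-∫ u, min s u ∂π)) ∂π
      ≤ ∫⁻ _s in {x : ℝ | x ∈ Set.Icc (0 : ℝ) R}, 1 ∂π := by
        refine setLIntegral_mono' hm fun s hs => ?_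
        rw [ENNReal.ofReal_le_one, Real.exp_le_one_iff, neg_nonpos]
        refine integral_nonneg_of_ae ?_
        filter_upwards [nuK_ae_nonneg π h0] with u hu
        exact le_min hs.1 hu
    _ = π {x : ℝ | x ∈ Set.Icc (0 : ℝ) R} := by
        rw [setLIntegral_const, one_mul]
    _ ≤ 1 := prob_le_one

theorem integral_nuK [IsProbabilityMeasure π] (h0 : π (Set.Iio 0) = 0) (hR : π (Set.Ioi R) = 0)
    (f : ℝ → ℝ) :
    ∫ x, f (x : ℝ) ∂(nuK R π) = ∫ s, f s * Real.exp (-∫ u, min s u ∂π) ∂π := by
  unfold nuK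
  rw [integral_subtype_comap measurableSet_Icc]
  set μ := π.withDensity (fun s => ENNReal.ofReal (Real.exp (-∫ u, min s u ∂π))) with hμ
  have hac : μ ≪ π := withDensity_absolutelyContinuous _ _
  have hae : ∀ᵐ s ∂μ, s ∈ Set.Icc (0 : ℝ) R := by
    apply hac.ae_le
    have h1 := nuK_ae_nonneg π h0
    have h2 : ∀ᵐ u ∂π, u ≤ R := by
      rw [ae_iff]
      convert hR using 2
      ext u
      simp
    filter_upwards [h1, h2] with u hu1 hu2
    exact ⟨hu1, hu2⟩
  rw [Measure.restrict_eq_self_of_ae_mem hae, hμ,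
    integral_withDensity_eq_integral_toReal_smul (nuK_meas π).ennreal_ofReal
      (Filter.Eventually.of_forall fun _ => ENNReal.ofReal_lt_top)]
  congr 1
  funext s
  rw [ENNReal.toReal_ofReal (Real.exp_nonneg _), smul_eq_mul, mul_comm]

theorem iso_nuK [IsProbabilityMeasure π] (h0 : π (Set.Iio 0) = 0) (hR : π (Set.Ioi R) = 0)
    {S ε : ℝ} (hε : 0 < ε) (hS : π {S} ≠ 0) (htop : π (Set.Ioi S) = 0)
    (hgap : π (Set.Ioo (S - ε) S) = 0) : ∃ c, Iso (nuK R π) S ε c := by
  have hac : π.withDensity (fun s => ENNReal.ofReal (Real.exp (-∫ u, min s u ∂π))) ≪ π :=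
    withDensity_absolutelyContinuous _ _
  have hS0 : 0 ≤ S := by
    by_contra h
    push Not at h
    exact hS (measure_mono_null (Set.singleton_subset_iff.2 h) h0)
  have hSR : S ≤ R := by
    by_contra h
    push Not at h
    exact hS (measure_mono_null (Set.singleton_subset_iff.2 h) hR)
  refine ⟨(nuK R π).real {x | (x : ℝ) = S}, hS0, hSR, hε, ?_, rfl, ?_, ?_⟩
  · have hne : nuK R π {x | (x : ℝ) = S} ≠ 0 := by
      rw [nuK_apply]
      have him : (Subtype.val '' {x : K R | (x : ℝ) = S}) = {S} := by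
        ext y
        constructor
        · rintro ⟨x, hx, rfl⟩
          exact hx
        · intro hy
          rw [Set.mem_singleton_iff] at hy
          exact ⟨⟨S, hS0, hSR⟩, rfl, hy.symm⟩
      rw [him, withDensity_apply _ (measurableSet_singleton S), lintegral_singleton]
      refine mul_ne_zero ?_ hS
      rw [Ne, ENNReal.ofReal_eq_zero, not_le]
      exact Real.exp_pos _
    exact ENNReal.toReal_pos hne (measure_ne_top _ _)
  · rw [nuK_apply]
    apply hac
    refine measure_mono_null ?_ htop
    rintro _ ⟨x, hx, rfl⟩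
    exact hx
  · rw [nuK_apply]
    apply hac
    refine measure_mono_null ?_ hgap
    rintro _ ⟨x, hx, rfl⟩
    exact hx

end Pool.Agent.Age
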