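import Pool.Agent.Helper49.Age.Defs
import Pool.Agent.Helper49.Age.NuK
import Pool.Agent.Helper49.Age.Gen

/-! The solution given by the generating function. -/

set_option autoImplicit false

namespace Pool.Agent.Age

open MeasureTheory

private theorem genK_q01 (π : Measure ℝ) [IsProbabilityMeasure π] (h0 : π (Set.Iio 0) = 0)
    (k : ℕ) (s : ℝ) (hs : 0 ≤ s) : 0 ≤ q π k s ∧ q π k s ≤ 1 := by
  refine ⟨q_nonneg π h0 k s hs, ?_⟩
  refine le_trans ?_ (q_sum_le π h0 (k + 1) s hs)
  exact Finset.single_le_sum (f := fun k => q π k s) (fun i _ => q_nonneg π h0 i s hs)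
    (Finset.self_mem_range_succ k)

private theorem genK_summ (π : Measure ℝ) [IsProbabilityMeasure π] (h0 : π (Set.Iio 0) = 0)
    (z : ℝ) (hz0 : 0 < z) (hz1 : z < 1) (s : ℝ) (hs : 0 ≤ s) :
    Summable (fun k => q π k s * z ^ k) := by
  refine Summable.of_nonneg_of_le ?_ ?_ (summable_geometric_of_lt_one hz0.le hz1)
  · intro k
    exact mul_nonneg (genK_q01 π h0 k s hs).1 (pow_nonneg hz0.le k)
  · intro k
    have h1 := (genK_q01 π h0 k s hs).2
    have h2 := pow_nonneg hz0.le k
    nlinarith

/-- `w(x) = log z + ∫ min x u U(u) dπ(u)`, `U = ∑' q_k z^k`, so that `e^w e^{-p} = U`. -/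
theorem gf_exists (R : ℝ) (π : Measure ℝ) [IsProbabilityMeasure π] (h0 : π (Set.Iio 0) = 0)
    (hR : π (Set.Ioi R) = 0) (z : ℝ) (hz0 : 0 < z) (hz1 : z < 1) :
    ∃ w : C(K R, ℝ), w = cst (Real.log z) + op kM (nuK R π) (ex w) ∧
      la (nuK R π) (ex w) = ∑' k, v π k * z ^ k := by
  have hae0 : ∀ᵐ u ∂π, 0 ≤ u := by
    filter_upwards [measure_eq_zero_iff_ae_notMem.1 h0] with u hu
    exact not_lt.1 hu
  have haeR : ∀ᵐ u ∂π, u ≤ R := by
    filter_upwards [measure_eq_zero_iff_ae_notMem.1 hR] with u hu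
    exact not_lt.1 hu
  set U : ℝ → ℝ := fun s => ∑' k, q π k s * z ^ k with hU
  have hU0 : ∀ s, 0 ≤ s → 0 ≤ U s := fun s hs =>
    tsum_nonneg fun k => mul_nonneg (genK_q01 π h0 k s hs).1 (pow_nonneg hz0.le k)
  have hU1 : ∀ s, 0 ≤ s → U s ≤ (1 - z)⁻¹ := by
    intro s hs
    rw [← tsum_geometric_of_lt_one hz0.le hz1]
    refine Summable.tsum_le_tsum ?_ (genK_summ π h0 z hz0 hz1 s hs)
      (summable_geometric_of_lt_one hz0.le hz1)
    intro k
    have h1 := (genK_q01 π h0 k s hs).2
    have h2 := pow_nonneg hz0.le k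
    nlinarith
  have hUm : AEStronglyMeasurable U π := by
    refine aestronglyMeasurable_of_tendsto_ae Filter.atTop
      (f := fun n s => ∑ k ∈ Finset.range n, q π k s * z ^ k) ?_ ?_
    · intro n
      have h1 : Measurable (fun s => ∑ k ∈ Finset.range n, q π k s * z ^ k) :=
        Finset.measurable_fun_sum _ fun k _ => (q_measurable π k).mul_const _
      exact h1.aestronglyMeasurable
    · filter_upwards [hae0] with s hs
      exact (genK_summ π h0 z hz0 hz1 s hs).hasSum.tendsto_sum_nat
  have key : ∀ s, 0 ≤ s → Real.exp (Real.log z + ∫ u, min s u * U u ∂π) *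
      Real.exp (-∫ u, min s u ∂π) = U s := by
    intro s hs
    have h1 : U s = z * Real.exp (-(∫ u, min s u ∂π) + ∫ u, min s u * U u ∂π) :=
      gen_eq π h0 z hz0 hz1 s hs
    rw [h1, Real.exp_add, Real.exp_add, Real.exp_log hz0]
    ring
  have hcont : Continuous fun x : K R => Real.log z + ∫ u, min (x : ℝ) u * U u ∂π := by
    refine continuous_const.add ?_
    refine continuous_of_dominated (bound := fun _ => R * (1 - z)⁻¹) ?_ ?_ ?_ ?_
    · intro x
      have h1 : Measurable (fun u : ℝ => min (x : ℝ) u) := measurable_const.min measurable_id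
      exact h1.aestronglyMeasurable.mul hUm
    · intro x
      filter_upwards [hae0, haeR] with u hu0 huR
      rw [norm_mul]
      have h1 : ‖min (x : ℝ) u‖ ≤ R := by
        rw [Real.norm_eq_abs, abs_of_nonneg (le_min x.2.1 hu0)]
        exact le_trans (min_le_left _ _) x.2.2
      have h2 : ‖U u‖ ≤ (1 - z)⁻¹ := by
        rw [Real.norm_eq_abs, abs_of_nonneg (hU0 u hu0)]
        exact hU1 u hu0
      exact mul_le_mul h1 h2 (norm_nonneg _) (le_trans (norm_nonneg _) h1)
    · exact integrable_const _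
    · filter_upwards with u
      fun_prop
  refine ⟨⟨fun x : K R => Real.log z + ∫ u, min (x : ℝ) u * U u ∂π, hcont⟩, ?_, ?_⟩
  · ext x
    change Real.log z + ∫ u, min (x : ℝ) u * U u ∂π = Real.log z +
      ∫ y : K R, (fun s : ℝ => min (x : ℝ) s *
        Real.exp (Real.log z + ∫ u, min s u * U u ∂π)) (y : ℝ) ∂(nuK R π)
    rw [integral_nuK R π h0 hR (fun s : ℝ => min (x : ℝ) s *
        Real.exp (Real.log z + ∫ u, min s u * U u ∂π))]
    congr 1
    refine integral_congr_ae ?_
    filter_upwards [hae0] with s hs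
    rw [mul_assoc, key s hs]
  · change ∫ y : K R, (fun s : ℝ => Real.exp (Real.log z + ∫ u, min s u * U u ∂π)) (y : ℝ)
      ∂(nuK R π) = _
    rw [integral_nuK R π h0 hR (fun s : ℝ => Real.exp (Real.log z + ∫ u, min s u * U u ∂π))]
    have h1 : ∫ s, Real.exp (Real.log z + ∫ u, min s u * U u ∂π) *
        Real.exp (-∫ u, min s u ∂π) ∂π = ∫ s, U s ∂π := by
      refine integral_congr_ae ?_
      filter_upwards [hae0] with s hs
      exact key s hs
    rw [h1, hU]
    have h2 : ∀ k, ∀ᵐ s ∂π, ‖q π k s * z ^ k‖ ≤ z ^ k := by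
      intro k
      filter_upwards [hae0] with s hs
      have h3 := genK_q01 π h0 k s hs
      have h4 := pow_nonneg hz0.le k
      rw [Real.norm_eq_abs, abs_of_nonneg (mul_nonneg h3.1 h4)]
      nlinarith [h3.2]
    have h5 : ∀ k, Integrable (fun s => q π k s * z ^ k) π := fun k =>
      Integrable.of_bound ((q_measurable π k).mul_const _).aestronglyMeasurable (z ^ k) (h2 k)
    rw [← integral_tsum_of_summable_integral_norm h5]
    · refine tsum_congr fun k => ?_
      unfold v
      rw [integral_mul_const]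
    · refine Summable.of_nonneg_of_le (fun k => integral_nonneg fun s => norm_nonneg _) ?_
        (summable_geometric_of_lt_one hz0.le hz1)
      intro k
      have h6 := integral_mono_ae (h5 k).norm (integrable_const (z ^ k)) (h2 k)
      simpa using h6

end Pool.Agent.Age
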