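import Pool.Agent.Helper49.Age.Defs2
import Pool.Agent.Helper49.Age.Pos

/-! Layer cake formula. -/

set_option autoImplicit false

namespace Pool.Agent.Age

open MeasureTheory

variable {R : ℝ} {ν μ : Measure (K R)} [IsFiniteMeasure ν] [IsFiniteMeasure μ]

theorem Layer_set (t : ℝ) : MeasurableSet {u : K R | t < (u : ℝ)} :=
  measurableSet_lt measurable_const measurable_subtype_coe

/-- right-continuity of the charge above `t` -/
theorem Layer_right (g : C(K R, ℝ)) (t : ℝ) : ContinuousWithinAt (tl μ g) (Set.Ici t) t := by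
  have e : tl μ g = fun s => ∫ u, Set.indicator {u : K R | s < (u : ℝ)} (fun u => g u) u ∂μ :=
    funext fun s => (integral_indicator (Layer_set s)).symm
  rw [e]
  unfold ContinuousWithinAt
  refine tendsto_integral_filter_of_dominated_convergence (fun _ => ‖g‖) ?_ ?_ ?_ ?_
  · exact Filter.Eventually.of_forall fun s =>
      (g.continuous.measurable.indicator (Layer_set s)).aestronglyMeasurable
  · refine Filter.Eventually.of_forall fun s => Filter.Eventually.of_forall fun u => ?_
    by_cases h : s < (u : ℝ)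
    · rw [Set.indicator_of_mem (show u ∈ {u : K R | s < (u : ℝ)} from h)]
      exact g.norm_coe_le_norm u
    · rw [Set.indicator_of_notMem (show u ∉ {u : K R | s < (u : ℝ)} from h), norm_zero]
      exact norm_nonneg _
  · exact integrable_const _
  · refine Filter.Eventually.of_forall fun u => ?_
    by_cases h : t < (u : ℝ)
    · have h1 : ∀ᶠ s in nhdsWithin t (Set.Ici t), s < (u : ℝ) :=
        (eventually_lt_nhds h).filter_mono nhdsWithin_le_nhds
      refine tendsto_const_nhds.congr' ?_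
      filter_upwards [h1] with s hs
      rw [Set.indicator_of_mem (show u ∈ {u : K R | t < (u : ℝ)} from h),
        Set.indicator_of_mem (show u ∈ {u : K R | s < (u : ℝ)} from hs)]
    · refine tendsto_const_nhds.congr' ?_
      filter_upwards [self_mem_nhdsWithin] with s hs
      rw [Set.indicator_of_notMem (show u ∉ {u : K R | t < (u : ℝ)} from h),
        Set.indicator_of_notMem (show u ∉ {u : K R | s < (u : ℝ)} from
          fun h' => h (lt_of_le_of_lt hs h'))]

omit [IsFiniteMeasure ν] in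
theorem Layer_tn (t : ℝ) : tn ν t = tl ν 1 t := by
  unfold tn tl
  have e : ∀ u : K R, (1 : C(K R, ℝ)) u = 1 := fun u => rfl
  simp_rw [e]
  rw [setIntegral_const, smul_eq_mul, mul_one]

theorem tn_anti : Antitone (tn ν) := by
  intro s t hst
  exact measureReal_mono (fun u hu => lt_of_le_of_lt hst hu)

theorem tn_nonneg (t : ℝ) : 0 ≤ tn ν t := measureReal_nonneg

/-- right-continuity -/
theorem tn_right (t : ℝ) : ContinuousWithinAt (tn ν) (Set.Ici t) t := by
  have e : tn ν = tl ν 1 := funext Layer_tn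
  rw [e]
  exact Layer_right 1 t

theorem Layer_intble (f : C(K R, ℝ)) (a b : ℝ) : IntervalIntegrable (tl μ f) volume a b := by
  rw [intervalIntegrable_iff]
  refine Measure.integrableOn_of_bounded (M := ‖f‖ * μ.real Set.univ) ?_
    (tl_meas f).aestronglyMeasurable ?_
  · rw [Set.uIoc, Real.volume_Ioc]
    exact ENNReal.ofReal_ne_top
  · exact Filter.Eventually.of_forall fun t => by
      rw [Real.norm_eq_abs]
      exact tl_abs_le f t

theorem Layer_deriv (f : C(K R, ℝ)) (t : ℝ) :
    HasDerivWithinAt (fun s => ∫ r in (0 : ℝ)..s, tl μ f r) (tl μ f t) (Set.Ioi t) t := by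
  have h1 : HasDerivWithinAt (fun s => ∫ r in (0 : ℝ)..s, tl μ f r) (tl μ f t) (Set.Ici t) t := by
    refine intervalIntegral.integral_hasDerivWithinAt_right (Layer_intble f 0 t) ?_
      ((Layer_right f t).mono Set.Ioi_subset_Ici_self)
    exact (tl_meas f).stronglyMeasurable.stronglyMeasurableAtFilter
  exact h1.mono Set.Ioi_subset_Ici_self

/-- For `f ≥ 0` there is a nonnegative function `φ'` (namely `φ' t = tl μ f t * exp (∫_0^t tl μ f)`,
the right derivative of `φ = exp (∫_0^t tl μ f)`) such that for all `ν`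
`∫ e^{op kM μ f} dν = ν(K) + ∫_0^R φ' tn ν`, and `∫_x^y φ' = φ y - φ x`; here
`φ y ≥ φ x exp ((y - x) tl μ f y)` for `x ≤ y` (`tl μ f` is antitone). -/
theorem layer (hR : 0 ≤ R) (f : C(K R, ℝ)) (hf : 0 ≤ f) :
    ∃ φ φ' : ℝ → ℝ, (∀ t, 0 ≤ φ' t) ∧ Measurable φ' ∧ (∃ C, ∀ t ∈ Set.Icc 0 R, φ' t ≤ C) ∧
      φ 0 = 1 ∧ (∀ t, 0 < φ t) ∧
      (∀ x y, 0 ≤ x → x ≤ y → y ≤ R → ∫ t in x..y, φ' t = φ y - φ x) ∧
      (∀ x y, 0 ≤ x → x ≤ y → y ≤ R → φ x * Real.exp ((y - x) * tl μ f y) ≤ φ y) ∧
      ∀ (ν : Measure (K R)) [IsFiniteMeasure ν],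
        la ν (ex (op kM μ f)) = ν.real Set.univ + ∫ t in (0 : ℝ)..R, φ' t * tn ν t := by
  obtain ⟨Φ, hΦ⟩ : ∃ Φ : ℝ → ℝ, Φ = fun s => ∫ r in (0 : ℝ)..s, tl μ f r := ⟨_, rfl⟩
  obtain ⟨φ, hφ⟩ : ∃ φ : ℝ → ℝ, φ = fun s => Real.exp (Φ s) := ⟨_, rfl⟩
  obtain ⟨φ', hφ'⟩ : ∃ φ' : ℝ → ℝ, φ' = fun s => tl μ f s * Real.exp (Φ s) := ⟨_, rfl⟩
  obtain ⟨B, hB⟩ : ∃ B : ℝ, B = ‖f‖ * μ.real Set.univ := ⟨_, rfl⟩
  have hB0 : 0 ≤ B := by rw [hB]; positivity
  have htl : ∀ t, tl μ f t ≤ B := fun t => by
    rw [hB]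
    exact (le_abs_self _).trans (tl_abs_le f t)
  have hΦc : Continuous Φ := by
    rw [hΦ]
    exact intervalIntegral.continuous_primitive (fun a b => Layer_intble f a b) 0
  have hφc : Continuous φ := by
    rw [hφ]
    exact Real.continuous_exp.comp hΦc
  have hφ'0 : ∀ t, 0 ≤ φ' t := fun t => by
    rw [hφ']
    exact mul_nonneg (tl_nonneg f hf t) (Real.exp_pos _).le
  have hφ'm : Measurable φ' := by
    rw [hφ']
    exact (tl_meas f).mul (Real.continuous_exp.comp hΦc).measurable
  have hφ'C : ∀ t ∈ Set.Icc 0 R, φ' t ≤ B * Real.exp (R * B) := by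
    intro t ht
    rw [hφ']
    refine mul_le_mul (htl t) ?_ (Real.exp_pos _).le hB0
    rw [Real.exp_le_exp, hΦ]
    have h1 : ∫ r in (0 : ℝ)..t, tl μ f r ≤ ∫ _r in (0 : ℝ)..t, B :=
      intervalIntegral.integral_mono_on ht.1 (Layer_intble f 0 t) intervalIntegrable_const
        fun r _ => htl r
    rw [intervalIntegral.integral_const, smul_eq_mul, sub_zero] at h1
    exact h1.trans (mul_le_mul_of_nonneg_right ht.2 hB0)
  have hφ'i : ∀ x y, 0 ≤ x → x ≤ y → y ≤ R → IntervalIntegrable φ' volume x y := by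
    intro x y hx hxy hy
    rw [intervalIntegrable_iff, Set.uIoc_of_le hxy]
    refine Measure.integrableOn_of_bounded (M := B * Real.exp (R * B)) ?_
      hφ'm.aestronglyMeasurable ?_
    · rw [Real.volume_Ioc]
      exact ENNReal.ofReal_ne_top
    · rw [ae_restrict_iff' measurableSet_Ioc]
      refine Filter.Eventually.of_forall fun t ht => ?_
      rw [Real.norm_eq_abs, abs_of_nonneg (hφ'0 t)]
      exact hφ'C t ⟨hx.trans ht.1.le, ht.2.trans hy⟩
  have hftc : ∀ x y, 0 ≤ x → x ≤ y → y ≤ R → ∫ t in x..y, φ' t = φ y - φ x := by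
    intro x y hx hxy hy
    refine intervalIntegral.integral_eq_sub_of_hasDeriv_right_of_le hxy hφc.continuousOn
      (fun t _ => ?_) (hφ'i x y hx hxy hy)
    have h1 := (Layer_deriv (μ := μ) f t).exp
    rw [hφ, hφ', hΦ]
    exact h1.congr_deriv (mul_comm _ _)
  refine ⟨φ, φ', hφ'0, hφ'm, ⟨_, hφ'C⟩, ?_, ?_, hftc, ?_, ?_⟩
  · rw [hφ, hΦ]
    show Real.exp (∫ r in (0 : ℝ)..0, tl μ f r) = 1
    rw [intervalIntegral.integral_same, Real.exp_zero]
  · intro t
    rw [hφ]
    exact Real.exp_pos _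
  · intro x y hx hxy hy
    rw [hφ, hΦ]
    show Real.exp (∫ r in (0 : ℝ)..x, tl μ f r) * Real.exp ((y - x) * tl μ f y) ≤
      Real.exp (∫ r in (0 : ℝ)..y, tl μ f r)
    rw [← Real.exp_add, Real.exp_le_exp]
    have h1 : ∫ _r in x..y, tl μ f y ≤ ∫ r in x..y, tl μ f r :=
      intervalIntegral.integral_mono_on hxy intervalIntegrable_const (Layer_intble f x y)
        fun r hr => tl_anti f hf hr.2
    rw [intervalIntegral.integral_const, smul_eq_mul] at h1
    have h2 := intervalIntegral.integral_add_adjacent_intervals (Layer_intble (μ := μ) f 0 x)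
      (Layer_intble f x y)
    rw [← h2]
    linarith
  · intro ν hν
    obtain ⟨ψ, hψ⟩ : ∃ ψ : ℝ → ℝ, ψ = Set.indicator (Set.Icc 0 R) φ' := ⟨_, rfl⟩
    have hψm : Measurable ψ := by
      rw [hψ]
      exact hφ'm.indicator measurableSet_Icc
    have hψb : ∀ t, ‖ψ t‖ ≤ B * Real.exp (R * B) := by
      intro t
      rw [hψ]
      by_cases ht : t ∈ Set.Icc 0 R
      · rw [Set.indicator_of_mem ht, Real.norm_eq_abs, abs_of_nonneg (hφ'0 t)]
        exact hφ'C t ht
      · rw [Set.indicator_of_notMem ht, norm_zero]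
        positivity
    have hφx : ∀ x : K R, ex (op kM μ f) x = 1 + ∫ t in (0 : ℝ)..x, φ' t := by
      intro x
      rw [ex_apply, op_eq, hftc 0 x le_rfl x.2.1 x.2.2]
      have h0 : φ 0 = 1 := by
        rw [hφ, hΦ]
        show Real.exp (∫ r in (0 : ℝ)..0, tl μ f r) = 1
        rw [intervalIntegral.integral_same, Real.exp_zero]
      rw [h0, hφ, hΦ]
      ring
    obtain ⟨F, hF⟩ : ∃ F : K R → ℝ → ℝ, F = fun (x : K R) (t : ℝ) =>
      if t < (x : ℝ) then ψ t else 0 := ⟨_, rfl⟩
    have hFx : ∀ x : K R, ∫ t in (0 : ℝ)..x, φ' t = ∫ t in Set.Ioc 0 R, F x t := by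
      intro x
      rw [intervalIntegral.integral_of_le x.2.1, integral_Ioc_eq_integral_Ioo, hF, hψ]
      have h1 : (fun t => if t < (x : ℝ) then Set.indicator (Set.Icc 0 R) φ' t else 0) =
          Set.indicator (Set.Iio (x : ℝ)) (Set.indicator (Set.Icc 0 R) φ') := by
        funext t
        by_cases ht : t < (x : ℝ)
        · rw [if_pos ht, Set.indicator_of_mem (show t ∈ Set.Iio (x : ℝ) from ht)]
        · rw [if_neg ht, Set.indicator_of_notMem (show t ∉ Set.Iio (x : ℝ) from ht)]
      show _ = ∫ t in Set.Ioc 0 R, (fun t => if t < (x : ℝ) then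
        Set.indicator (Set.Icc 0 R) φ' t else 0) t
      rw [h1, setIntegral_indicator measurableSet_Iio, setIntegral_indicator measurableSet_Icc]
      congr 2
      ext t
      constructor
      · intro ht
        exact ⟨⟨⟨ht.1, ht.2.le.trans x.2.2⟩, ht.2⟩, ht.1.le, ht.2.le.trans x.2.2⟩
      · intro ht
        exact ⟨ht.1.1.1, ht.1.2⟩
    have hFm : Measurable (Function.uncurry F) := by
      rw [hF]
      refine Measurable.ite ?_ (hψm.comp measurable_snd) measurable_const
      exact measurableSet_lt measurable_snd (measurable_subtype_coe.comp measurable_fst)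
    have hFi : Integrable (Function.uncurry F) (ν.prod (volume.restrict (Set.Ioc 0 R))) := by
      refine Integrable.of_bound hFm.aestronglyMeasurable (B * Real.exp (R * B)) ?_
      refine Filter.Eventually.of_forall fun p => ?_
      rw [hF]
      show ‖if p.2 < (p.1 : ℝ) then ψ p.2 else 0‖ ≤ _
      by_cases hp : p.2 < (p.1 : ℝ)
      · rw [if_pos hp]
        exact hψb _
      · rw [if_neg hp, norm_zero]
        positivity
    rw [la_apply]
    simp_rw [hφx, hFx]
    have hi : Integrable (fun u => ∫ t in Set.Ioc 0 R, F u t) ν := hFi.integral_prod_left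
    rw [integral_add (integrable_const _) hi, integral_const, smul_eq_mul,
      mul_one, integral_integral_swap hFi]
    congr 1
    rw [intervalIntegral.integral_of_le hR]
    refine setIntegral_congr_fun measurableSet_Ioc fun t ht => ?_
    show ∫ x, F x t ∂ν = φ' t * tn ν t
    have h2 : ∀ x : K R, F x t = Set.indicator {u : K R | t < (u : ℝ)} (fun _ => φ' t) x := by
      intro x
      rw [hF, hψ]
      show (if t < (x : ℝ) then Set.indicator (Set.Icc 0 R) φ' t else 0) = _
      rw [Set.indicator_of_mem (show t ∈ Set.Icc 0 R from ⟨ht.1.le, ht.2⟩)]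
      by_cases hx : t < (x : ℝ)
      · rw [if_pos hx, Set.indicator_of_mem (show x ∈ {u : K R | t < (u : ℝ)} from hx)]
      · rw [if_neg hx, Set.indicator_of_notMem (show x ∉ {u : K R | t < (u : ℝ)} from hx)]
    simp_rw [h2]
    rw [integral_indicator (Layer_set t), setIntegral_const, smul_eq_mul, mul_comm]
    rfl

end Pool.Agent.Age
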