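import Pool.Agent.Helper49.Age.Defs2

/-! Primitives of real analytic functions. -/

set_option autoImplicit false

namespace Pool.Agent.Age

open MeasureTheory

/-- the primitive of an analytic function is analytic (integrate the power series) -/
theorem exists_prim {f : ℝ → ℝ} {x : ℝ} (hf : AnalyticAt ℝ f x) :
    ∃ F : ℝ → ℝ, AnalyticAt ℝ F x ∧ ∀ᶠ t in nhds x, HasDerivAt F (f t) t := by
  obtain ⟨p, r, hp⟩ := hf
  set q : FormalMultilinearSeries ℝ ℝ ℝ :=
    FormalMultilinearSeries.ofScalars ℝ (fun n : ℕ => p.coeff (n - 1) / n) with hqd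
  have hc : ∀ n, q.coeff n = p.coeff (n - 1) / n := fun n => by
    rw [hqd, FormalMultilinearSeries.coeff_ofScalars]
  have hrad : p.radius ≤ q.radius := by
    refine ENNReal.le_of_forall_nnreal_lt fun s hs => ?_
    obtain ⟨C, hC, hb⟩ := p.norm_mul_pow_le_of_lt_radius hs
    refine q.le_radius_of_bound (C * s + C) fun n => ?_
    rw [FormalMultilinearSeries.norm_apply_eq_norm_coef, hc]
    cases n with
    | zero =>
      simp only [Nat.cast_zero, div_zero, norm_zero, zero_mul]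
      positivity
    | succ n =>
      have h1 := hb n
      rw [FormalMultilinearSeries.norm_apply_eq_norm_coef] at h1
      rw [Nat.add_sub_cancel, norm_div, pow_succ]
      have h2 : ‖((n + 1 : ℕ) : ℝ)‖ = (n : ℝ) + 1 := by
        rw [Real.norm_of_nonneg (by positivity)]
        push_cast
        ring
      rw [h2]
      have h3 : ‖p.coeff n‖ / ((n : ℝ) + 1) ≤ ‖p.coeff n‖ :=
        div_le_self (norm_nonneg _) (by linarith [(Nat.cast_nonneg n : (0 : ℝ) ≤ n)])
      have hs0 : (0 : ℝ) ≤ s := s.coe_nonneg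
      calc ‖p.coeff n‖ / ((n : ℝ) + 1) * ((s : ℝ) ^ n * s)
          ≤ ‖p.coeff n‖ * ((s : ℝ) ^ n * s) := by gcongr
        _ = (‖p.coeff n‖ * (s : ℝ) ^ n) * s := by ring
        _ ≤ C * s := by gcongr
        _ ≤ C * s + C := by linarith
  have hr0 : r ≤ q.radius := hp.r_le.trans hrad
  have hq0 : 0 < q.radius := hp.r_pos.trans_le hr0
  have hball := q.hasFPowerSeriesOnBall hq0
  have key : ∀ y : ℝ, ‖y‖ₑ < r → HasDerivAt q.sum (f (x + y)) y := by
    intro y hy
    have hyq : ‖y‖ₑ < q.radius := hy.trans_le hr0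
    have hmem : y ∈ Metric.eball (0 : ℝ) r := by simpa using hy
    have hmemq : y ∈ Metric.eball (0 : ℝ) q.radius := by simpa using hyq
    have h1 := hball.fderiv.hasSum hmemq
    rw [zero_add] at h1
    have h2 := (ContinuousLinearMap.apply ℝ ℝ (1 : ℝ)).hasSum h1
    have h3 := hp.hasSum hmem
    have h4 : ∀ n : ℕ, (ContinuousLinearMap.apply ℝ ℝ (1 : ℝ)) (q.derivSeries n fun _ => y) =
        p n fun _ => y := by
      intro n
      rw [FormalMultilinearSeries.apply_eq_pow_smul_coeff,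
        FormalMultilinearSeries.apply_eq_pow_smul_coeff, map_smul, ContinuousLinearMap.apply_apply,
        FormalMultilinearSeries.derivSeries_coeff_one, hc, Nat.add_sub_cancel, nsmul_eq_mul]
      push_cast
      have : (n : ℝ) + 1 ≠ 0 := by positivity
      field_simp
    have h5 : fderiv ℝ q.sum y 1 = f (x + y) := by
      have h6 : HasSum (fun n => p n fun _ => y) (fderiv ℝ q.sum y 1) := by
        have h7 : (fun n => p n fun _ => y) =
            (fun n => (ContinuousLinearMap.apply ℝ ℝ (1 : ℝ)) (q.derivSeries n fun _ => y)) :=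
          funext fun n => (h4 n).symm
        rw [h7]
        exact h2
      exact h6.unique h3
    have h7 : HasFDerivAt q.sum (fderiv ℝ q.sum y) y := by
      have := q.hasFDerivAt_sum hyq
      exact this.differentiableAt.hasFDerivAt
    have h8 := h7.hasDerivAt
    rwa [h5] at h8
  refine ⟨fun t => q.sum (t - x), ?_, ?_⟩
  · have h1 : AnalyticAt ℝ q.sum 0 := hball.analyticAt
    have h2 : AnalyticAt ℝ (fun t : ℝ => t - x) x := analyticAt_id.sub analyticAt_const
    exact AnalyticAt.comp_of_eq h1 h2 (sub_self x)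
  · have h1 : ∀ᶠ t in nhds x, ‖t - x‖ₑ < r := by
      have h2 : Filter.Tendsto (fun t : ℝ => ‖t - x‖ₑ) (nhds x) (nhds 0) := by
        have h3 : Continuous fun t : ℝ => ‖t - x‖ₑ := by fun_prop
        have h4 := h3.tendsto x
        simpa using h4
      exact h2.eventually (gt_mem_nhds hp.r_pos)
    filter_upwards [h1] with t ht
    have h2 := key (t - x) ht
    rw [add_sub_cancel] at h2
    have h3 : HasDerivAt (fun t : ℝ => t - x) 1 t := (hasDerivAt_id t).sub_const x
    have h4 := HasDerivAt.comp t h2 h3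
    rw [mul_one] at h4
    exact h4

/-- If `F` is locally integrable, and agrees with an analytic function on the left of `x`, then so does
`t ↦ ∫_0^t F`: it is `∫_0^x F - ∫_t^x f`. -/
theorem leftAnalytic_prim {F : ℝ → ℝ} (hF : LeftAnalytic F)
    (hi : ∀ a b : ℝ, IntervalIntegrable F volume a b) : LeftAnalytic (fun t => ∫ s in (0 : ℝ)..t, F s) := by
  intro x hx
  obtain ⟨f, hf, hFf⟩ := hF x hx
  obtain ⟨G, hG, hGd⟩ := exists_prim hf
  refine ⟨fun t => (∫ s in (0 : ℝ)..x, F s) + G t - G x, (analyticAt_const.add hG).sub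
    analyticAt_const, ?_⟩
  -- intervals where both hold
  obtain ⟨δ1, hδ1, h1⟩ := (mem_nhdsLT_iff_exists_Ioo_subset' (show x - 1 < x by linarith)).mp hFf
  obtain ⟨δ2, hδ2, h2⟩ := Metric.eventually_nhds_iff.mp hGd
  have hmem : Set.Ioo (max δ1 (x - δ2)) x ∈ nhdsWithin x (Set.Iio x) := by
    refine Ioo_mem_nhdsLT ?_
    rw [max_lt_iff]
    exact ⟨hδ1, by linarith⟩
  filter_upwards [hmem] with t ht
  obtain ⟨ht1, ht2⟩ := ht
  rw [max_lt_iff] at ht1
  have h3 : ∫ s in t..x, F s = ∫ s in t..x, f s := by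
    refine intervalIntegral.integral_congr_ae ?_
    have hx0 : ∀ᵐ s : ℝ, s ≠ x := by
      rw [ae_iff]
      simp
    filter_upwards [hx0] with s hs hs2
    rw [Set.uIoc_of_le ht2.le] at hs2
    exact h1 ⟨ht1.1.trans hs2.1, lt_of_le_of_ne hs2.2 hs⟩
  have hae : ∀ᵐ s ∂(volume.restrict (Set.uIoc t x)), F s = f s := by
    rw [ae_restrict_iff' measurableSet_uIoc]
    have hx0 : ∀ᵐ s : ℝ, s ≠ x := by
      rw [ae_iff]
      simp
    filter_upwards [hx0] with s hs hs2
    rw [Set.uIoc_of_le ht2.le] at hs2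
    exact h1 ⟨ht1.1.trans hs2.1, lt_of_le_of_ne hs2.2 hs⟩
  have hfi : IntervalIntegrable f volume t x := (hi t x).congr_ae hae
  have h4 : ∫ s in t..x, f s = G x - G t := by
    refine intervalIntegral.integral_eq_sub_of_hasDerivAt (fun s hs => ?_) hfi
    rw [Set.uIcc_of_le ht2.le] at hs
    refine h2 ?_
    rw [Real.dist_eq, abs_lt]
    constructor
    · linarith [hs.1, ht1.2]
    · linarith [hs.2]
  have h5 := intervalIntegral.integral_add_adjacent_intervals (hi 0 t) (hi t x)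
  show ∫ s in (0 : ℝ)..t, F s = (∫ s in (0 : ℝ)..x, F s) + G t - G x
  rw [← h5, h3, h4]
  ring

theorem leftAnalytic_mul {F G : ℝ → ℝ} (hF : LeftAnalytic F) (hG : LeftAnalytic G) :
    LeftAnalytic (fun t => F t * G t) := by
  intro x hx
  obtain ⟨f, hf, h1⟩ := hF x hx
  obtain ⟨g, hg, h2⟩ := hG x hx
  refine ⟨fun t => f t * g t, hf.mul hg, ?_⟩
  filter_upwards [h1, h2] with t e1 e2
  rw [e1, e2]

theorem leftAnalytic_sub {F G : ℝ → ℝ} (hF : LeftAnalytic F) (hG : LeftAnalytic G) :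
    LeftAnalytic (fun t => F t - G t) := by
  intro x hx
  obtain ⟨f, hf, h1⟩ := hF x hx
  obtain ⟨g, hg, h2⟩ := hG x hx
  refine ⟨fun t => f t - g t, hf.sub hg, ?_⟩
  filter_upwards [h1, h2] with t e1 e2
  rw [e1, e2]

theorem leftAnalytic_exp_neg {F : ℝ → ℝ} (hF : LeftAnalytic F) :
    LeftAnalytic (fun t => Real.exp (-F t)) := by
  intro x hx
  obtain ⟨f, hf, h1⟩ := hF x hx
  refine ⟨fun t => Real.exp (-f t), hf.neg.rexp, ?_⟩
  filter_upwards [h1] with t e1
  rw [e1]

/-- A left analytic function is zero, positive or negative on some interval `(x - ε, x)`. -/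
theorem leftAnalytic_sign {F : ℝ → ℝ} (hF : LeftAnalytic F) {x : ℝ} (hx : 0 < x) :
    ∃ ε > 0, (∀ t, x - ε < t → t < x → 0 ≤ F t) ∨ (∀ t, x - ε < t → t < x → F t ≤ 0) := by
  obtain ⟨f, hf, h1⟩ := hF x hx
  have hint : ∀ {P : ℝ → Prop}, (∀ᶠ t in nhdsWithin x (Set.Iio x), P t) →
      ∃ ε > 0, ∀ t, x - ε < t → t < x → P t := by
    intro P hP
    obtain ⟨l, hl, h2⟩ := (mem_nhdsLT_iff_exists_Ioo_subset' (show x - 1 < x by linarith)).mp hP
    have hl' : l < x := hl
    exact ⟨x - l, by linarith, fun t ht1 ht2 => h2 ⟨by linarith, ht2⟩⟩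
  by_cases h0 : ∀ᶠ z in nhds x, f z = 0
  · obtain ⟨ε, hε, h2⟩ := hint (h1.and (nhdsWithin_le_nhds h0))
    refine ⟨ε, hε, Or.inl fun t ht1 ht2 => ?_⟩
    obtain ⟨e1, e2⟩ := h2 t ht1 ht2
    rw [e1, e2]
  · obtain ⟨n, g, hg, hg0, hfg⟩ := hf.exists_eventuallyEq_pow_smul_nonzero_iff.mpr h0
    have hgc : ContinuousAt (fun z => (-1 : ℝ) ^ n * g z) x := (hg.continuousAt).const_mul _
    have hne : (-1 : ℝ) ^ n * g x ≠ 0 := mul_ne_zero (pow_ne_zero _ (by norm_num)) hg0
    have hval : ∀ t, t < x → F t = f t → f t = (t - x) ^ n • g t →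
        F t = (x - t) ^ n * ((-1 : ℝ) ^ n * g t) := by
      intro t _ e1 e2
      rw [e1, e2, smul_eq_mul, ← mul_assoc, ← mul_pow]
      congr 2
      ring
    rcases lt_or_gt_of_ne hne with hneg | hpos
    · obtain ⟨ε, hε, h2⟩ := hint ((h1.and (nhdsWithin_le_nhds hfg)).and
        (nhdsWithin_le_nhds (hgc.eventually (gt_mem_nhds hneg))))
      refine ⟨ε, hε, Or.inr fun t ht1 ht2 => ?_⟩
      obtain ⟨⟨e1, e2⟩, e3⟩ := h2 t ht1 ht2
      rw [hval t ht2 e1 e2]
      exact mul_nonpos_of_nonneg_of_nonpos (pow_nonneg (by linarith) n) e3.le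
    · obtain ⟨ε, hε, h2⟩ := hint ((h1.and (nhdsWithin_le_nhds hfg)).and
        (nhdsWithin_le_nhds (hgc.eventually (lt_mem_nhds hpos))))
      refine ⟨ε, hε, Or.inl fun t ht1 ht2 => ?_⟩
      obtain ⟨⟨e1, e2⟩, e3⟩ := h2 t ht1 ht2
      rw [hval t ht2 e1 e2]
      exact mul_nonneg (pow_nonneg (by linarith) n) e3.le

end Pool.Agent.Age
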