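import Pool.Agent.Helper49.Age.Defs2
import Pool.Agent.Helper49.Age.NuK
import Pool.Agent.Helper49.Age.Prim

/-! The function `N π`. -/

set_option autoImplicit false

namespace Pool.Agent.Age

open MeasureTheory

variable (π : Measure ℝ) [IsProbabilityMeasure π]

omit [IsProbabilityMeasure π] in
theorem nTail_ae (h0 : π (Set.Iio 0) = 0) : ∀ᵐ u ∂π, (0 : ℝ) ≤ u := by
  rw [ae_iff]
  convert h0 using 2
  ext u
  simp

omit [IsProbabilityMeasure π] in
theorem nTail_aeR {R : ℝ} (hRπ : π (Set.Ioi R) = 0) : ∀ᵐ u ∂π, u ≤ R := by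
  rw [ae_iff]
  convert hRπ using 2
  ext u
  simp

theorem nTail_anti : Antitone fun t => π.real (Set.Ioi t) := fun _ _ h =>
  measureReal_mono (Set.Ioi_subset_Ioi h)

theorem nTail_meas : Measurable fun t => π.real (Set.Ioi t) := (nTail_anti π).measurable

theorem nTail_le_one (t : ℝ) : π.real (Set.Ioi t) ≤ 1 := by
  have := measureReal_mono (μ := π) (Set.subset_univ (Set.Ioi t))
  simpa using this

theorem nTail_int (a b : ℝ) : IntervalIntegrable (fun t => π.real (Set.Ioi t)) volume a b :=
  (nTail_anti π).intervalIntegrable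

theorem nTail_rc (s : ℝ) : ContinuousWithinAt (fun t => π.real (Set.Ioi t)) (Set.Ioi s) s := by
  have h : (fun t => π.real (Set.Ioi t)) = fun t => 1 - ProbabilityTheory.cdf π t := by
    funext t
    rw [ProbabilityTheory.cdf_eq_real, ← probReal_compl_eq_one_sub measurableSet_Iic,
      Set.compl_Iic]
  rw [h]
  exact continuousWithinAt_const.sub
    (((ProbabilityTheory.cdf π).right_continuous s).mono Set.Ioi_subset_Ici_self)

/-- `p(t) = ∫ min t u dπ(u) = ∫_0^t π(s,∞) ds` for `t ≥ 0` -/
theorem p_eq (h0 : π (Set.Iio 0) = 0) (t : ℝ) (ht : 0 ≤ t) :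
    ∫ u, min t u ∂π = ∫ s in (0 : ℝ)..t, π.real (Set.Ioi s) := by
  have hae := nTail_ae π h0
  have hnn : 0 ≤ᵐ[π] fun u => min t u := by
    filter_upwards [hae] with u hu
    exact le_min ht hu
  have hi : Integrable (fun u : ℝ => min t u) π := by
    refine Integrable.of_bound (C := t)
      (measurable_const.min measurable_id).aestronglyMeasurable ?_
    filter_upwards [hae] with u hu
    rw [Real.norm_eq_abs, abs_of_nonneg (le_min ht hu)]
    exact min_le_left _ _
  rw [hi.integral_eq_integral_meas_lt hnn, intervalIntegral.integral_of_le ht,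
    integral_Ioc_eq_integral_Ioo]
  have hfun : ∀ s : ℝ, π.real {a : ℝ | s < min t a} =
      (Set.Iio t).indicator (fun s => π.real (Set.Ioi s)) s := by
    intro s
    by_cases hs : s < t
    · rw [Set.indicator_of_mem (show s ∈ Set.Iio t from hs)]
      congr 1
      ext a
      simp [lt_min_iff, hs]
    · rw [Set.indicator_of_notMem (show s ∉ Set.Iio t from hs)]
      have : {a : ℝ | s < min t a} = ∅ := by
        ext a
        simp [lt_min_iff, hs]
      rw [this]
      simp
  simp_rw [hfun]
  rw [setIntegral_indicator measurableSet_Iio, Set.Ioi_inter_Iio]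

/-- the primitive `p` -/
noncomputable def nTail_p (t : ℝ) : ℝ := ∫ s in (0 : ℝ)..t, π.real (Set.Ioi s)

theorem nTail_p_cont : Continuous (nTail_p π) :=
  intervalIntegral.continuous_primitive (fun a b => nTail_int π a b) 0

omit [IsProbabilityMeasure π] in
theorem nTail_p_nonneg {t : ℝ} (ht : 0 ≤ t) : 0 ≤ nTail_p π t :=
  intervalIntegral.integral_nonneg ht fun _ _ => measureReal_nonneg

theorem nTail_ftc {a b : ℝ} (hab : a ≤ b) :
    ∫ s in a..b, π.real (Set.Ioi s) * Real.exp (-nTail_p π s) =
      Real.exp (-nTail_p π a) - Real.exp (-nTail_p π b) := by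
  have hc : Continuous fun s => Real.exp (-nTail_p π s) := by
    have := nTail_p_cont π
    fun_prop
  have h := intervalIntegral.integral_eq_sub_of_hasDeriv_right_of_le
    (f := fun s => Real.exp (-nTail_p π s))
    (f' := fun s => Real.exp (-nTail_p π s) * -π.real (Set.Ioi s)) hab hc.continuousOn
    (fun x _ => by
      have hd : HasDerivWithinAt (nTail_p π) (π.real (Set.Ioi x)) (Set.Ioi x) x :=
        (intervalIntegral.integral_hasDerivWithinAt_right (s := Set.Ici x) (t := Set.Ioi x)
          (nTail_int π 0 x)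
          ((nTail_meas π).stronglyMeasurable.stronglyMeasurableAtFilter)
          (nTail_rc π x)).mono Set.Ioi_subset_Ici_self
      exact hd.neg.exp)
    (((nTail_int π a b).neg).continuousOn_mul hc.continuousOn)
  have h2 : (fun s => π.real (Set.Ioi s) * Real.exp (-nTail_p π s)) =
      fun s => -(Real.exp (-nTail_p π s) * -π.real (Set.Ioi s)) := by
    funext s
    ring
  rw [h2, intervalIntegral.integral_neg, h]
  ring

theorem nTail_pe (h0 : π (Set.Iio 0) = 0) {t : ℝ} (ht : 0 ≤ t) :
    ∫ u, min t u ∂π = nTail_p π t := p_eq π h0 t ht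

/-- integration by parts: `e^{-p(u)} = e^{-p(t)} - ∫_t^u y e^{-p}`, `y s = π(s,∞)`, `0 ≤ t ≤ u`, and
Fubini -/
theorem N_eq (h0 : π (Set.Iio 0) = 0) {R : ℝ} (hR : 0 ≤ R) (hRπ : π (Set.Ioi R) = 0) (t : ℝ)
    (ht : 0 ≤ t) (htR : t ≤ R) :
    N π t = Real.exp (-∫ u, min t u ∂π) * π.real (Set.Ioi t) -
      ∫ s in t..R, π.real (Set.Ioi s) ^ 2 * Real.exp (-∫ u, min s u ∂π) := by
  set F : ℝ → ℝ := fun s => π.real (Set.Ioi s) * Real.exp (-nTail_p π s) with hF
  have hFm : Measurable F := (nTail_meas π).mul (by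
    have := nTail_p_cont π
    exact (by fun_prop : Continuous fun s => Real.exp (-nTail_p π s)).measurable)
  have haeR := nTail_aeR π hRπ
  -- the inner integral
  have hin : ∀ u ∈ Set.Ioi t, u ≤ R → Real.exp (-∫ y, min u y ∂π) =
      Real.exp (-nTail_p π t) -
        ∫ s in Set.Ioc t R, (Set.Iio u).indicator F s := by
    intro u hu huR
    have hu' : t ≤ u := le_of_lt hu
    rw [nTail_pe π h0 (ht.trans hu')]
    have h1 := nTail_ftc π hu'
    have h2 : ∫ s in Set.Ioc t R, (Set.Iio u).indicator F s = ∫ s in t..u, F s := by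
      rw [setIntegral_indicator measurableSet_Iio, intervalIntegral.integral_of_le hu',
        integral_Ioc_eq_integral_Ioo]
      congr 2
      ext s
      simp only [Set.mem_inter_iff, Set.mem_Ioc, Set.mem_Iio, Set.mem_Ioo]
      constructor
      · rintro ⟨⟨h1, _⟩, h3⟩
        exact ⟨h1, h3⟩
      · rintro ⟨h1, h3⟩
        exact ⟨⟨h1, h3.le.trans huR⟩, h3⟩
    rw [h2]
    have h3 : ∫ s in t..u, F s = Real.exp (-nTail_p π t) - Real.exp (-nTail_p π u) := h1
    rw [h3]
    ring
  have hb : ∀ s ∈ Set.Ioc t R, ‖F s‖ ≤ 1 := by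
    intro s hs
    have hs0 : 0 ≤ s := ht.trans hs.1.le
    rw [Real.norm_eq_abs, abs_of_nonneg (mul_nonneg measureReal_nonneg (Real.exp_nonneg _))]
    exact mul_le_one₀ (nTail_le_one π s) (Real.exp_nonneg _)
      (Real.exp_le_one_iff.mpr (neg_nonpos.mpr (nTail_p_nonneg π hs0)))
  have hI : Integrable (Function.uncurry fun (u s : ℝ) => (Set.Iio u).indicator F s)
      ((π.restrict (Set.Ioi t)).prod (volume.restrict (Set.Ioc t R))) := by
    have hm : Measurable (Function.uncurry fun (u s : ℝ) => (Set.Iio u).indicator F s) := by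
      have : (Function.uncurry fun (u s : ℝ) => (Set.Iio u).indicator F s) =
          ({p : ℝ × ℝ | p.2 < p.1}).indicator fun p => F p.2 := by
        funext ⟨u, s⟩
        by_cases h : s < u
        · simp [Function.uncurry, Set.indicator, h]
        · simp [Function.uncurry, Set.indicator, h]
      rw [this]
      exact (hFm.comp measurable_snd).indicator (measurableSet_lt measurable_snd measurable_fst)
    refine Integrable.of_bound (C := 1) hm.aestronglyMeasurable ?_
    have h2 : ∀ᵐ p ∂((π.restrict (Set.Ioi t)).prod (volume.restrict (Set.Ioc t R))),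
        p.2 ∈ Set.Ioc t R := by
      have h3 : ∀ᵐ s ∂(volume.restrict (Set.Ioc t R)), s ∈ Set.Ioc t R :=
        ae_restrict_mem measurableSet_Ioc
      exact Measure.quasiMeasurePreserving_snd.ae h3
    filter_upwards [h2] with p hp
    change ‖(Set.Iio p.1).indicator F p.2‖ ≤ 1
    by_cases h : p.2 < p.1
    · rw [Set.indicator_of_mem (show p.2 ∈ Set.Iio p.1 from h)]
      exact hb _ hp
    · rw [Set.indicator_of_notMem (show p.2 ∉ Set.Iio p.1 from h)]
      simp
  have hsw := integral_integral_swap hI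
  have hN : N π t = ∫ u in Set.Ioi t, (Real.exp (-nTail_p π t) -
        ∫ s in Set.Ioc t R, (Set.Iio u).indicator F s) ∂π := by
    unfold N
    refine setIntegral_congr_ae measurableSet_Ioi ?_
    filter_upwards [haeR] with u huR hu
    exact hin u hu huR
  have hI2 : Integrable (fun u : ℝ => ∫ s in Set.Ioc t R, (Set.Iio u).indicator F s)
      (π.restrict (Set.Ioi t)) := hI.integral_prod_left
  rw [hN, integral_sub (integrable_const _) hI2, hsw, nTail_pe π h0 ht]
  congr 1
  · rw [integral_const, smul_eq_mul, mul_comm]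
    congr 1
    simp
  · rw [intervalIntegral.integral_of_le htR]
    refine setIntegral_congr_fun measurableSet_Ioc fun s hs => ?_
    have hs0 : 0 ≤ s := ht.trans hs.1.le
    change ∫ u in Set.Ioi t, (Set.Iio u).indicator F s ∂π = _
    have h1 : (fun u => (Set.Iio u).indicator F s) = (Set.Ioi s).indicator fun _ => F s := by
      funext u
      by_cases h : s < u
      · simp [Set.indicator, h]
      · simp [Set.indicator, h]
    rw [h1, setIntegral_indicator measurableSet_Ioi, setIntegral_const]
    have h2 : Set.Ioi t ∩ Set.Ioi s = Set.Ioi s := by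
      rw [Set.inter_eq_right]
      exact Set.Ioi_subset_Ioi hs.1.le
    rw [h2, nTail_pe π h0 hs0, hF, smul_eq_mul]
    ring

/-- from `p_eq`, `N_eq` and Prim (only the values at positive `t` near `x` matter; above `R` the
function is `0`) -/
theorem N_leftAnalytic (h0 : π (Set.Iio 0) = 0) {R : ℝ} (hR : 0 ≤ R) (hRπ : π (Set.Ioi R) = 0)
    (hA : LeftAnalytic (fun t => π.real (Set.Ioi t))) : LeftAnalytic (N π) := by
  have hpA : LeftAnalytic (nTail_p π) := leftAnalytic_prim hA (nTail_int π)
  have heA : LeftAnalytic fun t => Real.exp (-nTail_p π t) := leftAnalytic_exp_neg hpA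
  set G : ℝ → ℝ := fun s => π.real (Set.Ioi s) * (π.real (Set.Ioi s) * Real.exp (-nTail_p π s))
    with hG
  have hGA : LeftAnalytic G := leftAnalytic_mul hA (leftAnalytic_mul hA heA)
  have hGi : ∀ a b : ℝ, IntervalIntegrable G volume a b := by
    intro a b
    have hc : Continuous fun s => Real.exp (-nTail_p π s) := by
      have := nTail_p_cont π
      fun_prop
    have h1 : IntervalIntegrable (fun s => π.real (Set.Ioi s) * Real.exp (-nTail_p π s))
        volume a b := (nTail_int π a b).mul_continuousOn hc.continuousOn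
    refine (h1.norm).mono_fun ?_ ?_
    · exact ((nTail_meas π).mul ((nTail_meas π).mul hc.measurable)).aestronglyMeasurable
    · refine Filter.Eventually.of_forall fun s => ?_
      rw [hG]
      simp only [norm_mul, norm_norm]
      have : ‖π.real (Set.Ioi s)‖ ≤ 1 := by
        rw [Real.norm_eq_abs, abs_of_nonneg measureReal_nonneg]
        exact nTail_le_one π s
      exact mul_le_of_le_one_left (by positivity) this
  have hIA : LeftAnalytic fun t => ∫ s in (0 : ℝ)..t, G s := leftAnalytic_prim hGA hGi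
  have hcA : LeftAnalytic fun _ => ∫ s in (0 : ℝ)..R, G s := fun x _ =>
    ⟨fun _ => ∫ s in (0 : ℝ)..R, G s, analyticAt_const, Filter.Eventually.of_forall fun _ => rfl⟩
  have hT := leftAnalytic_sub (leftAnalytic_mul heA hA) (leftAnalytic_sub hcA hIA)
  intro x hx
  by_cases hxR : x ≤ R
  · obtain ⟨f, hf, hfe⟩ := hT x hx
    refine ⟨f, hf, ?_⟩
    have hpos : ∀ᶠ t in nhdsWithin x (Set.Iio x), 0 < t :=
      nhdsWithin_le_nhds (lt_mem_nhds hx)
    have hlt : ∀ᶠ t in nhdsWithin x (Set.Iio x), t < x := self_mem_nhdsWithin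
    filter_upwards [hfe, hpos, hlt] with t h1 h2 h3
    rw [← h1]
    have htR : t ≤ R := h3.le.trans hxR
    rw [N_eq π h0 hR hRπ t h2.le htR, nTail_pe π h0 h2.le]
    congr 1
    have h4 : ∫ s in t..R, π.real (Set.Ioi s) ^ 2 * Real.exp (-∫ u, min s u ∂π) =
        ∫ s in t..R, G s := by
      refine intervalIntegral.integral_congr fun s hs => ?_
      rw [Set.uIcc_of_le htR] at hs
      simp only [hG]
      rw [nTail_pe π h0 (h2.le.trans hs.1)]
      ring
    rw [h4, eq_sub_iff_add_eq, add_comm]
    exact intervalIntegral.integral_add_adjacent_intervals (hGi 0 t) (hGi t R)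
  · push Not at hxR
    refine ⟨fun _ => 0, analyticAt_const, ?_⟩
    have hgt : ∀ᶠ t in nhdsWithin x (Set.Iio x), R < t :=
      nhdsWithin_le_nhds (lt_mem_nhds hxR)
    filter_upwards [hgt] with t ht
    unfold N
    have : π.restrict (Set.Ioi t) = 0 := by
      rw [Measure.restrict_eq_zero]
      exact measure_mono_null (Set.Ioi_subset_Ioi ht.le) hRπ
    rw [this, integral_zero_measure]

/-- from the definition of `nuK` -/
theorem tn_nuK (h0 : π (Set.Iio 0) = 0) {R : ℝ} (hR : 0 ≤ R) (hRπ : π (Set.Ioi R) = 0) (t : ℝ)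
    (ht : 0 ≤ t) : tn (nuK R π) t = N π t := by
  have h := integral_nuK R π h0 hRπ ((Set.Ioi t).indicator fun _ => (1 : ℝ))
  have h1 : ∫ x : K R, (Set.Ioi t).indicator (fun _ => (1 : ℝ)) (x : ℝ) ∂(nuK R π) =
      tn (nuK R π) t := by
    have h2 : (fun x : K R => (Set.Ioi t).indicator (fun _ => (1 : ℝ)) (x : ℝ)) =
        ({u : K R | t < (u : ℝ)}).indicator fun _ => (1 : ℝ) := by
      funext x
      by_cases hx : t < (x : ℝ)
      · simp [Set.indicator, hx]
      · simp [Set.indicator, hx]
    rw [h2, integral_indicator (measurableSet_lt measurable_const measurable_subtype_coe),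
      setIntegral_const]
    simp [tn]
  have h3 : ∫ s, (Set.Ioi t).indicator (fun _ => (1 : ℝ)) s * Real.exp (-∫ u, min s u ∂π) ∂π =
      N π t := by
    unfold N
    rw [← integral_indicator measurableSet_Ioi]
    congr 1
    funext s
    by_cases hs : t < s
    · simp [Set.indicator, hs]
    · simp [Set.indicator, hs]
  rw [← h1, h, h3]

end Pool.Agent.Age
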