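import Pool.Agent.Helper49.Age.Defs2
import Pool.Agent.Helper49.Age.Prim
import Pool.Agent.Helper49.Age.NTail

/-! Left analyticity at a point. -/

set_option autoImplicit false

namespace Pool.Agent.Age

open MeasureTheory

/-- The function `F` agrees on some interval `(x - δ, x)` with a function which is real analytic
at `x`. -/
def LeftAnalyticAt (F : ℝ → ℝ) (x : ℝ) : Prop :=
  ∃ f : ℝ → ℝ, AnalyticAt ℝ f x ∧ ∀ᶠ t in nhdsWithin x (Set.Iio x), F t = f t

theorem lat_congr {F G : ℝ → ℝ} {x : ℝ} (hF : LeftAnalyticAt F x)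
    (h : ∀ᶠ t in nhdsWithin x (Set.Iio x), G t = F t) : LeftAnalyticAt G x := by
  obtain ⟨f, hf, h1⟩ := hF
  refine ⟨f, hf, ?_⟩
  filter_upwards [h, h1] with t e1 e2
  rw [e1, e2]

theorem lat_prim {F : ℝ → ℝ} {x : ℝ} (hF : LeftAnalyticAt F x)
    (hi : ∀ a b : ℝ, IntervalIntegrable F volume a b) :
    LeftAnalyticAt (fun t => ∫ s in (0 : ℝ)..t, F s) x := by
  obtain ⟨f, hf, hFf⟩ := hF
  obtain ⟨G, hG, hGd⟩ := exists_prim hf
  refine ⟨fun t => (∫ s in (0 : ℝ)..x, F s) + G t - G x, (analyticAt_const.add hG).sub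
    analyticAt_const, ?_⟩
  obtain ⟨δ1, hδ1, h1⟩ := (mem_nhdsLT_iff_exists_Ioo_subset' (show x - 1 < x by linarith)).mp hFf
  obtain ⟨δ2, hδ2, h2⟩ := Metric.eventually_nhds_iff.mp hGd
  have hmem : Set.Ioo (max δ1 (x - δ2)) x ∈ nhdsWithin x (Set.Iio x) := by
    refine Ioo_mem_nhdsLT ?_
    rw [max_lt_iff]
    exact ⟨hδ1, by linarith⟩
  filter_upwards [hmem] with t ht
  obtain ⟨ht1, ht2⟩ := ht
  rw [max_lt_iff] at ht1
  have h3 : ∫ s in t..x, F s = ∫ s in t..x, f s := by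
    refine intervalIntegral.integral_congr_ae ?_
    have hx0 : ∀ᵐ s : ℝ, s ≠ x := by
      rw [ae_iff]
      simp
    filter_upwards [hx0] with s hs hs2
    rw [Set.uIoc_of_le ht2.le] at hs2
    exact h1 ⟨ht1.1.trans hs2.1, lt_of_le_of_ne hs2.2 hs⟩
  have hae : ∀ᵐ s ∂(volume.restrict (Set.uIoc t x)), F s = f s := by
    rw [ae_restrict_iff' measurableSet_uIoc]
    have hx0 : ∀ᵐ s : ℝ, s ≠ x := by
      rw [ae_iff]
      simp
    filter_upwards [hx0] with s hs hs2
    rw [Set.uIoc_of_le ht2.le] at hs2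
    exact h1 ⟨ht1.1.trans hs2.1, lt_of_le_of_ne hs2.2 hs⟩
  have hfi : IntervalIntegrable f volume t x := (hi t x).congr_ae hae
  have h4 : ∫ s in t..x, f s = G x - G t := by
    refine intervalIntegral.integral_eq_sub_of_hasDerivAt (fun s hs => ?_) hfi
    rw [Set.uIcc_of_le ht2.le] at hs
    refine h2 ?_
    rw [Real.dist_eq, abs_lt]
    constructor
    · linarith [hs.1, ht1.2]
    · linarith [hs.2]
  have h5 := intervalIntegral.integral_add_adjacent_intervals (hi 0 t) (hi t x)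
  show ∫ s in (0 : ℝ)..t, F s = (∫ s in (0 : ℝ)..x, F s) + G t - G x
  rw [← h5, h3, h4]
  ring

theorem lat_mul {F G : ℝ → ℝ} {x : ℝ} (hF : LeftAnalyticAt F x) (hG : LeftAnalyticAt G x) :
    LeftAnalyticAt (fun t => F t * G t) x := by
  obtain ⟨f, hf, h1⟩ := hF
  obtain ⟨g, hg, h2⟩ := hG
  refine ⟨fun t => f t * g t, hf.mul hg, ?_⟩
  filter_upwards [h1, h2] with t e1 e2
  rw [e1, e2]

theorem lat_sub {F G : ℝ → ℝ} {x : ℝ} (hF : LeftAnalyticAt F x) (hG : LeftAnalyticAt G x) :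
    LeftAnalyticAt (fun t => F t - G t) x := by
  obtain ⟨f, hf, h1⟩ := hF
  obtain ⟨g, hg, h2⟩ := hG
  refine ⟨fun t => f t - g t, hf.sub hg, ?_⟩
  filter_upwards [h1, h2] with t e1 e2
  rw [e1, e2]

theorem lat_exp_neg {F : ℝ → ℝ} {x : ℝ} (hF : LeftAnalyticAt F x) :
    LeftAnalyticAt (fun t => Real.exp (-F t)) x := by
  obtain ⟨f, hf, h1⟩ := hF
  refine ⟨fun t => Real.exp (-f t), hf.neg.rexp, ?_⟩
  filter_upwards [h1] with t e1
  rw [e1]

theorem lat_const (c x : ℝ) : LeftAnalyticAt (fun _ => c) x :=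
  ⟨fun _ => c, analyticAt_const, Filter.Eventually.of_forall fun _ => rfl⟩

/-- A function which is left analytic at `x` has constant sign on some interval `(x - ε, x)`. -/
theorem lat_sign {F : ℝ → ℝ} {x : ℝ} (hF : LeftAnalyticAt F x) :
    ∃ ε > 0, (∀ t, x - ε < t → t < x → 0 ≤ F t) ∨ (∀ t, x - ε < t → t < x → F t ≤ 0) := by
  obtain ⟨f, hf, h1⟩ := hF
  have hint : ∀ {P : ℝ → Prop}, (∀ᶠ t in nhdsWithin x (Set.Iio x), P t) →
      ∃ ε > 0, ∀ t, x - ε < t → t < x → P t := by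
    intro P hP
    obtain ⟨l, hl, h2⟩ := (mem_nhdsLT_iff_exists_Ioo_subset' (show x - 1 < x by linarith)).mp hP
    have hl' : l < x := hl
    exact ⟨x - l, by linarith, fun t ht1 ht2 => h2 ⟨by linarith, ht2⟩⟩
  by_cases h0 : ∀ᶠ z in nhds x, f z = 0
  · obtain ⟨ε, hε, h2⟩ := hint (h1.and (nhdsWithin_le_nhds h0))
    refine ⟨ε, hε, Or.inl fun t ht1 ht2 => ?_⟩
    obtain ⟨e1, e2⟩ := h2 t ht1 ht2
    rw [e1, e2]
  · obtain ⟨n, g, hg, hg0, hfg⟩ := hf.exists_eventuallyEq_pow_smul_nonzero_iff.mpr h0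
    have hgc : ContinuousAt (fun z => (-1 : ℝ) ^ n * g z) x := (hg.continuousAt).const_mul _
    have hne : (-1 : ℝ) ^ n * g x ≠ 0 := mul_ne_zero (pow_ne_zero _ (by norm_num)) hg0
    have hval : ∀ t, t < x → F t = f t → f t = (t - x) ^ n • g t →
        F t = (x - t) ^ n * ((-1 : ℝ) ^ n * g t) := by
      intro t _ e1 e2
      rw [e1, e2, smul_eq_mul, ← mul_assoc, ← mul_pow]
      congr 2
      ring
    rcases lt_or_gt_of_ne hne with hneg | hpos
    · obtain ⟨ε, hε, h2⟩ := hint ((h1.and (nhdsWithin_le_nhds hfg)).and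
        (nhdsWithin_le_nhds (hgc.eventually (gt_mem_nhds hneg))))
      refine ⟨ε, hε, Or.inr fun t ht1 ht2 => ?_⟩
      obtain ⟨⟨e1, e2⟩, e3⟩ := h2 t ht1 ht2
      rw [hval t ht2 e1 e2]
      exact mul_nonpos_of_nonneg_of_nonpos (pow_nonneg (by linarith) n) e3.le
    · obtain ⟨ε, hε, h2⟩ := hint ((h1.and (nhdsWithin_le_nhds hfg)).and
        (nhdsWithin_le_nhds (hgc.eventually (lt_mem_nhds hpos))))
      refine ⟨ε, hε, Or.inl fun t ht1 ht2 => ?_⟩
      obtain ⟨⟨e1, e2⟩, e3⟩ := h2 t ht1 ht2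
      rw [hval t ht2 e1 e2]
      exact mul_nonneg (pow_nonneg (by linarith) n) e3.le

/-- `N π` is left analytic where `t ↦ π(t,∞)` is -/
theorem N_lat (π : Measure ℝ) [IsProbabilityMeasure π] (h0 : π (Set.Iio 0) = 0) {R : ℝ}
    (hR : 0 ≤ R) (hRπ : π (Set.Ioi R) = 0) {x : ℝ} (hx : 0 < x)
    (hA : LeftAnalyticAt (fun t => π.real (Set.Ioi t)) x) : LeftAnalyticAt (N π) x := by
  rcases lt_or_ge R x with hRx | hxR
  · refine lat_congr (lat_const 0 x) ?_
    filter_upwards [Ioo_mem_nhdsLT hRx] with t ht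
    have h1 : π (Set.Ioi t) = 0 := measure_mono_null (Set.Ioi_subset_Ioi ht.1.le) hRπ
    unfold N
    rw [Measure.restrict_eq_zero.mpr h1]
    simp
  · set y : ℝ → ℝ := fun t => π.real (Set.Ioi t) with hy
    have hanti : Antitone y := fun a b hab => measureReal_mono (Set.Ioi_subset_Ioi hab)
    have hyi : ∀ a b : ℝ, IntervalIntegrable y volume a b := fun a b =>
      hanti.intervalIntegrable
    set p : ℝ → ℝ := fun t => ∫ s in (0 : ℝ)..t, y s with hp
    have hpl : LeftAnalyticAt p x := lat_prim hA hyi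
    have hpc : Continuous p := intervalIntegral.continuous_primitive hyi 0
    set G : ℝ → ℝ := fun t => (y t * y t) * Real.exp (-p t) with hG
    have hGl : LeftAnalyticAt G x := lat_mul (lat_mul hA hA) (lat_exp_neg hpl)
    have hGi : ∀ a b : ℝ, IntervalIntegrable G volume a b := by
      intro a b
      have h1 : IntervalIntegrable (fun t => y t * y t) volume a b := by
        have hy0 : ∀ t, 0 ≤ y t := fun t => measureReal_nonneg
        exact Antitone.intervalIntegrable fun s t hst =>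
          mul_le_mul (hanti hst) (hanti hst) (hy0 t) (hy0 s)
      exact h1.mul_continuousOn (Real.continuous_exp.comp hpc.neg).continuousOn
    have hQ := lat_prim hGl hGi
    have hmain := lat_sub (lat_mul (lat_exp_neg hpl) hA)
      (lat_sub (lat_const (∫ s in (0 : ℝ)..R, G s) x) hQ)
    refine lat_congr hmain ?_
    filter_upwards [Ioo_mem_nhdsLT hx] with t ht
    have htR : t ≤ R := ht.2.le.trans hxR
    rw [N_eq π h0 hR hRπ t ht.1.le htR, p_eq π h0 t ht.1.le]
    have h2 : ∫ s in t..R, π.real (Set.Ioi s) ^ 2 * Real.exp (-∫ u, min s u ∂π) =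
        ∫ s in t..R, G s := by
      refine intervalIntegral.integral_congr fun s hs => ?_
      rw [Set.uIcc_of_le htR] at hs
      have h3 := p_eq π h0 s (ht.1.le.trans hs.1)
      change π.real (Set.Ioi s) ^ 2 * Real.exp (-∫ u, min s u ∂π) = G s
      rw [h3, hG]
      change π.real (Set.Ioi s) ^ 2 * Real.exp (-p s) =
        (π.real (Set.Ioi s) * π.real (Set.Ioi s)) * Real.exp (-p s)
      ring
    rw [h2, ← intervalIntegral.integral_add_adjacent_intervals (hGi 0 t) (hGi t R)]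
    ring

end Pool.Agent.Age
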