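import Pool.Agent.Helper49.Age.Defs
import Pool.Agent.Helper49.Age.VolK
import Pool.Agent.Helper49.Age.Vol
import Pool.Agent.Helper49.Age.NuK

/-! `nuK` determines `π`. -/

set_option autoImplicit false

namespace Pool.Agent.Age

open MeasureTheory

private theorem ni_ae_mem (R : ℝ) (π : Measure ℝ) (h0 : π (Set.Iio 0) = 0)
    (hR : π (Set.Ioi R) = 0) : ∀ᵐ u ∂π, 0 ≤ u ∧ u ≤ R := by
  have h1 : ∀ᵐ u ∂π, u ∉ Set.Iio (0:ℝ) := measure_eq_zero_iff_ae_notMem.mp h0
  have h2 : ∀ᵐ u ∂π, u ∉ Set.Ioi R := measure_eq_zero_iff_ae_notMem.mp hR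
  filter_upwards [h1, h2] with u a b
  exact ⟨not_lt.mp a, not_lt.mp b⟩

private theorem ni_int (R : ℝ) (π : Measure ℝ) [IsProbabilityMeasure π] (h0 : π (Set.Iio 0) = 0)
    (hR : π (Set.Ioi R) = 0) (s : ℝ) : Integrable (fun u => min s u) π := by
  refine Integrable.of_bound (by fun_prop) (|s| + |R|) ?_
  filter_upwards [ni_ae_mem R π h0 hR] with u hu
  rw [Real.norm_eq_abs]
  rcases min_choice s u with h | h
  · rw [h]; linarith [abs_nonneg R]
  · rw [h, abs_of_nonneg hu.1]
    linarith [abs_nonneg s, le_abs_self R, hu.2]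

private theorem ni_lip (R : ℝ) (π : Measure ℝ) [IsProbabilityMeasure π] (h0 : π (Set.Iio 0) = 0)
    (hR : π (Set.Ioi R) = 0) : Continuous (fun s : ℝ => ∫ u, min s u ∂π) := by
  have : LipschitzWith 1 (fun s : ℝ => ∫ u, min s u ∂π) := by
    refine LipschitzWith.of_dist_le_mul fun s t => ?_
    rw [Real.dist_eq, Real.dist_eq, ← integral_sub (ni_int R π h0 hR s) (ni_int R π h0 hR t)]
    have h := norm_integral_le_of_norm_le_const (μ := π) (f := fun u => min s u - min t u)
      (C := |s - t|) (Filter.Eventually.of_forall fun u => by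
        rw [Real.norm_eq_abs]
        have := abs_min_sub_min_le_max s u t u
        simpa using this)
    simpa using h
  exact this.continuous

private theorem ni_pos (R : ℝ) (π : Measure ℝ) [IsProbabilityMeasure π] (h0 : π (Set.Iio 0) = 0)
    (hR : π (Set.Ioi R) = 0) : 0 ≤ R := by
  by_contra hlt
  have h := ni_ae_mem R π h0 hR
  have h2 : ∀ᵐ u ∂π, False := by
    filter_upwards [h] with u hu
    linarith [hu.1, hu.2]
  rw [Filter.eventually_false_iff_eq_bot] at h2
  exact (IsProbabilityMeasure.ne_zero π) (ae_eq_bot.mp h2)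

private theorem ni_eq (R : ℝ) (π : Measure ℝ) [IsProbabilityMeasure π] (h0 : π (Set.Iio 0) = 0)
    (hR : π (Set.Ioi R) = 0) (s : ℝ) :
    ∫ u, min s u ∂π = s - ∫ x : K R, max (s - (x : ℝ)) 0 *
      Real.exp (∫ u, min (x : ℝ) u ∂π) ∂(nuK R π) := by
  have h1 := integral_nuK R π h0 hR
    (fun x => max (s - x) 0 * Real.exp (∫ u, min (x : ℝ) u ∂π))
  rw [h1]
  have h2 : (fun s_1 : ℝ => max (s - s_1) 0 * Real.exp (∫ u, min (s_1 : ℝ) u ∂π) *
      Real.exp (-∫ u, min s_1 u ∂π)) = fun u => s - min s u := by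
    funext x
    rw [mul_assoc, ← Real.exp_add, add_neg_cancel, Real.exp_zero, mul_one]
    rcases le_total s x with h | h
    · rw [max_eq_right (by linarith), min_eq_left h, sub_self]
    · rw [max_eq_left (by linarith), min_eq_right h]
  rw [h2, integral_sub (integrable_const _) (ni_int R π h0 hR s)]
  simp

private noncomputable def nip (R : ℝ) (π : Measure ℝ) [IsProbabilityMeasure π]
    (h0 : π (Set.Iio 0) = 0) (hR : π (Set.Ioi R) = 0) : C(K R, ℝ) :=
  ⟨fun x => ∫ u, min (x : ℝ) u ∂π, (ni_lip R π h0 hR).comp continuous_subtype_val⟩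

private theorem nip_eq (R : ℝ) (π : Measure ℝ) [IsProbabilityMeasure π]
    (h0 : π (Set.Iio 0) = 0) (hR : π (Set.Ioi R) = 0) :
    nip R π h0 hR = idc - op kF (nuK R π) (ex (nip R π h0 hR)) := by
  ext x
  rw [ContinuousMap.sub_apply, op_apply, idc_apply]
  exact ni_eq R π h0 hR x

private theorem ni_exp_lip (a b L : ℝ) (ha : Real.exp a ≤ L) (hb : Real.exp b ≤ L) :
    |Real.exp a - Real.exp b| ≤ L * |a - b| := by
  wlog hab : b ≤ a generalizing a b
  · have := this b a hb ha (by linarith)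
    rw [abs_sub_comm, abs_sub_comm a b]
    exact this
  rw [abs_of_nonneg (by linarith [Real.exp_le_exp.mpr hab]), abs_of_nonneg (by linarith)]
  have h1 : Real.exp b = Real.exp a * Real.exp (b - a) := by
    rw [← Real.exp_add]; ring_nf
  have h2 : b - a + 1 ≤ Real.exp (b - a) := Real.add_one_le_exp _
  have h3 := Real.exp_pos a
  calc Real.exp a - Real.exp b = Real.exp a * (1 - Real.exp (b - a)) := by rw [h1]; ring
    _ ≤ Real.exp a * (a - b) := by
        apply mul_le_mul_of_nonneg_left _ h3.le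
        linarith
    _ ≤ L * (a - b) := mul_le_mul_of_nonneg_right ha (by linarith)

/-- `p(x) = ∫ min x u dπ = x - ∫ (x-u)⁺ e^{p(u)} dν(u)` for `x` in `[0,R]` determines `p` (volt_F, volt_zero),
and `π = e^p ν`. -/
theorem nuK_inj (R : ℝ) (π π' : Measure ℝ) [IsProbabilityMeasure π] [IsProbabilityMeasure π']
    (h0 : π (Set.Iio 0) = 0) (h0' : π' (Set.Iio 0) = 0) (hR : π (Set.Ioi R) = 0)
    (hR' : π' (Set.Ioi R) = 0) (h : nuK R π = nuK R π') : π = π' := by
  set P := nip R π h0 hR with hP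
  set P' := nip R π' h0' hR' with hP'
  have e1 : P = idc - op kF (nuK R π) (ex P) := nip_eq R π h0 hR
  have e2 : P' = idc - op kF (nuK R π) (ex P') := by
    have := nip_eq R π' h0' hR'
    simp only [← h] at this
    exact this
  obtain ⟨L, hL0, hL⟩ : ∃ L : ℝ, 0 ≤ L ∧ ∀ x, ex P x ≤ L ∧ ex P' x ≤ L := by
    refine ⟨max ‖ex P‖ ‖ex P'‖, le_max_of_le_left (norm_nonneg _), fun x => ⟨?_, ?_⟩⟩
    · exact le_trans (le_trans (le_abs_self _) ((ex P).norm_coe_le_norm x)) (le_max_left _ _)
    · exact le_trans (le_trans (le_abs_self _) ((ex P').norm_coe_le_norm x)) (le_max_right _ _)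
  have hD : |P - P'| = 0 := by
    refine volt_zero (volt_F (nuK R π)) L hL0 _ (abs_nonneg _) ?_
    intro x
    have hx : (P - P') x = - ∫ u, (kF : C(K R × K R, ℝ)) (x, u) * (ex P - ex P') u ∂(nuK R π) := by
      have h1 : P - P' = - op kF (nuK R π) (ex P - ex P') := by
        rw [map_sub]
        calc P - P' = (idc - op kF (nuK R π) (ex P)) - (idc - op kF (nuK R π) (ex P')) := by
              rw [← e1, ← e2]
          _ = _ := by abel
      rw [h1]; rfl
    have hgoal : (L • (op kF (nuK R π)) |P - P'|) x =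
        L * ∫ u, (kF : C(K R × K R, ℝ)) (x, u) * |P - P'| u ∂(nuK R π) := rfl
    change |P - P'| x ≤ (L • (op kF (nuK R π)) |P - P'|) x
    rw [hgoal, ContinuousMap.abs_apply, hx, abs_neg, ← integral_const_mul]
    refine le_trans (abs_integral_le_integral_abs) ?_
    refine integral_mono_of_nonneg (Filter.Eventually.of_forall fun u => abs_nonneg _) ?_
      (Filter.Eventually.of_forall fun u => ?_)
    · exact (integrable_cm (nuK R π) ((ContinuousMap.curry kF x) * |P - P'|)).const_mul L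
    · simp only
      have hk : 0 ≤ (kF : C(K R × K R, ℝ)) (x, u) := le_max_right _ _
      rw [abs_mul, abs_of_nonneg hk]
      have h3 := ni_exp_lip (P u) (P' u) L (hL u).1 (hL u).2
      rw [ContinuousMap.abs_apply, ContinuousMap.sub_apply, ContinuousMap.sub_apply, ex_apply,
        ex_apply]
      calc (kF : C(K R × K R, ℝ)) (x, u) * |Real.exp (P u) - Real.exp (P' u)|
          ≤ (kF : C(K R × K R, ℝ)) (x, u) * (L * |P u - P' u|) :=
            mul_le_mul_of_nonneg_left h3 hk
        _ = _ := by ring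
  have hPP : ∀ x, P x = P' x := by
    intro x
    have h1 : |P - P'| x = 0 := by rw [hD]; rfl
    rw [ContinuousMap.abs_apply, abs_eq_zero, ContinuousMap.sub_apply] at h1
    linarith
  ext A hA
  have key : ∀ (π : Measure ℝ) [IsProbabilityMeasure π] (h0 : π (Set.Iio 0) = 0)
      (hR : π (Set.Ioi R) = 0), π.real A =
        ∫ x : K R, A.indicator (fun _ => (1:ℝ)) (x : ℝ) * Real.exp (∫ u, min (x : ℝ) u ∂π)
          ∂(nuK R π) := by
    intro π _ h0 hR
    rw [integral_nuK R π h0 hR
      (fun x => A.indicator (fun _ => (1:ℝ)) x * Real.exp (∫ u, min (x : ℝ) u ∂π))]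
    have h2 : (fun s : ℝ => A.indicator (fun _ => (1:ℝ)) s * Real.exp (∫ u, min (s : ℝ) u ∂π) *
      Real.exp (-∫ u, min s u ∂π)) = A.indicator (fun _ => (1:ℝ)) := by
      funext x
      rw [mul_assoc, ← Real.exp_add, add_neg_cancel, Real.exp_zero, mul_one]
    rw [h2, integral_indicator_const _ hA]
    simp
  have k1 := key π h0 hR
  have k2 := key π' h0' hR'
  rw [← h] at k2
  have k3 : π.real A = π'.real A := by
    rw [k1, k2]
    refine integral_congr_ae (Filter.Eventually.of_forall fun x => ?_)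
    have := hPP x
    change ∫ u, min (x : ℝ) u ∂π = ∫ u, min (x : ℝ) u ∂π' at this
    simp only [this]
  exact (measureReal_eq_measureReal_iff (measure_ne_top _ _) (measure_ne_top _ _)).mp k3

end Pool.Agent.Age
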