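import Pool.Agent.Helper49.Age.Defs
import Pool.Agent.Helper49.Age.Core
import Pool.Agent.Helper49.Age.NuK
import Pool.Agent.Helper49.Age.NuInj
import Pool.Agent.Helper49.Age.GenK

/-! The theorem. -/

set_option autoImplicit false

namespace Pool.Agent.Age

open MeasureTheory

/-- The cluster size law determines `π` if the maximum of its support is isolated. -/
theorem main (π π' : Measure ℝ) [IsProbabilityMeasure π] [IsProbabilityMeasure π']
    (h0 : π (Set.Iio 0) = 0) (h0' : π' (Set.Iio 0) = 0) (S ε R : ℝ) (hε : 0 < ε)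
    (hS : π {S} ≠ 0) (htop : π (Set.Ioi S) = 0) (hgap : π (Set.Ioo (S - ε) S) = 0)
    (hR : π' (Set.Ioi R) = 0) (h : ∀ k, v π k = v π' k) : π = π' := by
  have hS0 : 0 ≤ S := by
    by_contra hlt
    have hlt' : S < 0 := not_le.mp hlt
    exact hS (measure_mono_null (Set.singleton_subset_iff.mpr (Set.mem_Iio.mpr hlt')) h0)
  have hR1 : π (Set.Ioi (max S R)) = 0 :=
    measure_mono_null (Set.Ioi_subset_Ioi (le_max_left _ _)) htop
  have hR2 : π' (Set.Ioi (max S R)) = 0 :=
    measure_mono_null (Set.Ioi_subset_Ioi (le_max_right _ _)) hR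
  have hgf : GF (nuK (max S R) π) (nuK (max S R) π') := by
    intro z hz0 hz1
    obtain ⟨w₁, h1, h2⟩ := gf_exists (max S R) π h0 hR1 z hz0 hz1
    obtain ⟨w₂, h3, h4⟩ := gf_exists (max S R) π' h0' hR2 z hz0 hz1
    refine ⟨w₁, w₂, h1, h3, ?_⟩
    rw [h2, h4]
    simp only [h]
  obtain ⟨c, hc⟩ := iso_nuK (max S R) π h0 hR1 hε hS htop hgap
  have h5 := core (hS0.trans (le_max_left _ _)) hgf hc (nuK_le_one _ π h0) (nuK_le_one _ π' h0')
  exact nuK_inj (max S R) π π' h0 h0' hR1 hR2 h5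

end Pool.Agent.Age
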