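import Pool.Agent.Helper49.Age.Defs2
import Pool.Agent.Helper49.Age.NuK

/-! Equality of measures on `[0,R]`. -/

set_option autoImplicit false

namespace Pool.Agent.Age

open MeasureTheory

/-- the sets `{u | t < u}` with `t ≥ 0` and the whole interval generate the Borel sets -/
theorem nu_eq_of_tn {R : ℝ} {ν₁ ν₂ : Measure (K R)} [IsFiniteMeasure ν₁] [IsFiniteMeasure ν₂]
    (h : ∀ t, 0 ≤ t → tn ν₁ t = tn ν₂ t) (hu : ν₁.real Set.univ = ν₂.real Set.univ) : ν₁ = ν₂ := by
  refine ext_of_generate_finite (Set.range Set.Ioi) ?_ isPiSystem_Ioi ?_ ?_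
  · rw [← borel_eq_generateFrom_Ioi]
    exact BorelSpace.measurable_eq
  · rintro s ⟨a, rfl⟩
    have h1 := h (a : ℝ) a.2.1
    unfold tn at h1
    have h2 : {u : K R | (a : ℝ) < (u : ℝ)} = Set.Ioi a := by
      ext u
      rfl
    rw [h2] at h1
    exact (measureReal_eq_measureReal_iff).mp h1
  · exact (measureReal_eq_measureReal_iff).mp hu

theorem nuEq_q_one (π : Measure ℝ) (s : ℝ) : q π 1 s = Real.exp (-∫ u, min s u ∂π) := by
  rw [q]
  simp

/-- `q π 1 s = exp (-∫ min s u dπ)` -/
theorem nuK_univ {R : ℝ} (π : Measure ℝ) [IsProbabilityMeasure π] (h0 : π (Set.Iio 0) = 0)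
    (hRπ : π (Set.Ioi R) = 0) : (nuK R π).real Set.univ = v π 1 := by
  have h1 := integral_nuK R π h0 hRπ (fun _ => 1)
  simp only [integral_const, smul_eq_mul, mul_one, one_mul] at h1
  rw [h1, v]
  simp only [nuEq_q_one]

theorem v_one_pos (π : Measure ℝ) [IsProbabilityMeasure π] (h0 : π (Set.Iio 0) = 0) :
    0 < v π 1 := by
  rw [v]
  simp only [nuEq_q_one]
  have hae : ∀ᵐ u ∂π, (0 : ℝ) ≤ u := by
    rw [ae_iff]
    convert h0 using 2
    ext u
    simp
  have hm : Measurable (fun s : ℝ => Real.exp (-∫ u, min s u ∂π)) := by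
    have h : StronglyMeasurable (Function.uncurry fun s u : ℝ => min s u) :=
      (measurable_fst.min measurable_snd).stronglyMeasurable
    exact Real.measurable_exp.comp (h.integral_prod_right (ν := π)).measurable.neg
  have hi : Integrable (fun s : ℝ => Real.exp (-∫ u, min s u ∂π)) π := by
    refine Integrable.of_bound hm.aestronglyMeasurable 1 ?_
    filter_upwards [hae] with s hs
    rw [Real.norm_eq_abs, abs_of_pos (Real.exp_pos _), Real.exp_le_one_iff, neg_nonpos]
    refine integral_nonneg_of_ae ?_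
    filter_upwards [hae] with u hu
    exact le_min hs hu
  rw [integral_pos_iff_support_of_nonneg (fun s => (Real.exp_pos _).le) hi]
  have h2 : Function.support (fun s : ℝ => Real.exp (-∫ u, min s u ∂π)) = Set.univ := by
    ext s
    simp [Real.exp_ne_zero]
  rw [h2, measure_univ]
  exact one_pos

end Pool.Agent.Age
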