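import Pool.Agent.Helper49.Age.Defs2
import Pool.Agent.Helper49.Age.Trial

/-! Existence of minimisers. -/

set_option autoImplicit false

namespace Pool.Agent.Age

open MeasureTheory

variable {R : ℝ} {ν : Measure (K R)} [IsFiniteMeasure ν]

/-- functions with values in `[0, V R]` and Lipschitz constant `V` -/
def minExA (R V : ℝ) : Set (C(K R, ℝ)) :=
  {G | (∀ x, G x ∈ Set.Icc 0 (V * R)) ∧ ∀ x y, |G x - G y| ≤ V * |(x : ℝ) - y|}

theorem minExA_closed (R V : ℝ) : IsClosed (minExA R V) := by
  have h : minExA R V = (⋂ x, {G : C(K R, ℝ) | G x ∈ Set.Icc 0 (V * R)}) ∩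
      ⋂ x, ⋂ y, {G : C(K R, ℝ) | |G x - G y| ≤ V * |(x : ℝ) - y|} := by
    ext G
    simp only [minExA, Set.mem_ofPred_eq, Set.mem_inter_iff, Set.mem_iInter]
  rw [h]
  refine IsClosed.inter (isClosed_iInter fun x => ?_)
    (isClosed_iInter fun x => isClosed_iInter fun y => ?_)
  · exact isClosed_Icc.preimage (continuous_eval_const x)
  · exact isClosed_le (by fun_prop) continuous_const

theorem minExA_compact (R : ℝ) {V : ℝ} (hV : 0 < V) : IsCompact (minExA R V) := by
  let e : C(K R, ℝ) ≃ᵢ BoundedContinuousFunction (K R) ℝ :=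
    ContinuousMap.isometryEquivBoundedOfCompact (K R) ℝ
  have hcl : IsClosed (e '' minExA R V) :=
    e.toHomeomorph.isClosedMap _ (minExA_closed R V)
  have hc : IsCompact (e '' minExA R V) := by
    refine BoundedContinuousFunction.arzela_ascoli₂ (Set.Icc 0 (V * R)) isCompact_Icc _ hcl ?_ ?_
    · rintro _ x ⟨G, hG, rfl⟩
      exact hG.1 x
    · intro x₀
      rw [Metric.equicontinuousAt_iff]
      intro ε hε
      refine ⟨ε / V, by positivity, ?_⟩
      rintro x hx ⟨_, G, hG, rfl⟩
      change dist (G x₀) (G x) < ε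
      rw [Real.dist_eq]
      refine lt_of_le_of_lt (hG.2 x₀ x) ?_
      have : |(x₀ : ℝ) - x| < ε / V := by
        rw [dist_comm] at hx
        exact hx
      calc V * |(x₀ : ℝ) - x| < V * (ε / V) := mul_lt_mul_of_pos_left this hV
        _ = ε := by field_simp
  have h2 : minExA R V = e.symm '' (e '' minExA R V) := by
    rw [← Set.image_comp]
    simp
  rw [h2]
  exact hc.image e.symm.continuous

theorem minEx_mem {V : ℝ} {f : C(K R, ℝ)} (hf : 0 ≤ f)
    (hm : la ν f = V) : op kM ν f ∈ minExA R V := by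
  have hi : ∀ x : K R, Integrable (fun u : K R => (kM : C(K R × K R, ℝ)) (x, u) * f u) ν := fun x =>
    integrable_cm ν ((ContinuousMap.curry kM x) * f)
  have hf' : ∀ u, 0 ≤ f u := fun u => hf u
  constructor
  · intro x
    rw [op_apply]
    constructor
    · refine integral_nonneg fun u => ?_
      exact mul_nonneg (le_min x.2.1 u.2.1) (hf' u)
    · calc ∫ u, kM (x, u) * f u ∂ν ≤ ∫ u, R * f u ∂ν := by
            refine integral_mono (hi x) ((integrable_cm ν f).const_mul R) fun u => ?_
            exact mul_le_mul_of_nonneg_right ((min_le_left _ _).trans x.2.2) (hf' u)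
        _ = V * R := by
            rw [integral_const_mul, ← la_apply, hm, mul_comm]
  · intro x y
    rw [op_apply, op_apply, ← integral_sub (hi x) (hi y)]
    calc |∫ u, (kM (x, u) * f u - kM (y, u) * f u) ∂ν|
        ≤ ∫ u, |kM (x, u) * f u - kM (y, u) * f u| ∂ν := abs_integral_le_integral_abs
      _ ≤ ∫ u, |(x : ℝ) - y| * f u ∂ν := by
          refine integral_mono ((hi x).sub (hi y)).abs ((integrable_cm ν f).const_mul _)
            fun u => ?_
          change |min (x : ℝ) u * f u - min (y : ℝ) u * f u| ≤ |(x : ℝ) - y| * f u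
          rw [← sub_mul, abs_mul, abs_of_nonneg (hf' u)]
          refine mul_le_mul_of_nonneg_right ?_ (hf' u)
          exact (abs_min_sub_min_le_max _ _ _ _).trans (by simp)
      _ = V * |(x : ℝ) - y| := by
          rw [integral_const_mul, ← la_apply, hm, mul_comm]

theorem minEx_ex_cont : Continuous (ex : C(K R, ℝ) → C(K R, ℝ)) :=
  ContinuousMap.continuous_postcomp (⟨Real.exp, Real.continuous_exp⟩ : C(ℝ, ℝ))

theorem minEx_Lam_cont (hν : ν ≠ 0) (V : ℝ) : Continuous (fun f => Lam ν V f) := by
  unfold Lam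
  refine Continuous.sub ?_ (Continuous.mul continuous_const ?_)
  · exact ((la ν).continuous.comp (continuous_id.mul (op kM ν).continuous)).div_const 2
  · refine Continuous.log ((la ν).continuous.comp (minEx_ex_cont.comp (op kM ν).continuous)) ?_
    intro f
    exact (la_ex_pos hν _).ne'

theorem minEx_th_cont (hν : ν ≠ 0) (V : ℝ) : Continuous (fun G : C(K R, ℝ) => th ν V G) := by
  unfold th
  refine Continuous.smul (f := fun G : C(K R, ℝ) => V / la ν (ex G)) ?_ minEx_ex_cont
  refine Continuous.div continuous_const ((la ν).continuous.comp minEx_ex_cont) ?_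
  intro f
  exact (la_ex_pos hν _).ne'

/-- The set `P` of the potentials `op kM ν f`, `f ≥ 0`, `la ν f = V`, consists of functions with
Lipschitz constant `V` and values in `[0, V R]`, hence its closure is compact in `C([0,R])`
(Arzela-Ascoli). `G ↦ Lam ν V (th ν V G)` is continuous, so it has a minimum `G₀` on the closure
of `P`; `f₀ = th ν V G₀` is a minimiser: for `f ≥ 0` of charge `V`, by `trial` and `cross_le` (with
`μ = ν`, `g = f`) `Lam ν V (th ν V (op kM ν f)) ≤ Lam ν V f`. The set `P` is not empty: it contains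
`op kM ν (th ν V 0)`. -/
theorem exists_min (hR : 0 ≤ R) (hν : ν ≠ 0) {V : ℝ} (hV : 0 < V) : ∃ f, Min ν V f := by
  have hne : (minExA R V).Nonempty :=
    ⟨op kM ν (th ν V 0), minEx_mem (th_nonneg hν hV.le 0) (th_mass hν V 0)⟩
  obtain ⟨G₀, -, hG₀⟩ := (minExA_compact R hV).exists_isMinOn hne
    ((minEx_Lam_cont hν V).comp (minEx_th_cont hν V)).continuousOn
  refine ⟨th ν V G₀, th_nonneg hν hV.le _, th_mass hν V _, fun f hf hm => ?_⟩
  have h1 : Lam ν V (th ν V G₀) ≤ Lam ν V (th ν V (op kM ν f)) := hG₀ (minEx_mem hf hm)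
  have h2 := trial (ν := ν) (μ := ν) hR hν hV f
  have h3 := cross_le (ν₁ := ν) (ν₂ := ν) hR (th ν V (op kM ν f)) f
  have h4 : Lam ν V f = la ν (f * op kM ν f) / 2 - V * Real.log (la ν (ex (op kM ν f))) := rfl
  linarith

end Pool.Agent.Age
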