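import Pool.Agent.Helper49.Age.Defs2
import Pool.Agent.Helper49.Age.Trial

/-! Minimisers are solutions. -/

set_option autoImplicit false

namespace Pool.Agent.Age

open MeasureTheory

variable {R : ℝ} {ν : Measure (K R)} [IsFiniteMeasure ν]

/-- the value of the functional at a solution: `la ν (ex w * (w - cst a)) = la ν (w * ex w) - a V`,
`la ν (ex (w - cst a)) = V e^{-a}` -/
theorem lam_sol {V a : ℝ} (hV : 0 < V) {w : C(K R, ℝ)} (hw : w = cst a + op kM ν (ex w))
    (hm : la ν (ex w) = V) :
    Lam ν V (ex w) = (la ν (w * ex w) + a * V) / 2 - V * Real.log V := by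
  have h1 : op kM ν (ex w) = w - cst a := by
    nth_rewrite 2 [hw]
    abel
  have h2 : la ν (ex w * op kM ν (ex w)) = la ν (w * ex w) - a * V := by
    rw [h1]
    have e1 : ex w * (w - cst a) = w * ex w - a • ex w := by
      ext x
      simp only [ContinuousMap.mul_apply, ContinuousMap.sub_apply, ContinuousMap.smul_apply,
        smul_eq_mul, cst_apply]
      ring
    rw [e1, map_sub, map_smul, hm, smul_eq_mul]
  have h3 : la ν (ex (op kM ν (ex w))) = V * Real.exp (-a) := by
    rw [h1]
    have e1 : ex (w - cst a) = Real.exp (-a) • ex w := by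
      ext x
      simp only [ex_apply, ContinuousMap.sub_apply, ContinuousMap.smul_apply, smul_eq_mul,
        cst_apply]
      rw [← Real.exp_add]
      congr 1
      ring
    rw [e1, map_smul, hm, smul_eq_mul, mul_comm]
  unfold Lam
  rw [h2, h3, Real.log_mul hV.ne' (Real.exp_pos _).ne', Real.log_exp]
  ring

/-- Let `G = op kM ν f`, `f' = th ν V G = ex w` with `w = cst a + G`, `a = log (V / la ν (ex G))`. By
`trial` with `μ = ν`, `g = f` and minimality the bracket in `trial` is `≤ 0`, so by `cross_sq`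
`op kM ν f' = op kM ν f`, i.e. `w = cst a + op kM ν (ex w)`. The energies of `f` and `f'` agree
(`la ν (f * op kM ν f) = la ν (f * op kM ν f') = la ν (f' * op kM ν f) = la ν (f' * op kM ν f')`, by
`cross_symm`), so `Lam ν V f = Lam ν V (ex w)`. -/
theorem min_fix (hR : 0 ≤ R) (hν : ν ≠ 0) {V : ℝ} (hV : 0 < V) {f : C(K R, ℝ)} (hf : Min ν V f) :
    ∃ (a : ℝ) (w : C(K R, ℝ)), w = cst a + op kM ν f ∧ w = cst a + op kM ν (ex w) ∧
      la ν (ex w) = V ∧ Lam ν V f = Lam ν V (ex w) := by
  set G : C(K R, ℝ) := op kM ν f with hG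
  set f' : C(K R, ℝ) := th ν V G with hf'
  set a : ℝ := Real.log (V / la ν (ex G)) with ha
  have hZ := la_ex_pos hν G
  have hex : ex (cst a + G) = f' := by
    ext x
    rw [ex_apply, ContinuousMap.add_apply, cst_apply, Real.exp_add, ha,
      Real.exp_log (div_pos hV hZ), hf', th, ContinuousMap.smul_apply, smul_eq_mul, ex_apply]
  have hm : la ν f' = V := th_mass hν V G
  have hn : 0 ≤ f' := th_nonneg hν hV.le G
  have htr := trial (ν := ν) (μ := ν) hR hν hV f
  rw [← hG, ← hf'] at htr
  have hmin := hf.min f' hn hm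
  have hLf : Lam ν V f = la ν (f * G) / 2 - V * Real.log (la ν (ex G)) := rfl
  have hbr : la ν (f' * op kM ν f') + la ν (f * G) - 2 * la ν (f' * G) ≤ 0 := by
    linarith
  have hpot : op kM ν f' = G := by
    ext x
    have h1 := cross_sq (ν₁ := ν) (ν₂ := ν) hR f' f x
    rw [← hG] at h1
    have h2 : (op kM ν f' x - G x) ^ 2 ≤ 0 :=
      h1.trans (mul_nonpos_of_nonneg_of_nonpos hR hbr)
    have h3 : op kM ν f' x - G x = 0 := by
      have := le_antisymm h2 (sq_nonneg _)
      exact pow_eq_zero_iff (two_ne_zero) |>.mp this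
    linarith
  refine ⟨a, cst a + G, rfl, ?_, ?_, ?_⟩
  · rw [hex, hpot]
  · rw [hex, hm]
  · rw [hex]
    unfold Lam
    rw [hpot, ← hG]
    have h1 : la ν (f * G) = la ν (f' * G) := by
      have h2 := cross_symm (ν₁ := ν) (ν₂ := ν) hR f f'
      rw [hpot] at h2
      exact h2
    rw [h1]

end Pool.Agent.Age
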