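import Pool.Agent.Helper49.Age.Defs2
import Pool.Agent.Helper49.Age.MinEx
import Pool.Agent.Helper49.Age.MinFix
import Pool.Agent.Helper49.Age.Curve
import Pool.Agent.Helper49.Age.Bid

/-! The two minima agree. -/

set_option autoImplicit false

namespace Pool.Agent.Age

open MeasureTheory

variable {R : ℝ} {ν₁ ν₂ : Measure (K R)} [IsFiniteMeasure ν₁] [IsFiniteMeasure ν₂]

theorem GF.symm (h : GF ν₁ ν₂) : GF ν₂ ν₁ := by
  intro z hz0 hz1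
  obtain ⟨w₁, w₂, h1, h2, h3⟩ := h z hz0 hz1
  exact ⟨w₂, w₁, h2, h1, h3.symm⟩

/-- Take `w` from `min_fix` for `f₁`, `M = w(R)`; by `op_kM_eq_B` (VolK) and uniqueness for the
backward equation (`Cur.top`, `sol_inj` or `volt_zero`) `w = w₁ M` on the curve of `exists_cur`,
so `a = a M`, `V = V M`. Then `ex (w₂ M)` has charge `V` and by `lam_sol` and `cur_B` the same value.
-/
theorem min_le (hR : 0 ≤ R) (h : GF ν₁ ν₂) (h1 : ν₁ ≠ 0) {V : ℝ} (hV : 0 < V)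
    {f₁ f₂ : C(K R, ℝ)} (hf₁ : Min ν₁ V f₁) (hf₂ : Min ν₂ V f₂) : Lam ν₂ V f₂ ≤ Lam ν₁ V f₁ := by
  obtain ⟨a', V', w₁, w₂, hc⟩ := exists_cur hR h
  obtain ⟨a, w, hw1, hw2, hw3, hw4⟩ := min_fix hR h1 hV hf₁
  set M : ℝ := a + la ν₁ (idc * ex w) with hM
  have htop : w = cst M - op kB ν₁ (ex w) := by
    conv_lhs => rw [hw2, op_kM_eq_B]
    rw [hM, cur_cst_add]
    abel
  have hwM : w = w₁ M := by
    apply sol_inj (volt_B ν₁)
    unfold solTh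
    have e1 : w + op kB ν₁ (ex w) = cst M := by
      nth_rewrite 1 [htop]
      abel
    have e2 : w₁ M + op kB ν₁ (ex (w₁ M)) = cst M := by
      nth_rewrite 1 [hc.top M]
      abel
    rw [e1, e2]
  have hVM : V' M = V := by rw [← hc.V₁ M, ← hwM, hw3]
  have haM : a' M = a := by
    have e1 := hc.eq₁ M
    rw [← hwM] at e1
    have e2 : (cst (a' M) : C(K R, ℝ)) + op kM ν₁ (ex w) = cst a + op kM ν₁ (ex w) :=
      e1.symm.trans hw2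
    have e3 := add_right_cancel e2
    have e4 := congrArg (fun g : C(K R, ℝ) => g ⟨0, le_rfl, hR⟩) e3
    simpa [cst_apply] using e4
  have hm2 : la ν₂ (ex (w₂ M)) = V := by rw [hc.V₂ M, hVM]
  have heq2 : w₂ M = cst a + op kM ν₂ (ex (w₂ M)) := by
    have e1 := hc.eq₂ M
    rwa [haM] at e1
  have hle := hf₂.min (ex (w₂ M)) (fun x => (Real.exp_pos _).le) hm2
  refine hle.trans ?_
  rw [hw4, lam_sol hV heq2 hm2, lam_sol hV hw2 hw3]
  have hB := cur_B hR hc M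
  rw [← hwM] at hB
  rw [hB]

/-- By `trial_le` with `ν = ν₁`, `μ = ν₂`, `g = f₂`: for a minimiser `f₁` of `ν₁` (exists_min)
`Lam ν₁ V f₁ ≤ la ν₂ (f₂ * op kM ν₂ f₂) / 2 - V log la ν₁ (ex (op kM ν₂ f₂))`, and
`Lam ν₂ V f₂ ≤ Lam ν₁ V f₁`. -/
theorem min_ineq (hR : 0 ≤ R) (h : GF ν₁ ν₂) (h1 : ν₁ ≠ 0) (h2 : ν₂ ≠ 0) {V : ℝ} (hV : 0 < V)
    {f₂ : C(K R, ℝ)} (hf₂ : Min ν₂ V f₂) :
    la ν₁ (ex (op kM ν₂ f₂)) ≤ la ν₂ (ex (op kM ν₂ f₂)) := by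
  obtain ⟨f₁, hf₁⟩ := exists_min (ν := ν₁) hR h1 hV
  have e1 := trial_le (μ := ν₂) hR h1 hV hf₁ f₂
  have e2 := min_le hR h h1 hV hf₁ hf₂
  have e3 := e2.trans e1
  unfold Lam at e3
  have e4 : V * Real.log (la ν₁ (ex (op kM ν₂ f₂))) ≤ V * Real.log (la ν₂ (ex (op kM ν₂ f₂))) := by
    linarith
  have e5 := le_of_mul_le_mul_left e4 hV
  exact (Real.log_le_log_iff (la_ex_pos h1 _) (la_ex_pos h2 _)).mp e5

end Pool.Agent.Age
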