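import Pool.Agent.Helper49.Age.Defs2
import Pool.Agent.Helper49.Age.MinEq
import Pool.Agent.Helper49.Age.Conc
import Pool.Agent.Helper49.Age.Layer

/-! The maxima of the supports agree. -/

set_option autoImplicit false

namespace Pool.Agent.Age

open MeasureTheory

variable {R : ℝ} {ν₁ ν₂ : Measure (K R)} [IsFiniteMeasure ν₁] [IsFiniteMeasure ν₂]

theorem topEq_zero {ν : Measure (K R)} {t : ℝ} (ht : R ≤ t) : tn ν t = 0 := by
  have h1 : {u : K R | t < (u : ℝ)} = ∅ := by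
    ext u
    simp only [Set.mem_setOf_eq, Set.mem_empty_iff_false, iff_false, not_lt]
    exact u.2.2.trans ht
  unfold tn
  rw [h1]
  simp

/-- If `tn ν₁ s > 0` with `S < s ≤ R` then for minimisers (exists_min) `f₁`, `f₂`:
`-(V² S)/2 - V log ν₂(K) ≤ Lam ν₂ V f₂ ≤ Lam ν₁ V f₁ ≤ -(V² s)/2 - V log ν₁{s ≤ u}` (lam_ge with
`x = S`, min_le, lam_le): false for large `V`. -/
theorem topEq (hR : 0 ≤ R) (h : GF ν₁ ν₂) (h1 : ν₁ ≠ 0) (h2 : ν₂ ≠ 0) {S : ℝ} (hS0 : 0 ≤ S)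
    (hSR : S ≤ R) (hS : tn ν₂ S = 0) : tn ν₁ S = 0 := by
  by_contra hcon
  have hpos : 0 < tn ν₁ S := lt_of_le_of_ne (tn_nonneg S) (Ne.symm hcon)
  have hev : ∀ᶠ t in nhdsWithin S (Set.Ici S), 0 < tn ν₁ t :=
    (tn_right (ν := ν₁) S).eventually (lt_mem_nhds hpos)
  rw [eventually_nhdsWithin_iff, Metric.eventually_nhds_iff] at hev
  obtain ⟨δ, hδ, hev⟩ := hev
  set s : ℝ := S + δ / 2 with hs
  have hsS : S < s := by rw [hs]; linarith
  have hspos : 0 < tn ν₁ s := by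
    refine hev (y := s) ?_ hsS.le
    rw [Real.dist_eq, hs, add_sub_cancel_left, abs_of_pos (by linarith)]
    linarith
  have hsR : s ≤ R := by
    by_contra hlt
    rw [topEq_zero (not_le.mp hlt).le] at hspos
    exact lt_irrefl _ hspos
  have hs0 : 0 ≤ s := hS0.trans hsS.le
  set s' : K R := ⟨s, hs0, hsR⟩ with hs'
  have hq : 0 < ν₁.real {u : K R | (s' : ℝ) ≤ u} := by
    refine hspos.trans_le (measureReal_mono ?_)
    intro u hu
    change s ≤ (u : ℝ)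
    exact le_of_lt (show s < (u : ℝ) from hu)
  set q : ℝ := ν₁.real {u : K R | (s' : ℝ) ≤ u} with hqdef
  set n : ℝ := ν₂.real Set.univ with hn
  obtain ⟨V, hV1, hV2⟩ : ∃ V : ℝ, 0 < V ∧ Real.log n - Real.log q < V * ((s - S) / 2) := by
    have h3 : Filter.Tendsto (fun V : ℝ => V * ((s - S) / 2)) Filter.atTop Filter.atTop :=
      Filter.tendsto_id.atTop_mul_const (by linarith)
    exact ((Filter.eventually_gt_atTop 0).and (h3.eventually_gt_atTop _)).exists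
  obtain ⟨f₁, hf₁⟩ := exists_min (ν := ν₁) hR h1 hV1
  obtain ⟨f₂, hf₂⟩ := exists_min (ν := ν₂) hR h2 hV1
  have e1 := lam_ge hR h2 hV1 hf₂.nonneg hf₂.mass hS0 hSR hS hS0 le_rfl
  have e2 := min_le hR h h1 hV1 hf₁ hf₂
  have e3 := lam_le hR h1 hV1 hf₁ s' hq
  rw [sub_self, zero_mul, zero_div, add_zero] at e1
  have e4 : -(V ^ 2 * S) / 2 - V * Real.log n ≤ -(V ^ 2 * s) / 2 - V * Real.log q :=
    (e1.trans e2).trans e3
  have e5 : V * (V * ((s - S) / 2)) ≤ V * (Real.log n - Real.log q) := by nlinarith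
  have e6 := le_of_mul_le_mul_left e5 hV1
  linarith

/-- the maximum of the support: `S = sInf {s ∈ [0,R] | tn ν₂ s = 0}` (tn_right: the infimum is
attained); for `ν₁` use `topEq` and `topEq` for `GF.symm` -/
theorem exists_top (hR : 0 ≤ R) (h : GF ν₁ ν₂) (h1 : ν₁ ≠ 0) (h2 : ν₂ ≠ 0)
    (hpos : 0 < tn ν₂ 0) :
    ∃ S, 0 < S ∧ S ≤ R ∧ tn ν₁ S = 0 ∧ tn ν₂ S = 0 ∧ (∀ s, s < S → 0 < tn ν₁ s) ∧
      ∀ s, s < S → 0 < tn ν₂ s := by
  set B : Set ℝ := {s | 0 ≤ s ∧ tn ν₂ s = 0} with hB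
  have hRB : R ∈ B := ⟨hR, topEq_zero le_rfl⟩
  have hbdd : BddBelow B := ⟨0, fun b hb => hb.1⟩
  set S : ℝ := sInf B with hS
  have hS0 : 0 ≤ S := le_csInf ⟨R, hRB⟩ fun b hb => hb.1
  have hSR : S ≤ R := csInf_le hbdd hRB
  have hgt : ∀ t, S < t → tn ν₂ t = 0 := by
    intro t ht
    obtain ⟨b, hb, hbt⟩ := exists_lt_of_csInf_lt ⟨R, hRB⟩ ht
    refine le_antisymm ?_ (tn_nonneg t)
    rw [← hb.2]
    exact tn_anti hbt.le
  have hS2 : tn ν₂ S = 0 := by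
    have e1 : Filter.Tendsto (tn ν₂) (nhdsWithin S (Set.Ioi S)) (nhds (tn ν₂ S)) :=
      (tn_right S).mono_left (nhdsWithin_mono _ Set.Ioi_subset_Ici_self)
    refine tendsto_nhds_unique e1 ((tendsto_const_nhds (x := (0 : ℝ))).congr' ?_)
    filter_upwards [self_mem_nhdsWithin] with s hs
    exact (hgt s hs).symm
  have hp2 : ∀ s, s < S → 0 < tn ν₂ s := by
    intro s hs
    rcases lt_or_ge s 0 with h3 | h3
    · exact hpos.trans_le (tn_anti h3.le)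
    · refine lt_of_le_of_ne (tn_nonneg s) fun h4 => ?_
      exact absurd (csInf_le hbdd (show s ∈ B from ⟨h3, h4.symm⟩)) (not_le.mpr hs)
  have hSpos : 0 < S := by
    rcases hS0.lt_or_eq with h3 | h3
    · exact h3
    · rw [← h3] at hS2
      rw [hS2] at hpos
      exact absurd hpos (lt_irrefl _)
  have hp1' : ∀ s, 0 ≤ s → s < S → 0 < tn ν₁ s := by
    intro s h3 hs
    refine lt_of_le_of_ne (tn_nonneg s) fun h4 => ?_
    have h5 := topEq hR h.symm h2 h1 h3 (hs.le.trans hSR) h4.symm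
    have h6 := hp2 s hs
    rw [h5] at h6
    exact lt_irrefl _ h6
  refine ⟨S, hSpos, hSR, topEq hR h h1 h2 hS0 hSR hS2, hS2, ?_, hp2⟩
  intro s hs
  rcases lt_or_ge s 0 with h3 | h3
  · exact (hp1' 0 le_rfl hSpos).trans_le (tn_anti h3.le)
  · exact hp1' s h3 hs

end Pool.Agent.Age
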