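import Pool.Agent.Helper49.Age.Defs2
import Pool.Agent.Helper49.Age.TopEq
import Pool.Agent.Helper49.Age.Layer

/-! The tails cross infinitely often below the top of the difference. -/

set_option autoImplicit false

namespace Pool.Agent.Age

open MeasureTheory

variable {R : ℝ} {ν₁ ν₂ : Measure (K R)} [IsFiniteMeasure ν₁] [IsFiniteMeasure ν₂]

/-- Suppose `tn ν₂ t₁ < tn ν₁ t₁` for some `t₁ > b`. Then `t₁ < S` (`S` from `exists_top`; if
`tn ν₂ 0 = 0` then ν₂ = 0 above 0 and topEq with S = 0 gives tn ν₁ 0 = 0), and by `tn_right` there are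
`t₁ < t₂ < S`, `h > 0` with `tn ν₁ - tn ν₂ ≥ h` on `[t₁, t₂]`. For large `V` (conc with `x = t₂`) the
minimiser `f` of `ν₂` has `tl ν₂ f t₂ ≥ V/2`; by `min_ineq` and `layer` (`μ = ν₂`)
`0 ≥ ν₁(K) - ν₂(K) + ∫_0^R φ' (tn ν₁ - tn ν₂) ≥ -1 - (φ b - φ 0) + h (φ t₂ - φ t₁)`
`≥ - φ b + h φ(t₁) (e^{(t₂ - t₁) V / 2} - 1)`, and `φ b ≤ φ t₁`: false for large `V`. -/
theorem osc (hR : 0 ≤ R) (h : GF ν₁ ν₂) (h1 : ν₁ ≠ 0) (h2 : ν₂ ≠ 0) (hn1 : ν₁.real Set.univ ≤ 1)
    (hn2 : ν₂.real Set.univ ≤ 1) {b : ℝ} (hb : 0 ≤ b) (hH : ∀ t, b < t → tn ν₂ t ≤ tn ν₁ t) :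
    ∀ t, b < t → tn ν₁ t = tn ν₂ t := by
  by_contra hcon
  push Not at hcon
  obtain ⟨t₁, hbt, hne⟩ := hcon
  have hlt : tn ν₂ t₁ < tn ν₁ t₁ := lt_of_le_of_ne (hH t₁ hbt) (Ne.symm hne)
  have ht0 : 0 ≤ t₁ := hb.trans hbt.le
  have hpos1 : 0 < tn ν₁ t₁ := (tn_nonneg t₁).trans_lt hlt
  -- the top
  have hpos2 : 0 < tn ν₂ 0 := by
    rcases (tn_nonneg (ν := ν₂) 0).lt_or_eq with h3 | h3
    · exact h3
    · exfalso
      have h4 := topEq hR h h1 h2 le_rfl hR h3.symm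
      have h5 := tn_anti (ν := ν₁) ht0
      linarith
  obtain ⟨S, hS0, hSR, hS1, hS2, hp1, hp2⟩ := exists_top hR h h1 h2 hpos2
  have ht1S : t₁ < S := by
    by_contra hge
    have h5 := tn_anti (ν := ν₁) (not_lt.mp hge)
    linarith
  -- right continuity
  have hcont : ContinuousWithinAt (fun t => tn ν₁ t - tn ν₂ t) (Set.Ici t₁) t₁ :=
    (tn_right t₁).sub (tn_right t₁)
  set η : ℝ := (tn ν₁ t₁ - tn ν₂ t₁) / 2 with hη
  have hηpos : 0 < η := by rw [hη]; linarith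
  have hev : ∀ᶠ t in nhdsWithin t₁ (Set.Ici t₁), η < tn ν₁ t - tn ν₂ t :=
    hcont.eventually (lt_mem_nhds (by rw [hη]; linarith))
  rw [eventually_nhdsWithin_iff, Metric.eventually_nhds_iff] at hev
  obtain ⟨δ, hδ, hev⟩ := hev
  obtain ⟨t₂, ht12, ht2⟩ := exists_between (show t₁ < min S (t₁ + δ) from lt_min ht1S (by linarith))
  have ht2S : t₂ < S := ht2.trans_le (min_le_left _ _)
  have ht2δ : t₂ < t₁ + δ := ht2.trans_le (min_le_right _ _)
  have ht20 : 0 ≤ t₂ := ht0.trans ht12.le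
  have hη12 : ∀ t, t₁ ≤ t → t ≤ t₂ → η ≤ tn ν₁ t - tn ν₂ t := by
    intro t h3 h4
    refine (hev (y := t) ?_ h3).le
    rw [Real.dist_eq, abs_lt]
    constructor <;> linarith
  obtain ⟨V₀, hV₀, hconc⟩ := conc hR h2 hS0.le hSR hS2 hp2 ht20 ht2S
  -- large V
  obtain ⟨V, hV1, hV2⟩ : ∃ V, V₀ ≤ V ∧ 1 < η * (Real.exp ((t₂ - t₁) * (V / 2)) - 1) := by
    have h3 : Filter.Tendsto (fun V : ℝ => η * (Real.exp ((t₂ - t₁) * (V / 2)) - 1)) Filter.atTop
        Filter.atTop := by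
      refine Filter.Tendsto.const_mul_atTop hηpos ?_
      refine Filter.tendsto_atTop_add_const_right _ _ ?_
      refine Real.tendsto_exp_atTop.comp ?_
      refine Filter.Tendsto.const_mul_atTop (by linarith) ?_
      exact Filter.tendsto_id.atTop_div_const (by norm_num)
    exact ((Filter.eventually_ge_atTop V₀).and (h3.eventually_gt_atTop 1)).exists
  have hV : 0 < V := hV₀.trans_le hV1
  obtain ⟨f, hf⟩ := exists_min (ν := ν₂) hR h2 hV
  have hm := hconc V hV1 f hf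
  have hineq := min_ineq hR h h1 h2 hV hf
  obtain ⟨φ, φ', hφ'0, hφ'm, ⟨C, hC⟩, hφ0, hφpos, hint, hgrow, hlay⟩ := layer (μ := ν₂) hR f hf.nonneg
  rw [hlay ν₁, hlay ν₂] at hineq
  have hbR : b ≤ R := (hbt.trans ht1S).le.trans hSR
  have ht1R : t₁ ≤ R := ht1S.le.trans hSR
  have ht2R : t₂ ≤ R := ht2S.le.trans hSR
  -- integrability
  have hii : ∀ (g : ℝ → ℝ) (Cg : ℝ), Measurable g → (∀ t, |g t| ≤ Cg) → ∀ x y, 0 ≤ x → x ≤ R →
      0 ≤ y → y ≤ R → IntervalIntegrable (fun t => φ' t * g t) volume x y := by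
    intro g Cg hg hgb x y hx0 hxR hy0 hyR
    rw [intervalIntegrable_iff]
    have hfin : volume (Set.uIoc x y) < ⊤ := by
      rw [Set.uIoc, Real.volume_Ioc]; exact ENNReal.ofReal_lt_top
    refine Measure.integrableOn_of_bounded (M := |C| * |Cg|) hfin.ne
      (hφ'm.mul hg).aestronglyMeasurable ?_
    rw [ae_restrict_iff' measurableSet_uIoc]
    refine Filter.Eventually.of_forall fun t ht => ?_
    have ht' : t ∈ Set.Icc 0 R := by
      rw [Set.uIoc, Set.mem_Ioc] at ht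
      exact ⟨(le_min hx0 hy0).trans ht.1.le, ht.2.trans (max_le hxR hyR)⟩
    rw [norm_mul, Real.norm_eq_abs, Real.norm_eq_abs]
    have h3 : |φ' t| ≤ |C| := by
      rw [abs_of_nonneg (hφ'0 t)]
      exact (hC t ht').trans (le_abs_self _)
    exact mul_le_mul h3 ((hgb t).trans (le_abs_self _)) (abs_nonneg _) (abs_nonneg _)
  have hmt : ∀ (ν : Measure (K R)) [IsFiniteMeasure ν], Measurable (tn ν) := fun ν _ =>
    (tn_anti (ν := ν)).measurable
  have htb : ∀ (ν : Measure (K R)) [IsFiniteMeasure ν], ν.real Set.univ ≤ 1 → ∀ t, |tn ν t| ≤ 1 := by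
    intro ν _ hν t
    rw [abs_of_nonneg (tn_nonneg t)]
    exact (measureReal_mono (Set.subset_univ _)).trans hν
  set D : ℝ → ℝ := fun t => tn ν₁ t - tn ν₂ t with hD
  have hDm : Measurable D := (hmt ν₁).sub (hmt ν₂)
  have hDb : ∀ t, |D t| ≤ 1 := by
    intro t
    have h3 := tn_nonneg (ν := ν₁) t
    have h4 := tn_nonneg (ν := ν₂) t
    have h5 := htb ν₁ hn1 t
    have h6 := htb ν₂ hn2 t
    rw [abs_of_nonneg h3] at h5
    rw [abs_of_nonneg h4] at h6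
    rw [hD, abs_le]
    constructor
    · change -1 ≤ tn ν₁ t - tn ν₂ t; linarith
    · change tn ν₁ t - tn ν₂ t ≤ 1; linarith
  have hDint : ∀ x y, 0 ≤ x → x ≤ R → 0 ≤ y → y ≤ R →
      IntervalIntegrable (fun t => φ' t * D t) volume x y := hii D 1 hDm hDb
  have h1int : ∀ x y, 0 ≤ x → x ≤ R → 0 ≤ y → y ≤ R →
      IntervalIntegrable φ' volume x y := by
    intro x y hx hx' hy hy'
    have := hii (fun _ => 1) 1 measurable_const (fun _ => by simp) x y hx hx' hy hy'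
    simpa using this
  have hsub : ∫ t in (0 : ℝ)..R, φ' t * D t =
      (∫ t in (0 : ℝ)..R, φ' t * tn ν₁ t) - ∫ t in (0 : ℝ)..R, φ' t * tn ν₂ t := by
    rw [← intervalIntegral.integral_sub]
    · refine intervalIntegral.integral_congr fun t _ => ?_
      change φ' t * (tn ν₁ t - tn ν₂ t) = φ' t * tn ν₁ t - φ' t * tn ν₂ t
      ring
    · exact hii _ 1 (hmt ν₁) (htb ν₁ hn1) 0 R le_rfl hR hR le_rfl
    · exact hii _ 1 (hmt ν₂) (htb ν₂ hn2) 0 R le_rfl hR hR le_rfl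
  -- the pieces
  have hp0 : -(φ b - 1) ≤ ∫ t in (0 : ℝ)..b, φ' t * D t := by
    have h3 : ∫ t in (0 : ℝ)..b, -φ' t = -(φ b - 1) := by
      rw [intervalIntegral.integral_neg, hint 0 b le_rfl hb hbR, hφ0]
    rw [← h3]
    refine intervalIntegral.integral_mono_on hb (h1int 0 b le_rfl hR hb hbR).neg
      (hDint 0 b le_rfl hR hb hbR) fun t _ => ?_
    have h4 := (abs_le.mp (hDb t)).1
    nlinarith [hφ'0 t]
  have hDnn : ∀ t, b < t → 0 ≤ D t := fun t ht => by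
    change 0 ≤ tn ν₁ t - tn ν₂ t
    linarith [hH t ht]
  have hp1' : 0 ≤ ∫ t in b..t₁, φ' t * D t := by
    rw [intervalIntegral.integral_of_le hbt.le]
    refine setIntegral_nonneg measurableSet_Ioc fun t ht => ?_
    exact mul_nonneg (hφ'0 t) (hDnn t ht.1)
  have hp3 : 0 ≤ ∫ t in t₂..R, φ' t * D t := by
    rw [intervalIntegral.integral_of_le ht2R]
    refine setIntegral_nonneg measurableSet_Ioc fun t ht => ?_
    exact mul_nonneg (hφ'0 t) (hDnn t ((hbt.trans ht12).trans ht.1))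
  have hp2' : η * (φ t₂ - φ t₁) ≤ ∫ t in t₁..t₂, φ' t * D t := by
    rw [← hint t₁ t₂ ht0 ht12.le ht2R, ← intervalIntegral.integral_const_mul]
    refine intervalIntegral.integral_mono_on ht12.le ((h1int t₁ t₂ ht0 ht1R ht20 ht2R).const_mul η)
      (hDint t₁ t₂ ht0 ht1R ht20 ht2R) fun t ht => ?_
    have h4 := hη12 t ht.1 ht.2
    rw [mul_comm]
    exact mul_le_mul_of_nonneg_left h4 (hφ'0 t)
  have hsplit : ∫ t in (0 : ℝ)..R, φ' t * D t =
      (∫ t in (0 : ℝ)..b, φ' t * D t) + (∫ t in b..t₁, φ' t * D t) +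
        (∫ t in t₁..t₂, φ' t * D t) + ∫ t in t₂..R, φ' t * D t := by
    rw [intervalIntegral.integral_add_adjacent_intervals (hDint 0 b le_rfl hR hb hbR)
      (hDint b t₁ hb hbR ht0 ht1R),
      intervalIntegral.integral_add_adjacent_intervals (hDint 0 t₁ le_rfl hR ht0 ht1R)
      (hDint t₁ t₂ ht0 ht1R ht20 ht2R),
      intervalIntegral.integral_add_adjacent_intervals (hDint 0 t₂ le_rfl hR ht20 ht2R)
      (hDint t₂ R ht20 ht2R hR le_rfl)]
  have hg1 : φ t₁ * Real.exp ((t₂ - t₁) * (V / 2)) ≤ φ t₂ := by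
    refine le_trans ?_ (hgrow t₁ t₂ ht0 ht12.le ht2R)
    refine mul_le_mul_of_nonneg_left ?_ (hφpos t₁).le
    exact Real.exp_le_exp.mpr (mul_le_mul_of_nonneg_left hm (by linarith))
  have hg2 : φ b ≤ φ t₁ := by
    have h3 := hint b t₁ hb hbt.le ht1R
    have h4 : 0 ≤ ∫ t in b..t₁, φ' t := intervalIntegral.integral_nonneg hbt.le fun t _ => hφ'0 t
    linarith
  have hu1 : 0 ≤ ν₁.real Set.univ := measureReal_nonneg
  have hfin : φ b < η * (φ t₂ - φ t₁) := by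
    have h3 : φ t₁ * 1 < φ t₁ * (η * (Real.exp ((t₂ - t₁) * (V / 2)) - 1)) :=
      mul_lt_mul_of_pos_left hV2 (hφpos t₁)
    have h4 : η * (φ t₁ * Real.exp ((t₂ - t₁) * (V / 2)) - φ t₁) ≤ η * (φ t₂ - φ t₁) :=
      mul_le_mul_of_nonneg_left (by linarith) hηpos.le
    nlinarith
  linarith

end Pool.Agent.Age
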