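import Pool.Agent.Helper49.Age.Main
import Pool.Agent.Helper49.Age.Osc
import Pool.Agent.Helper49.Age.NTail
import Pool.Agent.Helper49.Age.NuEq

/-! The theorem, second form. -/

set_option autoImplicit false

namespace Pool.Agent.Age

open MeasureTheory

/-- If two measures with bounded support have the same cluster size law and differ, then the
difference of the functions `N` oscillates below its top. -/
theorem main_osc (π π' : Measure ℝ) [IsProbabilityMeasure π] [IsProbabilityMeasure π']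
    (h0 : π (Set.Iio 0) = 0) (h0' : π' (Set.Iio 0) = 0) (R : ℝ) (hRπ : π (Set.Ioi R) = 0)
    (hRπ' : π' (Set.Ioi R) = 0) (h : ∀ k, v π k = v π' k) (hne : π ≠ π') :
    ∃ x > 0, (∀ t, x ≤ t → N π t = N π' t) ∧ ∀ ε > 0,
      (∃ t, x - ε < t ∧ t < x ∧ N π t < N π' t) ∧ ∃ t, x - ε < t ∧ t < x ∧ N π' t < N π t := by
  have hR : 0 ≤ R := by
    by_contra hlt
    have hlt' : R < 0 := not_le.mp hlt
    have h1 : π Set.univ = 0 := by
      have h2 : (Set.univ : Set ℝ) ⊆ Set.Iio 0 ∪ Set.Ioi R := fun x _ => by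
        rcases lt_or_ge x 0 with hx | hx
        · exact Or.inl hx
        · exact Or.inr (lt_of_lt_of_le hlt' hx)
      exact le_antisymm ((measure_mono h2).trans ((measure_union_le _ _).trans (by rw [h0, hRπ]; simp)))
        bot_le
    rw [measure_univ] at h1
    exact one_ne_zero h1
  have hgf : GF (nuK R π) (nuK R π') := by
    intro z hz0 hz1
    obtain ⟨w₁, h1, h2⟩ := gf_exists R π h0 hRπ z hz0 hz1
    obtain ⟨w₂, h3, h4⟩ := gf_exists R π' h0' hRπ' z hz0 hz1
    refine ⟨w₁, w₂, h1, h3, ?_⟩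
    rw [h2, h4]
    simp only [h]
  have hu1 := nuK_univ (R := R) π h0 hRπ
  have hu2 := nuK_univ (R := R) π' h0' hRπ'
  have hn1 : nuK R π ≠ 0 := by
    intro h1
    have h2 := v_one_pos π h0
    rw [← hu1, h1] at h2
    simp at h2
  have hn2 : nuK R π' ≠ 0 := by
    intro h1
    have h2 := v_one_pos π' h0'
    rw [← hu2, h1] at h2
    simp at h2
  have hle1 : (nuK R π).real Set.univ ≤ 1 := by
    have h1 := nuK_le_one R π h0
    exact ENNReal.toReal_le_of_le_ofReal zero_le_one (by simpa using h1)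
  have hle2 : (nuK R π').real Set.univ ≤ 1 := by
    have h1 := nuK_le_one R π' h0'
    exact ENNReal.toReal_le_of_le_ofReal zero_le_one (by simpa using h1)
  have ht1 : ∀ t, 0 ≤ t → tn (nuK R π) t = N π t := fun t ht => tn_nuK π h0 hR hRπ t ht
  have ht2 : ∀ t, 0 ≤ t → tn (nuK R π') t = N π' t := fun t ht => tn_nuK π' h0' hR hRπ' t ht
  set B : Set ℝ := {b | 0 ≤ b ∧ ∀ t, b < t → tn (nuK R π) t = tn (nuK R π') t} with hB
  have hRB : R ∈ B := by
    refine ⟨hR, fun t ht => ?_⟩
    have h1 : {u : K R | t < (u : ℝ)} = ∅ := by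
      ext u
      simp only [Set.mem_setOf_eq, Set.mem_empty_iff_false, iff_false, not_lt]
      exact u.2.2.trans ht.le
    unfold tn
    rw [h1]
    simp
  have hbdd : BddBelow B := ⟨0, fun b hb => hb.1⟩
  set x : ℝ := sInf B with hx
  have hx0 : 0 ≤ x := le_csInf ⟨R, hRB⟩ fun b hb => hb.1
  have hgt : ∀ t, x < t → tn (nuK R π) t = tn (nuK R π') t := by
    intro t ht
    obtain ⟨b, hb, hbt⟩ := exists_lt_of_csInf_lt ⟨R, hRB⟩ ht
    exact hb.2 t hbt
  have hge : ∀ t, x ≤ t → tn (nuK R π) t = tn (nuK R π') t := by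
    intro t ht
    have h1 : Filter.Tendsto (tn (nuK R π)) (nhdsWithin t (Set.Ioi t))
        (nhds (tn (nuK R π) t)) := (tn_right t).mono_left (nhdsWithin_mono _ Set.Ioi_subset_Ici_self)
    have h2 : Filter.Tendsto (tn (nuK R π')) (nhdsWithin t (Set.Ioi t))
        (nhds (tn (nuK R π') t)) := (tn_right t).mono_left (nhdsWithin_mono _ Set.Ioi_subset_Ici_self)
    refine tendsto_nhds_unique h1 (h2.congr' ?_)
    filter_upwards [self_mem_nhdsWithin] with s hs
    exact (hgt s (ht.trans_lt hs)).symm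
  have hxpos : 0 < x := by
    rcases hx0.lt_or_eq with h1 | h1
    · exact h1
    · exfalso
      apply hne
      have h2 : nuK R π = nuK R π' := nu_eq_of_tn (fun t ht => hge t (by rw [← h1]; exact ht))
        (by rw [hu1, hu2, h 1])
      exact nuK_inj R π π' h0 h0' hRπ hRπ' h2
  refine ⟨x, hxpos, fun t ht => ?_, fun ε hε => ⟨?_, ?_⟩⟩
  · rw [← ht1 t (hx0.trans ht), ← ht2 t (hx0.trans ht)]
    exact hge t ht
  · by_contra hcon
    push Not at hcon
    have hb0 : 0 ≤ max 0 (x - ε) := le_max_left _ _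
    have hbx : max 0 (x - ε) < x := max_lt hxpos (by linarith)
    have h3 := osc hR hgf hn1 hn2 hle1 hle2 hb0 (fun t ht => by
      rcases lt_or_ge t x with h4 | h4
      · have h5 : 0 ≤ t := hb0.trans ht.le
        rw [ht1 t h5, ht2 t h5]
        exact hcon t ((le_max_right _ _).trans_lt ht) h4
      · exact (hge t h4).ge)
    have h4 : max 0 (x - ε) ∈ B := ⟨hb0, h3⟩
    exact absurd (csInf_le hbdd h4) (not_le.mpr hbx)
  · by_contra hcon
    push Not at hcon
    have hb0 : 0 ≤ max 0 (x - ε) := le_max_left _ _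
    have hbx : max 0 (x - ε) < x := max_lt hxpos (by linarith)
    have h3 := osc hR hgf.symm hn2 hn1 hle2 hle1 hb0 (fun t ht => by
      rcases lt_or_ge t x with h4 | h4
      · have h5 : 0 ≤ t := hb0.trans ht.le
        rw [ht1 t h5, ht2 t h5]
        exact hcon t ((le_max_right _ _).trans_lt ht) h4
      · exact (hge t h4).le)
    have h4 : max 0 (x - ε) ∈ B := ⟨hb0, fun t ht => (h3 t ht).symm⟩
    exact absurd (csInf_le hbdd h4) (not_le.mpr hbx)

/-- left analytic distribution functions -/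
theorem main_analytic (π π' : Measure ℝ) [IsProbabilityMeasure π] [IsProbabilityMeasure π']
    (h0 : π (Set.Iio 0) = 0) (h0' : π' (Set.Iio 0) = 0) (R : ℝ) (hRπ : π (Set.Ioi R) = 0)
    (hRπ' : π' (Set.Ioi R) = 0) (h : ∀ k, v π k = v π' k)
    (hA : LeftAnalytic (fun t => π.real (Set.Ioi t)))
    (hA' : LeftAnalytic (fun t => π'.real (Set.Ioi t))) : π = π' := by
  by_contra hne
  obtain ⟨x, hx, -, hosc⟩ := main_osc π π' h0 h0' R hRπ hRπ' h hne
  have hR : 0 ≤ max R 0 := le_max_right _ _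
  have hR1 : π (Set.Ioi (max R 0)) = 0 :=
    measure_mono_null (Set.Ioi_subset_Ioi (le_max_left _ _)) hRπ
  have hR2 : π' (Set.Ioi (max R 0)) = 0 :=
    measure_mono_null (Set.Ioi_subset_Ioi (le_max_left _ _)) hRπ'
  have h1 := leftAnalytic_sub (N_leftAnalytic π h0 hR hR1 hA) (N_leftAnalytic π' h0' hR hR2 hA')
  obtain ⟨ε, hε, h2 | h2⟩ := leftAnalytic_sign h1 hx
  · obtain ⟨⟨t, h3, h4, h5⟩, -⟩ := hosc ε hε
    have := h2 t h3 h4
    linarith
  · obtain ⟨-, t, h3, h4, h5⟩ := hosc ε hε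
    have := h2 t h3 h4
    linarith

end Pool.Agent.Age
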