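import Pool.Agent.Helper49.Age.Main2
import Pool.Agent.Helper49.Age.Local

/-! The theorem, third form. -/

set_option autoImplicit false

namespace Pool.Agent.Age

open MeasureTheory

/-- Two different measures of bounded support with the same cluster size law: the difference of the
functions `N` oscillates below its top, where the distribution functions are not both left
analytic. -/
theorem main_local (π π' : Measure ℝ) [IsProbabilityMeasure π] [IsProbabilityMeasure π']
    (h0 : π (Set.Iio 0) = 0) (h0' : π' (Set.Iio 0) = 0) (R : ℝ) (hRπ : π (Set.Ioi R) = 0)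
    (hRπ' : π' (Set.Ioi R) = 0) (h : ∀ k, v π k = v π' k) (hne : π ≠ π') :
    ∃ x > 0, ¬ (LeftAnalyticAt (fun t => π.real (Set.Ioi t)) x ∧
        LeftAnalyticAt (fun t => π'.real (Set.Ioi t)) x) ∧
      (∀ t, x ≤ t → N π t = N π' t) ∧ ∀ ε > 0,
        (∃ t, x - ε < t ∧ t < x ∧ N π t < N π' t) ∧ ∃ t, x - ε < t ∧ t < x ∧ N π' t < N π t := by
  obtain ⟨x, hx, htop, hosc⟩ := main_osc π π' h0 h0' R hRπ hRπ' h hne
  refine ⟨x, hx, ?_, htop, hosc⟩
  rintro ⟨hA, hA'⟩
  have hR : 0 ≤ max R 0 := le_max_right _ _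
  have hR1 : π (Set.Ioi (max R 0)) = 0 :=
    measure_mono_null (Set.Ioi_subset_Ioi (le_max_left _ _)) hRπ
  have hR2 : π' (Set.Ioi (max R 0)) = 0 :=
    measure_mono_null (Set.Ioi_subset_Ioi (le_max_left _ _)) hRπ'
  have h1 := lat_sub (N_lat π h0 hR hR1 hx hA) (N_lat π' h0' hR hR2 hx hA')
  obtain ⟨ε, hε, h2 | h2⟩ := lat_sign h1
  · obtain ⟨⟨t, h3, h4, h5⟩, -⟩ := hosc ε hε
    have := h2 t h3 h4
    linarith
  · obtain ⟨-, t, h3, h4, h5⟩ := hosc ε hε
    have := h2 t h3 h4
    linarith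

end Pool.Agent.Age
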